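import Mathlib

-- part Pool.Agent.P.MP_cb6780_lc.Core
section

set_option autoImplicit false

/-! Boolean functions on a finite `F_2`-space: derivatives, degree filtration, bias. -/

namespace Pool.Agent.P.MP_cb6780_lc

open Module

abbrev F := ZMod 2

section
variable {V : Type} [AddCommGroup V]

/-- additive derivative in direction `y` -/
def D (y : V) : (V → F) →ₗ[F] (V → F) where
  toFun f := fun x => f (x + y) + f x
  map_add' f g := by funext x; simp only [Pi.add_apply]; ring
  map_smul' a f := by funext x; simp only [Pi.smul_apply, smul_eq_mul, RingHom.id_apply]; ring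

theorem D_apply (y : V) (f : V → F) (x : V) : D y f x = f (x + y) + f x := rfl

/-- `P V d` = functions of degree `< d` (so `RM(r) = P V (r+1)`) -/
def P (V : Type) [AddCommGroup V] : ℕ → Submodule F (V → F)
  | 0 => ⊥
  | d + 1 => ⨅ y : V, (P V d).comap (D y)

theorem P_realize : True := by have := @P.eq_def; trivial

theorem mem_P_zero {f : V → F} : f ∈ P V 0 ↔ f = 0 := by simp [P]

theorem mem_P_succ {d : ℕ} {f : V → F} : f ∈ P V (d + 1) ↔ ∀ y, D y f ∈ P V d := by
  simp [P, Submodule.mem_iInf]

end

/-- the sign character of `F_2` -/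
noncomputable def chi (a : F) : ℝ := if a = 0 then 1 else -1

/-- average over a finite type -/
noncomputable def av {V : Type} (g : V → ℝ) : ℝ := (∑ᶠ x, g x) / Nat.card V

/-- bias of a Boolean function -/
noncomputable def bias {V : Type} (f : V → F) : ℝ := av fun x => chi (f x)

theorem av_eq {V : Type} [Fintype V] (g : V → ℝ) : av g = (∑ x, g x) / Fintype.card V := by
  rw [av, finsum_eq_sum_of_fintype, Nat.card_eq_fintype_card]

section
variable {V : Type} [AddCommGroup V] [Module F V]

/-- restriction to the coset `a + U`, as a function on `U` -/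
def res (U : Submodule F V) (a : V) : (V → F) →ₗ[F] (U → F) where
  toFun f := fun u => f (u + a)
  map_add' _ _ := rfl
  map_smul' _ _ := rfl

theorem res_apply (U : Submodule F V) (a : V) (f : V → F) (u : U) : res U a f u = f (u + a) := rfl

open Classical in
/-- indicator of the coset `p + Z` -/
noncomputable def ind (Z : Submodule F V) (p : V) : V → F := fun x => if x + p ∈ Z then 1 else 0

/-- functions that are `η`-biased after adding a function of degree `< d` -/
def T (V : Type) [AddCommGroup V] (d : ℕ) (η : ℝ) : Set (V → F) :=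
  {p | ∃ p' ∈ P V d, η ≤ |bias (p + p')|}

/-- directions with a cheap derivative -/
def S (d : ℕ) (η : ℝ) (f : V → F) : Set V := {y | D y f ∈ T V d η}

/-- the span of the directions with a cheap derivative -/
def U (d : ℕ) (η : ℝ) (f : V → F) : Submodule F V := Submodule.span F (S d η f)

/-- number of subspaces of codimension `c` -/
noncomputable def G (V : Type) [AddCommGroup V] [Module F V] (c : ℕ) : ℕ :=
  {W : Submodule F V | finrank F W + c = finrank F V}.ncard

end

/-- number of functions of degree `< d` and bias at least `θ` -/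
noncomputable def N (V : Type) [AddCommGroup V] (d : ℕ) (θ : ℝ) : ℕ :=
  {f : V → F | f ∈ P V d ∧ θ ≤ bias f}.ncard

/-- the same for the standard space of dimension `n` -/
noncomputable def Nn (n d : ℕ) (θ : ℝ) : ℕ := N (Fin n → F) d θ

/-- number of functions of degree `< d` in `n` variables -/
def cP (n d : ℕ) : ℕ := 2 ^ ∑ i ∈ Finset.range d, n.choose i

end Pool.Agent.P.MP_cb6780_lc
end

-- part Pool.Agent.P.MP_cb6780_lc.Av
section

set_option autoImplicit false

/-! Basic facts on `D`, `P`, `av`, `bias`. -/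

namespace Pool.Agent.P.MP_cb6780_lc

open Module

theorem Av_cases (a : F) : a = 0 ∨ a = 1 := by revert a; decide

theorem chi_zero : chi 0 = 1 := by simp [chi]
theorem chi_one : chi 1 = -1 := by simp [chi]
theorem chi_add (a b : F) : chi (a + b) = chi a * chi b := by
  have h : (1 : F) + 1 = 0 := by decide
  rcases Av_cases a with rfl | rfl <;> rcases Av_cases b with rfl | rfl <;>
    simp [h, chi_zero, chi_one]
theorem chi_sq (a : F) : chi a * chi a = 1 := by
  rcases Av_cases a with rfl | rfl <;> simp [chi_zero, chi_one]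
theorem abs_chi (a : F) : |chi a| = 1 := by
  rcases Av_cases a with rfl | rfl <;> simp [chi_zero, chi_one]

section av
variable {V W : Type}
theorem av_congr (e : V ≃ W) (g : W → ℝ) : av (fun x => g (e x)) = av g := by
  unfold av
  rw [finsum_comp_equiv e, Nat.card_congr e]
theorem av_const [Finite V] [Nonempty V] (c : ℝ) : av (fun _ : V => c) = c := by
  have := Fintype.ofFinite V
  have h : (Fintype.card V : ℝ) ≠ 0 := by exact_mod_cast Fintype.card_ne_zero
  rw [av_eq, Finset.sum_const, Finset.card_univ, nsmul_eq_mul]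
  field_simp
theorem av_add [Finite V] (g h : V → ℝ) : av (fun x => g x + h x) = av g + av h := by
  have := Fintype.ofFinite V
  simp only [av_eq, Finset.sum_add_distrib, add_div]
theorem av_mul_left [Finite V] (c : ℝ) (g : V → ℝ) : av (fun x => c * g x) = c * av g := by
  have := Fintype.ofFinite V
  simp only [av_eq, ← Finset.mul_sum, mul_div_assoc]
theorem av_mono [Finite V] {g h : V → ℝ} (H : ∀ x, g x ≤ h x) : av g ≤ av h := by
  have := Fintype.ofFinite V
  simp only [av_eq]
  exact div_le_div_of_nonneg_right (Finset.sum_le_sum fun x _ => H x) (Nat.cast_nonneg _)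
theorem av_comm [Finite V] [Finite W] (g : V → W → ℝ) :
    av (fun x => av fun y => g x y) = av fun y => av fun x => g x y := by
  have := Fintype.ofFinite V
  have := Fintype.ofFinite W
  simp only [av_eq, ← Finset.sum_div]
  rw [Finset.sum_comm, div_div, div_div, mul_comm]
theorem av_prod [Finite V] [Finite W] (g : V × W → ℝ) :
    av g = av fun x => av fun y => g (x, y) := by
  have := Fintype.ofFinite V
  have := Fintype.ofFinite W
  simp only [av_eq, ← Finset.sum_div]
  rw [Fintype.sum_prod_type, Fintype.card_prod, div_div, mul_comm]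
  push_cast
  rfl
theorem abs_av_le [Finite V] (g : V → ℝ) : |av g| ≤ av fun x => |g x| := by
  have := Fintype.ofFinite V
  simp only [av_eq]
  rw [abs_div, Nat.abs_cast]
  exact div_le_div_of_nonneg_right (Finset.abs_sum_le_sum_abs _ _) (Nat.cast_nonneg _)
theorem sq_av_le [Finite V] (g : V → ℝ) : av g ^ 2 ≤ av fun x => g x ^ 2 := by
  have := Fintype.ofFinite V
  simp only [av_eq]
  simpa only [Finset.card_univ] using sum_div_card_sq_le_sum_sq_div_card (s := Finset.univ) (f := g)
theorem exists_av_le [Finite V] [Nonempty V] (g : V → ℝ) : ∃ x, av g ≤ g x := by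
  obtain ⟨x, hx⟩ := Finite.exists_max g
  exact ⟨x, (av_mono hx).trans (av_const _).le⟩
theorem exists_le_av [Finite V] [Nonempty V] (g : V → ℝ) : ∃ x, g x ≤ av g := by
  obtain ⟨x, hx⟩ := Finite.exists_min g
  exact ⟨x, (av_const (V := V) _).ge.trans (av_mono hx)⟩
theorem av_indicator [Finite V] (A : Set V) :
    av (A.indicator fun _ => (1 : ℝ)) = A.ncard / Nat.card V := by
  classical
  have := Fintype.ofFinite V
  rw [av_eq, Nat.card_eq_fintype_card, Set.ncard_eq_toFinset_card' A]
  refine congrArg (fun r : ℝ => r / (Fintype.card V : ℝ)) ?_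
  simp [Set.indicator_apply]
theorem abs_bias_le [Finite V] (f : V → F) : |bias f| ≤ 1 := by
  refine (abs_av_le _).trans ?_
  simp only [abs_chi]
  rcases isEmpty_or_nonempty V with h | h
  · simp [av]
  · exact (av_const _).le
theorem bias_zero [Finite V] [Nonempty V] : bias (0 : V → F) = 1 := by
  unfold bias
  simp only [Pi.zero_apply, chi_zero]
  exact av_const _
theorem bias_add_one [Finite V] (f : V → F) : bias (f + 1) = -bias f := by
  unfold bias
  rw [neg_eq_neg_one_mul, ← av_mul_left]
  simp only [Pi.add_apply, Pi.one_apply, chi_add, chi_one, mul_comm]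
/-- bias and weight -/
theorem bias_eq_wt [Finite V] [Nonempty V] (f : V → F) :
    bias f = 1 - 2 * ({x | f x ≠ 0}.ncard : ℝ) / Nat.card V := by
  have h : (fun x => chi (f x)) =
      fun x => 1 + (-2) * ({x | f x ≠ 0}.indicator fun _ => (1 : ℝ)) x := by
    funext x
    by_cases hx : f x = 0
    · simp [chi, hx]
    · simp [chi, hx]; norm_num
  unfold bias
  rw [h, av_add, av_const, av_mul_left, av_indicator]
  ring
theorem eq_zero_of_bias [Finite V] {f : V → F} (h : bias f = 1) : f = 0 := by
  funext x
  have : Nonempty V := ⟨x⟩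
  rw [bias_eq_wt] at h
  have h1 : (Nat.card V : ℝ) ≠ 0 := by exact_mod_cast Nat.card_pos.ne'
  have h2 : 2 * ({x | f x ≠ 0}.ncard : ℝ) / Nat.card V = 0 := by linarith
  rw [div_eq_zero_iff] at h2
  have h3 : {x | f x ≠ 0}.ncard = 0 := by
    rcases h2 with h2 | h2
    · have : ({x | f x ≠ 0}.ncard : ℝ) = 0 := by linarith
      exact_mod_cast this
    · exact absurd h2 h1
  rw [Set.ncard_eq_zero] at h3
  by_contra hx
  have : x ∈ {x | f x ≠ 0} := hx
  rw [h3] at this
  exact this
/-- subadditivity of the weight -/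
theorem bias_add_ge [Finite V] (f g : V → F) : bias f + bias g - 1 ≤ bias (f + g) := by
  rcases isEmpty_or_nonempty V with h | h
  · simp [bias, av]
  · unfold bias
    have h1 : av (fun x => chi (f x) + chi (g x)) ≤ av fun x => chi ((f + g) x) + 1 := by
      refine av_mono fun x => ?_
      rw [Pi.add_apply, chi_add]
      rcases Av_cases (f x) with h1 | h1 <;> rcases Av_cases (g x) with h2 | h2 <;>
        rw [h1, h2] <;> simp only [chi_zero, chi_one] <;> norm_num
    rw [av_add, av_add, av_const] at h1
    linarith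
end av

end Pool.Agent.P.MP_cb6780_lc
end

-- part Pool.Agent.P.MP_cb6780_lc.Basic
section

set_option autoImplicit false

namespace Pool.Agent.P.MP_cb6780_lc

open Module

section
variable {V W : Type} [AddCommGroup V] [Module F V] [AddCommGroup W] [Module F W]

theorem add_self_V (x : V) : x + x = 0 := by
  have h : (2 : F) = 0 := rfl
  rw [← two_smul F x, h, zero_smul]
theorem add_self_fun {X : Type} (f : X → F) : f + f = 0 := by
  funext x
  exact CharTwo.add_self_eq_zero (f x)
theorem card_V [Finite V] : Nat.card V = 2 ^ finrank F V := by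
  have := Module.natCard_eq_pow_finrank (K := F) (V := V)
  rwa [Nat.card_zmod] at this
theorem D_zero (f : V → F) : D 0 f = 0 := by
  funext x
  rw [D_apply, add_zero]
  exact CharTwo.add_self_eq_zero (f x)
theorem D_comm (y z : V) (f : V → F) : D y (D z f) = D z (D y f) := by
  funext x
  simp only [D_apply]
  rw [add_right_comm x y z]
  ring
theorem D_D_self (y : V) (f : V → F) : D y (D y f) = 0 := by
  funext x
  simp only [D_apply, Pi.zero_apply]
  rw [add_assoc x, add_self_V, add_zero, add_comm (f x)]
  exact CharTwo.add_self_eq_zero _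
theorem D_add (y z : V) (f : V → F) : D (y + z) f = D y f + D z f + D y (D z f) := by
  funext x
  simp only [D_apply, Pi.add_apply]
  rw [add_assoc x]
  have h : ∀ a b c d : F, a + b = c + b + (d + b) + (a + c + (d + b)) := by decide
  exact h _ _ _ _
theorem P_le_succ (d : ℕ) : P V d ≤ P V (d + 1) := by
  induction d with
  | zero => exact bot_le
  | succ d ih => exact fun f hf => mem_P_succ.2 fun y => ih (mem_P_succ.1 hf y)
theorem P_mono {d e : ℕ} (h : d ≤ e) : P V d ≤ P V e := by
  exact monotone_nat_of_le_succ (f := P V) P_le_succ h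
/-- composition with an affine map -/
theorem comp_mem_P {d : ℕ} {f : V → F} (hf : f ∈ P V d) (φ : W →ₗ[F] V) (a : V) :
    (fun w => f (φ w + a)) ∈ P W d := by
  induction d generalizing f with
  | zero =>
    rw [mem_P_zero] at hf ⊢
    subst hf
    rfl
  | succ d ih =>
    refine mem_P_succ.2 fun y => ?_
    have e : D y (fun w => f (φ w + a)) = fun w => D (φ y) f (φ w + a) := by
      funext w
      simp only [D_apply, map_add]
      rw [add_right_comm (φ w)]
    rw [e]
    exact ih (mem_P_succ.1 hf _)
theorem res_mem_P {d : ℕ} {f : V → F} (hf : f ∈ P V d) (U : Submodule F V) (a : V) :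
    res U a f ∈ P U d := by
  exact comp_mem_P hf U.subtype a
theorem basic_mul (n : ℕ) : ∀ (a b : ℕ) (f g : V → F), a + b ≤ n + 1 → f ∈ P V a → g ∈ P V b →
    f * g ∈ P V n := by
  have h0 : ∀ (m : ℕ) (f g : V → F), f ∈ P V 0 ∨ g ∈ P V 0 → f * g ∈ P V m := by
    rintro m f g (h | h) <;> rw [mem_P_zero.1 h]
    · rw [zero_mul]
      exact zero_mem _
    · rw [mul_zero]
      exact zero_mem _
  induction n with
  | zero =>
    intro a b f g hab hf hg
    rcases (by omega : a = 0 ∨ b = 0) with rfl | rfl
    · exact h0 _ _ _ (Or.inl hf)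
    · exact h0 _ _ _ (Or.inr hg)
  | succ n ih =>
    intro a b f g hab hf hg
    rcases a with _ | a
    · exact h0 _ _ _ (Or.inl hf)
    rcases b with _ | b
    · exact h0 _ _ _ (Or.inr hg)
    refine mem_P_succ.2 fun y => ?_
    have e : D y (f * g) = D y f * (fun x => g (x + y)) + f * D y g := by
      funext x
      simp only [D_apply, Pi.add_apply, Pi.mul_apply]
      have h : ∀ a b c d : F, a * b + c * d = (a + c) * b + c * (b + d) := by decide
      exact h _ _ _ _
    rw [e]
    exact add_mem (ih a (b + 1) _ _ (by omega) (mem_P_succ.1 hf y) (comp_mem_P hg LinearMap.id y))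
      (ih (a + 1) b _ _ (by omega) hf (mem_P_succ.1 hg y))
theorem mul_mem_P {d e : ℕ} {f g : V → F} (hf : f ∈ P V (d + 1)) (hg : g ∈ P V (e + 1)) :
    f * g ∈ P V (d + e + 1) := by
  exact basic_mul _ _ _ f g (by omega) hf hg
theorem mem_P_one {f : V → F} : f ∈ P V 1 ↔ ∃ c, f = fun _ => c := by
  rw [mem_P_succ]
  constructor
  · intro h
    refine ⟨f 0, funext fun y => ?_⟩
    have h1 := congrFun (mem_P_zero.1 (h y)) 0
    rw [D_apply, zero_add] at h1
    exact CharTwo.add_eq_zero.1 h1
  · rintro ⟨c, rfl⟩ y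
    exact mem_P_zero.2 (funext fun _ => CharTwo.add_self_eq_zero c)
theorem mem_P_two {f : V → F} :
    f ∈ P V 2 ↔ ∃ (l : Dual F V) (c : F), f = fun x => l x + c := by
  rw [mem_P_succ]
  constructor
  · intro h
    have h1 : ∀ x y, f (x + y) + f 0 = f x + f 0 + (f y + f 0) := by
      intro x y
      obtain ⟨c, hc⟩ := mem_P_one.1 (h y)
      have h2 := (congrFun hc x).trans (congrFun hc 0).symm
      simp only [D_apply, zero_add] at h2
      have h3 : ∀ a b c d : F, a + b = c + d → a + d = b + d + (c + d) := by decide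
      exact h3 _ _ _ _ h2
    refine ⟨(AddMonoidHom.mk' (fun x => f x + f 0) h1).toZModLinearMap 2, f 0, funext fun x => ?_⟩
    have h3 : ∀ a b : F, a = a + b + b := by decide
    exact h3 _ _
  · rintro ⟨l, c, rfl⟩ y
    refine mem_P_one.2 ⟨l y, funext fun x => ?_⟩
    simp only [D_apply, map_add]
    have h3 : ∀ a b c : F, a + b + c + (a + c) = b := by decide
    exact h3 _ _ _
theorem dual_mem_P (l : Dual F V) : (fun x => l x) ∈ P V 2 := by
  exact mem_P_two.2 ⟨l, 0, funext fun x => (add_zero _).symm⟩
theorem bias_transl [Finite V] (f : V → F) (a : V) : bias (fun x => f (x + a)) = bias f := by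
  exact av_congr (Equiv.addRight a) fun x => chi (f x)
theorem bias_eq_zero_of_D [Finite V] {f : V → F} {y : V} (h : D y f = 1) : bias f = 0 := by
  have h1 : (fun x => f (x + y)) = f + 1 := by
    funext x
    have h2 : f (x + y) + f x = 1 := congrFun h x
    have h3 : ∀ a b : F, a + b = 1 → a = b + 1 := by decide
    exact h3 _ _ h2
  have h4 := bias_transl f y
  rw [h1, bias_add_one] at h4
  linarith
theorem bias_dual [Finite V] {l : Dual F V} (hl : l ≠ 0) (c : F) :
    bias (fun x => l x + c) = 0 := by
  obtain ⟨y, hy⟩ := DFunLike.ne_iff.1 hl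
  refine bias_eq_zero_of_D (y := y) (funext fun x => ?_)
  simp only [D_apply, map_add, Pi.one_apply]
  have h3 : ∀ a b c : F, b ≠ 0 → a + b + c + (a + c) = 1 := by decide
  exact h3 _ _ _ hy
theorem bias_sq [Finite V] (f : V → F) : bias f ^ 2 = av fun y => bias (D y f) := by
  have h1 : ∀ x, (av fun y => chi (D y f x)) = bias f * chi (f x) := by
    intro x
    simp only [D_apply, chi_add, mul_comm _ (chi (f x)), add_comm x]
    rw [av_mul_left]
    exact congrArg _ (bias_transl f x)
  unfold bias at h1 ⊢
  rw [av_comm fun y x => chi (D y f x), funext h1, av_mul_left, sq]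
theorem bias_D_ge [Finite V] (f : V → F) (y : V) : 2 * bias f - 1 ≤ bias (D y f) := by
  have h := bias_add_ge (fun x => f (x + y)) f
  rw [bias_transl] at h
  exact le_trans (le_of_eq (by ring)) h
theorem basic_const [Finite V] {f : V → F} (hf : f ∈ P V 1) (h0 : f ≠ 0) : bias f = -1 := by
  obtain ⟨c, rfl⟩ := mem_P_one.1 hf
  have h1 : c = 1 := by
    have h3 : ∀ a : F, a ≠ 0 → a = 1 := by decide
    exact h3 c fun h => h0 (funext fun _ => h)
  unfold bias
  rw [av_const, h1, chi_one]
/-- minimum distance (induction on `d`: if `f` is not constant, some `D y f` is nonzero and has at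
most twice the weight) -/
theorem min_dist [Finite V] {d : ℕ} {f : V → F} (hf : f ∈ P V (d + 1)) (h0 : f ≠ 0) :
    bias f ≤ 1 - 2 / 2 ^ d := by
  induction d generalizing f with
  | zero =>
    rw [basic_const hf h0]
    norm_num
  | succ d ih =>
    have e : (2 : ℝ) / 2 ^ d = 2 * (2 / 2 ^ (d + 1)) := by
      rw [pow_succ]
      field_simp
    by_cases h : ∃ y, D y f ≠ 0
    · obtain ⟨y, hy⟩ := h
      have h1 := (bias_D_ge f y).trans (ih (mem_P_succ.1 hf y) hy)
      linarith
    · rw [basic_const (mem_P_succ.2 fun y => mem_P_zero.2 (not_not.1 fun hy => h ⟨y, hy⟩)) h0]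
      have h2 : (2 : ℝ) / 2 ^ (d + 1) ≤ 2 := div_le_self zero_le_two (one_le_pow₀ one_le_two)
      linarith
/-- Parseval over the linear functions -/
theorem av_bias_sq_dual [Finite V] (g : V → F) :
    av (fun l : Dual F V => bias (g + fun x => l x) ^ 2) = 1 / Nat.card V := by
  have : Finite (Dual F V) := DFunLike.finite _
  have h1 : ∀ (l : Dual F V) (y : V),
      bias (D y (g + fun x => l x)) = bias (D y g) * chi (l y) := by
    intro l y
    have e : ∀ x, chi (D y (g + fun x => l x) x) = chi (l y) * chi (D y g x) := by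
      intro x
      rw [← chi_add]
      simp only [D_apply, Pi.add_apply, map_add]
      have h3 : ∀ a b c d : F, a + (b + c) + (d + b) = c + (a + d) := by decide
      rw [h3]
    unfold bias
    rw [funext e, av_mul_left, mul_comm]
  have h2 : ∀ y : V, (av fun l : Dual F V => bias (D y g) * chi (l y)) =
      ({0} : Set V).indicator (fun _ => (1 : ℝ)) y := by
    intro y
    rw [av_mul_left]
    by_cases hy : y = 0
    · subst hy
      simp only [D_zero, bias_zero, map_zero, chi_zero, av_const]
      simp
    · have h4 : Dual.eval F V y ≠ 0 := fun h => hy ((eval_apply_eq_zero_iff F y).1 h)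
      have h5 := bias_dual h4 0
      simp only [add_zero, Dual.eval_apply] at h5
      unfold bias at h5
      rw [h5, mul_zero, Set.indicator_of_notMem (s := {0}) hy]
  simp only [bias_sq, h1]
  rw [av_comm fun (l : Dual F V) y => bias (D y g) * chi (l y), funext h2, av_indicator]
  simp
end

end Pool.Agent.P.MP_cb6780_lc
end

-- part Pool.Agent.P.MP_cb6780_lc.Card
section

set_option autoImplicit false

/-! Size of `P V d`, the bridge to polynomials, subspace counts. -/

namespace Pool.Agent.P.MP_cb6780_lc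

open Module

/-- inclusion of the hyperplane `x 0 = 0` -/
def Card_inc (m : ℕ) : (Fin m → F) →ₗ[F] (Fin (m + 1) → F) where
  toFun x := Fin.cons 0 x
  map_add' x y := by funext i; cases i using Fin.cases <;> simp
  map_smul' a x := by funext i; cases i using Fin.cases <;> simp

/-- forgetting the first coordinate -/
def Card_tl (m : ℕ) : (Fin (m + 1) → F) →ₗ[F] (Fin m → F) where
  toFun x := fun i => x i.succ
  map_add' _ _ := rfl
  map_smul' _ _ := rfl

/-- gluing -/
def Card_glue {m : ℕ} (g q : (Fin m → F) → F) : (Fin (m + 1) → F) → F :=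
  fun x => g (Card_tl m x) + x 0 * q (Card_tl m x)

/-- the first part -/
def Card_fst {m : ℕ} (f : (Fin (m + 1) → F) → F) : (Fin m → F) → F := fun x => f (Card_inc m x)

/-- the second part -/
def Card_snd {m : ℕ} (f : (Fin (m + 1) → F) → F) : (Fin m → F) → F :=
  fun x => D (Pi.single 0 1) f (Card_inc m x)

theorem Card_tl_inc {m : ℕ} (x : Fin m → F) : Card_tl m (Card_inc m x) = x := by
  funext i; simp [Card_tl, Card_inc]

theorem Card_tl_inc' {m : ℕ} (x : Fin m → F) :
    Card_tl m (Card_inc m x + Pi.single 0 1) = x := by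
  funext i; simp [Card_tl, Card_inc]

theorem Card_inc_zero {m : ℕ} (x : Fin m → F) : Card_inc m x 0 = 0 := by simp [Card_inc]

theorem Card_two (a : F) : a + a = 0 := by revert a; decide

theorem Card_glue_eq {m : ℕ} (f : (Fin (m + 1) → F) → F) :
    Card_glue (Card_fst f) (Card_snd f) = f := by
  funext x
  have h : ∀ a : F, a = 0 ∨ a = 1 := by decide
  simp only [Card_glue, Card_fst, Card_snd, D_apply]
  rcases h (x 0) with h0 | h0
  · have e : Card_inc m (Card_tl m x) = x := by
      funext i; cases i using Fin.cases <;> simp [Card_tl, Card_inc, h0]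
    rw [h0, e]; ring
  · have e : Card_inc m (Card_tl m x) + Pi.single 0 1 = x := by
      funext i; cases i using Fin.cases <;> simp [Card_tl, Card_inc, h0]
    rw [h0, e]
    linear_combination Card_two (f (Card_inc m (Card_tl m x)))

theorem Card_fst_glue {m : ℕ} (g q : (Fin m → F) → F) : Card_fst (Card_glue g q) = g := by
  funext x
  simp only [Card_glue, Card_fst, Card_tl_inc, Card_inc_zero]
  ring

theorem Card_snd_glue {m : ℕ} (g q : (Fin m → F) → F) : Card_snd (Card_glue g q) = q := by
  funext x
  simp only [Card_glue, Card_snd, D_apply, Card_tl_inc, Card_tl_inc', Card_inc_zero, Pi.add_apply,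
    Pi.single_eq_same]
  linear_combination Card_two (g x)

theorem Card_comp {V W : Type} [AddCommGroup V] [Module F V] [AddCommGroup W] [Module F W]
    {d : ℕ} {f : V → F} (hf : f ∈ P V d) (φ : W →ₗ[F] V) : (fun w => f (φ w)) ∈ P W d := by
  simpa using comp_mem_P hf φ 0

theorem Card_fst_mem {m d : ℕ} {f : (Fin (m + 1) → F) → F} (hf : f ∈ P _ d) :
    Card_fst f ∈ P _ d := Card_comp hf (Card_inc m)

theorem Card_snd_mem {m d : ℕ} {f : (Fin (m + 1) → F) → F} (hf : f ∈ P _ (d + 1)) :
    Card_snd f ∈ P _ d := Card_comp (mem_P_succ.1 hf _) (Card_inc m)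

theorem Card_coord {m : ℕ} (i : Fin m) : (fun x : Fin m → F => x i) ∈ P (Fin m → F) (1 + 1) :=
  dual_mem_P (LinearMap.proj i : (Fin m → F) →ₗ[F] F)

theorem Card_glue_mem {m d : ℕ} {g q : (Fin m → F) → F} (hg : g ∈ P _ (d + 1)) (hq : q ∈ P _ d) :
    Card_glue g q ∈ P _ (d + 1) := by
  have h1 := Card_comp hg (Card_tl m)
  have h2 := Card_comp hq (Card_tl m)
  have h3 : ((fun x : Fin (m + 1) → F => x 0) * fun w => q (Card_tl m w)) ∈ P _ (d + 1) := by
    cases d with
    | zero =>
      rw [mem_P_zero.1 h2, mul_zero]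
      exact zero_mem _
    | succ d =>
      have := mul_mem_P (Card_coord 0) h2
      rwa [add_comm 1 d] at this
  exact add_mem h1 h3

theorem cP_succ (n d : ℕ) : cP (n + 1) (d + 1) = cP n (d + 1) * cP n d := by
  rw [cP, cP, cP, ← pow_add]
  congr 1
  induction d with
  | zero => simp
  | succ d ih =>
    rw [Finset.sum_range_succ, ih, Finset.sum_range_succ _ (d + 1), Finset.sum_range_succ _ d,
      Nat.choose_succ_succ']
    ring

theorem Card_std (n : ℕ) : ∀ d, Nat.card (P (Fin n → F) d) = cP n d := by
  have z : ∀ n, Nat.card (P (Fin n → F) 0) = cP n 0 := fun n => by simp [P, cP]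
  induction n with
  | zero =>
    intro d
    cases d with
    | zero => exact z 0
    | succ d =>
      have e : P (Fin 0 → F) (d + 1) = ⊤ := by
        refine eq_top_iff.2 fun f _ => P_mono (by omega : 1 ≤ d + 1) (mem_P_one.2 ⟨f 0, ?_⟩)
        funext x
        rw [Subsingleton.elim x 0]
      rw [e, Nat.card_congr (Submodule.topEquiv (R := F) (M := (Fin 0 → F) → F)).toEquiv, cP,
        Finset.sum_range_succ']
      simp
  | succ n ih =>
    intro d
    cases d with
    | zero => exact z _
    | succ d =>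
      rw [cP_succ, ← ih, ← ih, ← Nat.card_prod]
      exact Nat.card_congr
        { toFun := fun f => (⟨_, Card_fst_mem f.2⟩, ⟨_, Card_snd_mem f.2⟩)
          invFun := fun p => ⟨_, Card_glue_mem p.1.2 p.2.2⟩
          left_inv := fun f => Subtype.ext (Card_glue_eq f.1)
          right_inv := fun p => Prod.ext (Subtype.ext (Card_fst_glue _ _))
            (Subtype.ext (Card_snd_glue _ _)) }

/-- `|P V d| = 2 ^ (sum_{i<d} C(n,i))`.  Induction on `n` for all `d`: for `V = W × F`,
`f ↦ (f (·,0), f (·,1) + f (·,0))` is a bijection `P V (d+1) → P W (d+1) × P W d`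
(inverse `(g,q) ↦ g + x q`, use `mul_mem_P`, `comp_mem_P`). -/
theorem card_P (V : Type) [AddCommGroup V] [Module F V] [Finite V] (d : ℕ) :
    Nat.card (P V d) = cP (finrank F V) d := by
  let e := (Module.finBasis F V).equivFun
  rw [← Card_std]
  exact Nat.card_congr
    { toFun := fun f => ⟨_, Card_comp f.2 e.symm.toLinearMap⟩
      invFun := fun f => ⟨_, Card_comp f.2 e.toLinearMap⟩
      left_inv := fun f => Subtype.ext (by funext x; simp)
      right_inv := fun f => Subtype.ext (by funext x; simp) }

theorem Card_pow {m : ℕ} (i : Fin m) (k : ℕ) :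
    (fun x : Fin m → F => x i ^ k) ∈ P (Fin m → F) (k + 1) := by
  induction k with
  | zero => exact mem_P_one.2 ⟨1, by simp⟩
  | succ k ih =>
    have := mul_mem_P ih (Card_coord i)
    have e : ((fun x : Fin m → F => x i ^ k) * fun x => x i) = fun x => x i ^ (k + 1) := by
      funext x; simp [pow_succ]
    rwa [e] at this

theorem Card_mon {m : ℕ} (s : Fin m → ℕ) (t : Finset (Fin m)) :
    (fun x : Fin m → F => ∏ i ∈ t, x i ^ s i) ∈ P (Fin m → F) (∑ i ∈ t, s i + 1) := by
  induction t using Finset.induction_on with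
  | empty => exact mem_P_one.2 ⟨1, by simp⟩
  | insert a t ha ih =>
    have := mul_mem_P (Card_pow a (s a)) ih
    have e : ((fun x : Fin m → F => x a ^ s a) * fun x => ∏ i ∈ t, x i ^ s i) =
        fun x => ∏ i ∈ insert a t, x i ^ s i := by
      funext x; simp [Finset.prod_insert ha]
    rwa [e, ← Finset.sum_insert ha] at this

theorem Card_poly (m : ℕ) : ∀ (d : ℕ) (f : (Fin m → F) → F), f ∈ P (Fin m → F) (d + 1) →
    ∃ p : MvPolynomial (Fin m) F, p.totalDegree ≤ d ∧ ∀ x, f x = MvPolynomial.eval x p := by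
  induction m with
  | zero =>
    intro d f _
    exact ⟨MvPolynomial.C (f 0), by simp, fun x => by rw [Subsingleton.elim x 0]; simp⟩
  | succ m ih =>
    intro d f hf
    obtain ⟨p, p1, p2⟩ := ih d _ (Card_fst_mem hf)
    have hq := Card_snd_mem hf
    have key : ∀ q : MvPolynomial (Fin m) F, (∀ x, Card_snd f x = MvPolynomial.eval x q) → ∀ x,
        f x = MvPolynomial.eval x (MvPolynomial.rename Fin.succ p +
          MvPolynomial.X 0 * MvPolynomial.rename Fin.succ q) := fun q hq x => by
      rw [map_add, map_mul, MvPolynomial.eval_X, MvPolynomial.eval_rename, MvPolynomial.eval_rename,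
        ← p2, ← hq]
      exact (congrFun (Card_glue_eq f) x).symm
    have r1 := (MvPolynomial.totalDegree_rename_le Fin.succ p).trans p1
    cases d with
    | zero =>
      refine ⟨_, ?_, key 0 fun x => by rw [mem_P_zero.1 hq]; simp⟩
      simpa using r1
    | succ d =>
      obtain ⟨q, q1, q2⟩ := ih d _ hq
      refine ⟨_, (MvPolynomial.totalDegree_add _ _).trans (max_le r1 ?_), key q q2⟩
      refine (MvPolynomial.totalDegree_mul _ _).trans ?_
      have r2 := (MvPolynomial.totalDegree_rename_le Fin.succ q).trans q1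
      rw [MvPolynomial.totalDegree_X]
      omega

/-- degree by derivatives = degree of a polynomial.  (`←`: monomials by `mul_mem_P`;
`→`: induction on `m` as in `card_P`, `f = g + x_0 q`.) -/
theorem mem_P_iff_poly {m d : ℕ} (f : (Fin m → F) → F) :
    f ∈ P (Fin m → F) (d + 1) ↔
      ∃ p : MvPolynomial (Fin m) F, p.totalDegree ≤ d ∧ ∀ x, f x = MvPolynomial.eval x p := by
  refine ⟨Card_poly m d f, ?_⟩
  rintro ⟨p, p1, p2⟩
  have e : f = ∑ s ∈ p.support, p.coeff s • fun x : Fin m → F => ∏ i, x i ^ s i := by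
    funext x
    rw [p2, MvPolynomial.eval_eq', Finset.sum_apply]
    rfl
  rw [e]
  refine Submodule.sum_mem _ fun s hs => Submodule.smul_mem _ _ (P_mono ?_ (Card_mon s Finset.univ))
  have := (MvPolynomial.le_totalDegree hs).trans p1
  rw [Finsupp.sum_fintype _ _ fun _ => rfl] at this
  omega

theorem cP_add (n c d : ℕ) :
    cP (n + c) (d + 1) = cP n (d + 1) * ∏ i ∈ Finset.range c, cP (n + i) d := by
  induction c with
  | zero => simp
  | succ c ih => rw [← add_assoc, cP_succ, ih, Finset.prod_range_succ, mul_assoc]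

theorem cP_pos (n d : ℕ) : 0 < cP n d := by
  unfold cP
  positivity

theorem Card_li (X : Type) [AddCommGroup X] [Module F X] [Finite X] {c : ℕ}
    (hc : c ≤ finrank F X) :
    (Nat.card {s : Fin c → X // LinearIndependent F s} : ℝ) =
      ∏ i ∈ Finset.range c, ((2 : ℝ) ^ finrank F X - 2 ^ i) := by
  rw [card_linearIndependent hc, ← Fin.prod_univ_eq_prod_range fun i => (2 : ℝ) ^ finrank F X - 2 ^ i,
    Nat.cast_prod]
  refine Finset.prod_congr rfl fun i _ => ?_
  have h2 : Fintype.card F = 2 := ZMod.card 2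
  rw [h2, Nat.cast_sub (Nat.pow_le_pow_right (by norm_num) (i.2.le.trans hc))]
  simp

theorem Card_gauss (X : Type) [AddCommGroup X] [Module F X] [Finite X] {c : ℕ}
    (hc : c ≤ finrank F X) :
    (Nat.card {Z : Submodule F X // finrank F Z = c} : ℝ) *
        ∏ i ∈ Finset.range c, ((2 : ℝ) ^ c - 2 ^ i) =
      ∏ i ∈ Finset.range c, ((2 : ℝ) ^ finrank F X - 2 ^ i) := by
  classical
  let φ : {s : Fin c → X // LinearIndependent F s} → {Z : Submodule F X // finrank F Z = c} :=
    fun s => ⟨Submodule.span F (Set.range s.1), by rw [finrank_span_eq_card s.2]; simp⟩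
  have fib : ∀ Z : {Z : Submodule F X // finrank F Z = c},
      (Nat.card {s // φ s = Z} : ℝ) = ∏ i ∈ Finset.range c, ((2 : ℝ) ^ c - 2 ^ i) := by
    rintro ⟨Z, hZ⟩
    have h1 := Card_li Z hZ.ge
    rw [hZ] at h1
    rw [← h1]
    have mem : ∀ s : {s // φ s = ⟨Z, hZ⟩}, ∀ i, s.1.1 i ∈ Z := fun s i => by
      have e : Submodule.span F (Set.range s.1.1) = Z := congrArg Subtype.val s.2
      exact e.le (Submodule.subset_span ⟨i, rfl⟩)
    have li : ∀ t : {t : Fin c → Z // LinearIndependent F t},
        LinearIndependent F (Z.subtype ∘ t.1) := fun t => t.2.map' _ Z.ker_subtype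
    have sp : ∀ t : {t : Fin c → Z // LinearIndependent F t}, φ ⟨_, li t⟩ = ⟨Z, hZ⟩ := fun t => by
      refine Subtype.ext (Submodule.eq_of_le_of_finrank_eq ?_ ((φ ⟨_, li t⟩).2.trans hZ.symm))
      refine Submodule.span_le.2 ?_
      rintro _ ⟨i, rfl⟩
      exact (t.1 i).2
    refine congrArg _ (Nat.card_congr
      { toFun := fun s => ⟨fun i => ⟨s.1.1 i, mem s i⟩, LinearIndependent.of_comp Z.subtype s.1.2⟩
        invFun := fun t => ⟨⟨_, li t⟩, sp t⟩
        left_inv := fun s => rfl
        right_inv := fun t => rfl })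
  have := Fintype.ofFinite {Z : Submodule F X // finrank F Z = c}
  rw [← Card_li X hc, ← Nat.card_congr (Equiv.sigmaFiberEquiv φ), Nat.card_sigma, Nat.cast_sum,
    Finset.sum_congr rfl fun Z _ => fib Z]
  simp

/-- Gaussian binomial: count linearly independent `c`-tuples in the dual space
(`card_linearIndependent`) by their span, which is the annihilator of a unique subspace of
codimension `c`.  For `c > m` both sides vanish. -/
theorem G_mul (V : Type) [AddCommGroup V] [Module F V] [Finite V] (c : ℕ) :
    (G V c : ℝ) * ∏ i ∈ Finset.range c, ((2 : ℝ) ^ c - 2 ^ i) =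
      ∏ i ∈ Finset.range c, ((2 : ℝ) ^ finrank F V - 2 ^ i) := by
  rcases le_or_gt c (finrank F V) with hc | hc
  · have : Finite (Dual F V) := Module.finite_of_finite F
    have hd : finrank F (Dual F V) = finrank F V := Subspace.dual_finrank_eq
    rw [← hd] at hc
    rw [← hd, ← Card_gauss _ hc, G, ← Nat.card_coe_set_eq]
    have r := fun W : Submodule F V => Subspace.finrank_add_finrank_dualAnnihilator_eq W
    refine congrArg (fun n : ℕ => (n : ℝ) * _) (Nat.card_eq_of_bijective
      (fun W => ⟨W.1.dualAnnihilator, by have := r W.1; have := W.2.out; omega⟩) ⟨?_, ?_⟩)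
    · intro W W' h
      exact Subtype.ext (Subspace.dualAnnihilator_inj.1 (congrArg Subtype.val h))
    · rintro ⟨Z, hZ⟩
      have e : Z.dualCoannihilator.dualAnnihilator = Z :=
        Subspace.dualCoannihilator_dualAnnihilator_eq
      refine ⟨⟨Z.dualCoannihilator, ?_⟩, Subtype.ext e⟩
      have := r Z.dualCoannihilator
      rw [e, hZ] at this
      exact this
  · have e : {W : Submodule F V | finrank F W + c = finrank F V} = ∅ :=
      Set.eq_empty_of_forall_notMem fun W h => by have := h.out; omega
    rw [G, e, Finset.prod_eq_zero (f := fun i => (2 : ℝ) ^ finrank F V - 2 ^ i)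
      (Finset.mem_range.2 hc) (sub_self _)]
    simp

end Pool.Agent.P.MP_cb6780_lc
end

-- part Pool.Agent.P.MP_cb6780_lc.Res
section

set_option autoImplicit false

/-! Restriction to cosets. -/

namespace Pool.Agent.P.MP_cb6780_lc

open Module

variable {V W : Type} [AddCommGroup V] [Module F V] [AddCommGroup W] [Module F W]

theorem Res_mem (e : V ≃ₗ[F] W) {d : ℕ} {θ : ℝ} {f : W → F} (h : f ∈ P W d ∧ θ ≤ bias f) :
    (fun x => f (e x)) ∈ P V d ∧ θ ≤ bias fun x => f (e x) := by
  refine ⟨by simpa using comp_mem_P h.1 e.toLinearMap 0, ?_⟩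
  have := av_congr e.toEquiv fun w => chi (f w)
  exact h.2.trans (le_of_eq this.symm)

theorem N_congr (e : V ≃ₗ[F] W) (d : ℕ) (θ : ℝ) : N V d θ = N W d θ := by
  unfold N
  refine Set.ncard_congr (fun f _ => fun w => f (e.symm w)) (fun f hf => Res_mem e.symm hf)
    (fun f g _ _ h => funext fun v => ?_) fun g hg => ⟨fun v => g (e v), Res_mem e hg, ?_⟩
  · simpa using congrFun h (e v)
  · funext w
    simp

theorem N_eq [Finite V] (d : ℕ) (θ : ℝ) : N V d θ = Nn (finrank F V) d θ := by
  have : Module.Finite F V := Module.Finite.of_finite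
  exact N_congr (Module.finBasis F V).equivFun d θ

theorem N_anti [Finite V] (d : ℕ) {θ θ' : ℝ} (h : θ ≤ θ') : N V d θ' ≤ N V d θ :=
  Set.ncard_le_ncard (fun _ hf => ⟨hf.1, h.trans hf.2⟩) (Set.toFinite _)

theorem one_le_N [Finite V] (d : ℕ) {θ : ℝ} (h : θ ≤ 1) : 1 ≤ N V d θ :=
  (Set.ncard_pos (Set.toFinite _)).2 ⟨0, (P V d).zero_mem, h.trans (le_of_eq bias_zero.symm)⟩

theorem card_sub [Finite V] (U : Submodule F V) {c : ℕ} (h : finrank F U + c = finrank F V) :
    (Nat.card U : ℝ) / Nat.card V = 1 / 2 ^ c := by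
  rw [card_V (V := U), card_V (V := V), ← h]
  push_cast
  rw [pow_add]
  field_simp

theorem bias_res_congr [Finite V] (U : Submodule F V) {a b : V} (h : a + b ∈ U) (f : V → F) :
    bias (res U a f) = bias (res U b f) := by
  rw [← bias_transl (res U b f) ⟨a + b, h⟩]
  refine congrArg bias (funext fun u => ?_)
  simp only [res_apply, Submodule.coe_add]
  rw [add_assoc, add_assoc, add_self_V, add_zero]

theorem bias_eq_av_res [Finite V] (U : Submodule F V) (f : V → F) :
    bias f = av fun a => bias (res U a f) := by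
  have h : (av fun a => bias (res U a f)) = av fun u : U => av fun a : V => chi (f (u + a)) :=
    av_comm fun (a : V) (u : U) => chi (f (u + a))
  have h2 : ∀ u : U, (av fun a : V => chi (f (u + a))) = bias f := fun u => by
    rw [← bias_transl f u]
    exact congrArg av (funext fun a => by rw [add_comm])
  rw [h, funext h2, av_const]

theorem Res_ind [Finite V] (U : Submodule F V) (a : V) (h : V → ℝ) :
    av ({x : V | a + x ∈ U}.indicator h) =
      (Nat.card U : ℝ) / Nat.card V * av fun u : U => h (u + a) := by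
  classical
  have := Fintype.ofFinite V
  have := Fintype.ofFinite U
  have h0 : (Fintype.card U : ℝ) ≠ 0 := Nat.cast_ne_zero.2 Fintype.card_ne_zero
  have e : ∑ x, {x : V | a + x ∈ U}.indicator h x = ∑ u : U, h (u + a) := by
    rw [← Equiv.sum_comp (Equiv.addRight a),
      ← Finset.sum_subtype (Finset.univ.filter fun x => x ∈ U) (by simp) fun x => h (x + a),
      Finset.sum_filter]
    refine Finset.sum_congr rfl fun x _ => ?_
    have : a + (x + a) = x := by rw [add_comm x a, ← add_assoc, add_self_V, zero_add]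
    simp [Set.indicator_apply, this]
  rw [av_eq, av_eq, e, Nat.card_eq_fintype_card, Nat.card_eq_fintype_card]
  field_simp

/-- splitting off one coset -/
theorem bias_split [Finite V] (U : Submodule F V) (a : V) (f : V → F) :
    bias f = (Nat.card U : ℝ) / Nat.card V * bias (res U a f) +
      av ({b : V | a + b ∉ U}.indicator fun b => bias (res U b f)) := by
  have h1 := Res_ind U a fun _ => bias (res U a f)
  rw [av_const] at h1
  rw [← h1, ← av_add, bias_eq_av_res U f]
  refine congrArg av (funext fun b => ?_)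
  by_cases h : a + b ∈ U
  · simp [Set.indicator_apply, h, bias_res_congr U h f]
  · simp [Set.indicator_apply, h]

theorem Res_ann [Finite V] (U : Submodule F V) (a : V) (h : V → ℝ) (x : V) :
    h x * av (fun l : U.dualAnnihilator => chi (l.1 (a + x))) =
      {x : V | a + x ∈ U}.indicator h x := by
  have : Finite (Dual F V) := Finite.of_injective _ DFunLike.coe_injective
  by_cases hx : a + x ∈ U
  · have : ∀ l : U.dualAnnihilator, chi (l.1 (a + x)) = 1 := fun l => by
      rw [(Submodule.mem_dualAnnihilator _).1 l.2 _ hx, chi_zero]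
    rw [funext this, av_const]
    simp [Set.indicator_apply, hx]
  · let L : Dual F U.dualAnnihilator := (Dual.eval F V (a + x)).comp U.dualAnnihilator.subtype
    have hl : L ≠ 0 := fun h0 =>
      hx ((Subspace.forall_mem_dualAnnihilator_apply_eq_zero_iff U _).1 fun l hl =>
        DFunLike.congr_fun h0 ⟨l, hl⟩)
    have h2 := bias_dual (V := U.dualAnnihilator) (l := L) hl 0
    have h3 : av (fun l : U.dualAnnihilator => chi (l.1 (a + x))) = 0 := by
      rw [← h2]
      exact congrArg av (funext fun l => by simp [L])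
    rw [h3]
    simp [Set.indicator_apply, hx]

/-- Fourier expansion of the indicator of a coset over the annihilator -/
theorem av_ann [Finite V] (U : Submodule F V) (a : V) (g : V → F) :
    av (fun l : U.dualAnnihilator => chi (l.1 a) * bias (g + fun x => l.1 x)) =
      (Nat.card U : ℝ) / Nat.card V * bias (res U a g) := by
  have : Finite (Dual F V) := Finite.of_injective _ DFunLike.coe_injective
  have h1 : ∀ l : U.dualAnnihilator, chi (l.1 a) * bias (g + fun x => l.1 x) =
      av fun x => chi (g x) * chi (l.1 (a + x)) := fun l => by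
    unfold bias
    rw [← av_mul_left]
    refine congrArg av (funext fun x => ?_)
    rw [Pi.add_apply, chi_add, map_add, chi_add]
    ring
  rw [funext h1, av_comm fun (l : U.dualAnnihilator) (x : V) => chi (g x) * chi (l.1 (a + x))]
  have h2 := fun x => (av_mul_left (chi (g x))
    fun l : U.dualAnnihilator => chi (l.1 (a + x))).trans (Res_ann U a (fun x => chi (g x)) x)
  rw [funext h2]
  exact Res_ind U a fun x => chi (g x)

theorem exists_dual [Finite V] (U : Submodule F V) (a : V) (g : V → F) :
    ∃ l : Dual F V, (Nat.card U : ℝ) / Nat.card V * |bias (res U a g)| ≤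
      |bias (g + fun x => l x)| := by
  have : Finite (Dual F V) := Finite.of_injective _ DFunLike.coe_injective
  obtain ⟨l, hl⟩ := exists_av_le
    fun l : U.dualAnnihilator => |chi (l.1 a) * bias (g + fun x => l.1 x)|
  refine ⟨l.1, ?_⟩
  have h := (abs_av_le _).trans hl
  rw [av_ann, abs_mul, abs_mul, abs_chi, one_mul, abs_of_nonneg (by positivity)] at h
  exact h

end Pool.Agent.P.MP_cb6780_lc
end

-- part Pool.Agent.P.MP_cb6780_lc.Quad
section

set_option autoImplicit false

/-! Quadratic functions: bias values and their counts (weight distribution of `RM(2,n)`). -/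

namespace Pool.Agent.P.MP_cb6780_lc

open Module Filter Topology

section
variable {V : Type} [AddCommGroup V] [Module F V]

/-- the periods of a function -/
def Per (f : V → F) : Submodule F V where
  carrier := {y | D y f = 0}
  add_mem' := by
    intro y z hy hz
    simp only [Set.mem_ofPred_eq] at hy hz ⊢
    rw [D_add, hz, hy]; simp
  zero_mem' := D_zero f
  smul_mem' := by
    intro a y hy
    have : a = 0 ∨ a = 1 := by revert a; decide
    rcases this with rfl | rfl
    · simpa using D_zero f
    · simpa using hy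

theorem mem_Per {f : V → F} {y : V} : y ∈ Per f ↔ D y f = 0 := Iff.rfl

theorem Quad_F_cases (a : F) : a = 0 ∨ a = 1 := by revert a; decide

theorem Quad_ind_ne {Z : Submodule F V} {p x : V} : ind Z p x ≠ 0 ↔ x + p ∈ Z := by
  unfold ind
  by_cases h : x + p ∈ Z <;> simp [h]

theorem Quad_ext {f g : V → F} (h : ∀ x, f x ≠ 0 ↔ g x ≠ 0) : f = g := by
  funext x
  have := h x
  rcases Quad_F_cases (f x) with h1 | h1 <;> rcases Quad_F_cases (g x) with h2 | h2 <;>
    simp_all

theorem Quad_per_apply {f : V → F} {y : V} (h : y ∈ Per f) (x : V) : f (x + y) = f x := by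
  have h1 : D y f x = 0 := by rw [mem_Per.1 h]; rfl
  rw [D_apply] at h1
  have h2 : ∀ a b : F, a + b = 0 → a = b := by decide
  exact h2 _ _ h1

theorem Quad_mem_per {f : V → F} {y : V} (h : ∀ x, f (x + y) = f x) : y ∈ Per f := by
  rw [mem_Per]
  funext x
  rw [D_apply, h x]
  have h2 : ∀ a : F, a + a = 0 := by decide
  exact h2 _

theorem Quad_ncard_coset (Z : Submodule F V) (p : V) :
    {x | x + p ∈ Z}.ncard = Nat.card Z := by
  have h : {x | x + p ∈ Z} = (fun x => x + p) ⁻¹' (Z : Set V) := rfl
  rw [h, Set.ncard_preimage_of_injective_subset_range (add_left_injective p)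
    (by rw [(Equiv.addRight p).surjective.range_eq.trans rfl |> fun h => (h : Set.range (fun x => x + p) = Set.univ)]; exact Set.subset_univ _)]
  rfl

theorem Quad_supp_ind (Z : Submodule F V) (p : V) :
    {x | ind Z p x ≠ 0} = {x | x + p ∈ Z} := by
  ext x; exact Quad_ind_ne

variable [Finite V]

theorem bias_ind (Z : Submodule F V) (p : V) :
    bias (ind Z p) = 1 - 2 * ((Nat.card Z : ℝ) / Nat.card V) := by
  rw [bias_eq_wt, Quad_supp_ind, Quad_ncard_coset]; ring

theorem Per_ind (Z : Submodule F V) (p : V) : Per (ind Z p) = Z := by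
  ext y
  constructor
  · intro hy
    have h1 := Quad_per_apply hy p
    have h2 : ind Z p p ≠ 0 := Quad_ind_ne.2 (by rw [add_self_V]; exact Z.zero_mem)
    rw [← h1, Quad_ind_ne] at h2
    have h3 : p + y + p = y := by
      rw [add_right_comm, add_self_V, zero_add]
    rwa [h3] at h2
  · intro hy
    apply Quad_mem_per
    intro x
    have h1 : (fun x => ind Z p (x + y)) = ind Z p := by
      apply Quad_ext
      intro x
      rw [Quad_ind_ne, Quad_ind_ne, add_right_comm]
      exact Z.add_mem_iff_left hy
    exact congrFun h1 x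

theorem ind_eq_iff {Z Z' : Submodule F V} {p p' : V} :
    ind Z p = ind Z' p' ↔ Z = Z' ∧ p + p' ∈ Z := by
  constructor
  · intro h
    have h1 : Z = Z' := by rw [← Per_ind Z p, h, Per_ind]
    subst h1
    refine ⟨rfl, ?_⟩
    have h2 : ind Z p p ≠ 0 := Quad_ind_ne.2 (by rw [add_self_V]; exact Z.zero_mem)
    rwa [h, Quad_ind_ne] at h2
  · rintro ⟨rfl, h⟩
    apply Quad_ext
    intro x
    rw [Quad_ind_ne, Quad_ind_ne]
    have h3 : x + p' = x + p + (p + p') := by
      rw [add_assoc, ← add_assoc p, add_self_V, zero_add]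
    rw [h3]
    exact (Z.add_mem_iff_left h).symm

/-- product of `k` affine functions (a basis of the annihilator, or induction on `k`) -/
theorem ind_mem_P {Z : Submodule F V} {k : ℕ} (h : finrank F Z + k = finrank F V) (p : V) :
    ind Z p ∈ P V (k + 1) := by
  have : Module.Finite F V := Module.Finite.of_finite
  induction k generalizing Z with
  | zero =>
    have hZ : Z = ⊤ := Submodule.eq_top_of_finrank_eq (by simpa using h)
    subst hZ
    exact mem_P_one.2 ⟨1, by funext x; simp [ind]⟩
  | succ k ih =>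
    have hZ : Z ≠ ⊤ := by
      rintro rfl
      rw [finrank_top] at h
      omega
    obtain ⟨v, hv⟩ : ∃ v, v ∉ Z := by
      by_contra hc
      push Not at hc
      exact hZ (Submodule.eq_top_iff'.2 hc)
    obtain ⟨l, hl1, hl2⟩ := Submodule.exists_dual_map_eq_bot_of_notMem hv inferInstance
    have hlZ : ∀ z ∈ Z, l z = 0 := by
      intro z hz
      have : l z ∈ Z.map l := Submodule.mem_map_of_mem hz
      rwa [hl2, Submodule.mem_bot] at this
    have hr := Submodule.finrank_sup_span_singleton hv
    have h1 := ih (Z := Z ⊔ Submodule.span F {v}) (by omega)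
    have h2 : (fun x => l x + (l p + 1)) ∈ P V (1 + 1) := mem_P_two.2 ⟨l, _, rfl⟩
    have h3 := mul_mem_P h1 h2
    have h4 : ind Z p = ind (Z ⊔ Submodule.span F {v}) p * fun x => l x + (l p + 1) := by
      apply Quad_ext
      intro x
      rw [Pi.mul_apply, mul_ne_zero_iff, Quad_ind_ne, Quad_ind_ne, ← add_assoc, ← map_add]
      constructor
      · intro hx
        refine ⟨Submodule.mem_sup_left hx, ?_⟩
        rw [hlZ _ hx]; decide
      · rintro ⟨hx, hx'⟩
        obtain ⟨z, hz, w, hw, hzw⟩ := Submodule.mem_sup.1 hx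
        obtain ⟨a, rfl⟩ := Submodule.mem_span_singleton.1 hw
        rcases Quad_F_cases a with rfl | rfl
        · rw [← hzw]; simpa using hz
        · exfalso
          apply hx'
          rw [← hzw, one_smul, map_add, hlZ z hz, zero_add]
          rcases Quad_F_cases (l v) with h5 | h5
          · exact absurd h5 hl1
          · rw [h5]; decide
    rw [h4]
    exact h3

/-- the support is a union of cosets of `Z` -/
theorem card_dvd_wt {Z : Submodule F V} {f : V → F} (h : Z ≤ Per f) :
    Nat.card Z ∣ {x | f x ≠ 0}.ncard := by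
  set t : Set (V ⧸ Z.toAddSubgroup) := QuotientAddGroup.mk '' {x | f x ≠ 0} with ht
  have h1 : {x | f x ≠ 0} = QuotientAddGroup.mk ⁻¹' t := by
    ext x
    constructor
    · intro hx; exact ⟨x, hx, rfl⟩
    · rintro ⟨y, hy, hxy⟩
      have h2 : -y + x ∈ Z := QuotientAddGroup.eq.1 hxy
      have h3 := Quad_per_apply (h h2) y
      rw [add_neg_cancel_left] at h3
      show f x ≠ 0
      rw [h3]; exact hy
  rw [h1, ← Nat.card_coe_set_eq,
    Nat.card_congr (QuotientAddGroup.preimageMkEquivAddSubgroupProdSet _ _), Nat.card_prod]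
  exact Dvd.intro _ rfl

theorem eq_ind_of_Per {Z : Submodule F V} {f : V → F} (h : Z ≤ Per f)
    (hb : bias f = 1 - 2 * ((Nat.card Z : ℝ) / Nat.card V)) : ∃ p, f = ind Z p := by
  have hV : (0 : ℝ) < Nat.card V := by exact_mod_cast Nat.card_pos
  have h1 : {x | f x ≠ 0}.ncard = Nat.card Z := by
    rw [bias_eq_wt] at hb
    have : ({x | f x ≠ 0}.ncard : ℝ) = Nat.card Z := by
      field_simp at hb
      linarith
    exact_mod_cast this
  have h2 : {x | f x ≠ 0}.Nonempty := by
    apply Set.nonempty_of_ncard_ne_zero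
    rw [h1]; exact Nat.card_pos.ne'
  obtain ⟨p, hp⟩ := h2
  refine ⟨p, Quad_ext fun x => ?_⟩
  have h3 : {x | x + p ∈ Z} = {x | f x ≠ 0} := by
    apply Set.eq_of_subset_of_ncard_le _ (by rw [h1, Quad_ncard_coset])
    intro y hy
    have h4 := Quad_per_apply (h hy) p
    have h5 : p + (y + p) = y := by rw [add_comm y p, ← add_assoc, add_self_V, zero_add]
    rw [h5] at h4
    show f y ≠ 0
    rw [h4]; exact hp
  rw [Quad_ind_ne]
  exact (Set.ext_iff.1 h3 x).symm

/-- `bias_sq`: `D y q` is affine, of bias `0` unless constant; a constant `1` forces bias `0` -/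
theorem quad_bias_sq {q : V → F} (hq : q ∈ P V 3) (h : bias q ≠ 0) :
    bias q ^ 2 = (Nat.card (Per q) : ℝ) / Nat.card V := by
  have h1 : (fun y => bias (D y q)) = (Per q : Set V).indicator fun _ => (1 : ℝ) := by
    funext y
    by_cases hy : y ∈ Per q
    · rw [Set.indicator_of_mem hy, mem_Per.1 hy, bias_zero]
    · rw [Set.indicator_of_notMem hy]
      obtain ⟨l, c, hlc⟩ := mem_P_two.1 (mem_P_succ.1 hq y)
      by_cases hl : l = 0
      · exfalso
        subst hl
        rcases Quad_F_cases c with rfl | rfl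
        · apply hy
          rw [mem_Per, hlc]; funext x; simp
        · apply h
          apply bias_eq_zero_of_D (y := y)
          rw [hlc]; funext x; simp
      · rw [hlc]; exact bias_dual hl c
  rw [bias_sq, h1, av_indicator]
  rfl

/-- `|Per q| / |V| = 2^(-k)` is the square of the rational number `bias q`, so `k` is even -/
theorem quad_bias {q : V → F} (hq : q ∈ P V 3) (h : 0 < bias q) : ∃ h : ℕ, bias q = 1 / 2 ^ h := by
  have : Module.Finite F V := Module.Finite.of_finite
  have h1 := quad_bias_sq hq h.ne'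
  obtain ⟨c, hc⟩ := Nat.exists_eq_add_of_le (Submodule.finrank_le (Per q))
  rw [card_sub (Per q) hc.symm] at h1
  rcases Nat.even_or_odd' c with ⟨k, rfl | rfl⟩
  · refine ⟨k, ?_⟩
    have h2 : bias q ^ 2 = (1 / 2 ^ k) ^ 2 := by rw [h1, div_pow, ← pow_mul, one_pow, mul_comm]
    exact (pow_left_inj₀ h.le (by positivity) two_ne_zero).1 h2
  · exfalso
    have h2 : (bias q * 2 ^ (k + 1)) ^ 2 = 2 := by
      rw [mul_pow, h1]; field_simp; ring
    have h3 : Real.sqrt 2 = bias q * 2 ^ (k + 1) := by
      rw [Real.sqrt_eq_iff_eq_sq (by norm_num) (by positivity)]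
      exact h2.symm
    apply irrational_sqrt_two
    refine ⟨(1 - 2 * ({x | q x ≠ 0}.ncard : ℚ) / Nat.card V) * 2 ^ (k + 1), ?_⟩
    rw [h3, bias_eq_wt]
    push_cast
    rfl

theorem quad_half {q : V → F} (hq : q ∈ P V 3) (h : bias q = 1 / 2) :
    ∃ (W : Submodule F V) (p : V), finrank F W + 2 = finrank F V ∧ q = ind W p := by
  have : Module.Finite F V := Module.Finite.of_finite
  have h1 := quad_bias_sq hq (by rw [h]; norm_num)
  obtain ⟨c, hc⟩ := Nat.exists_eq_add_of_le (Submodule.finrank_le (Per q))
  have h2 := card_sub (Per q) hc.symm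
  have h3 : c = 2 := by
    rw [h2, h] at h1
    have h4 : (2 : ℝ) ^ c = 2 ^ 2 := by
      field_simp at h1
      linarith
    exact pow_right_injective₀ (by norm_num : (0 : ℝ) < 2) (by norm_num) h4
  subst h3
  obtain ⟨p, hp⟩ := eq_ind_of_Per (Z := Per q) le_rfl (by rw [h2, h]; norm_num)
  exact ⟨Per q, p, hc.symm, hp⟩

end

/-- number of quadratic functions of bias `2^(-h)` -/
noncomputable def qa (V : Type) [AddCommGroup V] (h : ℕ) : ℕ :=
  {q : V → F | q ∈ P V 3 ∧ bias q = 1 / 2 ^ h}.ncard

end Pool.Agent.P.MP_cb6780_lc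
end

-- part Pool.Agent.P.MP_cb6780_lc.Res2
section

set_option autoImplicit false

namespace Pool.Agent.P.MP_cb6780_lc

open Module

variable {V : Type} [AddCommGroup V] [Module F V]

theorem Res2_proj (U : Submodule F V) : ∃ π : V →ₗ[F] U, ∀ u : U, π u = u := by
  obtain ⟨π, hπ⟩ := U.subtype.exists_leftInverse_of_injective U.ker_subtype
  exact ⟨π, fun u => LinearMap.congr_fun hπ u⟩

/-- every function of degree `< d` on a coset extends (compose with a projection onto `U`) -/
theorem res_surj (U : Submodule F V) (a : V) {d : ℕ} {g : U → F} (hg : g ∈ P U d) :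
    ∃ f ∈ P V d, res U a f = g := by
  obtain ⟨π, hπ⟩ := Res2_proj U
  refine ⟨_, comp_mem_P hg π (π a), funext fun u => ?_⟩
  rw [res_apply, map_add, hπ, add_assoc, add_self_V, add_zero]

theorem Res2_fib {X Y : Type} [AddCommGroup X] [AddCommGroup Y] (S : AddSubgroup X)
    (T : AddSubgroup Y) (R : X →+ Y) (h1 : ∀ f ∈ S, R f ∈ T) (h2 : ∀ g ∈ T, ∃ f ∈ S, R f = g)
    (A : Set Y) :
    {f | f ∈ S ∧ R f ∈ A}.ncard = {g | g ∈ T ∧ g ∈ A}.ncard * {f | f ∈ S ∧ R f = 0}.ncard := by
  choose! σ h3 h4 using h2
  rw [← Nat.card_coe_set_eq, ← Nat.card_coe_set_eq, ← Nat.card_coe_set_eq, ← Nat.card_prod]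
  refine Nat.card_congr
    { toFun := fun f => (⟨R f.1, h1 _ f.2.1, f.2.2⟩, ⟨f.1 - σ (R f.1),
        S.sub_mem f.2.1 (h3 _ (h1 _ f.2.1)), by rw [map_sub, h4 _ (h1 _ f.2.1), sub_self]⟩)
      invFun := fun p => ⟨p.2.1 + σ p.1.1, S.add_mem p.2.2.1 (h3 _ p.1.2.1), by
        rw [map_add, p.2.2.2, h4 _ p.1.2.1, zero_add]; exact p.1.2.2⟩
      left_inv := fun f => Subtype.ext (sub_add_cancel _ _)
      right_inv := fun p => ?_ }
  have h5 : R (p.2.1 + σ p.1.1) = p.1.1 := by rw [map_add, p.2.2.2, h4 _ p.1.2.1, zero_add]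
  refine Prod.ext (Subtype.ext h5) (Subtype.ext ?_)
  show p.2.1 + σ p.1.1 - σ (R (p.2.1 + σ p.1.1)) = p.2.1
  rw [h5, add_sub_cancel_right]

/-- all fibres of the restriction map have the same size -/
theorem ncard_res_pre [Finite V] (U : Submodule F V) (a : V) (d : ℕ) (A : Set (U → F)) :
    {f | f ∈ P V d ∧ res U a f ∈ A}.ncard * cP (finrank F U) d =
      {g | g ∈ P U d ∧ g ∈ A}.ncard * cP (finrank F V) d := by
  have h := Res2_fib (P V d).toAddSubgroup (P U d).toAddSubgroup (res U a).toAddMonoidHom
    (fun f hf => res_mem_P hf U a) (fun g hg => res_surj U a hg)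
  have h1 : {f | f ∈ P V d ∧ res U a f ∈ A}.ncard =
      {g | g ∈ P U d ∧ g ∈ A}.ncard * {f | f ∈ P V d ∧ res U a f = 0}.ncard := h A
  have h2 : {f | f ∈ P V d ∧ res U a f ∈ Set.univ}.ncard =
      {g | g ∈ P U d ∧ g ∈ Set.univ}.ncard * {f | f ∈ P V d ∧ res U a f = 0}.ncard := h Set.univ
  simp only [Set.mem_univ, and_true] at h2
  have h3 : {f | f ∈ P V d}.ncard = cP (finrank F V) d := by
    rw [← card_P, ← Nat.card_coe_set_eq]; rfl
  have h4 : {f | f ∈ P U d}.ncard = cP (finrank F U) d := by
    rw [← card_P, ← Nat.card_coe_set_eq]; rfl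
  rw [h1, ← h3, h2, h4]
  ring

theorem Res2_av_sum {X W : Type} [Finite W] [Nonempty W] (s : Finset X) (g : X → W → ℝ) :
    av (fun w => ∑ x ∈ s, g x w) = ∑ x ∈ s, av (g x) := by
  classical
  induction s using Finset.induction_on with
  | empty => simpa using av_const (V := W) 0
  | insert x s hx ih =>
    simp only [Finset.sum_insert hx]
    rw [av_add, ih]

theorem Res2_quad (U : Submodule F V) {a b : V} (hab : a + b ∉ U) (l : Dual F U) :
    ∃ k ∈ P V 3, res U a k = 0 ∧ res U b k = fun x => l x := by
  obtain ⟨π, hπ⟩ := Res2_proj U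
  obtain ⟨lam, h1, h2⟩ := Submodule.exists_dual_map_eq_bot_of_notMem hab inferInstance
  have h3 : ∀ u : U, lam u = 0 := fun u => by
    have : lam u ∈ U.map lam := Submodule.mem_map_of_mem u.2
    rw [h2] at this
    exact this
  have h4 : lam (a + b) = 1 := by
    generalize lam (a + b) = t at h1
    revert t
    decide
  refine ⟨(fun x => lam x + lam a) * fun x => (l.comp π) x + l (π b),
    mul_mem_P (d := 1) (e := 1) (mem_P_two.2 ⟨lam, _, rfl⟩) (mem_P_two.2 ⟨l.comp π, _, rfl⟩),
    funext fun u => ?_, funext fun u => ?_⟩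
  · rw [res_apply, Pi.mul_apply, ← map_add, add_assoc, add_self_V, add_zero, h3, zero_mul]
    rfl
  · rw [res_apply, Pi.mul_apply, ← map_add, add_assoc, map_add, h3, add_comm b a, h4, zero_add,
      one_mul, LinearMap.comp_apply, ← map_add, ← map_add, add_assoc, add_self_V, add_zero, hπ]

/-- second moment on another coset.  For `l : Dual F U` the quadratic function
`k_l x = λ (x + a) * l (π (x + b))` (`λ` vanishes on `U`, `λ (a + b) = 1`, `π` a projection onto
`U`) has `res U a k_l = 0`, `res U b k_l = l`; adding it permutes the set;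
then `av_bias_sq_dual`. -/
theorem sum_bias_sq [Finite V] (U : Submodule F V) {a b : V} (hab : a + b ∉ U) {d : ℕ} (hd : 3 ≤ d)
    (A : Set (U → F)) :
    ∑ᶠ f ∈ {f | f ∈ P V d ∧ res U a f ∈ A}, bias (res U b f) ^ 2 =
      ({f | f ∈ P V d ∧ res U a f ∈ A}.ncard : ℝ) / Nat.card U := by
  have hfin : {f | f ∈ P V d ∧ res U a f ∈ A}.Finite := Set.toFinite _
  have : Finite (Dual F U) := Finite.of_injective (fun l : Dual F U => (l : U → F))
    DFunLike.coe_injective
  rw [finsum_mem_eq_finite_toFinset_sum _ hfin, Set.ncard_eq_toFinset_card _ hfin]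
  have h1 : ∀ l : Dual F U, ∑ f ∈ hfin.toFinset, bias (res U b f) ^ 2 =
      ∑ f ∈ hfin.toFinset, bias (res U b f + fun x => l x) ^ 2 := by
    intro l
    obtain ⟨k, k1, k2, k3⟩ := Res2_quad U hab l
    have k4 : ∀ f ∈ hfin.toFinset, f + k ∈ hfin.toFinset := by
      intro f hf
      rw [Set.Finite.mem_toFinset] at hf ⊢
      exact ⟨(P V d).add_mem hf.1 (P_mono hd k1), by rw [map_add, k2, add_zero]; exact hf.2⟩
    have k5 : ∀ f : V → F, f + k + k = f := fun f => by
      rw [add_assoc, add_self_fun, add_zero]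
    symm
    refine Finset.sum_nbij' (fun f => f + k) (fun f => f + k) k4 k4 (fun f _ => k5 f)
      (fun f _ => k5 f) fun f _ => ?_
    rw [map_add, k3]
  rw [← av_const (V := Dual F U) (∑ f ∈ hfin.toFinset, bias (res U b f) ^ 2), funext h1,
    Res2_av_sum hfin.toFinset fun f (l : Dual F U) => bias (res U b f + fun x => l x) ^ 2,
    Finset.sum_congr rfl fun f _ => av_bias_sq_dual (res U b f), Finset.sum_const, nsmul_eq_mul,
    mul_one_div]

/-- Chebyshev: for most extensions the other cosets contribute little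
(`bias_split`, `sq_av_le`, `sum_bias_sq`) -/
theorem cheb [Finite V] (U : Submodule F V) (a : V) {d : ℕ} (hd : 3 ≤ d) (A : Set (U → F))
    {γ : ℝ} (hγ : 0 < γ) :
    ({f | (f ∈ P V d ∧ res U a f ∈ A) ∧
        bias f < (Nat.card U : ℝ) / Nat.card V * bias (res U a f) - γ}.ncard : ℝ) ≤
      ({f | f ∈ P V d ∧ res U a f ∈ A}.ncard : ℝ) / (γ ^ 2 * Nat.card U) := by
  have hfin : {f | f ∈ P V d ∧ res U a f ∈ A}.Finite := Set.toFinite _
  have hfin' : {f | (f ∈ P V d ∧ res U a f ∈ A) ∧
      bias f < (Nat.card U : ℝ) / Nat.card V * bias (res U a f) - γ}.Finite := Set.toFinite _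
  let h : (V → F) → V → ℝ := fun f b =>
    ({b : V | a + b ∉ U}.indicator (fun b => bias (res U b f)) b) ^ 2
  have hU : (0 : ℝ) < Nat.card U := by exact_mod_cast Nat.card_pos
  have h0 : ∀ f, 0 ≤ av (h f) := fun f =>
    (sq_nonneg _).trans (sq_av_le ({b : V | a + b ∉ U}.indicator fun b => bias (res U b f)))
  have h1 : ∀ f ∈ hfin'.toFinset, γ ^ 2 ≤ av (h f) := by
    intro f hf
    rw [Set.Finite.mem_toFinset] at hf
    have h2 := hf.2
    rw [bias_split U a f] at h2
    refine le_trans ?_ (sq_av_le ({b : V | a + b ∉ U}.indicator fun b => bias (res U b f)))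
    nlinarith
  have h2 : ∑ f ∈ hfin.toFinset, av (h f) ≤
      ({f | f ∈ P V d ∧ res U a f ∈ A}.ncard : ℝ) / Nat.card U := by
    rw [← Res2_av_sum, ← av_const (V := V) (_ / _)]
    refine av_mono fun b => ?_
    by_cases hb : a + b ∉ U
    · rw [← sum_bias_sq U hb hd A, finsum_mem_eq_finite_toFinset_sum _ hfin]
      refine le_of_eq (Finset.sum_congr rfl fun f _ => ?_)
      simp only [h]
      rw [Set.indicator_of_mem (show b ∈ {b : V | a + b ∉ U} from hb)]
    · rw [Finset.sum_eq_zero]
      · positivity
      · intro f _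
        simp only [h]
        rw [Set.indicator_of_notMem (show b ∉ {b : V | a + b ∉ U} from hb)]
        ring
  have h3 : ∑ f ∈ hfin'.toFinset, av (h f) ≤ ∑ f ∈ hfin.toFinset, av (h f) := by
    refine Finset.sum_le_sum_of_subset_of_nonneg (fun f hf => ?_) fun f _ _ => h0 f
    rw [Set.Finite.mem_toFinset] at hf ⊢
    exact hf.1
  have h4 := Finset.card_nsmul_le_sum _ _ _ h1
  rw [nsmul_eq_mul] at h4
  rw [Set.ncard_eq_toFinset_card _ hfin', mul_comm, ← div_div, le_div_iff₀ (by positivity)]
  linarith

end Pool.Agent.P.MP_cb6780_lc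
end
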