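import Pool.Agent.K.MP_cb6780_lc.C0

-- part Pool.Agent.P.MP_cb6780_lc.KT
section

set_option autoImplicit false

/-! Cubic functions of weight `< 2d` (Kasami-Tokura for `r = 3`). -/

namespace Pool.Agent.P.MP_cb6780_lc

open Module

variable {V : Type} [AddCommGroup V] [Module F V] [Finite V]

omit [Finite V] in
theorem KT_mem {W : Submodule F V} {x y : V} (h : x ∈ W) (z : V) (e : y = x + (z + z)) :
    y ∈ W := by
  rw [e, add_self_V, add_zero]
  exact h

theorem KT_F (a : F) : a = 0 ∨ a = 1 := by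
  revert a
  decide

theorem KT_add_eq_zero {X : Type} {f g : X → F} (h : f + g = 0) : g = f := by
  have h1 : f + (f + g) = g := by rw [← add_assoc, add_self_fun, zero_add]
  rw [← h1, h, add_zero]

theorem KT_sup {W : Submodule F V} {e : V} (he : e ∉ W) :
    finrank F ↥(W ⊔ Submodule.span F {e}) = finrank F W + 1 := by
  have h0 : e ≠ 0 := fun h => he (h ▸ W.zero_mem)
  have h1 := Submodule.finrank_add_le_finrank_add_finrank W (Submodule.span F {e})
  rw [finrank_span_singleton h0] at h1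
  have h2 : W < W ⊔ Submodule.span F {e} := lt_of_le_of_ne le_sup_left fun h =>
    he (h ▸ Submodule.mem_sup_right (Submodule.mem_span_singleton_self e))
  have h3 := Submodule.finrank_lt_finrank_of_lt h2
  omega

theorem KT_exists {W : Submodule F V} (h : finrank F W < finrank F V) : ∃ e, e ∉ W := by
  by_contra hc
  push Not at hc
  have h1 : W = ⊤ := Submodule.eq_top_iff'.2 hc
  rw [h1, finrank_top] at h
  exact lt_irrefl _ h

/-- the four cosets of a subspace of codimension two -/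
theorem four {W : Submodule F V} (hW : finrank F W + 2 = finrank F V) :
    ∃ e e' : V, e ∉ W ∧ e' ∉ W ∧ e + e' ∉ W ∧
      (∀ x, x ∈ W ∨ x + e ∈ W ∨ x + e' ∈ W ∨ x + (e + e') ∈ W) ∧
      ∀ (p : V) (g : V → F), 4 * bias g = bias (res W p g) + bias (res W (p + e) g) +
        bias (res W (p + e') g) + bias (res W (p + (e + e')) g) := by
  obtain ⟨e, he⟩ := KT_exists (W := W) (by omega)
  have r1 := KT_sup he
  obtain ⟨e', he'⟩ := KT_exists (W := W ⊔ Submodule.span F {e}) (by omega)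
  have r2 := KT_sup he'
  have htop : W ⊔ Submodule.span F {e} ⊔ Submodule.span F {e'} = ⊤ :=
    Submodule.eq_top_of_finrank_eq (by omega)
  have hcov : ∀ x, x ∈ W ∨ x + e ∈ W ∨ x + e' ∈ W ∨ x + (e + e') ∈ W := by
    intro x
    have hx : x ∈ W ⊔ Submodule.span F {e} ⊔ Submodule.span F {e'} := htop ▸ Submodule.mem_top
    obtain ⟨y, hy, z, hz, rfl⟩ := Submodule.mem_sup.1 hx
    obtain ⟨w, hw, v, hv, rfl⟩ := Submodule.mem_sup.1 hy
    obtain ⟨a, rfl⟩ := Submodule.mem_span_singleton.1 hv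
    obtain ⟨b, rfl⟩ := Submodule.mem_span_singleton.1 hz
    rcases KT_F a with rfl | rfl <;> rcases KT_F b with rfl | rfl <;>
      simp only [zero_smul, one_smul, add_zero]
    · exact Or.inl hw
    · exact Or.inr (Or.inr (Or.inl (KT_mem hw e' (by abel))))
    · exact Or.inr (Or.inl (KT_mem hw e (by abel)))
    · exact Or.inr (Or.inr (Or.inr (KT_mem hw (e + e') (by abel))))
  refine ⟨e, e', he, fun h => he' (Submodule.mem_sup_left h), fun h => he' ?_, hcov, fun p g => ?_⟩
  · exact KT_mem (add_mem (Submodule.mem_sup_left h)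
      (Submodule.mem_sup_right (Submodule.mem_span_singleton_self e))) (-e) (by abel)
  set h : V → ℝ := fun a => bias (res W a g) with hh
  have hc : ∀ a b, a + b ∈ W → h a = h b := fun a b hab => bias_res_congr W hab g
  have ht : ∀ c : V, av (fun a => h (a + c)) = bias g := fun c => by
    rw [bias_eq_av_res W g]
    exact av_congr (Equiv.addRight c) h
  have hs : ∀ a, h a + h (a + e) + h (a + e') + h (a + (e + e')) =
      h p + h (p + e) + h (p + e') + h (p + (e + e')) := by
    intro a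
    rcases hcov (a + p) with H | H | H | H
    · rw [hc a p H, hc (a + e) (p + e) (KT_mem H e (by abel)),
        hc (a + e') (p + e') (KT_mem H e' (by abel)),
        hc (a + (e + e')) (p + (e + e')) (KT_mem H (e + e') (by abel))]
    · rw [hc a (p + e) (KT_mem H 0 (by abel)), hc (a + e) p (KT_mem H 0 (by abel)),
        hc (a + e') (p + (e + e')) (KT_mem H e' (by abel)),
        hc (a + (e + e')) (p + e') (KT_mem H e' (by abel))]
      ring
    · rw [hc a (p + e') (KT_mem H 0 (by abel)), hc (a + e) (p + (e + e')) (KT_mem H e (by abel)),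
        hc (a + e') p (KT_mem H 0 (by abel)),
        hc (a + (e + e')) (p + e) (KT_mem H e (by abel))]
      ring
    · rw [hc a (p + (e + e')) (KT_mem H 0 (by abel)), hc (a + e) (p + e') (KT_mem H 0 (by abel)),
        hc (a + e') (p + e) (KT_mem H 0 (by abel)),
        hc (a + (e + e')) p (KT_mem H 0 (by abel))]
      ring
  have h1 : av (fun a => h a + h (a + e) + h (a + e') + h (a + (e + e'))) =
      h p + h (p + e) + h (p + e') + h (p + (e + e')) := by
    rw [funext hs]
    exact av_const _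
  rw [av_add, av_add, av_add, ht, ht, ht, ← bias_eq_av_res W g] at h1
  linarith

/-- two restrictions of a cubic differ by a quadratic -/
theorem res_add_res {d : ℕ} {g : V → F} (hg : g ∈ P V (d + 1)) (W : Submodule F V) (a b : V) :
    res W a g + res W b g ∈ P W d := by
  have h1 : res W a g + res W b g = res W a (D (a + b) g) := by
    funext u
    have h2 : (u : V) + a + (a + b) = u + b := by
      have h3 : (u : V) + a + (a + b) = u + b + (a + a) := by abel
      rw [h3, add_self_V, add_zero]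
    rw [Pi.add_apply, res_apply, res_apply, res_apply, D_apply, h2, add_comm]
  rw [h1]
  exact res_mem_P (mem_P_succ.1 hg _) W a

/-- three cubics with quadratic differences and total bias `> 5/2`: each bias is `> 1/2`, the sums of two
have bias `> 1/2`, hence vanish (`min_dist`), so the common bias is `> 5/6 > 3/4` -/
theorem three {k1 k2 k3 : V → F} (h1 : k1 ∈ P V 4) (h12 : k1 + k2 ∈ P V 3) (h13 : k1 + k3 ∈ P V 3)
    (h : 5 / 2 < bias k1 + bias k2 + bias k3) : k1 = 0 ∧ k2 = 0 ∧ k3 = 0 := by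
  have b2 := (abs_le.1 (abs_bias_le k2)).2
  have b3 := (abs_le.1 (abs_bias_le k3)).2
  have e2 : k2 = k1 := by
    refine KT_add_eq_zero ?_
    by_contra h0
    have a1 := min_dist (d := 2) h12 h0
    have a2 := bias_add_ge k1 k2
    norm_num at a1
    linarith
  have e3 : k3 = k1 := by
    refine KT_add_eq_zero ?_
    by_contra h0
    have a1 := min_dist (d := 2) h13 h0
    have a2 := bias_add_ge k1 k3
    norm_num at a1
    linarith
  have e1 : k1 = 0 := by
    by_contra h0
    have a1 := min_dist (d := 3) h1 h0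
    rw [e2, e3] at h
    norm_num at a1
    linarith
  exact ⟨e1, e2.trans e1, e3.trans e1⟩

theorem KT_half {g : V → F} (hg : g ∈ P V 4) (h0 : g ≠ 0) (h : 1 / 2 < bias g) :
    ∃ y, bias (D y g) = 1 / 2 := by
  classical
  by_contra hc
  push Not at hc
  have h1 : ∀ y, bias (D y g) ≤ 1 / 4 + 3 / 4 * (Per g : Set V).indicator (fun _ => (1 : ℝ)) y := by
    intro y
    by_cases hy : y ∈ (Per g : Set V)
    · rw [Set.indicator_of_mem hy]
      have := (abs_le.1 (abs_bias_le (D y g))).2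
      linarith
    · rw [Set.indicator_of_notMem hy, mul_zero, add_zero]
      have a1 := bias_D_ge g y
      obtain ⟨k, hk⟩ := quad_bias (mem_P_succ.1 hg y) (by linarith)
      rcases k with _ | _ | k
      · exact absurd (mem_Per.2 (eq_zero_of_bias (by rw [hk]; norm_num))) hy
      · exact absurd (by rw [hk]; norm_num) (hc y)
      · rw [hk]
        refine one_div_le_one_div_of_le (by norm_num) ?_
        have a2 : (1 : ℝ) ≤ 2 ^ k := one_le_pow₀ one_le_two
        rw [pow_succ, pow_succ]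
        linarith
  have h2 := av_mono h1
  rw [← bias_sq, av_add, av_const, av_mul_left, av_indicator] at h2
  have h3 : finrank F (Per g) + (finrank F V - finrank F (Per g)) = finrank F V :=
    Nat.add_sub_of_le (Submodule.finrank_le _)
  set j := finrank F V - finrank F (Per g) with hj
  have h4 := card_sub (Per g) h3
  have h5 : ((Per g : Set V).ncard : ℝ) = Nat.card (Per g) := by
    rw [← Nat.card_coe_set_eq]
    rfl
  rw [h5, h4] at h2
  obtain ⟨k, hk⟩ := card_dvd_wt (le_refl (Per g))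
  have h6 : bias g = 1 - 2 * k * (1 / 2 ^ j) := by
    rw [bias_eq_wt, hk, ← h4]
    push_cast
    ring
  have hk0 : k ≠ 0 := by
    rintro rfl
    exact h0 (eq_zero_of_bias (by rw [h6]; simp))
  have hp : (0 : ℝ) < 2 ^ j := by positivity
  have h7 : 4 * k < 2 ^ j := by
    have a1 : (4 * k : ℝ) * (1 / 2 ^ j) < 1 := by linarith
    rw [mul_one_div, div_lt_one hp] at a1
    exact_mod_cast a1
  have h8 : 4 * k + 4 ≤ 2 ^ j := by
    rcases j with _ | _ | i
    · omega
    · omega
    · rw [pow_succ, pow_succ] at h7 ⊢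
      omega
  have h9 : (4 * k + 4 : ℝ) * (1 / 2 ^ j) ≤ 1 := by
    rw [mul_one_div, div_le_one hp]
    exact_mod_cast h8
  have h10 : (0 : ℝ) < 1 / 2 ^ j := by positivity
  have h11 : 1 / 2 + 2 * (1 / 2 ^ j) ≤ bias g := by
    rw [h6]
    linarith
  nlinarith

/-- Some derivative has bias `1/2`.  All derivatives are quadratic of positive bias (`bias_D_ge`), so of bias
`2^(-h)`.  If none has bias `1/2` then `β² ≤ ρ + (1-ρ)/4` with `ρ = |Per g|/|V| = 2^(-j)`; but `β = 1 - 2kρ`
with `k ≥ 1` (`card_dvd_wt`), so `j ≥ 2`, `β ≥ 1/2 + 2ρ`, `β² > 1/4 + 2ρ`. -/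
theorem dec {g : V → F} (hg : g ∈ P V 4) (h0 : g ≠ 0) (h : 1 / 2 < bias g) :
    ∃ (W : Submodule F V) (p y : V), finrank F W + 2 = finrank F V ∧ y ∈ W ∧
      D y g = ind W p ∧ bias (res W p g) = 0 := by
  obtain ⟨y, hy⟩ := KT_half hg h0 h
  obtain ⟨W, p, hW, e⟩ := quad_half (mem_P_succ.1 hg y) hy
  have hyW : y ∈ W := by
    rw [← Per_ind W p, ← e]
    exact mem_Per.2 (D_D_self y g)
  refine ⟨W, p, y, hW, hyW, e, bias_eq_zero_of_D (y := ⟨y, hyW⟩) ?_⟩
  funext u
  have h1 : D y g (u + p) = 1 := by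
    rw [e, ind, if_pos (KT_mem u.2 p (by abel))]
  rw [D_apply] at h1
  rw [D_apply, res_apply, res_apply, Submodule.coe_add, add_right_comm, h1]
  rfl

theorem KT_three {g : V → F} (hg : g ∈ P V 4) (W : Submodule F V) (a b c : V)
    (h : 5 / 2 < bias (res W a g) + bias (res W b g) + bias (res W c g)) :
    res W a g = 0 ∧ res W b g = 0 ∧ res W c g = 0 :=
  three (res_mem_P hg W a) (res_add_res hg W a b) (res_add_res hg W a c) h

omit [Finite V] in
theorem KT_res_zero {g : V → F} {W : Submodule F V} {a x : V} (h : res W a g = 0)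
    (hx : x + a ∈ W) : g x = 0 := by
  have h1 := congrFun h ⟨x + a, hx⟩
  rw [res_apply, add_assoc, add_self_V, add_zero] at h1
  exact h1

/-- `dec`, `four`, `three`: `g` lives on `p + W`, has bias `3/4`, and there it is affine (second derivative
along `e, e'`), so `Per g` contains the kernel `Z` of its linear part in `W`; `eq_ind_of_Per` -/
theorem minwt {g : V → F} (hg : g ∈ P V 4) (h0 : g ≠ 0) (h : 2 / 3 < bias g) :
    ∃ (Z : Submodule F V) (p : V), finrank F Z + 3 = finrank F V ∧ g = ind Z p := by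
  obtain ⟨W, p, y, hW, -, -, hb⟩ := dec hg h0 (by linarith)
  obtain ⟨e, e', he, he', hee, hcov, hsum⟩ := four hW
  have h4 := hsum p g
  obtain ⟨z1, z2, z3⟩ := KT_three hg W (p + e) (p + e') (p + (e + e')) (by linarith)
  rw [hb, z1, z2, z3, bias_zero] at h4
  have hoff : ∀ x, x + p ∉ W → g x = 0 := by
    intro x hx
    rcases hcov (x + p) with H | H | H | H
    · exact absurd H hx
    · exact KT_res_zero z1 (by rwa [← add_assoc])
    · exact KT_res_zero z2 (by rwa [← add_assoc])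
    · exact KT_res_zero z3 (by rwa [← add_assoc])
  have haff : res W p g ∈ P W 2 := by
    have a1 : res W p g = res W p (D e (D e' g)) := by
      funext u
      have b1 : g (u + p + e) = 0 := KT_res_zero z1 (KT_mem u.2 (p + e) (by abel))
      have b2 : g (u + p + e') = 0 := KT_res_zero z2 (KT_mem u.2 (p + e') (by abel))
      have b3 : g (u + p + e + e') = 0 := KT_res_zero z3 (KT_mem u.2 (p + (e + e')) (by abel))
      rw [res_apply, res_apply, D_apply, D_apply, D_apply, b1, b2, b3]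
      simp
    rw [a1]
    exact res_mem_P (mem_P_succ.1 (mem_P_succ.1 hg e') e) W p
  obtain ⟨l, c, hl⟩ := mem_P_two.1 haff
  have hl0 : l ≠ 0 := by
    rintro rfl
    rw [hl] at hb
    have a1 : bias (fun x : W => (0 : Dual F W) x + c) = chi c := by
      simp only [bias, LinearMap.zero_apply, zero_add]
      exact av_const _
    have a2 := abs_chi c
    rw [← a1, hb] at a2
    norm_num at a2
  have hZ : finrank F ((LinearMap.ker l).map W.subtype) + 3 = finrank F V := by
    have a1 := Module.Dual.finrank_ker_add_one_of_ne_zero hl0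
    rw [Submodule.finrank_map_subtype_eq]
    omega
  have hper : (LinearMap.ker l).map W.subtype ≤ Per g := by
    rintro _ ⟨z, hz, rfl⟩
    refine mem_Per.2 (funext fun x => ?_)
    rw [D_apply, Pi.zero_apply, Submodule.subtype_apply]
    by_cases hx : x + p ∈ W
    · have a1 := congrFun hl ⟨x + p, hx⟩
      have a2 := congrFun hl (⟨x + p, hx⟩ + z)
      rw [map_add, LinearMap.mem_ker.1 hz, add_zero, ← a1, res_apply, res_apply] at a2
      have a3 : ((⟨x + p, hx⟩ + z : W) : V) + p = x + z := by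
        have a4 : x + p + z + p = x + z + (p + p) := by abel
        rw [Submodule.coe_add, a4, add_self_V, add_zero]
      have a5 : ((⟨x + p, hx⟩ : W) : V) + p = x := by
        show x + p + p = x
        rw [add_assoc, add_self_V, add_zero]
      rw [a3, a5] at a2
      rw [a2]
      exact CharTwo.add_self_eq_zero _
    · rw [hoff x hx, hoff (x + z) fun H => hx (KT_mem (add_mem H z.2) (-z) (by abel)), add_zero]
  obtain ⟨q, hq⟩ := eq_ind_of_Per hper (by rw [card_sub _ hZ]; linarith)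
  exact ⟨_, q, hZ, hq⟩

/-- `g + g'` has bias `> 1/4`, so `1/2`, so it is `ind W p`; off `p + W` the two functions agree, on it they
are complementary; `three` -/
theorem pair {g g' : V → F} (hg : g ∈ P V 4) (h0 : g ≠ 0) (h0' : g' ≠ 0) (hq : g + g' ∈ P V 3)
    (hne : g ≠ g') (h : 5 / 4 < bias g + bias g') : bias g = 3 / 4 ∧ bias g' = 3 / 4 := by
  have e0 : g' = g + (g + g') := by rw [← add_assoc, add_self_fun, zero_add]
  have hg' : g' ∈ P V 4 := by
    rw [e0]
    exact add_mem hg (P_le_succ 3 hq)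
  have a1 := bias_add_ge g g'
  have hhalf : bias (g + g') = 1 / 2 := by
    obtain ⟨k, hk⟩ := quad_bias hq (by linarith)
    rcases k with _ | _ | k
    · exact absurd (KT_add_eq_zero (eq_zero_of_bias (by rw [hk]; norm_num))).symm hne
    · rw [hk]
      norm_num
    · exfalso
      have a2 : (1 : ℝ) ≤ 2 ^ k := one_le_pow₀ one_le_two
      have a3 : (1 : ℝ) / 2 ^ (k + 1 + 1) ≤ 1 / 4 := by
        refine one_div_le_one_div_of_le (by norm_num) ?_
        rw [pow_succ, pow_succ]
        linarith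
      linarith
  obtain ⟨W, p, hW, hi⟩ := quad_half hq hhalf
  obtain ⟨e, e', he, he', hee, -, hsum⟩ := four hW
  have hoff : ∀ c, c ∉ W → res W (p + c) g' = res W (p + c) g := by
    intro c hc
    funext u
    have b1 : ind W p (u + (p + c)) = 0 := by
      rw [ind, if_neg fun H => hc (KT_mem (add_mem H u.2) (-(p + u)) (by abel))]
    rw [res_apply, res_apply, e0, hi, Pi.add_apply, b1, add_zero]
  have hon : res W p g' = res W p g + 1 := by
    funext u
    have b1 : ind W p (u + p) = 1 := by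
      rw [ind, if_pos (KT_mem u.2 p (by abel))]
    rw [Pi.add_apply, res_apply, res_apply, e0, hi, Pi.add_apply, b1, Pi.one_apply]
  have s1 := hsum p g
  have s2 := hsum p g'
  rw [hon, bias_add_one, hoff e he, hoff e' he', hoff _ hee] at s2
  obtain ⟨z1, z2, z3⟩ := KT_three hg W (p + e) (p + e') (p + (e + e')) (by linarith)
  rw [z1, z2, z3, bias_zero] at s1 s2
  have m1 := min_dist (d := 3) hg h0
  have m2 := min_dist (d := 3) hg' h0'
  norm_num at m1 m2
  constructor <;> linarith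

end Pool.Agent.P.MP_cb6780_lc
end

-- part Pool.Agent.P.MP_cb6780_lc.KT2
section

set_option autoImplicit false

namespace Pool.Agent.P.MP_cb6780_lc

open Module

variable {V : Type} [AddCommGroup V] [Module F V] [Finite V]

/-- `g` vanishes outside an affine hyperplane -/
def InHyp (g : V → F) : Prop :=
  ∃ (H : Submodule F V) (a : V), finrank F H + 1 = finrank F V ∧ ∀ x, x + a ∉ H → g x = 0

/-- sum of two cubes -/
def TwoCubes (g : V → F) : Prop :=
  ∃ (W Z : Submodule F V) (p q : V) (u : V → F), finrank F W + 2 = finrank F V ∧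
    finrank F Z + 3 = finrank F V ∧ u ∈ P V 2 ∧ g = ind W p * u + ind Z q

theorem kt2_cases (a : F) : a = 0 ∨ a = 1 := by revert a; decide

theorem kt2_rank {W : Submodule F V} {u : V} (hu : u ∉ W) :
    finrank F ↥(W ⊔ Submodule.span F {u}) = finrank F W + 1 := by
  have h0 : u ≠ 0 := fun h => hu (h ▸ W.zero_mem)
  have h1 := Submodule.finrank_sup_add_finrank_inf_eq W (Submodule.span F {u})
  rw [finrank_span_singleton h0,
    (Submodule.disjoint_span_singleton' h0 |>.2 hu).eq_bot, finrank_bot] at h1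
  omega

omit [Finite V] in
theorem kt2_mem {W : Submodule F V} {u x : V} :
    x ∈ W ⊔ Submodule.span F {u} ↔ x ∈ W ∨ x + u ∈ W := by
  constructor
  · intro h
    obtain ⟨w, hw, z, hz, rfl⟩ := Submodule.mem_sup.1 h
    obtain ⟨a, rfl⟩ := Submodule.mem_span_singleton.1 hz
    rcases kt2_cases a with rfl | rfl
    · left; simpa using hw
    · right; rw [one_smul, add_assoc, add_self_V, add_zero]; exact hw
  · rintro (h | h)
    · exact Submodule.mem_sup_left h
    · have : x = x + u + u := by rw [add_assoc, add_self_V, add_zero]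
      rw [this]
      exact Submodule.add_mem_sup h (Submodule.mem_span_singleton_self u)

omit [Finite V] in
theorem kt2_val (W : Submodule F V) (g : V → F) {a x : V} (h : x + a ∈ W) :
    g x = res W a g ⟨x + a, h⟩ := by
  rw [res_apply]
  congr 1
  rw [add_assoc, add_self_V, add_zero]

theorem kt2_two {W : Submodule F V} (hW : finrank F W + 2 = finrank F V) {g : V → F} {p a b : V}
    (hab : a + b ∉ W) (hc : ∀ x, x ∈ W ∨ x + a ∈ W ∨ x + b ∈ W ∨ x + (a + b) ∈ W)
    (ha : res W (p + a) g = 0) (hb : res W (p + b) g = 0) : InHyp g := by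
  refine ⟨W ⊔ Submodule.span F {a + b}, p, by rw [kt2_rank hab]; omega, fun x hx => ?_⟩
  rw [kt2_mem, not_or] at hx
  rcases hc (x + p) with h | h | h | h
  · exact absurd h hx.1
  · rw [add_assoc] at h; rw [kt2_val W g h, ha]; rfl
  · rw [add_assoc] at h; rw [kt2_val W g h, hb]; rfl
  · exact absurd h hx.2

theorem kt2_per {k k' : V → F} (hq : k + k' ∈ P V 3) (hb : bias k' = 3 / 4) : Per k ≤ Per k' := by
  intro w hw
  rw [mem_Per] at hw ⊢
  have h1 : D w k' ∈ P V 2 := by
    have := mem_P_succ.1 hq w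
    rwa [map_add, hw, zero_add] at this
  by_contra h
  have h2 := min_dist h1 h
  have h3 := bias_D_ge k' w
  norm_num at h2
  linarith

/-- Take `dec`, `four`; `g1, g2, g3` the restrictions to the three cosets other than `p + W`, total bias `> 2`.
If one vanishes all are quadratic, so two vanish and `g` vanishes on the union of two cosets: `InHyp`.
Otherwise each bias is `≤ 3/4`; if all three agree the bias is `> 2/3`, else `pair`; so by `minwt` all are
indicators of cosets `p_i + Z_i` in `W`.  They have the same periods (for `w ∈ Per g1`, `D w g2 = D w (g1 + g2)`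
is affine of bias `≥ 1/2`, so `0`).  With `q_i ∈ V` the base points, `Z' = Z + <q_1 + q_2, q_1 + q_3>` has
codimension three and `k = g + ind Z' q_1` vanishes off `p + W`, so `k = ind W p * D e (D e' k)`. -/
theorem kt {g : V → F} (hg : g ∈ P V 4) (h0 : g ≠ 0) (h : 1 / 2 < bias g) :
    InHyp g ∨ (bias g = 9 / 16 ∧ TwoCubes g) := by
  classical
  obtain ⟨W, p, y, hW, -, -, hb0⟩ := dec hg h0 h
  obtain ⟨e, e', he, he', hee, hc, h4⟩ := four hW
  have r1 : e + (e + e') = e' := by rw [← add_assoc, add_self_V, zero_add]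
  have r2 : e' + (e + e') = e := by rw [add_comm e, ← add_assoc, add_self_V, zero_add]
  have hs := h4 p g
  have q12 := res_add_res hg W (p + e) (p + e')
  have q13 := res_add_res hg W (p + e) (p + (e + e'))
  have q23 := res_add_res hg W (p + e') (p + (e + e'))
  have c1 := res_mem_P hg W (p + e)
  have c2 := res_mem_P hg W (p + e')
  have c3 := res_mem_P hg W (p + (e + e'))
  have v1 := fun x (hx : x + (p + e) ∈ W) => kt2_val W g hx
  have v2 := fun x (hx : x + (p + e') ∈ W) => kt2_val W g hx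
  have v3 := fun x (hx : x + (p + (e + e')) ∈ W) => kt2_val W g hx
  have t12 := kt2_two (g := g) (p := p) hW hee hc
  have t13 := kt2_two (g := g) (p := p) (a := e) (b := e + e') hW (by rwa [r1])
    (fun x => by rw [r1]; have := hc x; tauto)
  have t23 := kt2_two (g := g) (p := p) (a := e') (b := e + e') hW (by rwa [r2])
    (fun x => by rw [r2]; have := hc x; tauto)
  generalize res W (p + e) g = g1 at *
  generalize res W (p + e') g = g2 at *
  generalize res W (p + (e + e')) g = g3 at *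
  have u1 := (abs_le.1 (abs_bias_le g1)).2
  have u2 := (abs_le.1 (abs_bias_le g2)).2
  have u3 := (abs_le.1 (abs_bias_le g3)).2
  have mq : ∀ k : W → F, k ∈ P W 3 → k ≠ 0 → bias k ≤ 1 / 2 := fun k a b => by
    have := min_dist a b; norm_num at this; linarith
  have mc : ∀ k : W → F, k ∈ P W 4 → k ≠ 0 → bias k ≤ 3 / 4 := fun k a b => by
    have := min_dist a b; norm_num at this; linarith
  by_cases z1 : g1 = 0
  · left
    by_cases z2 : g2 = 0
    · exact t12 z1 z2
    by_cases z3 : g3 = 0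
    · exact t13 z1 z3
    rw [z1, zero_add] at q12 q13
    have := mq _ q12 z2
    have := mq _ q13 z3
    linarith
  by_cases z2 : g2 = 0
  · left
    by_cases z3 : g3 = 0
    · exact t23 z2 z3
    rw [z2] at q12 q23
    rw [add_zero] at q12
    rw [zero_add] at q23
    have := mq _ q12 z1
    have := mq _ q23 z3
    linarith
  by_cases z3 : g3 = 0
  · exfalso
    rw [z3, add_zero] at q13 q23
    have := mq _ q13 z1
    have := mq _ q23 z2
    linarith
  right
  have m1 := mc _ c1 z1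
  have m2 := mc _ c2 z2
  have m3 := mc _ c3 z3
  have hall : 2 / 3 < bias g1 ∧ 2 / 3 < bias g2 ∧ 2 / 3 < bias g3 := by
    by_cases a12 : g1 = g2
    · by_cases a13 : g1 = g3
      · rw [← a12, ← a13] at hs ⊢
        refine ⟨?_, ?_, ?_⟩ <;> linarith
      · have := pair c1 z1 z3 q13 a13 (by linarith)
        rw [← a12]
        refine ⟨?_, ?_, ?_⟩ <;> linarith [this.1, this.2]
    · have := pair c1 z1 z2 q12 a12 (by linarith)
      by_cases a13 : g1 = g3
      · rw [← a13]
        refine ⟨?_, ?_, ?_⟩ <;> linarith [this.1, this.2]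
      · have t := pair c1 z1 z3 q13 a13 (by linarith)
        refine ⟨?_, ?_, ?_⟩ <;> linarith [this.1, this.2, t.2]
  obtain ⟨Z, p1, hZ, e1⟩ := minwt c1 z1 hall.1
  obtain ⟨Z2, p2, hZ2, e2⟩ := minwt c2 z2 hall.2.1
  obtain ⟨Z3, p3, hZ3, e3⟩ := minwt c3 z3 hall.2.2
  have b1 : bias g1 = 3 / 4 := by rw [e1, bias_ind, card_sub Z hZ]; norm_num
  have b2 : bias g2 = 3 / 4 := by rw [e2, bias_ind, card_sub Z2 hZ2]; norm_num
  have b3 : bias g3 = 3 / 4 := by rw [e3, bias_ind, card_sub Z3 hZ3]; norm_num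
  refine ⟨by linarith, ?_⟩
  obtain rfl : Z = Z2 := by
    have := le_antisymm (kt2_per q12 b2) (kt2_per (by rwa [add_comm] at q12) b1)
    rwa [e1, e2, Per_ind, Per_ind] at this
  obtain rfl : Z = Z3 := by
    have := le_antisymm (kt2_per q13 b3) (kt2_per (by rwa [add_comm] at q13) b1)
    rwa [e1, e3, Per_ind, Per_ind] at this
  have hZW : Z.map W.subtype ≤ W := Submodule.map_subtype_le W Z
  have two : ∀ x : V, x + x = 0 := add_self_V
  have nW : ∀ {x z : V}, x ∈ W → z ∉ W → x + z ∉ W := fun hx hz h =>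
    hz ((W.add_mem_iff_right hx).1 h)
  set u : V := (p1 : V) + p2 + (e + e') with hu
  set v : V := (p1 : V) + p3 + e' with hv
  have huv : v + u = (p2 : V) + p3 + e := by
    have : v + u = (p2 : V) + p3 + e + ((p1 : V) + p1) + (e' + e') := by rw [hu, hv]; abel
    rw [this, two, two, add_zero, add_zero]
  have nu : u ∉ W := nW (W.add_mem p1.2 p2.2) hee
  have nv : v ∉ W := nW (W.add_mem p1.2 p3.2) he'
  have nvu : v + u ∉ W := huv ▸ nW (W.add_mem p2.2 p3.2) he
  set Z' : Submodule F V := Z.map W.subtype ⊔ Submodule.span F {u} ⊔ Submodule.span F {v} with hZ'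
  have rk : finrank F Z' + 3 = finrank F V := by
    rw [hZ', kt2_rank, kt2_rank (fun h => nu (hZW h)), Submodule.finrank_map_subtype_eq]
    · omega
    · rw [kt2_mem]
      rintro (h | h)
      · exact nv (hZW h)
      · exact nvu (hZW h)
  have inW : ∀ x : W, (x : V) ∈ Z' ↔ x ∈ Z := by
    intro x
    constructor
    · intro h
      rw [hZ', kt2_mem, kt2_mem, kt2_mem] at h
      rcases h with (h | h) | h | h
      · obtain ⟨z, hz, e0⟩ := Submodule.mem_map.1 h
        rwa [← Subtype.ext e0]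
      · exact absurd (hZW h) (nW x.2 nu)
      · exact absurd (hZW h) (nW x.2 nv)
      · rw [add_assoc] at h
        exact absurd (hZW h) (nW x.2 nvu)
    · intro h
      exact Submodule.mem_sup_left (Submodule.mem_sup_left (Submodule.mem_map_of_mem h))
  have uZ : u ∈ Z' :=
    Submodule.mem_sup_left (Submodule.mem_sup_right (Submodule.mem_span_singleton_self u))
  have vZ : v ∈ Z' := Submodule.mem_sup_right (Submodule.mem_span_singleton_self v)
  set q : V := p + e + p1 with hq
  have off : ∀ x, x + p ∉ W → (g + ind Z' q) x = 0 := by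
    intro x hx
    have fin : ∀ (a : V) (h : x + (p + a) ∈ W) (b : W), x + q + (x + (p + a) + b) ∈ Z' →
        g x = ind Z b ⟨x + (p + a), h⟩ → (g + ind Z' q) x = 0 := by
      intro a h b hm hg'
      have : x + q ∈ Z' ↔ (⟨x + (p + a), h⟩ : W) + b ∈ Z := by
        rw [← inW]
        exact ⟨fun t => (Z'.add_mem_iff_right t).1 hm, fun t => (Z'.add_mem_iff_left t).1 hm⟩
      rw [Pi.add_apply, hg']
      simp only [ind, this]
      split_ifs <;> decide
    rcases hc (x + p) with h | h | h | h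
    · exact absurd h hx
    · rw [add_assoc] at h
      refine fin e h p1 ?_ (by rw [v1 x h, e1])
      have : x + q + (x + (p + e) + p1) = (x + q) + (x + q) := by rw [hq]; abel
      rw [this, two]; exact Z'.zero_mem
    · rw [add_assoc] at h
      refine fin e' h p2 ?_ (by rw [v2 x h, e2])
      have : x + q + (x + (p + e') + p2) = u + ((x + p) + (x + p)) := by rw [hq, hu]; abel
      rw [this, two, add_zero]; exact uZ
    · rw [add_assoc] at h
      refine fin (e + e') h p3 ?_ (by rw [v3 x h, e3])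
      have : x + q + (x + (p + (e + e')) + p3) = v + ((x + p + e) + (x + p + e)) := by
        rw [hq, hv]; abel
      rw [this, two, add_zero]; exact vZ
  have hk : g + ind Z' q ∈ P V 4 := (P V 4).add_mem hg (ind_mem_P rk q)
  refine ⟨W, Z', p, q, D e (D e' (g + ind Z' q)), hW, rk,
    mem_P_succ.1 (mem_P_succ.1 hk e') e, ?_⟩
  have : g + ind Z' q = ind W p * D e (D e' (g + ind Z' q)) := by
    generalize g + ind Z' q = k at off
    funext x
    rw [Pi.mul_apply, D_apply, D_apply, D_apply]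
    by_cases hx : x + p ∈ W
    · have a1 : k (x + e + e') = 0 := off _ (by
        have : x + e + e' + p = x + p + (e + e') := by abel
        rw [this]; exact nW hx hee)
      have a2 : k (x + e) = 0 := off _ (by rw [add_right_comm]; exact nW hx he)
      have a3 : k (x + e') = 0 := off _ (by rw [add_right_comm]; exact nW hx he')
      simp [ind, hx, a1, a2, a3]
    · simp [ind, hx, off x hx]
  rw [← this, add_assoc, add_self_fun, add_zero]

end Pool.Agent.P.MP_cb6780_lc
end

-- part Pool.Agent.P.MP_cb6780_lc.QCount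
section

set_option autoImplicit false

/-! The weight distribution of `RM(2,n)`. -/

namespace Pool.Agent.P.MP_cb6780_lc

open Module Filter Topology

theorem QCount_two (a : F) : a = 0 ∨ a = 1 := by revert a; decide

theorem QCount_ncard {V W : Type} (e : V ≃ W) (p : (V → F) → Prop) (p' : (W → F) → Prop)
    (H : ∀ q : W → F, p (fun v => q (e v)) ↔ p' q) : {q | p q}.ncard = {q | p' q}.ncard := by
  symm
  refine Set.ncard_congr (fun q _ => fun v => q (e v)) (fun q hq => (H q).2 hq)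
    (fun a b _ _ h => ?_) fun q hq => ?_
  · funext w
    have := congrFun h (e.symm w)
    simpa using this
  · have e1 : (fun v => (fun w => q (e.symm w)) (e v)) = q := by funext v; simp
    exact ⟨fun w => q (e.symm w), (H _).1 (by rw [e1]; exact hq), e1⟩

theorem QCount_comp {V W : Type} [AddCommGroup V] [Module F V] [AddCommGroup W] [Module F W]
    {d : ℕ} {f : V → F} (hf : f ∈ P V d) (φ : W →ₗ[F] V) : (fun w => f (φ w)) ∈ P W d := by
  simpa using comp_mem_P hf φ 0

theorem QCount_mem {V W : Type} [AddCommGroup V] [Module F V] [AddCommGroup W] [Module F W]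
    (e : V ≃ₗ[F] W) (d : ℕ) (q : W → F) : (fun v => q (e v)) ∈ P V d ↔ q ∈ P W d := by
  constructor
  · intro h
    simpa using QCount_comp h e.symm.toLinearMap
  · intro h
    exact QCount_comp h e.toLinearMap

theorem QCount_bias {V W : Type} (e : V ≃ W) (q : W → F) : bias (fun v => q (e v)) = bias q :=
  av_congr e fun w => chi (q w)

theorem qa_congr {V W : Type} [AddCommGroup V] [Module F V] [AddCommGroup W] [Module F W]
    (e : V ≃ₗ[F] W) (h : ℕ) : qa V h = qa W h :=
  QCount_ncard e.toEquiv _ _ fun q =>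
    and_congr (QCount_mem e 3 q) (by rw [QCount_bias e.toEquiv q])

theorem qa_zero (V : Type) [AddCommGroup V] [Module F V] [Finite V] : qa V 0 = 1 := by
  have : {q : V → F | q ∈ P V 3 ∧ bias q = 1 / 2 ^ 0} = {0} := by
    ext q
    simp only [Set.mem_ofPred_eq, Set.mem_singleton_iff, pow_zero, div_one]
    constructor
    · exact fun h => eq_zero_of_bias h.2
    · rintro rfl
      exact ⟨Submodule.zero_mem _, bias_zero⟩
  rw [qa, this, Set.ncard_singleton]

/-- the normal form -/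
def QCount_phi {W : Type} (t : (W → F) × (W → F) × (W → F)) : (F × F) × W → F :=
  fun x => (x.1.1 + t.2.1 x.2) * (x.1.2 + t.1 x.2) + t.2.2 x.2

theorem QCount_av4 (u v c : F) :
    av (fun z : F × F => chi ((z.1 + u) * (z.2 + v) + c)) = 1 / 2 * chi c := by
  have hs : ∀ g : F → ℝ, ∑ a, g a = g 0 + g 1 := fun g => Fin.sum_univ_two g
  have h11 : (1 : F) + 1 = 0 := by decide
  rw [av_eq, Fintype.sum_prod_type, hs, hs, hs]
  have hc : (Fintype.card (F × F) : ℝ) = 4 := by simp
  rw [hc]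
  have hu : u = 0 ∨ u = 1 := by revert u; decide
  have hv : v = 0 ∨ v = 1 := by revert v; decide
  rcases hu with rfl | rfl <;> rcases hv with rfl | rfl <;>
    simp only [h11, add_zero, zero_add, mul_zero, mul_one, chi_add, chi_one] <;>
    ring

theorem QCount_bias_phi {W : Type} [Finite W] (t : (W → F) × (W → F) × (W → F)) :
    bias (QCount_phi t) = 1 / 2 * bias t.2.2 := by
  unfold bias
  rw [av_prod, av_comm, ← av_mul_left]
  congr 1
  funext w
  exact QCount_av4 (t.2.1 w) (t.1 w) (t.2.2 w)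

/-- On `(F × F) × W` the quadratic functions with `D e1 (D e2 q) = 1` are exactly
`q ((a,b),w) = a b + a l1 w + b l2 w + q0 w` with `l1, l2` affine, `q0` quadratic, and summing over `a, b`
gives `bias q = bias (q0 + l1 l2) / 2`. -/
theorem qa_split (W : Type) [AddCommGroup W] [Module F W] [Finite W] (h : ℕ) :
    {q : (F × F) × W → F | q ∈ P _ 3 ∧ bias q = 1 / 2 ^ (h + 1) ∧
      D ((1, 0), 0) (D ((0, 1), 0) q) = 1}.ncard = (2 * Nat.card W) ^ 2 * qa W h := by
  have hP2 : (P W 2 : Set (W → F)).ncard = 2 * Nat.card W := by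
    rw [← Nat.card_coe_set_eq]
    change Nat.card (P W 2) = _
    rw [card_P, card_V, cP]
    simp [Finset.sum_range_succ, pow_add]
  have hinj : Function.Injective (QCount_phi (W := W)) := by
    rintro ⟨l1, l2, q1⟩ ⟨m1, m2, r1⟩ e
    have key : ∀ w, l1 w = m1 w ∧ l2 w = m2 w ∧ q1 w = r1 w := fun w => by
      have e0 := congrFun e ((0, 0), w)
      have e1 := congrFun e ((1, 0), w)
      have e2 := congrFun e ((0, 1), w)
      simp only [QCount_phi] at e0 e1 e2
      revert e0 e1 e2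
      generalize l1 w = a; generalize l2 w = b; generalize q1 w = c
      generalize m1 w = a'; generalize m2 w = b'; generalize r1 w = c'
      revert a b c a' b' c'
      decide
    exact Prod.ext (funext fun w => (key w).1)
      (Prod.ext (funext fun w => (key w).2.1) (funext fun w => (key w).2.2))
  have himg : {q : (F × F) × W → F | q ∈ P _ 3 ∧ bias q = 1 / 2 ^ (h + 1) ∧
      D ((1, 0), 0) (D ((0, 1), 0) q) = 1} = QCount_phi '' ((P W 2 : Set (W → F)) ×ˢ
        ((P W 2 : Set (W → F)) ×ˢ {q : W → F | q ∈ P W 3 ∧ bias q = 1 / 2 ^ h})) := by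
    ext q
    constructor
    · rintro ⟨h1, h2, h3⟩
      have a1 : (fun w => D ((1, 0), 0) q ((0, 0), w)) ∈ P W 2 :=
        QCount_comp (mem_P_succ.1 h1 ((1, 0), 0)) (LinearMap.inr F (F × F) W)
      have a2 : (fun w => D ((0, 1), 0) q ((0, 0), w)) ∈ P W 2 :=
        QCount_comp (mem_P_succ.1 h1 ((0, 1), 0)) (LinearMap.inr F (F × F) W)
      have a3 : (fun w => q ((0, 0), w)) ∈ P W 3 := QCount_comp h1 (LinearMap.inr F (F × F) W)
      have a4 := Submodule.add_mem _ a3 (mul_mem_P (d := 1) (e := 1) a1 a2)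
      have hq : QCount_phi (fun w => D ((1, 0), 0) q ((0, 0), w),
          fun w => D ((0, 1), 0) q ((0, 0), w),
          (fun w => q ((0, 0), w)) + (fun w => D ((1, 0), 0) q ((0, 0), w)) *
            fun w => D ((0, 1), 0) q ((0, 0), w)) = q := by
        funext ⟨⟨a, b⟩, w⟩
        have e := congrFun h3 ((0, 0), w)
        simp only [D_apply, Prod.mk_add_mk, add_zero, zero_add, Pi.one_apply] at e
        simp only [QCount_phi, D_apply, Prod.mk_add_mk, add_zero, zero_add, Pi.add_apply,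
          Pi.mul_apply]
        have ha : a = 0 ∨ a = 1 := by revert a; decide
        have hb : b = 0 ∨ b = 1 := by revert b; decide
        revert e
        rcases ha with rfl | rfl <;> rcases hb with rfl | rfl <;>
        · generalize q ((0, 0), w) = c0; generalize q ((1, 0), w) = c1
          generalize q ((0, 1), w) = c2; generalize q ((1, 1), w) = c3
          revert c0 c1 c2 c3
          decide
      refine ⟨_, ⟨a1, a2, a4, ?_⟩, hq⟩
      rw [← hq, QCount_bias_phi, pow_succ] at h2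
      have h4 : (2 : ℝ) ^ h ≠ 0 := by positivity
      field_simp at h2 ⊢
      linarith
    · rintro ⟨⟨l1, l2, q1⟩, ⟨h1, h2, h3, h4⟩, rfl⟩
      refine ⟨?_, ?_, ?_⟩
      · have b1 := Submodule.add_mem _
          (dual_mem_P ((LinearMap.fst F F F).comp (LinearMap.fst F (F × F) W)))
          (QCount_comp h2 (LinearMap.snd F (F × F) W))
        have b2 := Submodule.add_mem _
          (dual_mem_P ((LinearMap.snd F F F).comp (LinearMap.fst F (F × F) W)))
          (QCount_comp h1 (LinearMap.snd F (F × F) W))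
        exact Submodule.add_mem _ (mul_mem_P (d := 1) (e := 1) b1 b2)
          (QCount_comp h3 (LinearMap.snd F (F × F) W))
      · rw [QCount_bias_phi]
        change 1 / 2 * bias q1 = _
        rw [h4, pow_succ]
        field_simp
      · funext ⟨⟨a, b⟩, w⟩
        simp only [QCount_phi, D_apply, Prod.mk_add_mk, add_zero, Pi.one_apply]
        generalize l1 w = c0; generalize l2 w = c1; generalize q1 w = c2
        revert a b c0 c1 c2
        decide
  rw [himg, Set.ncard_image_of_injective _ hinj, Set.ncard_prod, Set.ncard_prod, hP2, qa]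
  ring

theorem QCount_ne {V : Type} [Nonempty V] : (0 : V → F) ≠ 1 := fun h => by
  have := congrFun h (Classical.arbitrary V)
  simp at this

/-- for `q` of bias `β ≠ 0` the pairs `(x,y)` with `D x (D y q) = 1`: `y ∉ Per q`, and half of all `x` -/
theorem pairs_count {V : Type} [AddCommGroup V] [Module F V] [Finite V] {q : V → F} (hq : q ∈ P V 3)
    (h : bias q ≠ 0) :
    ({z : V × V | D z.1 (D z.2 q) = 1}.ncard : ℝ) = (1 - bias q ^ 2) * Nat.card V ^ 2 / 2 := by
  have h0 : (0 : ℝ) < Nat.card V := by exact_mod_cast Nat.card_pos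
  have e1 := av_indicator {z : V × V | D z.1 (D z.2 q) = 1}
  rw [av_prod, av_comm, Nat.card_prod] at e1
  have key : ∀ y : V, (av fun x : V =>
      {z : V × V | D z.1 (D z.2 q) = 1}.indicator (fun _ => (1 : ℝ)) (x, y)) =
      1 / 2 + (-1 / 2) * (Per q : Set V).indicator (fun _ => (1 : ℝ)) y := fun y => by
    by_cases hy : y ∈ Per q
    · have : ∀ x : V, {z : V × V | D z.1 (D z.2 q) = 1}.indicator (fun _ => (1 : ℝ)) (x, y) = 0 :=
        fun x => Set.indicator_of_notMem (by
          change ¬ D x (D y q) = 1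
          rw [mem_Per.1 hy, map_zero]
          exact QCount_ne) _
      simp only [this]
      rw [av_const, Set.indicator_of_mem (show y ∈ (Per q : Set V) from hy)]
      norm_num
    · obtain ⟨l, c, hl⟩ := mem_P_two.1 (mem_P_succ.1 hq y)
      have l0 : l ≠ 0 := by
        rintro rfl
        have hc := QCount_two c
        rcases hc with rfl | rfl
        · exact hy (mem_Per.2 (by rw [hl]; funext x; simp))
        · exact h (bias_eq_zero_of_D (y := y) (by rw [hl]; funext x; simp))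
      have hD : ∀ x, D x (D y q) = fun _ => l x := fun x => by
        rw [hl]
        funext u
        simp only [D_apply, map_add]
        exact (by decide : ∀ a b c : F, a + b + c + (a + c) = b) _ _ _
      have : ∀ x : V, {z : V × V | D z.1 (D z.2 q) = 1}.indicator (fun _ => (1 : ℝ)) (x, y) =
          1 / 2 + (-1 / 2) * chi (l x + 0) := fun x => by
        have hc : l x = 0 ∨ l x = 1 := by generalize l x = a; revert a; decide
        rcases hc with hc | hc
        · rw [Set.indicator_of_notMem, hc, add_zero, chi_zero]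
          · norm_num
          · change ¬ D x (D y q) = 1
            rw [hD, hc]
            exact QCount_ne
        · rw [Set.indicator_of_mem, hc, add_zero, chi_one]
          · norm_num
          · change D x (D y q) = 1
            rw [hD, hc]
            rfl
      simp only [this]
      have hb := bias_dual l0 0
      unfold bias at hb
      rw [av_add, av_const, av_mul_left, hb,
        Set.indicator_of_notMem (show y ∉ (Per q : Set V) from hy)]
  simp only [key] at e1
  rw [av_add, av_const, av_mul_left, av_indicator, ← Nat.card_coe_set_eq] at e1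
  have e2 := quad_bias_sq hq h
  change bias q ^ 2 = (Nat.card (Per q : Set V) : ℝ) / Nat.card V at e2
  rw [← e2, eq_div_iff (by push_cast; positivity)] at e1
  rw [← e1]
  push_cast
  ring

theorem QCount_equiv {V : Type} [AddCommGroup V] [Module F V] [Finite V] {n : ℕ}
    (hV : finrank F V = n + 2) {x y : V} (hx : x ≠ 0) (hy : y ≠ 0) (hxy : y ≠ x) :
    ∃ e : ((F × F) × (Fin n → F)) ≃ₗ[F] V, e ((1, 0), 0) = x ∧ e ((0, 1), 0) = y := by
  let φ : (F × F) →ₗ[F] V :=
    (LinearMap.toSpanSingleton F V x).coprod (LinearMap.toSpanSingleton F V y)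
  have hφ : Function.Injective φ := by
    rw [← LinearMap.ker_eq_bot, LinearMap.ker_eq_bot']
    rintro ⟨a, b⟩ hab
    have e : a • x + b • y = 0 := by simpa [φ] using hab
    rcases QCount_two a with rfl | rfl <;> rcases QCount_two b with rfl | rfl
    · rfl
    · exact absurd (by simpa using e) hy
    · exact absurd (by simpa using e) hx
    · rw [one_smul, one_smul, ← add_self_V x] at e
      exact absurd (add_left_cancel e) hxy
  obtain ⟨U, hU⟩ := (LinearMap.range φ).exists_isCompl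
  have h1 := Submodule.finrank_add_eq_of_isCompl hU
  rw [LinearMap.finrank_range_of_inj hφ, hV] at h1
  have h2 : finrank F (Fin n → F) = finrank F U := by
    simp only [finrank_prod, finrank_self] at h1
    rw [finrank_fin_fun]; omega
  refine ⟨((LinearEquiv.ofInjective φ hφ).prodCongr (LinearEquiv.ofFinrankEq _ _ h2)).trans
    (Submodule.prodEquivOfIsCompl _ _ hU), ?_, ?_⟩ <;> simp [φ]

theorem QCount_fib {V : Type} [AddCommGroup V] [Module F V] [Finite V] {n : ℕ}
    (hV : finrank F V = n + 2) (h : ℕ) {x y : V} (hx : x ≠ 0) (hy : y ≠ 0) (hxy : y ≠ x) :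
    {q : V → F | q ∈ P V 3 ∧ bias q = 1 / 2 ^ (h + 1) ∧ D x (D y q) = 1}.ncard =
      (2 * 2 ^ n) ^ 2 * qa (Fin n → F) h := by
  obtain ⟨e, e1, e2⟩ := QCount_equiv hV hx hy hxy
  have hc : Nat.card (Fin n → F) = 2 ^ n := by rw [card_V, finrank_fin_fun]
  rw [← hc, ← qa_split]
  symm
  refine QCount_ncard e.toEquiv _ _ fun q =>
    and_congr (QCount_mem e 3 q) (and_congr (by rw [QCount_bias e.toEquiv q]) ?_)
  have hD : ∀ u (f : V → F), D u (fun v => f (e v)) = fun v => D (e u) f (e v) := fun u f => by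
    funext v
    simp only [D_apply, map_add]
  change D _ (D _ fun v => q (e v)) = 1 ↔ _
  rw [hD, hD, e1, e2]
  constructor
  · intro h'
    funext v
    simpa using congrFun h' (e.symm v)
  · intro h'
    rw [h']
    rfl

/-- double counting of `(q, x, y)`: `x, y` are linearly independent, there are `(2^n - 1)(2^n - 2)` such
pairs, and each is moved to the standard pair by a linear equivalence `V ≃ (F × F) × W` -/
theorem qa_rec (V : Type) [AddCommGroup V] [Module F V] [Finite V] {n : ℕ} (hV : finrank F V = n + 2)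
    (h : ℕ) :
    (qa V (h + 1) : ℝ) * ((1 - (1 / 2 ^ (h + 1)) ^ 2) * (2 ^ (n + 2)) ^ 2 / 2) =
      (2 ^ (n + 2) - 1) * (2 ^ (n + 2) - 2) * ((2 * 2 ^ n) ^ 2 * qa (Fin n → F) h) := by
  classical
  have := Fintype.ofFinite V
  have hc : Nat.card V = 2 ^ (n + 2) := by rw [card_V, hV]
  have hc' : (Fintype.card V : ℝ) = 2 ^ (n + 2) := by
    rw [← Nat.card_eq_fintype_card, hc]; push_cast; rfl
  let Q : Finset (V → F) := Finset.univ.filter fun q => q ∈ P V 3 ∧ bias q = 1 / 2 ^ (h + 1)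
  have hQ : qa V (h + 1) = Q.card := by
    rw [qa, ← Set.ncard_coe_finset]; congr 1; ext q; simp [Q]
  have e1 : ∀ q ∈ Q, ∑ z : V × V, (if D z.1 (D z.2 q) = 1 then (1 : ℝ) else 0) =
      (1 - (1 / 2 ^ (h + 1)) ^ 2) * (2 ^ (n + 2)) ^ 2 / 2 := fun q hq => by
    obtain ⟨-, h1, h2⟩ := Finset.mem_filter.1 hq
    have h3 := pairs_count h1 (by rw [h2]; positivity)
    rw [h2, hc] at h3
    push_cast at h3
    rw [← h3, Finset.sum_boole, ← Set.ncard_coe_finset]
    congr 2
    ext z
    simp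
  have e2 : ∀ x y : V, ∑ q ∈ Q, (if D x (D y q) = 1 then (1 : ℝ) else 0) =
      if x ≠ 0 then (if y ∉ ({0, x} : Finset V) then
        ((2 * 2 ^ n) ^ 2 * qa (Fin n → F) h : ℝ) else 0) else 0 := fun x y => by
    by_cases hx : x = 0
    · subst hx
      simp [D_zero]
    rw [if_pos hx]
    by_cases hy : y = 0
    · subst hy
      simp [D_zero]
    by_cases hxy : y = x
    · subst hxy
      simp [D_D_self]
    rw [if_pos (by simp [hy, hxy]), Finset.sum_boole]
    have h3 := QCount_fib hV h hx hy hxy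
    have h4 : (Q.filter fun q => D x (D y q) = 1).card =
        {q : V → F | q ∈ P V 3 ∧ bias q = 1 / 2 ^ (h + 1) ∧ D x (D y q) = 1}.ncard := by
      rw [← Set.ncard_coe_finset]; congr 1; ext q; simp [Q, and_assoc]
    rw [h4, h3]
    push_cast
    rfl
  have e3 : ∀ x : V, ∑ y : V, (if x ≠ 0 then (if y ∉ ({0, x} : Finset V) then
        ((2 * 2 ^ n) ^ 2 * qa (Fin n → F) h : ℝ) else 0) else 0) =
      if x ∉ ({0} : Finset V) then (2 ^ (n + 2) - 2) * ((2 * 2 ^ n) ^ 2 * qa (Fin n → F) h : ℝ)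
        else 0 := fun x => by
    by_cases hx : x = 0
    · simp [hx]
    · simp only [if_pos hx]
      rw [if_pos (by simpa using hx), ← Finset.sum_filter, Finset.sum_const, nsmul_eq_mul]
      congr 1
      have : (Finset.univ.filter fun y => y ∉ ({0, x} : Finset V)) = ({0, x} : Finset V)ᶜ := by
        ext y; simp
      rw [this, Finset.card_compl, Nat.cast_sub (Finset.card_le_univ _), hc',
        Finset.card_pair (Ne.symm hx)]
      rfl
  rw [hQ, ← nsmul_eq_mul, ← Finset.sum_const, ← Finset.sum_congr rfl e1, Finset.sum_comm,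
    Fintype.sum_prod_type]
  simp only [e2, e3]
  rw [← Finset.sum_filter, Finset.sum_const, nsmul_eq_mul, mul_assoc]
  congr 1
  have : (Finset.univ.filter fun y => y ∉ ({0} : Finset V)) = ({0} : Finset V)ᶜ := by
    ext y; simp
  rw [this, Finset.card_compl, Nat.cast_sub (Finset.card_le_univ _), hc', Finset.card_singleton,
    Nat.cast_one]

/-- induction on `h` from `qa_rec`; limit `2^(2h - h²) / prod (4^j - 1)` -/
theorem qa_lim (h : ℕ) :
    Tendsto (fun n : ℕ => (qa (Fin n → F) h : ℝ) / 2 ^ (2 * h * n)) atTop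
      (𝓝 (2 ^ (2 * h) / (2 ^ (h ^ 2) * ∏ j ∈ Finset.range h, ((4 : ℝ) ^ (j + 1) - 1)))) := by
  induction h with
  | zero => simp [qa_zero]
  | succ h ih =>
    rw [← tendsto_add_atTop_iff_nat 2]
    have t0 : Tendsto (fun n : ℕ => (1 / 2 : ℝ) ^ n) atTop (𝓝 0) :=
      tendsto_pow_atTop_nhds_zero_of_lt_one (by norm_num) (by norm_num)
    have p4 : ∀ j : ℕ, (0 : ℝ) < 4 ^ (j + 1) - 1 := fun j => by
      have : (1 : ℝ) < 4 ^ (j + 1) := one_lt_pow₀ (by norm_num) (by omega)
      linarith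
    have e4 : ∀ j : ℕ, (4 : ℝ) ^ j = (2 ^ j) ^ 2 := fun j => by
      rw [← pow_mul, mul_comm, pow_mul]; norm_num
    have t1 := (((t0.const_mul (1 / 4)).const_sub 1).mul ((t0.const_mul (1 / 2)).const_sub 1)).mul
      (ih.const_mul (2 / (4 ^ h * (4 ^ (h + 1) - 1))))
    have hp : (0 : ℝ) < ∏ j ∈ Finset.range h, ((4 : ℝ) ^ (j + 1) - 1) :=
      Finset.prod_pos fun j _ => p4 j
    have hl : (1 - 1 / 4 * 0) * (1 - 1 / 2 * 0) * (2 / (4 ^ h * (4 ^ (h + 1) - 1)) *
        (2 ^ (2 * h) / (2 ^ (h ^ 2) * ∏ j ∈ Finset.range h, ((4 : ℝ) ^ (j + 1) - 1)))) =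
        2 ^ (2 * (h + 1)) / (2 ^ ((h + 1) ^ 2) *
          ∏ j ∈ Finset.range (h + 1), ((4 : ℝ) ^ (j + 1) - 1)) := by
      have a1 : (2 : ℝ) ^ ((h + 1) ^ 2) = 2 ^ (h ^ 2) * 4 ^ h * 2 := by
        rw [e4, ← pow_mul, ← pow_add, ← pow_succ]; congr 1; ring
      have a2 : (2 : ℝ) ^ (2 * (h + 1)) = 2 ^ (2 * h) * 4 := by
        rw [mul_add, pow_add]; norm_num
      rw [Finset.prod_range_succ, a1, a2]
      have := (p4 h).ne'
      field_simp
      ring
    rw [hl] at t1
    refine t1.congr fun n => ?_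
    have r := qa_rec (Fin (n + 2) → F) (n := n) (finrank_fin_fun F) h
    have a3 : (2 : ℝ) ^ (2 * (h + 1) * (n + 2)) = 2 ^ (2 * h * n) * (2 ^ n) ^ 2 * (2 ^ h) ^ 4 * 16 := by
      rw [show (16 : ℝ) = 2 ^ 4 by norm_num, ← pow_mul, ← pow_mul, ← pow_add, ← pow_add, ← pow_add]
      congr 1; ring
    have a4 := (p4 h).ne'
    rw [a3, one_div_pow, pow_succ (4 : ℝ) h, e4 h] at *
    rw [pow_add, pow_add] at r
    generalize (qa (Fin (n + 2) → F) (h + 1) : ℝ) = A at *
    generalize (qa (Fin n → F) h : ℝ) = B at *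
    have b1 : (0 : ℝ) < 2 ^ n := by positivity
    have b2 : (0 : ℝ) < 2 ^ h := by positivity
    have b3 : (0 : ℝ) < 2 ^ (2 * h * n) := by positivity
    generalize (2 : ℝ) ^ n = N at *
    generalize (2 : ℝ) ^ h = H at *
    generalize (2 : ℝ) ^ (2 * h * n) = K at *
    field_simp at r ⊢
    linarith

end Pool.Agent.P.MP_cb6780_lc
end

-- part Pool.Agent.P.MP_cb6780_lc.KHyp
section

set_option autoImplicit false

/-! Number of cubic functions of bias `≥ θ > 1/2`. -/

namespace Pool.Agent.P.MP_cb6780_lc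

open Module Filter Topology

section
variable {V : Type} [AddCommGroup V] [Module F V] [Finite V]

/-- cubics in a hyperplane with bias `(1 + 2^(-h)) / 2` -/
def Eh (V : Type) [AddCommGroup V] [Module F V] (h : ℕ) : Set (V → F) :=
  {g | g ∈ P V 4 ∧ InHyp g ∧ bias g = (1 + 1 / 2 ^ h) / 2}

omit [Finite V] in
theorem kHyp_cancel (x a : V) : x + a + a = x := by
  rw [add_assoc, add_self_V, add_zero]

omit [Finite V] in
theorem kHyp_exists {H : Submodule F V} (hH : finrank F H + 1 = finrank F V) : ∃ e, e ∉ H := by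
  by_contra h
  have h1 : H = ⊤ := eq_top_iff.2 fun x _ => by
    by_contra hx
    exact h ⟨x, hx⟩
  rw [h1, finrank_top] at hH
  omega

theorem kHyp_add {H : Submodule F V} (hH : finrank F H + 1 = finrank F V) {x y : V} (hx : x ∉ H)
    (hy : y ∉ H) : x + y ∈ H := by
  have h1 := H.finrank_quotient_add_finrank
  have h2 : finrank F (V ⧸ H) = 1 := by omega
  have : Finite (V ⧸ H) := Finite.of_surjective _ H.mkQ_surjective
  have h3 : Nat.card (V ⧸ H) = 2 := by rw [card_V, h2, pow_one]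
  obtain ⟨z, -, hz⟩ := (Nat.card_eq_two_iff' (0 : V ⧸ H)).1 h3
  have h4 : (Submodule.Quotient.mk x : V ⧸ H) = Submodule.Quotient.mk y :=
    (hz _ fun h => hx ((Submodule.Quotient.mk_eq_zero H).1 h)).trans
      (hz _ fun h => hy ((Submodule.Quotient.mk_eq_zero H).1 h)).symm
  have h5 := (Submodule.Quotient.eq H).1 h4
  have h6 : x + y = x - y + (y + y) := by abel
  rw [h6, add_self_V, add_zero]
  exact h5

omit [Finite V] in
theorem kHyp_res_zero {H : Submodule F V} {a b : V} {g : V → F} (h0 : ∀ x, x + a ∉ H → g x = 0)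
    (hb : a + b ∉ H) : res H b g = 0 := by
  funext u
  refine h0 _ fun h => hb ?_
  have h1 : a + b = (u : V) + b + a - u := by abel
  rw [h1]
  exact H.sub_mem h u.2

theorem kHyp_bias {H : Submodule F V} (hH : finrank F H + 1 = finrank F V) {a : V} {g : V → F}
    (h0 : ∀ x, x + a ∉ H → g x = 0) : bias g = (1 + bias (res H a g)) / 2 := by
  have h1 := bias_split H a g
  have h2 := bias_split H a (0 : V → F)
  have h3 : ({b : V | a + b ∉ H}.indicator fun b => bias (res H b g)) =
      {b : V | a + b ∉ H}.indicator fun b => bias (res H b (0 : V → F)) :=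
    Set.indicator_congr fun b hb => by
      show bias (res H b g) = bias (res H b 0)
      rw [kHyp_res_zero h0 hb, map_zero]
  rw [h3] at h1
  rw [map_zero, bias_zero, bias_zero] at h2
  rw [card_sub H hH] at h1 h2
  linarith

theorem kHyp_deg {H : Submodule F V} (hH : finrank F H + 1 = finrank F V) {a : V} {g : V → F}
    {d : ℕ} (hg : g ∈ P V (d + 1)) (h0 : ∀ x, x + a ∉ H → g x = 0) : res H a g ∈ P H d := by
  obtain ⟨e, he⟩ := kHyp_exists hH
  have h1 := res_add_res hg H a (a + e)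
  rw [kHyp_res_zero h0 (b := a + e) (by rwa [← add_assoc, add_self_V, zero_add]), add_zero] at h1
  exact h1

/-- a cubic vanishing off `a + H` restricts to a quadratic on `H` (`res_add_res` with the other coset),
with `bias g = (1 + bias (res H a g)) / 2`; conversely `ind H a * (extension of q)` is cubic -/
theorem hyp_count {H : Submodule F V} (hH : finrank F H + 1 = finrank F V) (a : V) (h : ℕ) :
    {g | g ∈ P V 4 ∧ (∀ x, x + a ∉ H → g x = 0) ∧ bias g = (1 + 1 / 2 ^ h) / 2}.ncard = qa H h := by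
  unfold qa
  refine Set.ncard_congr (fun g _ => res H a g) (fun g hg => ⟨kHyp_deg hH hg.1 hg.2.1, ?_⟩)
    (fun g g' hg hg' he => ?_) fun q hq => ?_
  · have h1 := kHyp_bias hH hg.2.1
    have h2 := hg.2.2
    linarith
  · funext x
    by_cases hx : x + a ∈ H
    · have h1 : g (x + a + a) = g' (x + a + a) := congrFun he ⟨x + a, hx⟩
      rwa [kHyp_cancel] at h1
    · rw [hg.2.1 x hx, hg'.2.1 x hx]
  · obtain ⟨f, hf, hfq⟩ := res_surj H a hq.1
    have h0 : ∀ x, x + a ∉ H → (ind H a * f) x = 0 := fun x hx => by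
      rw [Pi.mul_apply, ind, if_neg hx, zero_mul]
    have h1 : res H a (ind H a * f) = q := by
      rw [← hfq]
      funext u
      rw [res_apply, res_apply, Pi.mul_apply, ind, if_pos (by rw [kHyp_cancel]; exact u.2), one_mul]
    refine ⟨ind H a * f, ⟨mul_mem_P (d := 1) (e := 2) (ind_mem_P hH a) hf, h0, ?_⟩, h1⟩
    rw [kHyp_bias hH h0, h1, hq.2]

theorem inHyp_bias {g : V → F} (hg : g ∈ P V 4) (hH : InHyp g) (h : 1 / 2 < bias g) :
    ∃ h : ℕ, g ∈ Eh V h := by
  obtain ⟨H, a, hH', h0⟩ := id hH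
  have h1 := kHyp_bias hH' h0
  obtain ⟨k, hk⟩ := quad_bias (kHyp_deg hH' hg h0) (by linarith)
  exact ⟨k, hg, hH, by rw [h1, hk]⟩

theorem kHyp_affine {r : V → F} (hr : r ∈ P V 2) : bias r = 1 ∨ bias r = 0 ∨ bias r = -1 := by
  obtain ⟨l, c, rfl⟩ := mem_P_two.1 hr
  by_cases hl : l = 0
  · have hc : c = 0 ∨ c = 1 := (by decide : ∀ c : F, c = 0 ∨ c = 1) c
    rcases hc with rfl | rfl
    · have h1 : (fun x => l x + 0) = (0 : V → F) := by funext x; simp [hl]
      exact Or.inl (by rw [h1, bias_zero])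
    · have h1 : (fun x => l x + 1) = (0 : V → F) + 1 := by funext x; simp [hl]
      exact Or.inr (Or.inr (by rw [h1, bias_add_one, bias_zero]))
  · exact Or.inr (Or.inl (bias_dual hl c))

theorem kHyp_inf {H H' : Submodule F V} (hH : finrank F H + 1 = finrank F V)
    (hH' : finrank F H' + 1 = finrank F V) (hne : H ≠ H') :
    finrank F (H'.comap H.subtype) + 1 = finrank F H := by
  have h1 := Submodule.finrank_map_subtype_eq H (H'.comap H.subtype)
  rw [Submodule.map_comap_subtype] at h1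
  have h2 := Submodule.finrank_sup_add_finrank_inf_eq H H'
  have h3 : H < H ⊔ H' := by
    refine lt_of_le_of_ne le_sup_left fun h => hne ?_
    exact (Submodule.eq_of_le_of_finrank_eq (left_eq_sup.1 h) (by omega)).symm
  have h4 := Submodule.finrank_lt_finrank_of_lt h3
  have h5 := Submodule.finrank_le (H ⊔ H')
  omega

/-- for `h ≥ 2` the hyperplane is unique: a function supported on a coset of codimension two is affine there,
so its bias is `1`, `3/4` or `1/2` -/
theorem hyp_unique {h : ℕ} (hh : 2 ≤ h) {g : V → F} (hg : g ∈ P V 4)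
    (hb : bias g = (1 + 1 / 2 ^ h) / 2) {H H' : Submodule F V} {a a' : V}
    (hH : finrank F H + 1 = finrank F V) (hH' : finrank F H' + 1 = finrank F V)
    (h1 : ∀ x, x + a ∉ H → g x = 0) (h2 : ∀ x, x + a' ∉ H' → g x = 0) :
    H = H' ∧ a + a' ∈ H := by
  have hp : (0 : ℝ) < 1 / 2 ^ h := by positivity
  have hq : (1 : ℝ) / 2 ^ h ≤ 1 / 2 ^ 2 :=
    one_div_le_one_div_of_le (by positivity) (pow_le_pow_right₀ one_le_two hh)
  obtain ⟨x, hx⟩ : ∃ x, g x ≠ 0 := by
    by_contra hno
    have h0 : g = 0 := funext fun x => by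
      by_contra hx
      exact hno ⟨x, hx⟩
    rw [h0, bias_zero] at hb
    linarith
  have hxa : x + a ∈ H := by
    by_contra h
    exact hx (h1 x h)
  have hxa' : x + a' ∈ H' := by
    by_contra h
    exact hx (h2 x h)
  have he : H = H' := by
    by_contra hne
    have hK := kHyp_inf hH hH' hne
    have h3 : ∀ u : H, u + ⟨x + a, hxa⟩ ∉ H'.comap H.subtype → res H a g u = 0 := by
      intro u hu
      refine h2 _ fun hm => hu ?_
      have h4 : (u : V) + (x + a) = (u : V) + a + a' + (x + a') - (a' + a') := by abel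
      show (u : V) + (x + a) ∈ H'
      rw [h4, add_self_V, sub_zero]
      exact H'.add_mem hm hxa'
    have h4 := kHyp_bias hK h3
    have h5 := kHyp_affine (kHyp_deg hK (kHyp_deg hH hg h1) h3)
    have h6 := kHyp_bias hH h1
    rcases h5 with h5 | h5 | h5 <;> rw [h5] at h4 <;> linarith
  refine ⟨he, ?_⟩
  have h4 : a + a' = x + a + (x + a') - (x + x) := by abel
  rw [h4, add_self_V, sub_zero]
  exact H.add_mem hxa (he ▸ hxa')

theorem kHyp_family {n : ℕ} (hV : finrank F V = n + 1) (h : ℕ) :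
    ∃ (t : Set (Submodule F V × V)) (s : Submodule F V × V → Set (V → F)), t.Finite ∧
      Eh V h = ⋃ i ∈ t, s i ∧ ∑ᶠ i ∈ t, (s i).ncard = 2 * G V 1 * qa (Fin n → F) h ∧
      (2 ≤ h → t.PairwiseDisjoint s) := by
  classical
  obtain ⟨e, he⟩ : ∃ e : Submodule F V → V, ∀ H : Submodule F V,
      finrank F H + 1 = finrank F V → e H ∉ H := by
    refine ⟨fun H => if hH : finrank F H + 1 = finrank F V then (kHyp_exists hH).choose else 0,
      fun H hH => ?_⟩
    dsimp only
    rw [dif_pos hH]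
    exact (kHyp_exists hH).choose_spec
  obtain ⟨t, ht⟩ : ∃ t : Set (Submodule F V × V),
    t = {i | finrank F i.1 + 1 = finrank F V ∧ (i.2 = 0 ∨ i.2 = e i.1)} := ⟨_, rfl⟩
  have htf : t.Finite := Set.toFinite t
  refine ⟨t, fun i => {g | g ∈ P V 4 ∧ (∀ x, x + i.2 ∉ i.1 → g x = 0) ∧
    bias g = (1 + 1 / 2 ^ h) / 2}, htf, ?_, ?_, fun hh i hi j hj hij => ?_⟩
  · ext g
    rw [Set.mem_iUnion₂, ht]
    constructor
    · rintro ⟨hg, ⟨H, a, hH, h0⟩, hb⟩
      by_cases ha : a ∈ H
      · refine ⟨(H, 0), ⟨hH, Or.inl rfl⟩, hg, fun x hx => h0 x fun hm => hx ?_, hb⟩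
        have h1 : x + 0 = x + a - a := by abel
        show x + 0 ∈ H
        rw [h1]
        exact H.sub_mem hm ha
      · refine ⟨(H, e H), ⟨hH, Or.inr rfl⟩, hg, fun x hx => h0 x fun hm => hx ?_, hb⟩
        have h1 : x + e H = x + a + (a + e H) - (a + a) := by abel
        show x + e H ∈ H
        rw [h1, add_self_V, sub_zero]
        exact H.add_mem hm (kHyp_add hH ha (he H hH))
    · rintro ⟨i, hi, hg, h0, hb⟩
      exact ⟨hg, ⟨i.1, i.2, hi.1, h0⟩, hb⟩
  · have h1 : ∀ i ∈ t, {g | g ∈ P V 4 ∧ (∀ x, x + i.2 ∉ i.1 → g x = 0) ∧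
        bias g = (1 + 1 / 2 ^ h) / 2}.ncard = qa (Fin n → F) h := by
      intro i hi
      rw [ht] at hi
      rw [hyp_count hi.1]
      refine qa_congr (LinearEquiv.ofFinrankEq _ _ ?_) h
      have h2 := hi.1
      rw [finrank_fin_fun]
      omega
    rw [finsum_mem_congr rfl h1, finsum_mem_eq_finite_toFinset_sum _ htf, Finset.sum_const,
      smul_eq_mul, ← Set.ncard_eq_toFinset_card t htf]
    have h2 : t = (fun H => (H, (0 : V))) '' {W : Submodule F V | finrank F W + 1 = finrank F V} ∪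
        (fun H => (H, e H)) '' {W : Submodule F V | finrank F W + 1 = finrank F V} := by
      rw [ht]
      ext ⟨H, a⟩
      constructor
      · rintro ⟨hH, ha | ha⟩
        · exact Or.inl ⟨H, hH, Prod.ext rfl ha.symm⟩
        · exact Or.inr ⟨H, hH, Prod.ext rfl ha.symm⟩
      · rintro (⟨K, hK, hp⟩ | ⟨K, hK, hp⟩)
        · rw [← hp]; exact ⟨hK, Or.inl rfl⟩
        · rw [← hp]; exact ⟨hK, Or.inr rfl⟩
    have h3 : t.ncard = 2 * G V 1 := by
      rw [h2, Set.ncard_union_eq, Set.ncard_image_of_injective, Set.ncard_image_of_injective, G,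
        two_mul]
      · exact fun _ _ h => congrArg Prod.fst h
      · exact fun _ _ h => congrArg Prod.fst h
      · rw [Set.disjoint_left]
        rintro _ ⟨K, -, rfl⟩ ⟨K', hK', hp⟩
        have h4 : e K' = 0 := congrArg Prod.snd hp
        exact he K' hK' (h4 ▸ K'.zero_mem)
    rw [h3]
  · rw [ht] at hi hj
    rw [Function.onFun, Set.disjoint_left]
    rintro g ⟨hg, h1, hb⟩ ⟨-, h2, -⟩
    obtain ⟨h3, h4⟩ := hyp_unique hh hg hb hi.1 hj.1 h1 h2
    refine hij (Prod.ext h3 ?_)
    have h5 := he _ hi.1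
    rcases hi.2 with h6 | h6 <;> rcases hj.2 with h7 | h7
    · rw [h6, h7]
    · rw [h6, h7, ← h3, zero_add] at h4
      exact absurd h4 h5
    · rw [h6, h7, add_zero] at h4
      exact absurd h4 h5
    · rw [h6, h7, h3]

/-- double counting of triples `(H, a, g)` -/
theorem Eh_le {n : ℕ} (hV : finrank F V = n + 1) (h : ℕ) :
    (Eh V h).ncard ≤ 2 * G V 1 * qa (Fin n → F) h := by
  obtain ⟨t, s, ht, h1, h2, -⟩ := kHyp_family hV h
  rw [h1, ← h2]
  exact ht.ncard_biUnion_le s

theorem Eh_eq {n : ℕ} (hV : finrank F V = n + 1) {h : ℕ} (hh : 2 ≤ h) :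
    (Eh V h).ncard = 2 * G V 1 * qa (Fin n → F) h := by
  obtain ⟨t, s, ht, h1, h2, h3⟩ := kHyp_family hV h
  rw [h1, ← h2]
  exact ht.ncard_biUnion (fun _ _ => Set.toFinite _) (h3 hh)

end

end Pool.Agent.P.MP_cb6780_lc
end

-- part Pool.Agent.P.MP_cb6780_lc.KHyp2
section

set_option autoImplicit false

namespace Pool.Agent.P.MP_cb6780_lc

open Module

section
variable {V : Type} [AddCommGroup V] [Module F V] [Finite V]

theorem khyp2_card_quot {Z : Submodule F V} {k : ℕ} (h : finrank F Z + k = finrank F V) :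
    Nat.card (V ⧸ Z) = 2 ^ k := by
  have h1 := Submodule.finrank_quotient_add_finrank Z
  have h2 : finrank F (V ⧸ Z) = k := by omega
  have : Finite (V ⧸ Z) := Finite.of_surjective _ (Submodule.mkQ_surjective Z)
  rw [card_V, h2]

theorem khyp2_mk_eq {Z : Submodule F V} {p q : V} :
    (Submodule.Quotient.mk p : V ⧸ Z) = Submodule.Quotient.mk q ↔ p + q ∈ Z := by
  rw [Submodule.Quotient.eq]
  have : p - q = p + q := by
    have := add_self_V q
    rw [sub_eq_add_neg, neg_eq_of_add_eq_zero_left this]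
  rw [this]

/-- flats of codimension `k`, by `ind_eq_iff` -/
theorem flats_count (k : ℕ) :
    {g : V → F | ∃ (Z : Submodule F V) (p : V), finrank F Z + k = finrank F V ∧ g = ind Z p}.ncard =
      2 ^ k * G V k := by
  classical
  have hfinS : Finite (Submodule F V) :=
    Finite.of_injective (fun W : Submodule F V => (W : Set V)) SetLike.coe_injective
  let I := {W : Submodule F V | finrank F W + k = finrank F V}
  have hq : ∀ Z : Submodule F V, Finite (V ⧸ Z) := fun Z =>
    Finite.of_surjective _ (Submodule.mkQ_surjective Z)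
  choose sec hsec using fun (Z : Submodule F V) (x : V ⧸ Z) => Submodule.Quotient.mk_surjective Z x
  let φ : (Σ Z : I, V ⧸ Z.1) →
      {g : V → F | ∃ (Z : Submodule F V) (p : V), finrank F Z + k = finrank F V ∧ g = ind Z p} :=
    fun x => ⟨ind x.1.1 (sec x.1.1 x.2), x.1.1, _, x.1.2, rfl⟩
  have hφ : Function.Bijective φ := by
    constructor
    · rintro ⟨⟨Z, hZ⟩, x⟩ ⟨⟨Z', hZ'⟩, x'⟩ hxy
      have h1 : ind Z (sec Z x) = ind Z' (sec Z' x') := congrArg Subtype.val hxy
      obtain ⟨rfl, h2⟩ := ind_eq_iff.1 h1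
      have h3 : x = x' := by
        rw [← hsec Z x, ← hsec Z x']
        exact khyp2_mk_eq.2 h2
      subst h3
      rfl
    · rintro ⟨g, Z, p, hZ, rfl⟩
      refine ⟨⟨⟨Z, hZ⟩, Submodule.Quotient.mk p⟩, Subtype.ext ?_⟩
      exact ind_eq_iff.2 ⟨rfl, khyp2_mk_eq.1 (hsec Z _)⟩
  rw [← Nat.card_coe_set_eq, ← Nat.card_eq_of_bijective φ hφ]
  have := Fintype.ofFinite I
  rw [Nat.card_sigma]
  have h4 : ∀ Z : I, Nat.card (V ⧸ Z.1) = 2 ^ k := fun Z => khyp2_card_quot Z.2
  simp only [h4, Finset.sum_const, Finset.card_univ, smul_eq_mul]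
  rw [mul_comm, G, ← Nat.card_coe_set_eq, Nat.card_eq_fintype_card]

theorem N_h0 {θ : ℝ} (h1 : 3 / 4 < θ) (h2 : θ ≤ 1) : N V 4 θ = 1 := by
  unfold N
  have : {f : V → F | f ∈ P V 4 ∧ θ ≤ bias f} = {0} := by
    ext f
    simp only [Set.mem_ofPred_eq, Set.mem_singleton_iff]
    constructor
    · rintro ⟨hf, hb⟩
      by_contra h0
      have := min_dist (d := 3) hf h0
      norm_num at this
      linarith
    · rintro rfl
      exact ⟨Submodule.zero_mem _, by rw [bias_zero]; exact h2⟩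
  rw [this, Set.ncard_singleton]

theorem khyp2_bias_cube {Z : Submodule F V} (h : finrank F Z + 3 = finrank F V) (p : V) :
    bias (ind Z p) = 3 / 4 := by
  rw [bias_ind, card_sub Z h]
  norm_num

theorem khyp2_le_of_pow {j h : ℕ} (hh : (1 : ℝ) / 2 ^ (h + 1) < 1 / 2 ^ j) : j ≤ h := by
  by_contra hc
  have h1 : h + 1 ≤ j := by omega
  have h2 : (2 : ℝ) ^ (h + 1) ≤ 2 ^ j := pow_le_pow_right₀ (by norm_num) h1
  have h3 : (1 : ℝ) / 2 ^ j ≤ 1 / 2 ^ (h + 1) :=
    one_div_le_one_div_of_le (by positivity) h2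
  linarith

/-- `kt`, `inHyp_bias`, `minwt` -/
theorem N_h1 {θ : ℝ} (h1 : 5 / 8 < θ) (h2 : θ ≤ 3 / 4) : N V 4 θ = 1 + 8 * G V 3 := by
  unfold N
  have : {f : V → F | f ∈ P V 4 ∧ θ ≤ bias f} = insert 0
      {g : V → F | ∃ (Z : Submodule F V) (p : V), finrank F Z + 3 = finrank F V ∧ g = ind Z p} := by
    ext f
    simp only [Set.mem_ofPred_eq, Set.mem_insert_iff]
    constructor
    · rintro ⟨hf, hb⟩
      by_cases h0 : f = 0
      · exact Or.inl h0
      right
      have hb2 : 1 / 2 < bias f := by linarith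
      rcases kt hf h0 hb2 with hI | ⟨h9, -⟩
      · obtain ⟨j, -, -, hj⟩ := inHyp_bias hf hI hb2
        have hj1 : j ≤ 1 := khyp2_le_of_pow (by norm_num; norm_num at hj; linarith)
        refine minwt hf h0 ?_
        interval_cases j
        · rw [hj]; norm_num
        · rw [hj]; norm_num
      · linarith
    · rintro (rfl | ⟨Z, p, hZ, rfl⟩)
      · exact ⟨Submodule.zero_mem _, by rw [bias_zero]; linarith⟩
      · exact ⟨ind_mem_P hZ p, by rw [khyp2_bias_cube hZ]; exact h2⟩
  rw [this, Set.ncard_insert_of_notMem, flats_count]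
  · ring
  · rintro ⟨Z, p, hZ, h0⟩
    have h3 := khyp2_bias_cube hZ p
    rw [← h0, bias_zero] at h3
    norm_num at h3

theorem two_cubes_le :
    {g : V → F | TwoCubes g}.ncard ≤ 4 * G V 2 * (2 * Nat.card V) * (8 * G V 3) := by
  classical
  set A := {g : V → F | ∃ (Z : Submodule F V) (p : V), finrank F Z + 2 = finrank F V ∧ g = ind Z p}
    with hA
  set C := {g : V → F | ∃ (Z : Submodule F V) (p : V), finrank F Z + 3 = finrank F V ∧ g = ind Z p}
    with hC
  have hsub : {g : V → F | TwoCubes g} ⊆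
      (fun x : ((V → F) × (V → F)) × (V → F) => x.1.1 * x.1.2 + x.2) ''
        ((A ×ˢ (P V 2 : Set (V → F))) ×ˢ C) := by
    rintro g ⟨W, Z, p, q, u, hW, hZ, hu, rfl⟩
    exact ⟨((ind W p, u), ind Z q), ⟨⟨⟨W, p, hW, rfl⟩, hu⟩, ⟨Z, q, hZ, rfl⟩⟩, rfl⟩
  have h1 := Set.ncard_le_ncard hsub (Set.toFinite _)
  have h2 := Set.ncard_image_le (s := (A ×ˢ (P V 2 : Set (V → F))) ×ˢ C)
    (f := fun x : ((V → F) × (V → F)) × (V → F) => x.1.1 * x.1.2 + x.2) (Set.toFinite _)
  rw [Set.ncard_prod, Set.ncard_prod] at h2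
  have hA' : A.ncard = 4 * G V 2 := by rw [hA, flats_count]; norm_num
  have hC' : C.ncard = 8 * G V 3 := by rw [hC, flats_count]; norm_num
  have hP : (P V 2 : Set (V → F)).ncard = 2 * Nat.card V := by
    rw [← Nat.card_coe_set_eq]
    have := card_P V 2
    rw [show Nat.card (P V 2 : Set (V → F)) = Nat.card (P V 2) from rfl, this, card_V, cP]
    simp [Finset.sum_range_succ, pow_add]
  rw [hA', hC', hP] at h2
  exact h1.trans h2

theorem khyp2_biUnion_le {α : Type} [Finite α] (s : Finset ℕ) (f : ℕ → Set α) :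
    (⋃ j ∈ s, f j).ncard ≤ ∑ j ∈ s, (f j).ncard := by
  induction s using Finset.induction_on with
  | empty => simp
  | insert a s ha ih =>
    rw [Finset.set_biUnion_insert, Finset.sum_insert ha]
    exact (Set.ncard_union_le _ _).trans (Nat.add_le_add_left ih _)

theorem N_sandwich {h : ℕ} {θ : ℝ} (h1 : (1 + 1 / 2 ^ (h + 1)) / 2 < θ) (h2 : θ ≤ (1 + 1 / 2 ^ h) / 2) :
    (Eh V h).ncard ≤ N V 4 θ ∧
      N V 4 θ ≤ 1 + ∑ j ∈ Finset.range (h + 1), (Eh V j).ncard +
        if 3 ≤ h then {g : V → F | TwoCubes g}.ncard else 0 := by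
  unfold N
  constructor
  · refine Set.ncard_le_ncard ?_ (Set.toFinite _)
    rintro g ⟨hg, -, hb⟩
    exact ⟨hg, by rw [hb]; exact h2⟩
  · have hpos : (0 : ℝ) < 1 / 2 ^ (h + 1) := by positivity
    have hsub : {f : V → F | f ∈ P V 4 ∧ θ ≤ bias f} ⊆
        ({0} ∪ ⋃ j ∈ Finset.range (h + 1), Eh V j) ∪
          (if 3 ≤ h then {g : V → F | TwoCubes g} else ∅) := by
      rintro f ⟨hf, hb⟩
      by_cases h0 : f = 0
      · exact Or.inl (Or.inl h0)
      have hb2 : 1 / 2 < bias f := by linarith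
      rcases kt hf h0 hb2 with hI | ⟨h9, hT⟩
      · obtain ⟨j, hj⟩ := inHyp_bias hf hI hb2
        have hj2 := hj.2.2
        have hj1 : j ≤ h := khyp2_le_of_pow (by linarith)
        refine Or.inl (Or.inr ?_)
        exact Set.mem_biUnion (Finset.mem_coe.2 (Finset.mem_range.2 (by omega))) hj
      · have h3 : 3 ≤ h := khyp2_le_of_pow (by norm_num; norm_num at h1; linarith)
        right
        rw [if_pos h3]
        exact hT
    refine (Set.ncard_le_ncard hsub (Set.toFinite _)).trans ?_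
    refine (Set.ncard_union_le _ _).trans (Nat.add_le_add ?_ ?_)
    · refine (Set.ncard_union_le _ _).trans ?_
      rw [Set.ncard_singleton]
      exact Nat.add_le_add_left (khyp2_biUnion_le _ _) _
    · split_ifs <;> simp

end

end Pool.Agent.P.MP_cb6780_lc
end

-- part Pool.Agent.P.MP_cb6780_lc.Klp
section

set_option autoImplicit false

/-! A biased function of bounded degree is determined by boundedly many derivatives. -/

namespace Pool.Agent.P.MP_cb6780_lc

open Module

/-- `y` is good for `f`: outside a set of density `< δ` the average of the sign of `f` over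
`x + span y` has the sign of the bias -/
def Good {V : Type} [AddCommGroup V] [Module F V] {t : ℕ} (δ : ℝ) (f : V → F) (y : Fin t → V) : Prop :=
  ({x | bias f * (av fun s : Fin t → F => chi (f (x + ∑ i, s i • y i))) ≤ 0}.ncard : ℝ) <
    δ * Nat.card V

theorem Klp_av_transl {V : Type} [AddCommGroup V] (g : V → ℝ) (a : V) :
    av (fun x => g (x + a)) = av g := av_congr (Equiv.addRight a) g

theorem Klp_F_cases (a : F) : a = 0 ∨ a = 1 := by
  revert a; decide

theorem Klp_av_mul {S : Type} [Finite S] (g h : S → ℝ) :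
    av g * av h = av fun s => av fun s' => g s * h s' := by
  have h1 : ∀ s, (av fun s' => g s * h s') = av h * g s := fun s => by
    rw [av_mul_left, mul_comm]
  simp only [h1]
  rw [av_mul_left, mul_comm]

theorem Klp_cross {V : Type} [AddCommGroup V] [Module F V] [Finite V] {t : ℕ} (g : V → ℝ)
    (hg : av g = 0) {s s' : Fin t → F} (hs : s ≠ s') :
    av (fun w : (Fin t → V) × V =>
      g (w.2 + ∑ i, s i • w.1 i) * g (w.2 + ∑ i, s' i • w.1 i)) = 0 := by
  classical
  obtain ⟨i, hi⟩ := Function.ne_iff.1 hs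
  have hone : s i + s' i = 1 := by
    rcases Klp_F_cases (s i) with h | h <;> rcases Klp_F_cases (s' i) with h' | h' <;>
      simp_all
  set H : (Fin t → V) × V → ℝ := fun w =>
      g (w.2 + ∑ i, s i • w.1 i) * g (w.2 + ∑ i, s' i • w.1 i) with hH
  have hsum : ∀ (r : Fin t → F) (y : Fin t → V) (v : V),
      ∑ j, r j • (y + Pi.single i v : Fin t → V) j = ∑ j, r j • y j + r i • v := by
    intro r y v
    simp only [Pi.add_apply, smul_add, Finset.sum_add_distrib]
    congr 1
    rw [Finset.sum_eq_single i]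
    · simp
    · intro j _ hj
      simp [Pi.single_eq_of_ne hj]
    · simp
  have h1 : ∀ v : V, av H = av fun w : (Fin t → V) × V =>
      g (w.2 + ∑ i, s i • w.1 i) * g (w.2 + ∑ i, s' i • w.1 i + v) := by
    intro v
    rw [← Klp_av_transl H (Pi.single i v, s i • v)]
    congr 1
    funext w
    simp only [hH, Prod.fst_add, Prod.snd_add, hsum]
    have e1 : w.2 + s i • v + (∑ j, s j • w.1 j + s i • v) = w.2 + ∑ j, s j • w.1 j := by
      have := add_self_V (s i • v)
      calc _ = w.2 + ∑ j, s j • w.1 j + (s i • v + s i • v) := by abel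
        _ = _ := by rw [this, add_zero]
    have e2 : w.2 + s i • v + (∑ j, s' j • w.1 j + s' i • v) =
        w.2 + ∑ j, s' j • w.1 j + v := by
      calc _ = w.2 + ∑ j, s' j • w.1 j + (s i + s' i) • v := by rw [add_smul]; abel
        _ = _ := by rw [hone, one_smul]
    rw [e1, e2]
  have h2 : av H = av fun v : V => av fun w : (Fin t → V) × V =>
      g (w.2 + ∑ i, s i • w.1 i) * g (w.2 + ∑ i, s' i • w.1 i + v) := by
    simp only [← h1]
    rw [av_const]
  rw [h2, av_comm]
  have h3 : ∀ w : (Fin t → V) × V, (av fun v : V =>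
      g (w.2 + ∑ i, s i • w.1 i) * g (w.2 + ∑ i, s' i • w.1 i + v)) = 0 := by
    intro w
    rw [av_mul_left]
    have := Klp_av_transl g (w.2 + ∑ i, s' i • w.1 i)
    simp only [add_comm _ (w.2 + ∑ i, s' i • w.1 i)] at this
    rw [this, hg, mul_zero]
  simp only [h3]
  exact av_const 0

theorem Klp_second {V : Type} [AddCommGroup V] [Module F V] [Finite V] (t : ℕ) (g : V → ℝ)
    (hg : av g = 0) (hb : ∀ x, g x * g x ≤ 4) :
    av (fun y : Fin t → V => av fun x : V =>
      (av fun s : Fin t → F => g (x + ∑ i, s i • y i)) ^ 2) ≤ 4 / 2 ^ t := by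
  classical
  have h0 := av_prod (fun w : (Fin t → V) × V =>
      (av fun s : Fin t → F => g (w.2 + ∑ i, s i • w.1 i)) ^ 2)
  rw [← h0]
  simp only [sq, Klp_av_mul]
  rw [av_comm]
  have h1 : ∀ s : Fin t → F, (av fun w : (Fin t → V) × V => av fun s' : Fin t → F =>
      g (w.2 + ∑ i, s i • w.1 i) * g (w.2 + ∑ i, s' i • w.1 i)) ≤ 4 / 2 ^ t := by
    intro s
    rw [av_comm]
    have h2 : ∀ s' : Fin t → F, (av fun w : (Fin t → V) × V =>
        g (w.2 + ∑ i, s i • w.1 i) * g (w.2 + ∑ i, s' i • w.1 i)) ≤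
        if s' = s then 4 else 0 := by
      intro s'
      split_ifs with h
      · subst h
        exact (av_mono fun w => hb _).trans (av_const 4).le
      · exact (Klp_cross g hg (Ne.symm h)).le
    refine (av_mono h2).trans ?_
    rw [av_eq]
    simp
  exact (av_mono h1).trans (av_const _).le

/-- For `s ≠ s'` the points `x + s·y`, `x + s'·y` are independent and uniform when `(x,y)` is uniform, so
the mean over `(x,y)` of `(av_s - bias)^2` is at most `2^(-t)`; choose `y` below the mean, Markov. -/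
theorem exists_good {η δ : ℝ} (hη : 0 < η) (hδ : 0 < δ) :
    ∃ t : ℕ, ∀ (V : Type) [AddCommGroup V] [Module F V] [Finite V] (f : V → F), η ≤ |bias f| →
      ∃ y : Fin t → V, Good δ f y := by
  obtain ⟨t, ht⟩ := pow_unbounded_of_one_lt (4 / (δ * η ^ 2)) (one_lt_two (α := ℝ))
  refine ⟨t, fun V _ _ _ f hf => ?_⟩
  have hb := abs_bias_le f
  have hg : av (fun x => chi (f x) + -bias f) = 0 := by
    rw [av_add, av_const]
    exact add_neg_cancel _
  have hb4 : ∀ x, (chi (f x) + -bias f) * (chi (f x) + -bias f) ≤ 4 := by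
    intro x
    have h1 := abs_le.1 hb
    have h2 := abs_le.1 (abs_chi (f x)).le
    nlinarith
  have h2 := Klp_second t _ hg hb4
  obtain ⟨y, hy⟩ := exists_le_av (fun y : Fin t → V => av fun x : V =>
      (av fun s : Fin t → F => chi (f (x + ∑ i, s i • y i)) + -bias f) ^ 2)
  refine ⟨y, ?_⟩
  unfold Good
  set B := {x | bias f * (av fun s : Fin t → F => chi (f (x + ∑ i, s i • y i))) ≤ 0} with hB
  have h3 : av (fun x => η ^ 2 * B.indicator (fun _ => (1 : ℝ)) x) ≤ av fun x : V =>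
      (av fun s : Fin t → F => chi (f (x + ∑ i, s i • y i)) + -bias f) ^ 2 := by
    refine av_mono fun x => ?_
    by_cases hx : x ∈ B
    · rw [Set.indicator_of_mem hx, mul_one, av_add, av_const]
      have hx' : bias f * (av fun s : Fin t → F => chi (f (x + ∑ i, s i • y i))) ≤ 0 := hx
      have h4 : η ^ 2 ≤ bias f ^ 2 := by
        rw [← sq_abs (bias f)]
        exact pow_le_pow_left₀ hη.le hf 2
      nlinarith [sq_nonneg (av fun s : Fin t → F => chi (f (x + ∑ i, s i • y i)))]
    · rw [Set.indicator_of_notMem hx, mul_zero]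
      exact sq_nonneg _
  rw [av_mul_left, av_indicator] at h3
  have h5 : η ^ 2 * ((B.ncard : ℝ) / Nat.card V) ≤ 4 / 2 ^ t := h3.trans (hy.trans h2)
  have hV : (0 : ℝ) < Nat.card V := by exact_mod_cast Nat.card_pos
  have hη2 : 0 < η ^ 2 := by positivity
  have h6 : (4 : ℝ) / 2 ^ t < δ * η ^ 2 := by
    rw [div_lt_iff₀ (by positivity)] at ht ⊢
    linarith
  have h7 : (B.ncard : ℝ) / Nat.card V < δ := by
    by_contra hc
    push Not at hc
    nlinarith
  rwa [div_lt_iff₀ hV] at h7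

/-- `h = f + f'` is invariant under the span of `y`, so the two averages differ by the factor
`chi (h x)`; hence `h` vanishes outside density `< 2δ`, and `min_dist` gives `h = 0`. -/
theorem good_inj {V : Type} [AddCommGroup V] [Module F V] [Finite V] {d t : ℕ} {f f' : V → F}
    (hf : f ∈ P V (d + 1)) (hf' : f' ∈ P V (d + 1)) {y : Fin t → V}
    (h : Good (1 / 2 ^ (d + 1)) f y) (h' : Good (1 / 2 ^ (d + 1)) f' y)
    (hs : 0 < bias f * bias f') (hD : ∀ i, D (y i) f = D (y i) f') : f = f' := by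
  classical
  by_contra hne
  have h0 : f + f' ≠ 0 := by
    intro h0
    apply hne
    have := add_self_fun f'
    calc f = f + (f' + f') := by rw [this, add_zero]
      _ = f' := by rw [← add_assoc, h0, zero_add]
  have hmin := min_dist ((P V (d + 1)).add_mem hf hf') h0
  have hinv1 : ∀ i x, (f + f') (x + y i) = (f + f') x := by
    intro i x
    have h1 : D (y i) (f + f') = 0 := by rw [map_add, hD i, add_self_fun]
    have h2 := congrFun h1 x
    rw [D_apply, Pi.zero_apply] at h2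
    have h3 : ∀ a b : F, a + b = 0 → a = b := by decide
    exact h3 _ _ h2
  have hinv : ∀ (s : Fin t → F) (x : V), (f + f') (x + ∑ i, s i • y i) = (f + f') x := by
    intro s x
    induction (Finset.univ : Finset (Fin t)) using Finset.induction_on with
    | empty => simp
    | insert i T hi ih =>
      rw [Finset.sum_insert hi, add_comm (s i • y i), ← add_assoc]
      rcases Klp_F_cases (s i) with h1 | h1
      · rw [h1, zero_smul, add_zero, ih]
      · rw [h1, one_smul, hinv1, ih]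
  set B := {x | bias f * (av fun s : Fin t → F => chi (f (x + ∑ i, s i • y i))) ≤ 0} with hB
  set B' := {x | bias f' * (av fun s : Fin t → F => chi (f' (x + ∑ i, s i • y i))) ≤ 0} with hB'
  have hsub : {x | (f + f') x ≠ 0} ⊆ B ∪ B' := by
    intro x hx
    have hx1 : (f + f') x = 1 := (Klp_F_cases _).resolve_left hx
    have h1 : ∀ s : Fin t → F, chi (f' (x + ∑ i, s i • y i)) =
        -1 * chi (f (x + ∑ i, s i • y i)) := by
      intro s
      have h2 := hinv s x
      rw [hx1, Pi.add_apply] at h2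
      have h3 : ∀ a b : F, a + b = 1 → b = 1 + a := by decide
      rw [h3 _ _ h2, chi_add, chi_one]
    by_contra hc
    rw [Set.mem_union, not_or] at hc
    obtain ⟨c1, c2⟩ := hc
    simp only [hB, hB', Set.mem_ofPred_eq, not_le, h1, av_mul_left] at c1 c2
    nlinarith [mul_pos c1 c2, sq_nonneg (av fun s : Fin t → F => chi (f (x + ∑ i, s i • y i))),
      mul_nonneg hs.le (sq_nonneg (av fun s : Fin t → F => chi (f (x + ∑ i, s i • y i))))]
  have hc : ({x | (f + f') x ≠ 0}.ncard : ℝ) ≤ B.ncard + B'.ncard := by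
    exact_mod_cast (Set.ncard_le_ncard hsub (Set.toFinite _)).trans (Set.ncard_union_le B B')
  have hV : (0 : ℝ) < Nat.card V := by exact_mod_cast Nat.card_pos
  rw [bias_eq_wt] at hmin
  unfold Good at h h'
  have h8 : ({x | (f + f') x ≠ 0}.ncard : ℝ) < 1 / 2 ^ d * Nat.card V := by
    have : (1 : ℝ) / 2 ^ d = 1 / 2 ^ (d + 1) + 1 / 2 ^ (d + 1) := by
      rw [pow_succ]; field_simp; norm_num
    rw [this, add_mul]
    linarith
  have h9 : 2 * ({x | (f + f') x ≠ 0}.ncard : ℝ) / Nat.card V < 2 / 2 ^ d := by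
    rw [div_lt_iff₀ hV]
    have : (2 : ℝ) / 2 ^ d = 2 * (1 / 2 ^ d) := by ring
    rw [this]
    linarith
  linarith

/-- counting form: `f ↦ (sign of the bias, y, derivatives)` is injective -/
theorem klp {η : ℝ} (hη : 0 < η) (d : ℕ) :
    ∃ t : ℕ, ∀ (V : Type) [AddCommGroup V] [Module F V] [Finite V] (A : Set (V → F))
      (B : Set (Fin t → V → F)), (∀ f ∈ A, f ∈ P V (d + 1) ∧ η ≤ |bias f|) →
      (∀ f ∈ A, ∀ y : Fin t → V, (fun i => D (y i) f) ∈ B) →
      A.ncard ≤ 2 * Nat.card V ^ t * B.ncard := by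
  classical
  obtain ⟨t, ht⟩ := exists_good (δ := 1 / 2 ^ (d + 1)) hη (by positivity)
  refine ⟨t, fun V _ _ _ A B hA hB => ?_⟩
  have hy : ∀ f : V → F, ∃ y : Fin t → V, f ∈ A → Good (1 / 2 ^ (d + 1)) f y := by
    intro f
    by_cases hf : f ∈ A
    · obtain ⟨y, hy⟩ := ht V f (hA f hf).2
      exact ⟨y, fun _ => hy⟩
    · exact ⟨0, fun h => (hf h).elim⟩
  choose y hy using hy
  have h1 : A.ncard ≤ ((Set.univ : Set Bool) ×ˢ ((Set.univ : Set (Fin t → V)) ×ˢ B)).ncard := by
    refine Set.ncard_le_ncard_of_injOn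
      (fun f => (decide (0 < bias f), y f, fun i => D (y f i) f)) ?_ ?_ (Set.toFinite _)
    · intro f hf
      exact ⟨trivial, trivial, hB f hf _⟩
    · intro f hf f' hf' he
      simp only [Prod.mk.injEq, decide_eq_decide] at he
      obtain ⟨e1, e2, e3⟩ := he
      have g1 := hy f hf
      have g2 := hy f' hf'
      rw [← e2] at g2 e3
      refine good_inj (hA f hf).1 (hA f' hf').1 g1 g2 ?_ fun i => congrFun e3 i
      have n1 : bias f ≠ 0 := by
        intro h0
        have := (hA f hf).2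
        rw [h0, abs_zero] at this
        linarith
      have n2 : bias f' ≠ 0 := by
        intro h0
        have := (hA f' hf').2
        rw [h0, abs_zero] at this
        linarith
      by_cases hp : 0 < bias f
      · exact mul_pos hp (e1.1 hp)
      · have hp' : ¬ 0 < bias f' := fun h => hp (e1.2 h)
        exact mul_pos_of_neg_of_neg (lt_of_le_of_ne (not_lt.1 hp) n1)
          (lt_of_le_of_ne (not_lt.1 hp') n2)
  rw [Set.ncard_prod, Set.ncard_prod, Set.ncard_univ, Set.ncard_univ, Nat.card_fun] at h1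
  simpa [mul_assoc] using h1

/-- number of biased functions of degree `≤ d` -/
theorem card_biased {η : ℝ} (hη : 0 < η) (d : ℕ) :
    ∃ K : ℕ, ∀ (V : Type) [AddCommGroup V] [Module F V] [Finite V],
      {f | f ∈ P V (d + 1) ∧ η ≤ |bias f|}.ncard ≤
        (2 * Nat.card V * cP (finrank F V) d) ^ K := by
  obtain ⟨t, ht⟩ := klp hη d
  refine ⟨t + 1, fun V _ _ _ => ?_⟩
  have h1 := ht V {f | f ∈ P V (d + 1) ∧ η ≤ |bias f|} {g | ∀ i, g i ∈ P V d} (fun f hf => hf)
    (fun f hf y i => mem_P_succ.1 hf.1 (y i))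
  have h2 : {g : Fin t → V → F | ∀ i, g i ∈ P V d}.ncard = cP (finrank F V) d ^ t := by
    rw [← Nat.card_coe_set_eq, ← card_P]
    have e : {g : Fin t → V → F | ∀ i, g i ∈ P V d} ≃ (Fin t → P V d) :=
      Equiv.subtypePiEquivPi (p := fun _ g => g ∈ P V d)
    rw [Nat.card_congr e, Nat.card_fun]
    simp
  rw [h2] at h1
  refine h1.trans ?_
  have hV : 1 ≤ Nat.card V := Nat.card_pos
  have hc : 1 ≤ cP (finrank F V) d := cP_pos _ _
  have h3 : 1 ≤ 2 ^ t := Nat.one_le_two_pow
  calc 2 * Nat.card V ^ t * cP (finrank F V) d ^ t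
      = 2 * Nat.card V ^ t * cP (finrank F V) d ^ t * (1 * 1 * 1) := by ring
    _ ≤ 2 * Nat.card V ^ t * cP (finrank F V) d ^ t *
        (2 ^ t * Nat.card V * cP (finrank F V) d) := by gcongr
    _ = _ := by ring

/-- iterated sumset -/
def KlpSums {V : Type} [AddCommGroup V] (A : Set V) : ℕ → Set V
  | 0 => {0}
  | j + 1 => {x | ∃ w ∈ KlpSums A j, ∃ a ∈ A, x = w + a}

theorem Klp_sums_mono {V : Type} [AddCommGroup V] {A : Set V} (h0 : 0 ∈ A) :
    Monotone (KlpSums A) :=
  monotone_nat_of_le_succ fun _ x hx => ⟨x, hx, 0, h0, (add_zero x).symm⟩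

theorem Klp_sums_rep {V : Type} [AddCommGroup V] {A : Set V} (j : ℕ) :
    ∀ x ∈ KlpSums A j, ∃ s : Fin j → V, (∀ i, s i ∈ A) ∧ x = ∑ i, s i := by
  induction j with
  | zero =>
    intro x hx
    exact ⟨Fin.elim0, fun i => i.elim0, hx⟩
  | succ j ih =>
    rintro x ⟨w, hw, a, ha, rfl⟩
    obtain ⟨s, hs, rfl⟩ := ih w hw
    refine ⟨Fin.cons a s, fun i => Fin.cases ha hs i, ?_⟩
    rw [Fin.sum_univ_succ, add_comm]
    rfl

theorem Klp_sums_grow {V : Type} [AddCommGroup V] [Module F V] [Finite V] {A : Set V}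
    (h0 : 0 ∈ A) (j : ℕ) (h : ¬ KlpSums A (j + 2) ⊆ KlpSums A (j + 1)) :
    (KlpSums A j).ncard + A.ncard ≤ (KlpSums A (j + 3)).ncard := by
  obtain ⟨x, hx, hx'⟩ := Set.not_subset.1 h
  have hd : Disjoint (KlpSums A j) ((fun a => x + a) '' A) := by
    rw [Set.disjoint_left]
    rintro w hw ⟨a, ha, rfl⟩
    refine hx' ⟨x + a, hw, a, ha, ?_⟩
    rw [add_assoc, add_self_V, add_zero]
  rw [← Set.ncard_image_of_injective A (add_right_injective x),
    ← Set.ncard_union_eq hd (Set.toFinite _) (Set.toFinite _)]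
  refine Set.ncard_le_ncard ?_ (Set.toFinite _)
  rintro w (hw | ⟨a, ha, rfl⟩)
  · exact Klp_sums_mono h0 (Nat.le_add_right j 3) hw
  · exact ⟨x, hx, a, ha, rfl⟩

/-- a dense set containing `0` spans in boundedly many steps: with `A_j` the `j`-fold sumset, if
`x ∈ A_(j+2) \ A_(j+1)` then `x + A` is disjoint from `A_j` and lies in `A_(j+3)`. -/
theorem span_bdd {δ : ℝ} (hδ : 0 < δ) :
    ∃ R : ℕ, ∀ (V : Type) [AddCommGroup V] [Module F V] [Finite V] (A : Set V), 0 ∈ A →
      δ * Nat.card V ≤ A.ncard → ∀ u ∈ Submodule.span F A,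
        ∃ s : Fin R → V, (∀ i, s i ∈ A) ∧ u = ∑ i, s i := by
  obtain ⟨k, hk⟩ := exists_nat_gt (1 / δ)
  refine ⟨3 * k, fun V _ _ _ A h0 hA u hu => ?_⟩
  have hst : ∃ j ≤ 3 * k, KlpSums A (j + 1) ⊆ KlpSums A j := by
    by_contra hc
    push Not at hc
    have h1 : ∀ m ≤ k, m * A.ncard ≤ (KlpSums A (3 * m)).ncard := by
      intro m
      induction m with
      | zero => simp
      | succ m ih =>
        intro hm
        have h2 := ih (by omega)
        have h3 := Klp_sums_grow h0 (3 * m) (hc (3 * m + 1) (by omega))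
        rw [Nat.succ_mul, show 3 * (m + 1) = 3 * m + 3 by ring]
        omega
    have h4 : (KlpSums A (3 * k)).ncard ≤ Nat.card V := Set.ncard_le_card _
    have h5 : (k : ℝ) * A.ncard ≤ Nat.card V := by exact_mod_cast (h1 k le_rfl).trans h4
    have hV : (0 : ℝ) < Nat.card V := by exact_mod_cast Nat.card_pos
    rw [div_lt_iff₀ hδ] at hk
    have hk0 : (0 : ℝ) ≤ k := Nat.cast_nonneg k
    nlinarith [mul_le_mul_of_nonneg_left hA hk0]
  obtain ⟨j, hj, hs⟩ := hst
  have h6 : ∀ w ∈ KlpSums A j, w + u ∈ KlpSums A j := by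
    induction hu using Submodule.span_induction with
    | mem a ha => exact fun w hw => hs ⟨w, hw, a, ha, rfl⟩
    | zero => exact fun w hw => by rwa [add_zero]
    | add a b _ _ iha ihb => exact fun w hw => by rw [← add_assoc]; exact ihb _ (iha w hw)
    | smul c a _ iha =>
      intro w hw
      rcases Klp_F_cases c with h | h
      · rwa [h, zero_smul, add_zero]
      · rw [h, one_smul]; exact iha w hw
  have h7 : (0 : V) ∈ KlpSums A j := Klp_sums_mono h0 (Nat.zero_le j) rfl
  have h8 := h6 0 h7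
  rw [zero_add] at h8
  exact Klp_sums_rep _ u (Klp_sums_mono h0 hj h8)

end Pool.Agent.P.MP_cb6780_lc
end

-- part Pool.Agent.P.MP_cb6780_lc.Struct
section

set_option autoImplicit false

/-! The subspace `U d η f` of a biased function. -/

namespace Pool.Agent.P.MP_cb6780_lc

open Module

section
variable {V : Type} [AddCommGroup V] [Module F V] [Finite V]

theorem zero_mem_S (d : ℕ) {η : ℝ} (hη : η ≤ 1) (f : V → F) : (0 : V) ∈ S d η f := by
  refine ⟨0, (P V d).zero_mem, ?_⟩
  rw [D_zero, add_zero, bias_zero, abs_one]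
  exact hη

omit [Module F V] in
theorem struct_card_pos : (0 : ℝ) < Nat.card V := by exact_mod_cast Nat.card_pos

theorem struct_mem_S {d : ℕ} (hd : 2 ≤ d) {η : ℝ} (W : Submodule F V) (a y : V) {f : V → F}
    (h : η ≤ (Nat.card W : ℝ) / Nat.card V * |bias (res W a (D y f))|) : y ∈ S d η f := by
  obtain ⟨l, hl⟩ := exists_dual W a (D y f)
  exact ⟨fun x => l x, P_mono hd (dual_mem_P l), h.trans hl⟩

/-- `bias_sq` and Markov -/
theorem density (d : ℕ) {ε η : ℝ} (hε : 0 < ε) (hη : η ≤ ε ^ 2 / 2) {f : V → F} (h : ε ≤ |bias f|) :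
    ε ^ 2 / 2 * Nat.card V ≤ (S d η f).ncard := by
  have h1 : ε ^ 2 ≤ bias f ^ 2 := by
    rw [← sq_abs (bias f)]
    exact pow_le_pow_left₀ hε.le h 2
  have h2 : ∀ y, bias (D y f) ≤ ε ^ 2 / 2 + (S d η f).indicator (fun _ => (1 : ℝ)) y := fun y => by
    by_cases hy : y ∈ S d η f
    · rw [Set.indicator_of_mem hy]
      have := (abs_le.1 (abs_bias_le (D y f))).2
      have := sq_nonneg ε
      linarith
    · rw [Set.indicator_of_notMem hy, add_zero]
      have : ¬ η ≤ |bias (D y f + 0)| := fun k => hy ⟨0, (P V d).zero_mem, k⟩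
      rw [add_zero] at this
      have := le_abs_self (bias (D y f))
      linarith
  have h3 := av_mono h2
  rw [← bias_sq, av_add (fun _ => ε ^ 2 / 2), av_const, av_indicator] at h3
  have h4 : ε ^ 2 / 2 ≤ ((S d η f).ncard : ℝ) / Nat.card V := by linarith
  rwa [le_div_iff₀ struct_card_pos] at h4

theorem struct_mul_bias (W : Submodule F V) (f : V → F) (a b : V) :
    bias (res W a f) * bias (res W b f) = av fun w : W => bias (res W a (D (a + b + w) f)) := by
  have e1 : ∀ u : W, chi (res W a f u) * bias (res W b f) =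
      av fun w : W => chi (res W a (D (a + b + w) f) u) := fun u => by
    rw [← bias_transl (res W b f) u, bias, ← av_mul_left]
    refine congrArg av (funext fun w => ?_)
    rw [res_apply, res_apply, res_apply, D_apply, chi_add, mul_comm]
    have : (u : V) + a + (a + b + w) = ((w + u : W) : V) + b := by
      rw [Submodule.coe_add]
      have := add_self_V a
      calc (u : V) + a + (a + b + w) = (a + a) + (w + u + b) := by abel
        _ = _ := by rw [this, zero_add]
    rw [this]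
  have e2 : bias (res W a f) * bias (res W b f) =
      av fun u : W => chi (res W a f u) * bias (res W b f) := by
    rw [mul_comm, bias.eq_1 (res W a f), ← av_mul_left]
    exact congrArg av (funext fun u => mul_comm _ _)
  rw [e2, funext e1, av_comm]
  rfl

/-- `bias (res W a f) * bias (res W b f)` is the mean over `w ∈ W` of
`bias (res W a (D (a + b + w) f))`; then `exists_dual` -/
theorem two_cosets {d : ℕ} (hd : 2 ≤ d) {η γ : ℝ} (hγ : 0 ≤ γ) (W : Submodule F V) {f : V → F} {a b : V}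
    (ha : γ ≤ |bias (res W a f)|) (hb : γ ≤ |bias (res W b f)|)
    (hη : η ≤ γ ^ 2 * (Nat.card W / Nat.card V)) : ∃ w ∈ W, a + b + w ∈ S d η f := by
  have h1 : γ ^ 2 ≤ |bias (res W a f) * bias (res W b f)| := by
    rw [abs_mul, sq]
    exact mul_le_mul ha hb hγ (abs_nonneg _)
  rw [struct_mul_bias] at h1
  obtain ⟨w, hw⟩ := exists_av_le fun w : W => |bias (res W a (D (a + b + w) f))|
  refine ⟨w, w.2, struct_mem_S hd W a _ (hη.trans ?_)⟩
  rw [mul_comm]
  exact mul_le_mul_of_nonneg_left ((h1.trans (abs_av_le _)).trans hw) (by positivity)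

/-- a coset with bias `> 1/2` has only cheap directions (`bias_D_ge`, `exists_dual`) -/
theorem le_U {d : ℕ} (hd : 2 ≤ d) {η γ : ℝ} (hγ : 0 ≤ γ) (W : Submodule F V) {f : V → F} {a : V}
    (ha : 1 / 2 + γ ≤ bias (res W a f)) (hη : η ≤ 2 * γ * (Nat.card W / Nat.card V)) :
    W ≤ U d η f := by
  intro w hw
  refine Submodule.subset_span (struct_mem_S hd W a w (hη.trans ?_))
  rw [mul_comm]
  refine mul_le_mul_of_nonneg_left ?_ (by positivity)
  have e : res W a (D w f) = D (⟨w, hw⟩ : W) (res W a f) := by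
    funext u
    rw [res_apply, D_apply, D_apply, res_apply, res_apply, Submodule.coe_add, add_right_comm]
  have := bias_D_ge (res W a f) (⟨w, hw⟩ : W)
  rw [e]
  have := le_abs_self (bias (D (⟨w, hw⟩ : W) (res W a f)))
  linarith

/-- the bias lives on one coset of `U` (`density` gives `|U|/|V| ≥ ε²/2`, `two_cosets`, `bias_split`) -/
theorem one_coset {d : ℕ} (hd : 2 ≤ d) {ε γ η : ℝ} (hγ : 0 < γ) (hγε : γ < ε) (hγ1 : γ ≤ 1)
    (hη : η ≤ γ ^ 2 * (ε ^ 2 / 2)) {f : V → F} (h : ε ≤ bias f) :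
    ∃ a, ε - γ ≤ (Nat.card (U d η f) : ℝ) / Nat.card V * bias (res (U d η f) a f) := by
  have hε : 0 < ε := hγ.trans hγε
  have g1 : γ ^ 2 ≤ 1 := pow_le_one₀ hγ.le hγ1
  have g2 : η ≤ ε ^ 2 / 2 := hη.trans (mul_le_of_le_one_left (by positivity) g1)
  have h1 := density d hε g2 (h.trans (le_abs_self _))
  have h2 : (S d η f).ncard ≤ Nat.card (U d η f) :=
    Set.ncard_le_ncard (t := (U d η f : Set V)) Submodule.subset_span
  have h3 : ε ^ 2 / 2 ≤ (Nat.card (U d η f) : ℝ) / Nat.card V := by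
    rw [le_div_iff₀ struct_card_pos]
    exact h1.trans (by exact_mod_cast h2)
  obtain ⟨a, ha⟩ := exists_av_le fun a => bias (res (U d η f) a f)
  rw [← bias_eq_av_res] at ha
  refine ⟨a, ?_⟩
  have h4 : ∀ b, ({b : V | a + b ∉ U d η f}.indicator fun b => bias (res (U d η f) b f)) b ≤ γ := by
    intro b
    by_cases hb : b ∈ {b : V | a + b ∉ U d η f}
    · rw [Set.indicator_of_mem hb]
      by_contra hc
      obtain ⟨w, hw, hs⟩ := two_cosets hd (η := η) hγ.le (U d η f) (f := f) (a := a) (b := b)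
        ((hγε.le.trans (h.trans ha)).trans (le_abs_self _))
        ((not_le.1 hc).le.trans (le_abs_self _))
        (hη.trans (mul_le_mul_of_nonneg_left h3 (by positivity)))
      have k : a + b + w ∈ U d η f := Submodule.subset_span hs
      exact hb (((U d η f).add_mem_iff_left hw).1 k)
    · rw [Set.indicator_of_notMem hb]
      exact hγ.le
  have h5 := av_mono h4
  rw [av_const] at h5
  have h6 := bias_split (U d η f) a f
  linarith

omit [Finite V] in
theorem struct_D_smul (c : F) (y : V) (f : V → F) : D (c • y) f = c • D y f := by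
  have : c = 0 ∨ c = 1 := by revert c; decide
  rcases this with rfl | rfl
  · rw [zero_smul, zero_smul, D_zero]
  · rw [one_smul, one_smul]

omit [Finite V] in
theorem struct_D_add {d : ℕ} {f : V → F} (hf : f ∈ P V (d + 2)) (y z : V) :
    D (y + z) f - (D y f + D z f) ∈ P V d := by
  rw [D_add, add_sub_cancel_left]
  exact mem_P_succ.1 (mem_P_succ.1 hf z) y

omit [Finite V] in
theorem struct_D_sum {d : ℕ} {f : V → F} (hf : f ∈ P V (d + 2)) {ι : Type} (s : Finset ι)
    (y : ι → V) : D (∑ i ∈ s, y i) f - ∑ i ∈ s, D (y i) f ∈ P V d := by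
  classical
  induction s using Finset.induction_on with
  | empty =>
    rw [Finset.sum_empty, Finset.sum_empty, D_zero, sub_zero]
    exact (P V d).zero_mem
  | insert i s hi ih =>
    rw [Finset.sum_insert hi, Finset.sum_insert hi]
    have := (P V d).add_mem (struct_D_add hf (y i) (∑ i ∈ s, y i)) ih
    have e : D (y i + ∑ i ∈ s, y i) f - (D (y i) f + D (∑ i ∈ s, y i) f) +
        (D (∑ i ∈ s, y i) f - ∑ i ∈ s, D (y i) f) =
        D (y i + ∑ i ∈ s, y i) f - (D (y i) f + ∑ i ∈ s, D (y i) f) := by abel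
    rwa [e] at this

theorem struct_exists_gen (W : Submodule F V) {j : ℕ} (h : finrank F V ≤ finrank F W + j) :
    ∃ a : Fin j → V, ∀ y, ∃ l : Fin j → F, y - ∑ k, l k • a k ∈ W := by
  classical
  have h1 : finrank F (V ⧸ W) ≤ finrank F (Fin j → F) := by
    have := W.finrank_quotient_add_finrank
    rw [Module.finrank_fin_fun]
    omega
  obtain ⟨i, hi⟩ := finrank_le_iff_exists_linearMap.1 h1
  obtain ⟨g, hg⟩ := i.exists_leftInverse_of_injective (LinearMap.ker_eq_bot.2 hi)
  choose a ha using fun k : Fin j => W.mkQ_surjective (g fun k' => if k = k' then 1 else 0)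
  refine ⟨a, fun y => ⟨i (W.mkQ y), ?_⟩⟩
  rw [← Submodule.Quotient.mk_eq_zero, ← Submodule.mkQ_apply, map_sub, map_sum, sub_eq_zero]
  simp only [map_smul, ha]
  rw [← LinearMap.pi_apply_eq_sum_univ g]
  exact (LinearMap.congr_fun hg (W.mkQ y)).symm

end

/-- Count of biased functions with `codim U ≤ j`.  Take `a_1..a_j` spanning `V` modulo `U`.  Every `y` is
`sum λ_k a_k + s_1 + .. + s_R` (`span_bdd`), so by `D_add` modulo `P V d` the derivative `D y f` is
`sum λ_k D a_k f + b_1 + .. + b_R` with `b_i ∈ P V (d+1)` of bias `≥ η` in absolute value.  Apply `klp` with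
`B` the image of `(p, (λ, b, q)_i)`, `p ∈ (P V (d+1))^j`, and `card_biased`. -/
theorem small {ε η : ℝ} (hε : 0 < ε) (hε1 : ε ≤ 1) (hη0 : 0 < η) (hη : η ≤ ε ^ 2 / 2) (d j : ℕ) :
    ∃ K : ℕ, ∀ (V : Type) [AddCommGroup V] [Module F V] [Finite V],
      {f | f ∈ P V (d + 2) ∧ ε ≤ |bias f| ∧ finrank F V ≤ finrank F (U d η f) + j}.ncard ≤
        cP (finrank F V) (d + 1) ^ j * (2 * Nat.card V * cP (finrank F V) d) ^ K := by
  obtain ⟨t, ht⟩ := klp hε (d + 1)
  obtain ⟨K0, hK⟩ := card_biased hη0 d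
  obtain ⟨R, hR⟩ := span_bdd (δ := ε ^ 2 / 2) (by positivity)
  refine ⟨(j + K0 * R + 1) * t + (t + 1), fun V _ _ _ => ?_⟩
  set Bi : Set (V → F) := {f | f ∈ P V (d + 1) ∧ η ≤ |bias f|} with hBi
  let g : (Fin j → P V (d + 1)) × (Fin t → (Fin j → F) × (Fin R → Bi) × P V d) → Fin t → V → F :=
    fun ω i => (∑ k, (ω.2 i).1 k • (ω.1 k : V → F)) + (∑ r, ((ω.2 i).2.1 r : V → F)) + (ω.2 i).2.2
  have h1 := ht V
    {f | f ∈ P V (d + 2) ∧ ε ≤ |bias f| ∧ finrank F V ≤ finrank F (U d η f) + j} (Set.range g)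
    (fun f hf => ⟨hf.1, hf.2.1⟩) fun f hf y => by
      obtain ⟨f1, f2, f3⟩ := hf
      obtain ⟨a, ha⟩ := struct_exists_gen (U d η f) f3
      have η1 : η ≤ 1 := by
        have := pow_le_one₀ (n := 2) hε.le hε1
        linarith
      have key : ∀ z : V, ∃ ω : (Fin j → F) × (Fin R → Bi) × P V d,
          (∑ k, ω.1 k • D (a k) f) + (∑ r, (ω.2.1 r : V → F)) + ω.2.2 = D z f := by
        intro z
        obtain ⟨l, hl⟩ := ha z
        obtain ⟨s, hs1, hs2⟩ := hR V (S d η f) (zero_mem_S d η1 f) (density d hε hη f2) _ hl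
        choose q hq1 hq2 using hs1
        refine ⟨⟨l, fun r => ⟨D (s r) f + q r, (P V (d + 1)).add_mem (mem_P_succ.1 f1 _)
          (P_le_succ d (hq1 r)), hq2 r⟩, ⟨D z f - ((∑ k, l k • D (a k) f) +
            ∑ r, (D (s r) f + q r)), ?_⟩⟩, add_sub_cancel _ _⟩
        have z1 : z = (∑ k, l k • a k) + ∑ r, s r := by rw [← hs2]; abel
        have m1 := struct_D_add f1 (∑ k, l k • a k) (∑ r, s r)
        have m2 := struct_D_sum f1 Finset.univ fun k => l k • a k
        have m3 := struct_D_sum f1 Finset.univ s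
        have m4 : ∑ r, q r ∈ P V d := (P V d).sum_mem fun r _ => hq1 r
        simp only [struct_D_smul] at m2
        rw [← z1] at m1
        have := (P V d).sub_mem ((P V d).add_mem ((P V d).add_mem m1 m2) m3) m4
        have e : D z f - (D (∑ k, l k • a k) f + D (∑ r, s r) f) +
            (D (∑ k, l k • a k) f - ∑ k, l k • D (a k) f) + (D (∑ r, s r) f - ∑ r, D (s r) f) -
            ∑ r, q r = D z f - ((∑ k, l k • D (a k) f) + ∑ r, (D (s r) f + q r)) := by
          rw [Finset.sum_add_distrib]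
          abel
        rwa [e] at this
      choose ω hω using key
      exact ⟨⟨fun k => ⟨D (a k) f, mem_P_succ.1 f1 _⟩, fun i => ω (y i)⟩, funext fun i => hω (y i)⟩
  have h2 : (Set.range g).ncard ≤ cP (finrank F V) (d + 1) ^ j *
      (2 ^ j * (Bi.ncard ^ R * cP (finrank F V) d)) ^ t := by
    have := Finite.card_range_le g
    simpa only [Nat.card_prod, Nat.card_fun, card_P, Nat.card_coe_set_eq, Nat.card_zmod,
      Nat.card_eq_fintype_card (α := Fin _), Fintype.card_fin] using this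
  have h3 := hK V
  rw [← hBi] at h3
  have p1 : 0 < Nat.card V := Nat.card_pos
  have p2 := cP_pos (finrank F V) d
  set M := 2 * Nat.card V * cP (finrank F V) d with hM
  have b1 : 2 ≤ M := by rw [hM, mul_assoc]; exact Nat.le_mul_of_pos_right _ (Nat.mul_pos p1 p2)
  have b2 : Nat.card V ≤ M := by
    rw [hM, mul_right_comm]; exact Nat.le_mul_of_pos_left _ (by omega)
  have b3 : cP (finrank F V) d ≤ M := Nat.le_mul_of_pos_left _ (by omega)
  have c1 : 2 ^ j * (Bi.ncard ^ R * cP (finrank F V) d) ≤ M ^ (j + K0 * R + 1) := by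
    rw [pow_succ, pow_add, pow_mul, mul_assoc]
    exact Nat.mul_le_mul (Nat.pow_le_pow_left b1 _) (Nat.mul_le_mul (Nat.pow_le_pow_left h3 _) b3)
  have c2 : 2 * Nat.card V ^ t ≤ M ^ (t + 1) := by
    rw [pow_succ']
    exact Nat.mul_le_mul b1 (Nat.pow_le_pow_left b2 _)
  calc _ ≤ 2 * Nat.card V ^ t * (Set.range g).ncard := h1
    _ ≤ M ^ (t + 1) * (cP (finrank F V) (d + 1) ^ j * (M ^ (j + K0 * R + 1)) ^ t) :=
      Nat.mul_le_mul c2 (h2.trans (Nat.mul_le_mul_left _ (Nat.pow_le_pow_left c1 _)))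
    _ = _ := by rw [pow_add M _ (t + 1), pow_mul M _ t]; ring

end Pool.Agent.P.MP_cb6780_lc
end

-- part Pool.Agent.P.MP_cb6780_lc.UpLow
section

set_option autoImplicit false

/-! The two finite inequalities: almost every `ε`-biased function is more than `1/2`-biased on a
unique flat of codimension `c` and unbiased on the parallel flats. -/

namespace Pool.Agent.P.MP_cb6780_lc

open Module

theorem ul_fiber {α β : Type} [Fintype α] [Finite β] (Z : Set β) (π : β → α) :
    Z.ncard = ∑ a, {z | z ∈ Z ∧ π z = a}.ncard := by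
  classical
  have hZ : Z.Finite := Set.toFinite Z
  rw [Set.ncard_eq_toFinset_card Z hZ,
    Finset.card_eq_sum_card_fiberwise (s := hZ.toFinset) (t := Finset.univ) (f := π)
      (fun _ _ => Finset.mem_coe.2 (Finset.mem_univ _))]
  refine Finset.sum_congr rfl fun a _ => ?_
  rw [← Set.ncard_coe_finset]
  congr 1
  ext z
  simp

theorem ul_ite {α : Type} [Fintype α] (A : Set α) [DecidablePred (· ∈ A)] (k : ℕ) :
    ∑ a, (if a ∈ A then k else 0) = A.ncard * k := by
  rw [← Finset.sum_filter, Finset.sum_const, smul_eq_mul, ← Set.ncard_coe_finset]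
  congr 2
  ext z
  simp

section
variable {V : Type} [AddCommGroup V] [Module F V] [Finite V]

theorem ul_finsub : Finite (Submodule F V) :=
  Finite.of_injective (fun W : Submodule F V => (W : Set V)) SetLike.coe_injective

/-- pairs (subspace of codimension `c`, point) -/
def ulPairs (V : Type) [AddCommGroup V] [Module F V] (c : ℕ) : Set (Submodule F V × V) :=
  {w | finrank F w.1 + c = finrank F V}

theorem ul_pairs {n c : ℕ} (hV : finrank F V = n + c) :
    (ulPairs V c).ncard = G V c * 2 ^ (n + c) := by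
  have h : ulPairs V c = {W : Submodule F V | finrank F W + c = finrank F V} ×ˢ (Set.univ : Set V) := by
    ext w
    simp [ulPairs]
  rw [h, Set.ncard_prod, Set.ncard_univ, card_V, hV, G, hV]

omit [Finite V] in
theorem ul_fib_eq (Z : Set (Submodule F V × V × (V → F))) (w : Submodule F V × V) :
    {z | z ∈ Z ∧ (z.1, z.2.1) = w}.ncard = {f | (w.1, w.2, f) ∈ Z}.ncard := by
  symm
  refine Set.ncard_congr (fun f _ => (w.1, w.2, f)) ?_ ?_ ?_
  · intro f hf
    exact ⟨hf, rfl⟩
  · intro f g _ _ h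
    exact (Prod.ext_iff.1 (Prod.ext_iff.1 h).2).2
  · rintro ⟨W, a, f⟩ ⟨hz, rfl⟩
    exact ⟨f, hz, rfl⟩

theorem ul_card_sub {n c : ℕ} (hV : finrank F V = n + c) {W : Submodule F V}
    (hW : finrank F W + c = finrank F V) : Nat.card W = 2 ^ n := by
  rw [card_V]
  congr 1
  omega

end

section
variable {V : Type} [AddCommGroup V] [Module F V] [Finite V]

/-- triples (subspace of codimension `c`, base point, function biased on the coset) -/
def Tri (V : Type) [AddCommGroup V] [Module F V] (c e : ℕ) (θ : ℝ) :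
    Set (Submodule F V × V × (V → F)) :=
  {z | finrank F z.1 + c = finrank F V ∧ z.2.2 ∈ P V e ∧ θ ≤ bias (res z.1 z.2.1 z.2.2)}

/-- fibrewise by `ncard_res_pre` and `N_eq` -/
theorem ncard_Tri {n c : ℕ} (hV : finrank F V = n + c) (e : ℕ) (θ : ℝ) :
    (Tri V c e θ).ncard * cP n e = G V c * 2 ^ (n + c) * (Nn n e θ * cP (n + c) e) := by
  classical
  have := @ul_finsub V _ _ _
  have := Fintype.ofFinite (Submodule F V × V)
  rw [ul_fiber (Tri V c e θ) (fun z => (z.1, z.2.1)), Finset.sum_mul, ← ul_pairs hV, ← ul_ite]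
  refine Finset.sum_congr rfl fun w _ => ?_
  rw [ul_fib_eq]
  by_cases hw : w ∈ ulPairs V c
  · rw [if_pos hw]
    have hw' : finrank F w.1 + c = finrank F V := hw
    have hn : finrank F w.1 = n := by omega
    have h1 := ncard_res_pre w.1 w.2 e {g | θ ≤ bias g}
    have h2 := N_eq (V := w.1) e θ
    rw [hn] at h2
    rw [hn, hV] at h1
    have h3 : {f | (w.1, w.2, f) ∈ Tri V c e θ} =
        {f | f ∈ P V e ∧ res w.1 w.2 f ∈ {g | θ ≤ bias g}} := by
      ext f
      exact ⟨fun h => h.2, fun h => ⟨hw', h⟩⟩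
    rw [h3, h1, ← h2]
    rfl
  · rw [if_neg hw]
    have h3 : {f | (w.1, w.2, f) ∈ Tri V c e θ} = ∅ := by
      ext f
      exact ⟨fun h => hw h.1, fun h => h.elim⟩
    rw [h3, Set.ncard_empty, zero_mul]

/-- exceptional functions: `codim U < c` -/
def Bad (V : Type) [AddCommGroup V] [Module F V] (d c : ℕ) (ε η : ℝ) : Set (V → F) :=
  {f | f ∈ P V (d + 2) ∧ ε ≤ |bias f| ∧ finrank F V < finrank F (U d η f) + c}

/-- For `f` outside `Bad` with bias `≥ ε`: `one_coset` gives `|U|/|V| ≥ ε - γ > 2^(-c-1)`, so `U` has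
codimension exactly `c`, and the `2^n` points `a'` of the coset give `2^n` triples `(U, a', f)`. -/
theorem up_aux {n c d : ℕ} (hV : finrank F V = n + c) (hd : 2 ≤ d) {ε γ η : ℝ} (hγ : 0 < γ)
    (hγ1 : γ ≤ 1) (hε : 1 / 2 ^ (c + 1) + γ < ε) (hη : η ≤ γ ^ 2 * (ε ^ 2 / 2)) :
    2 ^ n * N V (d + 2) ε ≤
      (Tri V c (d + 2) (2 ^ c * (ε - γ))).ncard + 2 ^ n * (Bad V d c ε η).ncard := by
  classical
  have := @ul_finsub V _ _ _
  have := Fintype.ofFinite (V → F)
  rw [ul_fiber (Tri V c (d + 2) (2 ^ c * (ε - γ))) (fun z => z.2.2), N, mul_comm, mul_comm (2 ^ n),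
    ← ul_ite, ← ul_ite, ← Finset.sum_add_distrib]
  refine Finset.sum_le_sum fun f _ => ?_
  by_cases hf : f ∈ {f : V → F | f ∈ P V (d + 2) ∧ ε ≤ bias f}
  swap
  · rw [if_neg hf]
    exact Nat.zero_le _
  rw [if_pos hf]
  by_cases hb : f ∈ Bad V d c ε η
  · rw [if_pos hb]
    exact Nat.le_add_left _ _
  rw [if_neg hb, add_zero]
  obtain ⟨hP, hfb⟩ := hf
  have hpos : (0 : ℝ) < 1 / 2 ^ (c + 1) := by positivity
  have hge : finrank F (U d η f) + c ≤ finrank F V := by
    by_contra h
    exact hb ⟨hP, hfb.trans (le_abs_self _), not_le.1 h⟩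
  obtain ⟨a, ha⟩ := one_coset hd hγ (by linarith) hγ1 hη hfb
  obtain ⟨c', hc'⟩ : ∃ c', finrank F (U d η f) + c' = finrank F V :=
    ⟨finrank F V - finrank F (U d η f), by omega⟩
  rw [card_sub _ hc'] at ha
  have hb1 : bias (res (U d η f) a f) ≤ 1 := (le_abs_self _).trans (abs_bias_le _)
  have hp' : (0 : ℝ) < 1 / 2 ^ c' := by positivity
  have hlt : (1 : ℝ) / 2 ^ (c + 1) < 1 / 2 ^ c' := by
    have := mul_le_mul_of_nonneg_left hb1 hp'.le
    linarith
  have hcc : c' = c := by
    have h1 : (2 : ℝ) ^ c' < 2 ^ (c + 1) := by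
      rwa [one_div_lt_one_div (by positivity) (by positivity)] at hlt
    have h2 : c' < c + 1 := (pow_lt_pow_iff_right₀ (by norm_num : (1 : ℝ) < 2)).1 h1
    omega
  subst hcc
  have hθ : 2 ^ c' * (ε - γ) ≤ bias (res (U d η f) a f) := by
    have h1 := mul_le_mul_of_nonneg_left ha (by positivity : (0 : ℝ) ≤ 2 ^ c')
    rwa [← mul_assoc, mul_one_div_cancel (by positivity), one_mul] at h1
  rw [← ul_card_sub hV hc', ← Set.ncard_univ]
  refine Set.ncard_le_ncard_of_injOn (fun u : U d η f => (U d η f, a + u.1, f)) ?_ ?_ (Set.toFinite _)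
  · intro u _
    refine ⟨⟨hc', hP, ?_⟩, rfl⟩
    have h1 : a + (a + u.1) ∈ U d η f := by
      rw [← add_assoc, add_self_V, zero_add]
      exact u.2
    exact hθ.trans (bias_res_congr _ h1 f).le
  · intro u _ v _ h
    exact Subtype.ext (add_left_cancel (Prod.ext_iff.1 (Prod.ext_iff.1 h).2).1)

/-- triples whose function has bias `≥ ε`: by `cheb`, for each `(U,a)` -/
theorem low_aux1 {n c e : ℕ} (hV : finrank F V = n + c) (he : 3 ≤ e) {ε γ : ℝ} (hγ : 0 < γ) :
    (1 - 1 / (γ ^ 2 * 2 ^ n)) * ((Tri V c e (2 ^ c * (ε + γ))).ncard : ℝ) ≤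
      {z | z ∈ Tri V c e (2 ^ c * (ε + γ)) ∧ ε ≤ bias z.2.2}.ncard := by
  classical
  have := @ul_finsub V _ _ _
  have := Fintype.ofFinite (Submodule F V × V)
  rw [ul_fiber (Tri V c e (2 ^ c * (ε + γ))) (fun z => (z.1, z.2.1)),
    ul_fiber {z | z ∈ Tri V c e (2 ^ c * (ε + γ)) ∧ ε ≤ bias z.2.2} (fun z => (z.1, z.2.1)),
    Nat.cast_sum, Nat.cast_sum, Finset.mul_sum]
  refine Finset.sum_le_sum fun w _ => ?_
  rw [ul_fib_eq, ul_fib_eq]
  by_cases hw : w ∈ ulPairs V c
  swap
  · have h3 : {f | (w.1, w.2, f) ∈ Tri V c e (2 ^ c * (ε + γ))} = ∅ := by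
      ext f
      exact ⟨fun h => hw h.1, fun h => h.elim⟩
    rw [h3, Set.ncard_empty, Nat.cast_zero, mul_zero]
    exact Nat.cast_nonneg _
  have hw' : finrank F w.1 + c = finrank F V := hw
  have h1 := cheb w.1 w.2 he {g | 2 ^ c * (ε + γ) ≤ bias g} hγ
  rw [card_sub _ hw', ul_card_sub hV hw'] at h1
  have h3 : {f | (w.1, w.2, f) ∈ Tri V c e (2 ^ c * (ε + γ))} =
      {f | f ∈ P V e ∧ res w.1 w.2 f ∈ {g | 2 ^ c * (ε + γ) ≤ bias g}} := by
    ext f
    exact ⟨fun h => h.2, fun h => ⟨hw', h⟩⟩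
  have h4 : {f | f ∈ P V e ∧ res w.1 w.2 f ∈ {g | 2 ^ c * (ε + γ) ≤ bias g}} ⊆
      {f | (w.1, w.2, f) ∈ {z | z ∈ Tri V c e (2 ^ c * (ε + γ)) ∧ ε ≤ bias z.2.2}} ∪
      {f | (f ∈ P V e ∧ res w.1 w.2 f ∈ {g | 2 ^ c * (ε + γ) ≤ bias g}) ∧
        bias f < 1 / 2 ^ c * bias (res w.1 w.2 f) - γ} := by
    intro f hf
    by_cases h : ε ≤ bias f
    · exact Or.inl ⟨⟨hw', hf⟩, h⟩
    · refine Or.inr ⟨hf, ?_⟩
      have h5 : 2 ^ c * (ε + γ) ≤ bias (res w.1 w.2 f) := hf.2
      have h6 := mul_le_mul_of_nonneg_left h5 (by positivity : (0 : ℝ) ≤ 1 / 2 ^ c)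
      rw [← mul_assoc, one_div_mul_cancel (by positivity), one_mul] at h6
      linarith [not_le.1 h]
  have h5 := (Set.ncard_le_ncard h4 (Set.toFinite _)).trans (Set.ncard_union_le _ _)
  have h6 := (Nat.cast_le (α := ℝ)).2 h5
  rw [Nat.cast_add] at h6
  rw [h3, sub_mul, one_mul, one_div_mul_eq_div]
  rw [Nat.cast_pow, Nat.cast_ofNat] at h1
  linarith

/-- a function outside `Bad` lies in at most `2^n` triples: `le_U` and dimensions give `z.1 = U d η f`,
`two_cosets` (with `γ = 1/2`) fixes the coset; a function in `Bad` lies in at most `G * |V|` triples -/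
theorem low_aux2 {n c d : ℕ} (hV : finrank F V = n + c) (hd : 2 ≤ d) {ε γ θ η : ℝ} (hγ : 0 ≤ γ)
    (hθ : 1 / 2 + γ ≤ θ) (hη : η ≤ 2 * γ / 2 ^ c) (hη' : η ≤ 1 / 4 / 2 ^ c) :
    {z | z ∈ Tri V c (d + 2) θ ∧ ε ≤ bias z.2.2}.ncard ≤
      2 ^ n * N V (d + 2) ε + G V c * 2 ^ (n + c) * (Bad V d c ε η).ncard := by
  classical
  have := @ul_finsub V _ _ _
  have := Fintype.ofFinite (V → F)
  rw [ul_fiber {z | z ∈ Tri V c (d + 2) θ ∧ ε ≤ bias z.2.2} (fun z => z.2.2), N, mul_comm (2 ^ n),
    mul_comm (G V c * 2 ^ (n + c)), ← ul_ite, ← ul_ite, ← Finset.sum_add_distrib]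
  refine Finset.sum_le_sum fun f _ => ?_
  by_cases hb : f ∈ Bad V d c ε η
  · rw [if_pos hb, ← ul_pairs hV]
    refine le_trans ?_ (Nat.le_add_left _ _)
    refine Set.ncard_le_ncard_of_injOn (fun z => (z.1, z.2.1)) ?_ ?_ (Set.toFinite _)
    · intro z hz
      exact hz.1.1.1
    · rintro ⟨W, a, g⟩ ⟨_, h1⟩ ⟨W', a', g'⟩ ⟨_, h2⟩ h
      obtain ⟨h3, h4⟩ := Prod.ext_iff.1 h
      exact Prod.ext h3 (Prod.ext h4 (h1.trans h2.symm))
  rw [if_neg hb, add_zero]
  rcases Set.eq_empty_or_nonempty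
    {z | z ∈ {z | z ∈ Tri V c (d + 2) θ ∧ ε ≤ bias z.2.2} ∧ z.2.2 = f} with h0 | ⟨z₀, hz₀⟩
  · rw [h0, Set.ncard_empty]
    exact Nat.zero_le _
  obtain ⟨W₀, a₀, f₀⟩ := z₀
  obtain ⟨⟨⟨hW₀, hP, ha₀⟩, hfb⟩, rfl⟩ := hz₀
  simp only at hW₀ hP ha₀ hfb hb ⊢
  rw [if_pos (show f₀ ∈ {f : V → F | f ∈ P V (d + 2) ∧ ε ≤ bias f} from ⟨hP, hfb⟩)]
  have hge : finrank F (U d η f₀) + c ≤ finrank F V := by
    by_contra h
    exact hb ⟨hP, hfb.trans (le_abs_self _), not_le.1 h⟩
  have key : ∀ (W : Submodule F V) (a : V), finrank F W + c = finrank F V → θ ≤ bias (res W a f₀) →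
      W = U d η f₀ := by
    intro W a hW ha
    have h1 : W ≤ U d η f₀ := by
      refine le_U hd hγ W (hθ.trans ha) ?_
      rw [card_sub _ hW, mul_one_div]
      exact hη
    exact Submodule.eq_of_le_of_finrank_le h1 (by omega)
  have hU := key W₀ a₀ hW₀ ha₀
  rw [← ul_card_sub hV hW₀, show Nat.card W₀ = (W₀ : Set V).ncard from Nat.card_coe_set_eq (W₀ : Set V)]
  refine Set.ncard_le_ncard_of_injOn (fun z => a₀ + z.2.1) ?_ ?_ (Set.toFinite _)
  · rintro ⟨W, a, g⟩ ⟨⟨⟨hW, _, ha⟩, _⟩, hg⟩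
    simp only at hW ha hg
    subst hg
    have h1 : W = W₀ := (key W a hW ha).trans hU.symm
    subst h1
    obtain ⟨w, hw, hS⟩ := two_cosets (η := η) (γ := 1 / 2) hd (by norm_num) W (f := g) (a := a₀) (b := a)
      (le_trans (by linarith) (le_abs_self _)) (le_trans (by linarith) (le_abs_self _))
      (by
        rw [card_sub _ hW, mul_one_div]
        refine hη'.trans (le_of_eq ?_)
        norm_num)
    have h2 : a₀ + a + w ∈ W := by
      rw [hU]
      exact Submodule.subset_span hS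
    exact (Submodule.add_mem_iff_left _ hw).1 h2
  · rintro ⟨W, a, g⟩ ⟨⟨⟨hW, _, ha⟩, _⟩, hg⟩ ⟨W', a', g'⟩ ⟨⟨⟨hW', _, ha'⟩, _⟩, hg'⟩ h
    simp only at hW ha hg hW' ha' hg' h
    subst hg
    subst hg'
    exact Prod.ext ((key W a hW ha).trans (key W' a' hW' ha').symm)
      (Prod.ext (add_left_cancel h) rfl)

end

/-- from `small` with `j = c - 1`; empty for `c = 0` -/
theorem bad_le {ε η : ℝ} (hε : 0 < ε) (hε1 : ε ≤ 1) (hη0 : 0 < η) (hη : η ≤ ε ^ 2 / 2) (d c : ℕ) :
    ∃ K : ℕ, ∀ (V : Type) [AddCommGroup V] [Module F V] [Finite V],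
      (Bad V d c ε η).ncard * cP (finrank F V) (d + 1) ≤
        cP (finrank F V) (d + 1) ^ c * (2 * Nat.card V * cP (finrank F V) d) ^ K := by
  rcases c with _ | j
  · refine ⟨0, fun V _ _ _ => ?_⟩
    have h : Bad V d 0 ε η = ∅ := by
      ext f
      refine ⟨fun h => ?_, fun h => h.elim⟩
      have h1 := h.2.2
      have h2 := Submodule.finrank_le (U d η f)
      omega
    rw [h, Set.ncard_empty, zero_mul]
    exact Nat.zero_le _
  · obtain ⟨K, hK⟩ := small hε hε1 hη0 hη d j
    refine ⟨K, fun V _ _ _ => ?_⟩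
    have h : Bad V d (j + 1) ε η =
        {f | f ∈ P V (d + 2) ∧ ε ≤ |bias f| ∧ finrank F V ≤ finrank F (U d η f) + j} := by
      ext f
      exact ⟨fun h => ⟨h.1, h.2.1, Nat.lt_succ_iff.1 h.2.2⟩,
        fun h => ⟨h.1, h.2.1, Nat.lt_succ_iff.2 h.2.2⟩⟩
    rw [h, pow_succ, mul_right_comm]
    exact Nat.mul_le_mul_right _ (hK V)

end Pool.Agent.P.MP_cb6780_lc
end

-- part Pool.Agent.P.MP_cb6780_lc.Reduce
section

set_option autoImplicit false

/-! The reduction to bias `> 1/2`, in limit form, for cubics (`d = 2`). -/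

namespace Pool.Agent.P.MP_cb6780_lc

open Module Filter Topology

/-- (number of flats of codimension `c`) times (number of extensions of a cubic) -/
noncomputable def Mult (n c : ℕ) : ℝ :=
  (G (Fin (n + c) → F) c : ℝ) * 2 ^ c * ∏ i ∈ Finset.range c, (cP (n + i) 3 : ℝ)

theorem Reduce_cP_two (m : ℕ) : cP m 2 = 2 ^ (m + 1) := by
  simp [cP, Finset.sum_range_succ, add_comm]

theorem Reduce_cP_three (m : ℕ) : cP m 3 = 2 ^ (m + 1 + m.choose 2) := by
  simp [cP, Finset.sum_range_succ, add_comm]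

theorem Reduce_cP_mono (n i : ℕ) : cP n 3 ≤ cP (n + i) 3 := by
  rw [Reduce_cP_three, Reduce_cP_three]
  exact Nat.pow_le_pow_right (by norm_num)
    (Nat.add_le_add (by omega) (Nat.choose_le_choose 2 (by omega)))

theorem Reduce_cP_up (n c : ℕ) : cP (n + c) 3 ≤ cP n 3 * (2 ^ (n + c + 1)) ^ c := by
  rw [cP_add n c 2]
  refine Nat.mul_le_mul_left _ ?_
  have := Finset.prod_le_pow_card (Finset.range c) (fun i => cP (n + i) 2) (2 ^ (n + c + 1))
    (fun i hi => by
      rw [Reduce_cP_two]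
      exact Nat.pow_le_pow_right (by norm_num) (by have := Finset.mem_range.1 hi; omega))
  simpa using this

theorem Reduce_prod_ge (n c : ℕ) : cP n 3 ^ c ≤ ∏ i ∈ Finset.range c, cP (n + i) 3 := by
  have := Finset.pow_card_le_prod (Finset.range c) (fun i => cP (n + i) 3) (cP n 3)
    (fun i _ => Reduce_cP_mono n i)
  simpa using this

theorem Reduce_nat (c K n : ℕ) (hn : 2 * (c * c + 2 * K) + 3 ≤ n) :
    cP (n + c) 3 ^ c * (2 * 2 ^ (n + c) * cP (n + c) 2) ^ K * 2 ^ n ≤
      cP (n + c) 3 * ∏ i ∈ Finset.range c, cP (n + i) 3 := by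
  have h1 : cP (n + c) 3 ^ c ≤ (∏ i ∈ Finset.range c, cP (n + i) 3) * 2 ^ ((n + c + 1) * (c * c)) := by
    calc cP (n + c) 3 ^ c ≤ (cP n 3 * (2 ^ (n + c + 1)) ^ c) ^ c :=
          Nat.pow_le_pow_left (Reduce_cP_up n c) c
      _ = cP n 3 ^ c * 2 ^ ((n + c + 1) * (c * c)) := by
          rw [mul_pow, ← pow_mul, ← pow_mul]
      _ ≤ _ := Nat.mul_le_mul_right _ (Reduce_prod_ge n c)
  have h2 : (2 * 2 ^ (n + c) * cP (n + c) 2) ^ K = 2 ^ ((n + c + 1) * (2 * K)) := by
    rw [Reduce_cP_two, ← pow_succ', ← pow_add, ← pow_mul]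
    congr 1
    ring
  have h3 : (n + c + 1) * (c * c) + (n + c + 1) * (2 * K) + n ≤ n + c + 1 + (n + c).choose 2 := by
    set M := c * c + 2 * K with hM
    have e : (n + c + 1) * (c * c) + (n + c + 1) * (2 * K) = (n + c + 1) * M := by rw [hM]; ring
    rw [e, Nat.choose_two_right]
    have h4 : (n + c) * (M + 1) ≤ (n + c) * (n + c - 1) / 2 := by
      rw [Nat.le_div_iff_mul_le (by norm_num), mul_assoc]
      exact Nat.mul_le_mul_left _ (by omega)
    have h5 : (n + c + 1) * M ≤ (n + c) * (M + 1) := by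
      have : M ≤ n + c := by omega
      nlinarith
    omega
  calc cP (n + c) 3 ^ c * (2 * 2 ^ (n + c) * cP (n + c) 2) ^ K * 2 ^ n
      ≤ (∏ i ∈ Finset.range c, cP (n + i) 3) * 2 ^ ((n + c + 1) * (c * c)) *
          2 ^ ((n + c + 1) * (2 * K)) * 2 ^ n := by
        rw [h2]
        exact Nat.mul_le_mul_right _ (Nat.mul_le_mul_right _ h1)
    _ = (∏ i ∈ Finset.range c, cP (n + i) 3) *
          2 ^ ((n + c + 1) * (c * c) + (n + c + 1) * (2 * K) + n) := by
        rw [pow_add, pow_add]; ring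
    _ ≤ (∏ i ∈ Finset.range c, cP (n + i) 3) * cP (n + c) 3 := by
        rw [Reduce_cP_three (n + c)]
        exact Nat.mul_le_mul_left _ (Nat.pow_le_pow_right (by norm_num) h3)
    _ = _ := mul_comm _ _

theorem Reduce_prod_pos (n c : ℕ) : (0 : ℝ) < ∏ i ∈ Finset.range c, (cP (n + i) 3 : ℝ) :=
  Finset.prod_pos fun i _ => by exact_mod_cast cP_pos _ _

theorem Reduce_inv_pow : Tendsto (fun n : ℕ => (1 : ℝ) / 2 ^ n) atTop (𝓝 0) := by
  have := tendsto_pow_atTop_nhds_zero_of_lt_one (r := (1 / 2 : ℝ)) (by norm_num) (by norm_num)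
  simpa [one_div, inv_pow] using this

/-- the exceptional functions are negligible:
`cP (n+c) 3 ^ (c-1) * 2^(O(n))` against `cP n 3 ^ c`, where `cP n 3 = 2^(1 + n + C(n,2))` and
`cP (n+c) 3 ≤ cP n 3 * 2^(c (n+c+1))`. -/
theorem negl (c K : ℕ) :
    Tendsto (fun n : ℕ => ((cP (n + c) 3 : ℝ) ^ c / cP (n + c) 3 *
      (2 * 2 ^ (n + c) * cP (n + c) 2) ^ K) /
        ∏ i ∈ Finset.range c, (cP (n + i) 3 : ℝ)) atTop (𝓝 0) := by
  refine squeeze_zero' (Eventually.of_forall fun n => ?_) ?_ Reduce_inv_pow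
  · have := Reduce_prod_pos n c
    positivity
  · filter_upwards [eventually_ge_atTop (2 * (c * c + 2 * K) + 3)] with n hn
    have h := Reduce_nat c K n hn
    have h' : (cP (n + c) 3 : ℝ) ^ c * (2 * 2 ^ (n + c) * cP (n + c) 2) ^ K * 2 ^ n ≤
        cP (n + c) 3 * ∏ i ∈ Finset.range c, (cP (n + i) 3 : ℝ) := by exact_mod_cast h
    have hp := Reduce_prod_pos n c
    have hq : (0 : ℝ) < cP (n + c) 3 := by exact_mod_cast cP_pos _ _
    rw [div_le_div_iff₀ hp (by positivity), div_mul_eq_mul_div, div_mul_eq_mul_div, div_le_iff₀ hq]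
    linarith

theorem Reduce_finrank (m : ℕ) : finrank F (Fin m → F) = m := by simp

theorem one_le_G (n c : ℕ) : 1 ≤ G (Fin (n + c) → F) c := by
  have h := G_mul (Fin (n + c) → F) c
  rw [Reduce_finrank] at h
  have hp : (0 : ℝ) < ∏ i ∈ Finset.range c, ((2 : ℝ) ^ (n + c) - 2 ^ i) :=
    Finset.prod_pos fun i hi => sub_pos.2
      (pow_lt_pow_right₀ (by norm_num) (by have := Finset.mem_range.1 hi; omega))
  rcases Nat.eq_zero_or_pos (G (Fin (n + c) → F) c) with h0 | h0
  · rw [h0] at h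
    simp only [Nat.cast_zero, zero_mul] at h
    exact absurd h hp.ne
  · exact h0

theorem Reduce_tri (n c : ℕ) (θ : ℝ) :
    ((Tri (Fin (n + c) → F) c 4 θ).ncard : ℝ) = 2 ^ n * (Mult n c * Nn n 4 θ) := by
  have h := ncard_Tri (V := Fin (n + c) → F) (n := n) (c := c) (Reduce_finrank _) 4 θ
  rw [cP_add n c 3] at h
  have h' : ((Tri (Fin (n + c) → F) c 4 θ).ncard : ℝ) * cP n 4 =
      G (Fin (n + c) → F) c * 2 ^ (n + c) *
        (Nn n 4 θ * (cP n 4 * ∏ i ∈ Finset.range c, (cP (n + i) 3 : ℝ))) := by exact_mod_cast h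
  have hq : (0 : ℝ) < cP n 4 := by exact_mod_cast cP_pos _ _
  refine mul_right_cancel₀ hq.ne' ?_
  rw [h', Mult, pow_add]
  ring

theorem Reduce_bad {ε η : ℝ} (hε : 0 < ε) (hε1 : ε ≤ 1) (hη0 : 0 < η) (hη : η ≤ ε ^ 2 / 2) (c : ℕ)
    {δ : ℝ} (hδ : 0 < δ) :
    ∀ᶠ n : ℕ in atTop, ((Bad (Fin (n + c) → F) 2 c ε η).ncard : ℝ) ≤
      δ * ∏ i ∈ Finset.range c, (cP (n + i) 3 : ℝ) := by
  obtain ⟨K, hK⟩ := bad_le hε hε1 hη0 hη 2 c
  filter_upwards [(negl c K).eventually (gt_mem_nhds hδ)] with n hn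
  have h := hK (Fin (n + c) → F)
  rw [Reduce_finrank, card_V, Reduce_finrank] at h
  have h' : ((Bad (Fin (n + c) → F) 2 c ε η).ncard : ℝ) * cP (n + c) 3 ≤
      (cP (n + c) 3 : ℝ) ^ c * (2 * 2 ^ (n + c) * cP (n + c) 2) ^ K := by exact_mod_cast h
  have hp := Reduce_prod_pos n c
  have hq : (0 : ℝ) < cP (n + c) 3 := by exact_mod_cast cP_pos _ _
  rw [div_lt_iff₀ hp, div_mul_eq_mul_div, div_lt_iff₀ hq] at hn
  exact le_of_mul_le_mul_right (h'.trans hn.le) hq

theorem Reduce_one_le_Nn (n : ℕ) {θ : ℝ} (h : θ ≤ 1) : (1 : ℝ) ≤ Nn n 4 θ := by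
  exact_mod_cast one_le_N (V := Fin n → F) 4 h

theorem Reduce_prod_le (n c : ℕ) : ∏ i ∈ Finset.range c, (cP (n + i) 3 : ℝ) ≤ Mult n c := by
  have h1 : (1 : ℝ) ≤ G (Fin (n + c) → F) c := by exact_mod_cast one_le_G n c
  have h2 : (1 : ℝ) ≤ 2 ^ c := one_le_pow₀ (by norm_num)
  exact le_mul_of_one_le_left (Reduce_prod_pos n c).le (one_le_mul_of_one_le_of_one_le h1 h2)

/-- upper half: `up_aux`, `ncard_Tri`, `cP_add`, `bad_le`, `negl`, `one_le_N` -/
theorem reduce_up {c : ℕ} {ε θ : ℝ} (h1 : 1 / 2 < θ) (h2 : θ < 2 ^ c * ε) (h3 : 2 ^ c * ε ≤ 1)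
    {κ : ℝ} (hκ : 1 < κ) :
    ∀ᶠ n : ℕ in atTop, (Nn (n + c) 4 ε : ℝ) ≤ κ * (Mult n c * Nn n 4 θ) := by
  have hc : (0 : ℝ) < 2 ^ c := by positivity
  have hc1 : (1 : ℝ) ≤ 2 ^ c := one_le_pow₀ (by norm_num)
  have hε : 0 < ε := by
    by_contra h
    nlinarith [mul_nonneg hc.le (neg_nonneg.2 (not_lt.1 h))]
  have hε1 : ε ≤ 1 := by nlinarith
  set γ := ε - θ / 2 ^ c with hγd
  have hθc : 0 < θ / 2 ^ c := div_pos (by linarith) hc
  have hγ : 0 < γ := sub_pos.2 (by rw [div_lt_iff₀ hc]; linarith)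
  have hγ1 : γ ≤ 1 := by linarith
  have hε' : 1 / 2 ^ (c + 1) + γ < ε := by
    have : (1 : ℝ) / 2 ^ (c + 1) < θ / 2 ^ c := by
      rw [pow_succ', ← div_div]
      exact div_lt_div_of_pos_right h1 hc
    linarith
  have e : 2 ^ c * (ε - γ) = θ := by rw [hγd]; field_simp; ring
  have hη : γ ^ 2 * (ε ^ 2 / 2) ≤ ε ^ 2 / 2 :=
    mul_le_of_le_one_left (by positivity) (pow_le_one₀ hγ.le hγ1)
  filter_upwards [Reduce_bad hε hε1 (by positivity) hη c (sub_pos.2 hκ)] with n hn
  have h := up_aux (V := Fin (n + c) → F) (n := n) (c := c) (d := 2) (Reduce_finrank _) le_rfl hγ hγ1 hε'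
    le_rfl
  rw [e] at h
  have h' : (2 : ℝ) ^ n * Nn (n + c) 4 ε ≤ (Tri (Fin (n + c) → F) c 4 θ).ncard +
      2 ^ n * (Bad (Fin (n + c) → F) 2 c ε (γ ^ 2 * (ε ^ 2 / 2))).ncard := by exact_mod_cast h
  rw [Reduce_tri, ← mul_add] at h'
  have h4 := le_of_mul_le_mul_left h' (by positivity)
  have h5 : ∏ i ∈ Finset.range c, (cP (n + i) 3 : ℝ) ≤ Mult n c * Nn n 4 θ :=
    (Reduce_prod_le n c).trans (le_mul_of_one_le_right
      ((Reduce_prod_pos n c).le.trans (Reduce_prod_le n c)) (Reduce_one_le_Nn n (by linarith)))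
  nlinarith [mul_le_mul_of_nonneg_left h5 (sub_pos.2 hκ).le]

/-- lower half: `low_aux1`, `low_aux2` -/
theorem reduce_low {c : ℕ} {ε θ : ℝ} (h1 : 1 / 2 < 2 ^ c * ε) (h2 : 2 ^ c * ε < θ) (h3 : θ ≤ 1)
    {κ : ℝ} (hκ : κ < 1) :
    ∀ᶠ n : ℕ in atTop, κ * (Mult n c * Nn n 4 θ) ≤ Nn (n + c) 4 ε := by
  have hc : (0 : ℝ) < 2 ^ c := by positivity
  have hc1 : (1 : ℝ) ≤ 2 ^ c := one_le_pow₀ (by norm_num)
  have hε : 0 < ε := by
    by_contra h
    nlinarith [mul_nonneg hc.le (neg_nonneg.2 (not_lt.1 h))]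
  have hε1 : ε ≤ 1 := by nlinarith
  set γ := θ / 2 ^ c - ε with hγd
  have hγ : 0 < γ := sub_pos.2 (by rw [lt_div_iff₀ hc]; linarith)
  have e : 2 ^ c * (ε + γ) = θ := by rw [hγd]; field_simp; ring
  have hγ' : 0 < θ - 1 / 2 := by linarith
  set η := min (min (2 * (θ - 1 / 2) / 2 ^ c) (1 / 4 / 2 ^ c)) (ε ^ 2 / 2) with hηd
  have hη0 : 0 < η := lt_min (lt_min (by positivity) (by positivity)) (by positivity)
  have hδ : 0 < (1 - κ) / 2 := by linarith
  have hl : Tendsto (fun n : ℕ => 1 / γ ^ 2 * ((1 : ℝ) / 2 ^ n)) atTop (𝓝 0) := by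
    have := Reduce_inv_pow.const_mul (1 / γ ^ 2)
    rwa [mul_zero] at this
  filter_upwards [Reduce_bad hε hε1 hη0 (min_le_right _ _) c hδ, hl.eventually (gt_mem_nhds hδ)]
    with n hn hn'
  have a1 := low_aux1 (V := Fin (n + c) → F) (n := n) (c := c) (e := 4) (ε := ε) (Reduce_finrank _)
    (by norm_num) hγ
  rw [e] at a1
  have a2 := low_aux2 (V := Fin (n + c) → F) (n := n) (c := c) (d := 2) (ε := ε) (θ := θ) (η := η)
    (Reduce_finrank _) le_rfl hγ'.le (by linarith)
    ((min_le_left _ _).trans (min_le_left _ _)) ((min_le_left _ _).trans (min_le_right _ _))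
  have a2' : (({z | z ∈ Tri (Fin (n + c) → F) c 4 θ ∧ ε ≤ bias z.2.2}.ncard : ℕ) : ℝ) ≤
      2 ^ n * Nn (n + c) 4 ε + G (Fin (n + c) → F) c * 2 ^ (n + c) *
        (Bad (Fin (n + c) → F) 2 c ε η).ncard := by exact_mod_cast a2
  have a3 := a1.trans a2'
  rw [Reduce_tri] at a3
  have hM : 0 ≤ Mult n c := (Reduce_prod_pos n c).le.trans (Reduce_prod_le n c)
  have hN := Reduce_one_le_Nn n h3
  have a4 : (G (Fin (n + c) → F) c : ℝ) * 2 ^ (n + c) * (Bad (Fin (n + c) → F) 2 c ε η).ncard ≤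
      2 ^ n * ((1 - κ) / 2 * (Mult n c * Nn n 4 θ)) := by
    calc (G (Fin (n + c) → F) c : ℝ) * 2 ^ (n + c) * (Bad (Fin (n + c) → F) 2 c ε η).ncard
        ≤ G (Fin (n + c) → F) c * 2 ^ (n + c) *
            ((1 - κ) / 2 * ∏ i ∈ Finset.range c, (cP (n + i) 3 : ℝ)) :=
          mul_le_mul_of_nonneg_left hn (by positivity)
      _ = 2 ^ n * ((1 - κ) / 2 * Mult n c) := by rw [Mult, pow_add]; ring
      _ ≤ _ := mul_le_mul_of_nonneg_left
          (mul_le_mul_of_nonneg_left (le_mul_of_one_le_right hM hN) hδ.le) (by positivity)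
  have a5 : (1 : ℝ) / (γ ^ 2 * 2 ^ n) < (1 - κ) / 2 := by
    rw [← one_div_mul_one_div]
    exact hn'
  have hX : 0 ≤ Mult n c * Nn n 4 θ := mul_nonneg hM (by linarith)
  have a6 : (2 : ℝ) ^ n * (κ * (Mult n c * Nn n 4 θ)) ≤ 2 ^ n * Nn (n + c) 4 ε := by
    have hY : (0 : ℝ) ≤ 2 ^ n * (Mult n c * Nn n 4 θ) := by positivity
    nlinarith [mul_le_mul_of_nonneg_right a5.le hY]
  exact le_of_mul_le_mul_left a6 (by positivity)

/-- from `G_mul` -/
theorem G_lim (c : ℕ) :
    Tendsto (fun n : ℕ => (G (Fin (n + c) → F) c : ℝ) / 2 ^ (c * n)) atTop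
      (𝓝 (1 / ∏ j ∈ Finset.range c, (1 - 1 / 2 ^ (j + 1) : ℝ))) := by
  have hp : ∀ i ∈ Finset.range c, (0 : ℝ) < 2 ^ c - 2 ^ i := fun i hi =>
    sub_pos.2 (pow_lt_pow_right₀ (by norm_num) (Finset.mem_range.1 hi))
  have e1 : ∀ n : ℕ, (G (Fin (n + c) → F) c : ℝ) / 2 ^ (c * n) =
      ∏ i ∈ Finset.range c, (((2 : ℝ) ^ c - 2 ^ i * (1 / 2 ^ n)) / (2 ^ c - 2 ^ i)) := by
    intro n
    have h := G_mul (Fin (n + c) → F) c
    rw [Reduce_finrank] at h
    have h2 : ∏ i ∈ Finset.range c, ((2 : ℝ) ^ (n + c) - 2 ^ i) =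
        (∏ i ∈ Finset.range c, ((2 : ℝ) ^ c - 2 ^ i * (1 / 2 ^ n))) * 2 ^ (c * n) := by
      have : (2 : ℝ) ^ (c * n) = ∏ _i ∈ Finset.range c, (2 : ℝ) ^ n := by
        rw [Finset.prod_const, Finset.card_range, ← pow_mul, mul_comm]
      rw [this, ← Finset.prod_mul_distrib]
      refine Finset.prod_congr rfl fun i _ => ?_
      rw [pow_add]
      field_simp
    rw [Finset.prod_div_distrib, div_eq_div_iff (by positivity) (Finset.prod_pos hp).ne', h, h2]
  have e2 : (1 : ℝ) / ∏ j ∈ Finset.range c, (1 - 1 / 2 ^ (j + 1) : ℝ) =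
      ∏ i ∈ Finset.range c, (((2 : ℝ) ^ c - 2 ^ i * 0) / (2 ^ c - 2 ^ i)) := by
    rw [← Finset.prod_range_reflect (fun j => (1 - 1 / 2 ^ (j + 1) : ℝ)) c, one_div,
      ← Finset.prod_inv_distrib]
    refine Finset.prod_congr rfl fun i hi => ?_
    have hi' := Finset.mem_range.1 hi
    have h2 : (2 : ℝ) ^ c = 2 ^ (c - 1 - i + 1) * 2 ^ i := by
      rw [← pow_add]
      congr 1
      omega
    have h3 := (hp i hi).ne'
    have h4 : (1 - 1 / 2 ^ (c - 1 - i + 1) : ℝ) = (2 ^ c - 2 ^ i) / 2 ^ c := by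
      rw [h2]
      field_simp
    rw [h4, inv_div, mul_zero, sub_zero]
  rw [e2]
  refine (tendsto_finsetProd _ fun i _ => ?_).congr fun n => (e1 n).symm
  exact ((Reduce_inv_pow.const_mul _).const_sub _).div_const _

end Pool.Agent.P.MP_cb6780_lc
end

-- part Pool.Agent.P.MP_cb6780_lc.KCount
section

set_option autoImplicit false

/-! Asymptotic number of cubic functions of bias `≥ θ > 1/2`. -/

namespace Pool.Agent.P.MP_cb6780_lc

open Module Filter Topology

/-- the leading term of the number of cubics in `n` variables with bias `≥ (1 + 2^(-h)) / 2` -/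
noncomputable def Kh (h n : ℕ) : ℝ :=
  if h = 0 then 1 else
    2 ^ ((2 * h + 1) * n + 1) /
      (2 ^ (h ^ 2) * (if h = 1 then 7 else 1) * ∏ j ∈ Finset.range h, ((4 : ℝ) ^ (j + 1) - 1))

/-- growth of order `2 ^ (a n)` with constant `L` -/
def KCountGr (f : ℕ → ℝ) (a : ℕ) (L : ℝ) : Prop :=
  Tendsto (fun n : ℕ => f n / 2 ^ (a * n)) atTop (𝓝 L)

theorem KCountGr.small {f : ℕ → ℝ} {a b : ℕ} {L : ℝ} (hf : KCountGr f a L) (hab : a < b) :
    KCountGr f b 0 := by
  obtain ⟨c, rfl⟩ := Nat.exists_eq_add_of_lt hab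
  have h1 : Tendsto (fun n : ℕ => ((1 : ℝ) / 2 ^ (c + 1)) ^ n) atTop (𝓝 0) := by
    refine tendsto_pow_atTop_nhds_zero_of_lt_one (by positivity) ?_
    rw [div_lt_one (by positivity)]
    exact one_lt_pow₀ (by norm_num) (Nat.succ_ne_zero c)
  have h2 := Tendsto.mul hf h1
  rw [mul_zero] at h2
  refine h2.congr fun n => ?_
  rw [show (a + c + 1) * n = a * n + (c + 1) * n by ring, pow_add (2 : ℝ) (a * n), one_div, inv_pow,
    ← pow_mul]
  field_simp

theorem KCountGr.mul {f g : ℕ → ℝ} {a b : ℕ} {L M : ℝ} (hf : KCountGr f a L)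
    (hg : KCountGr g b M) : KCountGr (fun n => f n * g n) (a + b) (L * M) := by
  refine (Tendsto.mul hf hg).congr fun n => ?_
  rw [add_mul, pow_add]
  field_simp

theorem KCountGr.add {f g : ℕ → ℝ} {a : ℕ} {L M : ℝ} (hf : KCountGr f a L)
    (hg : KCountGr g a M) : KCountGr (fun n => f n + g n) a (L + M) :=
  (Tendsto.add hf hg).congr fun _ => (add_div _ _ _).symm

theorem KCount_const (c : ℝ) : KCountGr (fun _ => c) 0 c := by
  refine (tendsto_const_nhds (x := c)).congr fun n => ?_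
  simp

theorem KCount_two_pow : KCountGr (fun n => (2 : ℝ) ^ n) 1 1 := by
  refine (tendsto_const_nhds (x := (1 : ℝ))).congr fun n => ?_
  simp

theorem KCountGr.unshift {f : ℕ → ℝ} {a c : ℕ} {L : ℝ} (hf : KCountGr (fun n => f (n + c)) a L) :
    KCountGr f a (L / 2 ^ (a * c)) := by
  refine (tendsto_add_atTop_iff_nat c).1 ((Tendsto.div_const hf (2 ^ (a * c))).congr fun n => ?_)
  rw [mul_add, pow_add, div_div]

theorem KCountGr.shift {f : ℕ → ℝ} {a : ℕ} {L : ℝ} (hf : KCountGr f a L) (c : ℕ) :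
    KCountGr (fun n => f (n + c)) a (L * 2 ^ (a * c)) := by
  have h1 := (tendsto_add_atTop_iff_nat c).2 hf
  refine (Tendsto.mul_const (2 ^ (a * c)) h1).congr fun n => ?_
  rw [mul_add, pow_add]
  field_simp

theorem KCount_sum {f : ℕ → ℕ → ℝ} {a : ℕ} (s : Finset ℕ) (hf : ∀ j ∈ s, KCountGr (f j) a 0) :
    KCountGr (fun n => ∑ j ∈ s, f j n) a 0 := by
  have h1 := tendsto_finsetSum s hf
  rw [Finset.sum_const_zero] at h1
  exact h1.congr fun n => (Finset.sum_div _ _ _).symm

theorem KCount_G (c : ℕ) : ∃ L, KCountGr (fun n => (G (Fin (n + 1) → F) c : ℝ)) c L := by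
  have h1 : KCountGr (fun n => (G (Fin (n + c) → F) c : ℝ)) c _ := G_lim c
  have h2 := KCountGr.unshift (f := fun n => (G (Fin n → F) c : ℝ)) h1
  exact ⟨_, h2.shift 1⟩

theorem KCount_E (j : ℕ) :
    KCountGr (fun n => 2 * (G (Fin (n + 1) → F) 1 : ℝ) * (qa (Fin n → F) j : ℝ)) (2 * j + 1)
      (4 * (2 ^ (2 * j) / (2 ^ (j ^ 2) * ∏ i ∈ Finset.range j, ((4 : ℝ) ^ (i + 1) - 1)))) := by
  have h1 : KCountGr (fun n => (G (Fin (n + 1) → F) 1 : ℝ)) 1 _ := G_lim 1
  have h2 : KCountGr (fun n => (qa (Fin n → F) j : ℝ)) (2 * j) _ := qa_lim j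
  have h3 := ((KCount_const 2).mul h1).mul h2
  rw [show 0 + 1 + 2 * j = 2 * j + 1 by ring] at h3
  have h4 : (2 : ℝ) * (1 / ∏ j ∈ Finset.range 1, (1 - 1 / 2 ^ (j + 1) : ℝ)) = 4 := by
    norm_num
  rwa [h4] at h3

theorem KCount_cubes : ∃ L, KCountGr (fun n => 4 * (G (Fin (n + 1) → F) 2 : ℝ) *
    (2 * (2 * 2 ^ n)) * (8 * (G (Fin (n + 1) → F) 3 : ℝ))) 6 L := by
  obtain ⟨L₂, h2⟩ := KCount_G 2
  obtain ⟨L₃, h3⟩ := KCount_G 3
  exact ⟨_, (((KCount_const 4).mul h2).mul ((KCount_const 2).mul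
    ((KCount_const 2).mul KCount_two_pow))).mul ((KCount_const 8).mul h3)⟩

theorem KCount_prod_pos (h : ℕ) : 0 < ∏ j ∈ Finset.range h, ((4 : ℝ) ^ (j + 1) - 1) := by
  refine Finset.prod_pos fun j _ => sub_pos.2 ?_
  exact one_lt_pow₀ (by norm_num) (Nat.succ_ne_zero j)

theorem KCount_main {h : ℕ} (hh : 2 ≤ h) {θ : ℝ} (h1 : (1 + 1 / 2 ^ (h + 1)) / 2 < θ)
    (h2 : θ ≤ (1 + 1 / 2 ^ h) / 2) :
    KCountGr (fun n => (Nn (n + 1) 4 θ : ℝ)) (2 * h + 1)
      (4 * (2 ^ (2 * h) / (2 ^ (h ^ 2) * ∏ i ∈ Finset.range h, ((4 : ℝ) ^ (i + 1) - 1)))) := by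
  have hE := KCount_E h
  have hs : KCountGr (fun n => ∑ j ∈ Finset.range h,
      2 * (G (Fin (n + 1) → F) 1 : ℝ) * (qa (Fin n → F) j : ℝ)) (2 * h + 1) 0 :=
    KCount_sum (f := fun j n => 2 * (G (Fin (n + 1) → F) 1 : ℝ) * (qa (Fin n → F) j : ℝ)) _
      fun j hj => (KCount_E j).small (by have := Finset.mem_range.1 hj; omega)
  have h0 : KCountGr (fun _ => (1 : ℝ)) (2 * h + 1) 0 := (KCount_const 1).small (by omega)
  have hc : KCountGr (fun n => if 3 ≤ h then 4 * (G (Fin (n + 1) → F) 2 : ℝ) *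
      (2 * (2 * 2 ^ n)) * (8 * (G (Fin (n + 1) → F) 3 : ℝ)) else 0) (2 * h + 1) 0 := by
    by_cases h3 : 3 ≤ h
    · obtain ⟨L, hL⟩ := KCount_cubes
      simp only [if_pos h3]
      exact hL.small (by omega)
    · simp only [if_neg h3]
      exact (KCount_const 0).small (by omega)
  have hup := ((h0.add hs).add hE).add hc
  rw [zero_add, zero_add, add_zero] at hup
  have hrk : ∀ n : ℕ, finrank F (Fin (n + 1) → F) = n + 1 := fun n => by simp
  refine tendsto_of_tendsto_of_tendsto_of_le_of_le hE hup (fun n => ?_) (fun n => ?_)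
  · refine div_le_div_of_nonneg_right ?_ (by positivity)
    have a1 := (N_sandwich (V := Fin (n + 1) → F) h1 h2).1
    rw [Eh_eq (hrk n) hh] at a1
    have a2 : 2 * G (Fin (n + 1) → F) 1 * qa (Fin n → F) h ≤ Nn (n + 1) 4 θ := a1
    beta_reduce
    exact_mod_cast a2
  · refine div_le_div_of_nonneg_right ?_ (by positivity)
    have a1 := (N_sandwich (V := Fin (n + 1) → F) h1 h2).2
    rw [Finset.sum_range_succ, Eh_eq (hrk n) hh] at a1
    have a2 : ∑ j ∈ Finset.range h, (Eh (Fin (n + 1) → F) j).ncard ≤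
        ∑ j ∈ Finset.range h, 2 * G (Fin (n + 1) → F) 1 * qa (Fin n → F) j :=
      Finset.sum_le_sum fun j _ => Eh_le (hrk n) j
    have a3 := two_cubes_le (V := Fin (n + 1) → F)
    have a4 : Nat.card (Fin (n + 1) → F) = 2 * 2 ^ n := by
      rw [card_V, hrk, pow_succ']
    rw [a4] at a3
    have a5 : Nn (n + 1) 4 θ ≤ 1 +
        (∑ j ∈ Finset.range h, 2 * G (Fin (n + 1) → F) 1 * qa (Fin n → F) j) +
        2 * G (Fin (n + 1) → F) 1 * qa (Fin n → F) h +
        if 3 ≤ h then 4 * G (Fin (n + 1) → F) 2 * (2 * (2 * 2 ^ n)) * (8 * G (Fin (n + 1) → F) 3)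
        else 0 := by
      show N (Fin (n + 1) → F) 4 θ ≤ _
      by_cases h3 : 3 ≤ h
      · rw [if_pos h3] at a1 ⊢
        omega
      · rw [if_neg h3] at a1 ⊢
        omega
    beta_reduce
    exact_mod_cast a5

/-- `N_h0`; `N_h1` with `G_lim 3`; for `h ≥ 2`: `N_sandwich`, `Eh_eq`, `Eh_le`, `qa_lim`, `G_lim 1`,
`two_cubes_le` (order `2^(6n)` against `2^((2h+1)n)`) -/
theorem N_lim {h : ℕ} {θ : ℝ} (h1 : (1 + 1 / 2 ^ (h + 1)) / 2 < θ) (h2 : θ ≤ (1 + 1 / 2 ^ h) / 2) :
    Tendsto (fun n : ℕ => (Nn n 4 θ : ℝ) / Kh h n) atTop (𝓝 1) := by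
  rcases Nat.lt_or_ge h 2 with hh | hh
  · interval_cases h
    · refine (tendsto_const_nhds (x := (1 : ℝ))).congr fun n => ?_
      have a1 : Nn n 4 θ = 1 :=
        N_h0 (V := Fin n → F) (by norm_num at h1 ⊢; exact h1) (by norm_num at h2 ⊢; exact h2)
      rw [a1]
      simp [Kh]
    · have a1 : ∀ n, Nn n 4 θ = 1 + 8 * G (Fin n → F) 3 := fun n =>
        N_h1 (V := Fin n → F) (by norm_num at h1 ⊢; exact h1) (by norm_num at h2 ⊢; exact h2)
      have b1 : KCountGr (fun n => (G (Fin (n + 3) → F) 3 : ℝ)) 3 _ := G_lim 3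
      have b2 := KCountGr.unshift (f := fun n => (G (Fin n → F) 3 : ℝ)) b1
      have b3 := ((KCount_const 1).small (show 0 < 0 + 3 by norm_num)).add
        ((KCount_const 8).mul b2)
      have b4 := Tendsto.mul_const (21 : ℝ) b3
      have b5 : ((0 : ℝ) + 8 * (1 / (∏ j ∈ Finset.range 3, (1 - 1 / 2 ^ (j + 1) : ℝ)) /
          2 ^ (3 * 3))) * 21 = 1 := by
        simp only [Finset.prod_range_succ, Finset.prod_range_zero]
        norm_num
      rw [b5] at b4
      refine b4.congr fun n => ?_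
      rw [a1]
      simp only [Kh, Finset.prod_range_succ, Finset.prod_range_zero]
      push_cast
      norm_num
      rw [pow_succ]
      field_simp
      norm_num
  · have hp := KCount_prod_pos h
    have b1 := Tendsto.div_const (KCount_main hh h1 h2)
      (4 * (2 ^ (2 * h) / (2 ^ (h ^ 2) * ∏ i ∈ Finset.range h, ((4 : ℝ) ^ (i + 1) - 1))))
    rw [div_self (by positivity)] at b1
    refine (tendsto_add_atTop_iff_nat 1).1 (b1.congr fun n => ?_)
    rw [Kh, if_neg (by omega), if_neg (by omega), div_div]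
    congr 1
    rw [show (2 * h + 1) * (n + 1) + 1 = (2 * h + 1) * n + (2 * h + 2) by ring, pow_add, pow_add]
    field_simp
    norm_num

end Pool.Agent.P.MP_cb6780_lc
end

-- part Pool.Agent.P.MP_cb6780_lc.Main
section

set_option autoImplicit false

namespace Pool.Agent.P.MP_cb6780_lc

open Module Filter Topology

/-- weight at most `δ 2^m` means bias at least `1 - 2δ` -/
theorem count_eq (r m : ℕ) (δ : ℝ) :
    {f : (Fin m → ZMod 2) → ZMod 2 |
      (∃ p : MvPolynomial (Fin m) (ZMod 2), p.totalDegree ≤ r ∧ ∀ x, f x = MvPolynomial.eval x p) ∧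
        (hammingNorm f : ℝ) ≤ δ * 2 ^ m}.ncard = Nn m (r + 1) (1 - 2 * δ) := by
  unfold Nn N
  congr 1
  ext f
  simp only [Set.mem_ofPred_eq]
  rw [mem_P_iff_poly, bias_eq_wt]
  have e1 : ({x | f x ≠ 0}.ncard : ℝ) = hammingNorm f := by
    rw [hammingNorm, ← Set.ncard_coe_finset]
    congr 2
    ext x
    simp
  have e2 : (Nat.card (Fin m → F) : ℝ) = 2 ^ m := by
    rw [card_V]; simp
  rw [e1, e2]
  refine and_congr Iff.rfl ?_
  have hp : (0 : ℝ) < 2 ^ m := by positivity
  rw [sub_le_sub_iff_left, div_le_iff₀ hp]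
  constructor <;> intro h <;> linarith

theorem main (c h : ℕ) (δ : ℝ) (h1 : (1 + 1 / 2 ^ (h + 1)) / 2 < 2 ^ c * (1 - 2 * δ))
    (h2 : 2 ^ c * (1 - 2 * δ) < (1 + 1 / 2 ^ h) / 2) :
    Tendsto (fun n : ℕ =>
      ({f : (Fin (n + c) → ZMod 2) → ZMod 2 |
        (∃ p : MvPolynomial (Fin (n + c)) (ZMod 2), p.totalDegree ≤ 3 ∧
          ∀ x, f x = MvPolynomial.eval x p) ∧ (hammingNorm f : ℝ) ≤ δ * 2 ^ (n + c)}.ncard : ℝ) /
      (2 ^ (c * (n + 1) + ∑ i ∈ Finset.range c, (1 + (n + i) + (n + i).choose 2)) /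
          (∏ j ∈ Finset.range c, (1 - 1 / 2 ^ (j + 1) : ℝ)) *
        if h = 0 then 1 else
          2 ^ ((2 * h + 1) * n + 1) / (2 ^ (h ^ 2) * (if h = 1 then 7 else 1) *
            ∏ j ∈ Finset.range h, ((4 : ℝ) ^ (j + 1) - 1)))) atTop (𝓝 1) := by
  set ε := 1 - 2 * δ with hε
  have p1 : (0 : ℝ) < 1 / 2 ^ (h + 1) := by positivity
  have p2 : (1 : ℝ) / 2 ^ h ≤ 1 := by
    rw [div_le_one (by positivity)]; exact one_le_pow₀ (by norm_num)
  obtain ⟨θ, t1, t2⟩ := exists_between h1
  set φ : ℝ := ∏ j ∈ Finset.range c, (1 - 1 / 2 ^ (j + 1) : ℝ) with hφ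
  have φ0 : 0 < φ := Finset.prod_pos fun j _ => by
    rw [sub_pos, div_lt_one (by positivity)]; exact one_lt_pow₀ (by norm_num) (by omega)
  have K0 : ∀ n, 0 < Kh h n := by
    intro n
    unfold Kh
    have : 0 < ∏ j ∈ Finset.range h, ((4 : ℝ) ^ (j + 1) - 1) := Finset.prod_pos fun j _ => by
      rw [sub_pos]; exact one_lt_pow₀ (by norm_num) (by omega)
    split_ifs <;> positivity
  let M : ℕ → ℝ := fun n =>
    2 ^ (c * (n + 1) + ∑ i ∈ Finset.range c, (1 + (n + i) + (n + i).choose 2)) / φ * Kh h n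
  have M0 : ∀ n, 0 < M n := fun n => mul_pos (by positivity) (K0 n)
  have key : ∀ θ' : ℝ, (1 + 1 / 2 ^ (h + 1)) / 2 < θ' → θ' ≤ (1 + 1 / 2 ^ h) / 2 →
      Tendsto (fun n : ℕ => Mult n c * Nn n 4 θ' / M n) atTop (𝓝 1) := by
    intro θ' a1 a2
    have := ((G_lim c).mul_const φ).mul (N_lim a1 a2)
    rw [← hφ, one_div_mul_cancel φ0.ne', one_mul] at this
    refine this.congr fun n => ?_
    have e : (∏ i ∈ Finset.range c, (cP (n + i) 3 : ℝ)) =
        2 ^ ∑ i ∈ Finset.range c, (1 + (n + i) + (n + i).choose 2) := by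
      rw [← Finset.prod_pow_eq_pow_sum]
      refine Finset.prod_congr rfl fun i _ => ?_
      simp [cP, Finset.sum_range_succ]
    have := K0 n
    simp only [Mult, M, e, pow_add, mul_add, mul_one]
    field_simp
  have goal : Tendsto (fun n : ℕ => (Nn (n + c) 4 ε : ℝ) / M n) atTop (𝓝 1) := by
    rw [tendsto_order]
    constructor
    · intro b hb
      obtain ⟨κ, k1, k2⟩ := exists_between hb
      have l1 := reduce_low (c := c) (ε := ε) (θ := (1 + 1 / 2 ^ h) / 2) (by linarith) h2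
        (by linarith) k2
      have l2 := (key _ (h1.trans h2) le_rfl).const_mul κ
      rw [mul_one] at l2
      filter_upwards [l1, l2.eventually (lt_mem_nhds k1)] with n n1 n2
      refine n2.trans_le ?_
      rw [← mul_div_assoc]
      exact div_le_div_of_nonneg_right n1 (M0 n).le
    · intro b hb
      obtain ⟨κ, k1, k2⟩ := exists_between hb
      have l1 := reduce_up (c := c) (ε := ε) (θ := θ) (by linarith) t2 (by linarith) k1
      have l2 := (key θ t1 (by linarith)).const_mul κ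
      rw [mul_one] at l2
      filter_upwards [l1, l2.eventually (gt_mem_nhds k2)] with n n1 n2
      refine lt_of_le_of_lt ?_ n2
      rw [← mul_div_assoc]
      exact div_le_div_of_nonneg_right n1 (M0 n).le
  refine goal.congr fun n => ?_
  rw [count_eq]
  rfl

end Pool.Agent.P.MP_cb6780_lc
end
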