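import Pool.Agent.K.MP_cb6780_lc.C2
import Pool.Agent.K.MP_cb6780_lc.C1

-- part Pool.Agent.P.MP_cb6780_lc.UEst
section

set_option autoImplicit false

/-! Uniform estimates for the Gaussian binomials and the number of quadratics of given bias. -/

namespace Pool.Agent.P.MP_cb6780_lc

open Module

/-- the product `∏ (1 - 2^-(k+j+1))` -/
noncomputable def ps (k c : ℕ) : ℝ := ∏ j ∈ Finset.range c, (1 - 1 / 2 ^ (k + j + 1) : ℝ)

theorem ps_bd (k c : ℕ) : 1 - 1 / 2 ^ k + 1 / 2 ^ (k + c) ≤ ps k c ∧ ps k c ≤ 1 ∧ 0 < ps k c := by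
  induction c with
  | zero => simp [ps]
  | succ c ih =>
    obtain ⟨h1, h2, h3⟩ := ih
    have e : ps k (c + 1) = ps k c * (1 - 1 / 2 ^ (k + c + 1)) := Finset.prod_range_succ _ _
    have e2 : (1 : ℝ) / 2 ^ (k + c) = 2 * (1 / 2 ^ (k + c + 1)) := by rw [pow_succ]; field_simp
    have p1 : (0 : ℝ) < 1 / 2 ^ (k + c + 1) := by positivity
    have p2 : (1 : ℝ) / 2 ^ (k + c) ≤ 1 := by
      rw [div_le_one (by positivity)]; exact one_le_pow₀ (by norm_num)
    rw [e, ← add_assoc]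
    refine ⟨by nlinarith, by nlinarith, mul_pos h3 (by linarith)⟩

theorem ps_low (c : ℕ) : 1 / 2 ^ c ≤ ps 0 c := by
  have := (ps_bd 0 c).1
  simpa using this

theorem prod_ps (k c : ℕ) :
    ∏ i ∈ Finset.range c, ((2 : ℝ) ^ (k + c) - 2 ^ i) = 2 ^ (c * (k + c)) * ps k c := by
  have h1 : (2 : ℝ) ^ (c * (k + c)) = ∏ _i ∈ Finset.range c, (2 : ℝ) ^ (k + c) := by
    rw [Finset.prod_const, Finset.card_range, ← pow_mul, mul_comm]
  rw [h1, ps, ← Finset.prod_range_reflect (fun j => (1 - 1 / 2 ^ (k + j + 1) : ℝ)) c,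
    ← Finset.prod_mul_distrib]
  refine Finset.prod_congr rfl fun i hi => ?_
  have hi' := Finset.mem_range.1 hi
  have h2 : (2 : ℝ) ^ (k + c) = 2 ^ (k + (c - 1 - i) + 1) * 2 ^ i := by
    rw [← pow_add]
    congr 1
    omega
  rw [h2]
  field_simp

theorem G_ps (V : Type) [AddCommGroup V] [Module F V] [Finite V] {n c : ℕ}
    (hV : finrank F V = n + c) : (G V c : ℝ) * ps 0 c = 2 ^ (c * n) * ps n c := by
  have h := G_mul V c
  have h0 := prod_ps 0 c
  rw [zero_add] at h0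
  rw [hV, h0, prod_ps, mul_add, pow_add] at h
  have hp : (0 : ℝ) < 2 ^ (c * c) := by positivity
  refine mul_left_cancel₀ hp.ne' ?_
  linarith

theorem G_up (V : Type) [AddCommGroup V] [Module F V] [Finite V] {n c : ℕ}
    (hV : finrank F V = n + c) : (G V c : ℝ) ≤ 2 ^ (c * n) / ps 0 c := by
  rw [le_div_iff₀ (ps_bd 0 c).2.2, G_ps V hV]
  exact mul_le_of_le_one_right (by positivity) (ps_bd n c).2.1

theorem G_low (V : Type) [AddCommGroup V] [Module F V] [Finite V] {n c : ℕ}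
    (hV : finrank F V = n + c) : (1 - 1 / 2 ^ n) * (2 ^ (c * n) / ps 0 c) ≤ (G V c : ℝ) := by
  rw [← mul_div_assoc, div_le_iff₀ (ps_bd 0 c).2.2, G_ps V hV, mul_comm]
  refine mul_le_mul_of_nonneg_left (le_trans ?_ (ps_bd n c).1) (by positivity)
  have : (0 : ℝ) < 1 / 2 ^ (n + c) := by positivity
  linarith

theorem G_crude (V : Type) [AddCommGroup V] [Module F V] [Finite V] {n c : ℕ}
    (hV : finrank F V = n + c) : (G V c : ℝ) ≤ 2 ^ (c * (n + 1)) := by
  refine (G_up V hV).trans ?_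
  rw [div_le_iff₀ (ps_bd 0 c).2.2, mul_add, mul_one, pow_add, mul_assoc]
  refine le_mul_of_one_le_right (by positivity) ?_
  have := mul_le_mul_of_nonneg_left (ps_low c) (show (0 : ℝ) ≤ 2 ^ c by positivity)
  rwa [mul_one_div_cancel (by positivity)] at this

/-- leading term of the number of quadratics of bias `2^-h` -/
noncomputable def Lq (n h : ℕ) : ℝ :=
  2 ^ (2 * h * (n + 1)) / (2 ^ (h ^ 2) * ∏ j ∈ Finset.range h, ((4 : ℝ) ^ (j + 1) - 1))

theorem Lq_pos (n h : ℕ) : 0 < Lq n h := by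
  have := KCount_prod_pos h
  unfold Lq
  positivity

theorem four_pos (j : ℕ) : (0 : ℝ) < 4 ^ (j + 1) - 1 :=
  sub_pos.2 (one_lt_pow₀ (by norm_num) (Nat.succ_ne_zero j))

theorem four_eq (j : ℕ) : (4 : ℝ) ^ j = (2 ^ j) ^ 2 := by
  rw [← pow_mul, mul_comm, pow_mul]; norm_num

theorem Lq_succ (n h : ℕ) :
    Lq n (h + 1) = Lq n h * (2 * (2 ^ n) ^ 2 / ((2 ^ h) ^ 2 * (4 * (2 ^ h) ^ 2 - 1))) := by
  have a1 : (2 : ℝ) ^ ((h + 1) ^ 2) = 2 ^ (h ^ 2) * (2 ^ h) ^ 2 * 2 := by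
    rw [← pow_mul, ← pow_add, ← pow_succ]; congr 1; ring
  have a2 : (2 : ℝ) ^ (2 * (h + 1) * (n + 1)) = 2 ^ (2 * h * (n + 1)) * (2 ^ n) ^ 2 * 4 := by
    rw [show (4 : ℝ) = 2 ^ 2 by norm_num, ← pow_mul, ← pow_add, ← pow_add]; congr 1; ring
  have a3 := (four_pos h).ne'
  have a4 := (KCount_prod_pos h).ne'
  have a5 : (4 : ℝ) ^ (h + 1) = 4 * (2 ^ h) ^ 2 := by rw [pow_succ', four_eq]
  unfold Lq
  rw [Finset.prod_range_succ, a1, a2]
  rw [a5] at a3 ⊢
  field_simp
  ring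

theorem Lq_shift (n h : ℕ) : Lq (n + 2) h = Lq n h * (2 ^ h) ^ 4 := by
  have a2 : (2 : ℝ) ^ (2 * h * (n + 2 + 1)) = 2 ^ (2 * h * (n + 1)) * (2 ^ h) ^ 4 := by
    rw [← pow_mul, ← pow_add]; congr 1; ring
  unfold Lq
  rw [a2]
  ring

theorem qa_step (n h : ℕ) : (qa (Fin (n + 2) → F) (h + 1) : ℝ) * Lq n h =
    (1 - 1 / 2 ^ n / 4) * (1 - 1 / 2 ^ n / 2) * qa (Fin n → F) h * Lq (n + 2) (h + 1) := by
  have r := qa_rec (Fin (n + 2) → F) (n := n) (finrank_fin_fun F) h
  have a3 := (four_pos h).ne'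
  rw [pow_succ', four_eq] at a3
  rw [Lq_succ, Lq_shift, pow_add (2 : ℝ) n 2]
  rw [one_div_pow, pow_add, pow_add] at r
  generalize (qa (Fin (n + 2) → F) (h + 1) : ℝ) = A at *
  generalize (qa (Fin n → F) h : ℝ) = B at *
  generalize Lq n h = L
  have b1 : (0 : ℝ) < 2 ^ n := by positivity
  have b2 : (0 : ℝ) < 2 ^ h := by positivity
  generalize (2 : ℝ) ^ n = N at *
  generalize (2 : ℝ) ^ h = H at *
  have a4 : H ^ 2 * 4 - 1 ≠ 0 := by rwa [mul_comm]
  field_simp at r ⊢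
  linear_combination (4 * L) * r

theorem qa_bd (m h : ℕ) :
    (1 - 1 / 2 ^ m + 1 / 2 ^ (m + 2 * h)) * Lq (m + 2 * h) h ≤ qa (Fin (m + 2 * h) → F) h ∧
      (qa (Fin (m + 2 * h) → F) h : ℝ) ≤ Lq (m + 2 * h) h := by
  induction h with
  | zero => simp [qa_zero, Lq]
  | succ h ih =>
    obtain ⟨h1, h2⟩ := ih
    have r := qa_step (m + 2 * h) h
    have e : m + 2 * (h + 1) = m + 2 * h + 2 := by ring
    rw [e]
    have e2 : (1 : ℝ) / 2 ^ (m + 2 * h + 2) = 1 / 2 ^ (m + 2 * h) / 4 := by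
      rw [pow_add _ _ 2]; field_simp; norm_num
    have p1 : (0 : ℝ) < 1 / 2 ^ (m + 2 * h) := by positivity
    have p2 : (1 : ℝ) / 2 ^ (m + 2 * h) ≤ 1 / 2 ^ m :=
      one_div_le_one_div_of_le (by positivity) (pow_le_pow_right₀ (by norm_num) (by omega))
    have p3 : (1 : ℝ) / 2 ^ m ≤ 1 := by
      rw [div_le_one (by positivity)]; exact one_le_pow₀ (by norm_num)
    have l1 := Lq_pos (m + 2 * h) h
    have l2 := Lq_pos (m + 2 * h + 2) (h + 1)
    have q0 : (0 : ℝ) ≤ qa (Fin (m + 2 * h) → F) h := Nat.cast_nonneg _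
    rw [e2]
    generalize (qa (Fin (m + 2 * h + 2) → F) (h + 1) : ℝ) = A at *
    generalize (qa (Fin (m + 2 * h) → F) h : ℝ) = B at *
    generalize Lq (m + 2 * h) h = L at *
    generalize Lq (m + 2 * h + 2) (h + 1) = L' at *
    generalize (1 : ℝ) / 2 ^ (m + 2 * h) = x at *
    generalize (1 : ℝ) / 2 ^ m = y at *
    have u0 : 0 ≤ (1 - x / 4) * (1 - x / 2) := mul_nonneg (by linarith) (by linarith)
    have u1 : (1 - x / 4) * (1 - x / 2) ≤ 1 := by nlinarith
    have u2 : 1 - y + x / 4 ≤ (1 - x / 4) * (1 - x / 2) * (1 - y + x) := by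
      nlinarith [mul_nonneg p1.le (sub_nonneg.2 p2), mul_nonneg (mul_nonneg p1.le p1.le)
        (show 0 ≤ 1 - y + x by linarith)]
    constructor
    · refine le_of_mul_le_mul_right ?_ l1
      rw [r]
      calc (1 - y + x / 4) * L' * L = (1 - y + x / 4) * L * L' := by ring
        _ ≤ (1 - x / 4) * (1 - x / 2) * (1 - y + x) * L * L' := by gcongr
        _ = (1 - x / 4) * (1 - x / 2) * ((1 - y + x) * L) * L' := by ring
        _ ≤ _ := by gcongr
    · refine le_of_mul_le_mul_right ?_ l1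
      rw [r]
      calc (1 - x / 4) * (1 - x / 2) * B * L' ≤ 1 * L * L' := by gcongr
        _ = L' * L := by ring

theorem qa_up {n h : ℕ} (hn : 2 * h ≤ n) : (qa (Fin n → F) h : ℝ) ≤ Lq n h := by
  obtain ⟨m, rfl⟩ : ∃ m, n = m + 2 * h := ⟨n - 2 * h, by omega⟩
  exact (qa_bd m h).2

theorem qa_low {n h t : ℕ} (hn : t + 2 * h ≤ n) : (1 - 1 / 2 ^ t) * Lq n h ≤ qa (Fin n → F) h := by
  obtain ⟨m, rfl⟩ : ∃ m, n = m + 2 * h := ⟨n - 2 * h, by omega⟩
  refine le_trans (mul_le_mul_of_nonneg_right ?_ (Lq_pos _ _).le) (qa_bd m h).1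
  have p1 : (0 : ℝ) < 1 / 2 ^ (m + 2 * h) := by positivity
  have p2 : (1 : ℝ) / 2 ^ m ≤ 1 / 2 ^ t :=
    one_div_le_one_div_of_le (by positivity) (pow_le_pow_right₀ (by norm_num) (by omega))
  linarith

theorem Lq_step {n h t : ℕ} (hn : t + 4 * h + 1 ≤ 2 * n) : 2 ^ t * Lq n h ≤ Lq n (h + 1) := by
  have a3 := four_pos h
  rw [pow_succ', four_eq] at a3
  rw [Lq_succ, mul_comm]
  refine mul_le_mul_of_nonneg_left ?_ (Lq_pos _ _).le
  rw [le_div_iff₀ (by positivity)]
  have a4 : (2 : ℝ) ^ t * ((2 ^ h) ^ 2 * (4 * (2 ^ h) ^ 2)) ≤ 2 * (2 ^ n) ^ 2 := by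
    rw [show (4 : ℝ) = 2 ^ 2 by norm_num, ← pow_mul, ← pow_mul, ← pow_add, ← pow_add, ← pow_add,
      ← pow_succ']
    exact pow_le_pow_right₀ (by norm_num) (by omega)
  refine le_trans ?_ a4
  gcongr
  linarith

theorem Lq_sum {n t : ℕ} (k : ℕ) (hn : t + 4 * k ≤ 2 * n) :
    2 ^ t * ∑ j ∈ Finset.range k, Lq n j ≤ Lq n k := by
  induction k with
  | zero => simpa using (Lq_pos n 0).le
  | succ k ih =>
    have h1 := ih (by omega)
    have h2 := Lq_step (n := n) (h := k) (t := t + 1) (by omega)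
    have h3 : (1 : ℝ) ≤ 2 ^ t := one_le_pow₀ (by norm_num)
    have h4 := Lq_pos n k
    rw [Finset.sum_range_succ, mul_add]
    rw [pow_succ] at h2
    nlinarith

theorem Lq_mono {n j : ℕ} (k : ℕ) (hn : 4 * (j + k) ≤ 2 * n) : Lq n j ≤ Lq n (j + k) := by
  induction k with
  | zero => exact le_rfl
  | succ k ih =>
    have h2 := Lq_step (n := n) (h := j + k) (t := 0) (by omega)
    rw [pow_zero, one_mul] at h2
    exact (ih (by omega)).trans h2

end Pool.Agent.P.MP_cb6780_lc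
end

-- part Pool.Agent.P.MP_cb6780_lc.UK
section

set_option autoImplicit false

/-! Uniform estimate for the number of cubics of bias above one half. -/

namespace Pool.Agent.P.MP_cb6780_lc

open Module

theorem inv_pow_le {a b : ℕ} (h : a ≤ b) : (1 : ℝ) / 2 ^ b ≤ 1 / 2 ^ a :=
  one_div_le_one_div_of_le (by positivity) (pow_le_pow_right₀ (by norm_num) h)

theorem Kh_pos (h n : ℕ) : 0 < Kh h n := by
  unfold Kh
  have := KCount_prod_pos h
  split_ifs <;> positivity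

theorem Kh_le (h n : ℕ) : Kh h n ≤ 2 ^ ((2 * h + 1) * n + 1) := by
  unfold Kh
  have h1 : (1 : ℝ) ≤ ∏ j ∈ Finset.range h, ((4 : ℝ) ^ (j + 1) - 1) :=
    Finset.prod_induction _ (fun x : ℝ => 1 ≤ x) (fun _ _ => one_le_mul_of_one_le_of_one_le) le_rfl
      fun j _ => by
        have : (4 : ℝ) ^ 1 ≤ 4 ^ (j + 1) := pow_le_pow_right₀ (by norm_num) (by omega)
        linarith
  have h2 : (1 : ℝ) ≤ 2 ^ (h ^ 2) := one_le_pow₀ (by norm_num)
  split_ifs
  · exact one_le_pow₀ (by norm_num)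
  · exact div_le_self (by positivity) (one_le_mul_of_one_le_of_one_le (by linarith) h1)
  · exact div_le_self (by positivity) (one_le_mul_of_one_le_of_one_le (by linarith) h1)

theorem Kh_eq {h : ℕ} (hh : 2 ≤ h) (n : ℕ) : Kh h (n + 1) = 2 * 2 ^ (n + 1) * Lq n h := by
  have e : (2 : ℝ) ^ ((2 * h + 1) * (n + 1) + 1) = 2 * 2 ^ (n + 1) * 2 ^ (2 * h * (n + 1)) := by
    rw [← pow_succ', ← pow_add]; congr 1; ring
  rw [Kh, if_neg (by omega), if_neg (by omega), Lq, e, mul_one, mul_div_assoc]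

theorem K_big {h n t : ℕ} (hh : 2 ≤ h) (hn : t + 2 * h + 30 ≤ n) {θ : ℝ}
    (h1 : (1 + 1 / 2 ^ (h + 1)) / 2 < θ) (h2 : θ ≤ (1 + 1 / 2 ^ h) / 2) :
    (1 - 1 / 2 ^ t) * Kh h (n + 1) ≤ Nn (n + 1) 4 θ ∧
      (Nn (n + 1) 4 θ : ℝ) ≤ (1 + 1 / 2 ^ t) * Kh h (n + 1) := by
  have hrk : finrank F (Fin (n + 1) → F) = n + 1 := by simp
  have p0 : ps 0 1 = 1 / 2 := by norm_num [ps]
  have g1 := G_up (Fin (n + 1) → F) (n := n) (c := 1) hrk
  have g2 := G_low (Fin (n + 1) → F) (n := n) (c := 1) hrk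
  have e0 : (2 : ℝ) ^ (1 * n) / ps 0 1 = 2 ^ (n + 1) := by rw [p0, one_mul, pow_succ]; ring
  rw [e0] at g1 g2
  have l0 := Lq_pos n h
  have x0 : (0 : ℝ) < 1 / 2 ^ (t + 2) := by positivity
  have x1 : (1 : ℝ) / 2 ^ t = 4 * (1 / 2 ^ (t + 2)) := by rw [pow_add]; field_simp; norm_num
  have x2 : (1 : ℝ) / 2 ^ (t + 2) ≤ 1 / 2 ^ 2 := inv_pow_le (by omega)
  have n0 : (1 : ℝ) ≤ 2 ^ (n + 1) := one_le_pow₀ (by norm_num)
  rw [Kh_eq hh]
  constructor
  · have a1 := (N_sandwich (V := Fin (n + 1) → F) h1 h2).1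
    rw [Eh_eq hrk hh] at a1
    have a2 : 2 * (G (Fin (n + 1) → F) 1 : ℝ) * qa (Fin n → F) h ≤ Nn (n + 1) 4 θ := by
      exact_mod_cast a1
    have a3 := qa_low (n := n) (h := h) (t := t + 2) (by omega)
    have a4 : (1 - 1 / 2 ^ (t + 2)) * (2 : ℝ) ^ (n + 1) ≤ G (Fin (n + 1) → F) 1 :=
      le_trans (mul_le_mul_of_nonneg_right (by linarith [inv_pow_le (show t + 2 ≤ n by omega)])
        (by positivity)) g2
    refine le_trans ?_ a2
    rw [x1]
    generalize (1 : ℝ) / 2 ^ (t + 2) = x at *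
    have a5 : 0 ≤ 1 - x := by linarith
    calc (1 - 4 * x) * (2 * 2 ^ (n + 1) * Lq n h)
        ≤ (1 - x) * (1 - x) * (2 * 2 ^ (n + 1) * Lq n h) := by
          gcongr
          nlinarith
      _ = 2 * ((1 - x) * 2 ^ (n + 1)) * ((1 - x) * Lq n h) := by ring
      _ ≤ _ := by gcongr
  · have a1 := (N_sandwich (V := Fin (n + 1) → F) h1 h2).2
    rw [Finset.sum_range_succ, Eh_eq hrk hh] at a1
    have a2 : ∑ j ∈ Finset.range h, ((Eh (Fin (n + 1) → F) j).ncard : ℝ) ≤
        2 * 2 ^ (n + 1) * ∑ j ∈ Finset.range h, Lq n j := by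
      rw [Finset.mul_sum]
      refine Finset.sum_le_sum fun j hj => ?_
      have b1 : ((Eh (Fin (n + 1) → F) j).ncard : ℝ) ≤
          2 * (G (Fin (n + 1) → F) 1 : ℝ) * qa (Fin n → F) j := by exact_mod_cast Eh_le hrk j
      have b2 := qa_up (n := n) (h := j) (by have := Finset.mem_range.1 hj; omega)
      exact b1.trans (by gcongr)
    have a3 := Lq_sum (n := n) (t := t + 2) h (by omega)
    have a3' : ∑ j ∈ Finset.range h, Lq n j ≤ 1 / 2 ^ (t + 2) * Lq n h := by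
      rw [one_div_mul_eq_div, le_div_iff₀ (by positivity), mul_comm]
      exact a3
    have a4 : (1 : ℝ) ≤ ∑ j ∈ Finset.range h, Lq n j := by
      have := Finset.single_le_sum (f := fun j => Lq n j) (s := Finset.range h)
        (fun j _ => (Lq_pos n j).le) (Finset.mem_range.2 (show 0 < h by omega))
      simpa [Lq] using this
    have a5 : ((if 3 ≤ h then {g : (Fin (n + 1) → F) → F | TwoCubes g}.ncard else 0 : ℕ) : ℝ) ≤
        1 / 2 ^ (t + 2) * (2 * 2 ^ (n + 1) * Lq n h) := by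
      split_ifs with h3
      swap
      · rw [Nat.cast_zero]; positivity
      obtain ⟨k, rfl⟩ := Nat.exists_eq_add_of_le h3
      have b1 := Lq_mono (n := n) (j := 3) k (by omega)
      have b2 := two_cubes_le (V := Fin (n + 1) → F)
      rw [card_V, hrk] at b2
      have b3 : (({g : (Fin (n + 1) → F) → F | TwoCubes g}.ncard : ℕ) : ℝ) ≤
          4 * (G (Fin (n + 1) → F) 2 : ℝ) * (2 * 2 ^ (n + 1)) * (8 * G (Fin (n + 1) → F) 3) := by
        exact_mod_cast b2
      have b4 := G_crude (Fin (n + 1) → F) (n := n - 1) (c := 2) (by rw [hrk]; omega)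
      have b5 := G_crude (Fin (n + 1) → F) (n := n - 2) (c := 3) (by rw [hrk]; omega)
      have b4' : (G (Fin (n + 1) → F) 2 : ℝ) ≤ (2 ^ n) ^ 2 := by
        rw [← pow_mul]; exact b4.trans (pow_le_pow_right₀ (by norm_num) (by omega))
      have b5' : (G (Fin (n + 1) → F) 3 : ℝ) ≤ (2 ^ n) ^ 3 := by
        rw [← pow_mul]; exact b5.trans (pow_le_pow_right₀ (by norm_num) (by omega))
      have b6 : Lq n 3 = (2 ^ n) ^ 6 / 22680 := by
        have : (2 : ℝ) ^ (2 * 3 * (n + 1)) = (2 ^ n) ^ 6 * 64 := by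
          rw [show (64 : ℝ) = 2 ^ 6 by norm_num, ← pow_mul, ← pow_add]; congr 1; ring
        rw [Lq, this]
        simp only [Finset.prod_range_succ, Finset.prod_range_zero]
        field_simp
        norm_num
      have b7 : (2 : ℝ) ^ (t + 2) * 2 ^ 20 ≤ 2 ^ n := by
        rw [← pow_add]; exact pow_le_pow_right₀ (by norm_num) (by omega)
      have b8 : (0 : ℝ) < 2 ^ n := by positivity
      refine b3.trans ?_
      rw [one_div_mul_eq_div, le_div_iff₀ (by positivity)]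
      calc 4 * (G (Fin (n + 1) → F) 2 : ℝ) * (2 * 2 ^ (n + 1)) * (8 * G (Fin (n + 1) → F) 3) *
            2 ^ (t + 2)
          ≤ 4 * (2 ^ n) ^ 2 * (2 * 2 ^ (n + 1)) * (8 * (2 ^ n) ^ 3) * (2 ^ n / 2 ^ 20) := by
            gcongr
            rw [le_div_iff₀ (by positivity)]
            exact b7
        _ = 2 * 2 ^ (n + 1) * ((2 ^ n) ^ 6 / 32768) := by ring
        _ ≤ 2 * 2 ^ (n + 1) * Lq n 3 := by
            rw [b6]
            gcongr
            norm_num
        _ ≤ _ := by gcongr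
    have a6 : (Nn (n + 1) 4 θ : ℝ) ≤ 1 + (∑ j ∈ Finset.range h, ((Eh (Fin (n + 1) → F) j).ncard : ℝ) +
        2 * (G (Fin (n + 1) → F) 1 : ℝ) * qa (Fin n → F) h) +
        ((if 3 ≤ h then {g : (Fin (n + 1) → F) → F | TwoCubes g}.ncard else 0 : ℕ) : ℝ) := by
      exact_mod_cast a1
    have a7 : 2 * (G (Fin (n + 1) → F) 1 : ℝ) * qa (Fin n → F) h ≤ 2 * 2 ^ (n + 1) * Lq n h := by
      have := qa_up (n := n) (h := h) (by omega)
      gcongr
    have a8 : 2 * 2 ^ (n + 1) * ∑ j ∈ Finset.range h, Lq n j ≤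
        1 / 2 ^ (t + 2) * (2 * 2 ^ (n + 1) * Lq n h) := by
      rw [mul_left_comm]
      gcongr
    have a9 : (1 : ℝ) ≤ 2 * 2 ^ (n + 1) * ∑ j ∈ Finset.range h, Lq n j :=
      one_le_mul_of_one_le_of_one_le (by linarith) a4
    have a10 : 0 ≤ 1 / 2 ^ (t + 2) * (2 * 2 ^ (n + 1) * Lq n h) := by positivity
    rw [x1]
    linarith

theorem K_uni {h n t : ℕ} (hn : t + 2 * h + 31 ≤ n) {θ : ℝ}
    (h1 : (1 + 1 / 2 ^ (h + 1)) / 2 < θ) (h2 : θ ≤ (1 + 1 / 2 ^ h) / 2) :
    (1 - 1 / 2 ^ t) * Kh h n ≤ Nn n 4 θ ∧ (Nn n 4 θ : ℝ) ≤ (1 + 1 / 2 ^ t) * Kh h n := by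
  have x0 : (0 : ℝ) < 1 / 2 ^ t := by positivity
  rcases Nat.lt_or_ge h 2 with hh | hh
  · interval_cases h
    · have a1 : Nn n 4 θ = 1 :=
        N_h0 (V := Fin n → F) (by norm_num at h1 ⊢; exact h1) (by norm_num at h2 ⊢; exact h2)
      rw [a1, show Kh 0 n = 1 by simp [Kh], Nat.cast_one]
      constructor <;> linarith
    · have a1 : Nn n 4 θ = 1 + 8 * G (Fin n → F) 3 :=
        N_h1 (V := Fin n → F) (by norm_num at h1 ⊢; exact h1) (by norm_num at h2 ⊢; exact h2)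
      obtain ⟨m, rfl⟩ : ∃ m, n = m + 3 := ⟨n - 3, by omega⟩
      have g1 := G_up (Fin (m + 3) → F) (n := m) (c := 3) (by simp)
      have g2 := G_low (Fin (m + 3) → F) (n := m) (c := 3) (by simp)
      have e1 : Kh 1 (m + 3) = 8 * (2 ^ (3 * m) / ps 0 3) := by
        have : (2 : ℝ) ^ ((2 * 1 + 1) * (m + 3) + 1) = 2 ^ (3 * m) * 1024 := by
          rw [show (1024 : ℝ) = 2 ^ 10 by norm_num, ← pow_add]; congr 1
        rw [Kh, if_neg one_ne_zero, if_pos rfl, this]
        simp only [ps, Finset.prod_range_succ, Finset.prod_range_zero]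
        field_simp
        norm_num
      have e2 : (2 : ℝ) ^ t ≤ 2 ^ (3 * m) / ps 0 3 := by
        rw [le_div_iff₀ (ps_bd 0 3).2.2]
        exact (mul_le_of_le_one_right (by positivity) (ps_bd 0 3).2.1).trans
          (pow_le_pow_right₀ (by norm_num) (by omega))
      have e3 := mul_le_mul_of_nonneg_left e2 x0.le
      rw [one_div_mul_cancel (by positivity)] at e3
      have e4 := inv_pow_le (show t ≤ m by omega)
      have e5 : (0 : ℝ) ≤ 2 ^ (3 * m) / ps 0 3 := le_trans (by positivity) e2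
      rw [a1, e1]
      push_cast
      constructor
      · nlinarith [mul_le_mul_of_nonneg_right e4 e5]
      · nlinarith
  · obtain ⟨m, rfl⟩ : ∃ m, n = m + 1 := ⟨n - 1, by omega⟩
    exact K_big hh (by omega) h1 h2

end Pool.Agent.P.MP_cb6780_lc
end

-- part Pool.Agent.P.MP_cb6780_lc.URank
section

set_option autoImplicit false
set_option linter.unusedSectionVars false

/-! Ranks of symmetric bilinear forms over the field with two elements. -/

namespace Pool.Agent.P.MP_cb6780_lc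

open Module

/-- bilinear forms -/
abbrev Bil (V : Type) [AddCommGroup V] [Module F V] := V →ₗ[F] V →ₗ[F] F

section
variable {V W X : Type} [AddCommGroup V] [Module F V] [AddCommGroup W] [Module F W]
  [AddCommGroup X] [Module F X]

/-- rank of a bilinear form -/
noncomputable def rk (β : Bil V) : ℕ := finrank F (LinearMap.range β)

/-- pull-back of a bilinear form -/
def pull (e : W →ₗ[F] V) (β : Bil V) : Bil W := β.compl₁₂ e e

theorem pull_apply (e : W →ₗ[F] V) (β : Bil V) (x y : W) : pull e β x y = β (e x) (e y) := rfl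

theorem pull_add (e : W →ₗ[F] V) (α β : Bil V) : pull e (α + β) = pull e α + pull e β := by
  ext x y; simp [pull_apply]

theorem pull_pull (e : W →ₗ[F] V) (e' : X →ₗ[F] W) (β : Bil V) :
    pull e' (pull e β) = pull (e.comp e') β := rfl

theorem fin_dual [Finite V] : Finite (V →ₗ[F] F) := DFunLike.finite _

theorem fin_bil [Finite V] : Finite (Bil V) := by
  have := @fin_dual V _ _ _
  exact DFunLike.finite _

variable [Finite V] [Finite W]

theorem rk_pull_le (e : W →ₗ[F] V) (β : Bil V) : rk (pull e β) ≤ rk β := by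
  have : Module.Finite F V := Module.Finite.of_finite
  have : Module.Finite F W := Module.Finite.of_finite
  have h : LinearMap.range (pull e β) ≤ (LinearMap.range β).map e.dualMap := by
    rintro _ ⟨x, rfl⟩
    exact ⟨β (e x), ⟨e x, rfl⟩, rfl⟩
  exact (Submodule.finrank_mono h).trans (Submodule.finrank_map_le _ _)

theorem rk_add_le (α β : Bil V) : rk (α + β) ≤ rk α + rk β := by
  have : Module.Finite F V := Module.Finite.of_finite
  have h : LinearMap.range (α + β) ≤ LinearMap.range α ⊔ LinearMap.range β := by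
    rintro _ ⟨x, rfl⟩
    exact Submodule.add_mem_sup ⟨x, rfl⟩ ⟨x, rfl⟩
  exact (Submodule.finrank_mono h).trans (Submodule.finrank_add_le_finrank_add_finrank _ _)

theorem rk_ker (β : Bil V) : finrank F (LinearMap.ker β) + rk β = finrank F V := by
  have : Module.Finite F V := Module.Finite.of_finite
  rw [add_comm]
  exact LinearMap.finrank_range_add_finrank_ker β

theorem rk_eq_zero {β : Bil V} (h : rk β = 0) : β = 0 := by
  have : Module.Finite F V := Module.Finite.of_finite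
  exact LinearMap.range_eq_bot.1 (Submodule.finrank_eq_zero.1 h)

/-- the rank inequality -/
theorem rk_ineq (A B : Bil V) (hA : ∀ x y, A x y = A y x) :
    2 * rk (pull (LinearMap.ker A).subtype B) + rk A ≤ rk B + rk (A + B) := by
  have : Module.Finite F V := Module.Finite.of_finite
  set N := LinearMap.ker A with hN
  set I := LinearMap.range B ⊓ LinearMap.range (A + B) with hI
  set S := LinearMap.range B ⊔ LinearMap.range (A + B) with hS
  have e0 : finrank F S + finrank F I = rk B + rk (A + B) :=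
    Submodule.finrank_sup_add_finrank_inf_eq _ _
  have hIm : LinearMap.range (pull N.subtype B) ≤ I.map N.subtype.dualMap := by
    rintro _ ⟨x, rfl⟩
    refine ⟨B x, ⟨⟨x, rfl⟩, ⟨x, ?_⟩⟩, rfl⟩
    have h0 : A x = 0 := x.2
    rw [LinearMap.add_apply, h0, zero_add]
  have e1 : rk (pull N.subtype B) ≤ finrank F I :=
    (Submodule.finrank_mono hIm).trans (Submodule.finrank_map_le _ _)
  let ψ : S →ₗ[F] Dual F N := N.subtype.dualMap.comp S.subtype
  have e2 : finrank F (LinearMap.range ψ) + finrank F (LinearMap.ker ψ) = finrank F S :=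
    LinearMap.finrank_range_add_finrank_ker ψ
  have e3 : rk (pull N.subtype B) ≤ finrank F (LinearMap.range ψ) := by
    refine Submodule.finrank_mono ?_
    rintro _ ⟨x, rfl⟩
    exact ⟨⟨B x, Submodule.mem_sup_left ⟨x, rfl⟩⟩, rfl⟩
  have hAS : LinearMap.range A ≤ S := by
    rintro _ ⟨x, rfl⟩
    have h1 : A x = B x + (A + B) x := by
      rw [LinearMap.add_apply, add_comm (A x), ← add_assoc, add_self_V, zero_add]
    rw [h1]
    exact Submodule.add_mem_sup ⟨x, rfl⟩ ⟨x, rfl⟩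
  have e4 : rk A ≤ finrank F (LinearMap.ker ψ) := by
    have h1 : (LinearMap.range A).comap S.subtype ≤ LinearMap.ker ψ := by
      rintro ⟨_, hs⟩ ⟨x, hx⟩
      rw [LinearMap.mem_ker]
      ext y
      have h0 : A y = 0 := y.2
      have hx' : A x = _ := hx
      show (S.subtype ⟨_, hs⟩) (y : V) = 0
      rw [← hx', hA, h0]
      rfl
    have h2 := (Submodule.comapSubtypeEquivOfLe hAS).finrank_eq
    exact h2.symm.le.trans (Submodule.finrank_mono h1)
  omega

/-- forms of small rank are few -/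
theorem low_count (ρ : ℕ) : {β : Bil V | rk β ≤ ρ}.ncard ≤ 2 ^ (2 * ρ * finrank F V) := by
  have : Module.Finite F V := Module.Finite.of_finite
  have := @fin_dual V _ _ _
  have := @fin_bil V _ _ _
  have f1 : Finite (V →ₗ[F] (Fin ρ → F)) := DFunLike.finite _
  have f2 : Finite ((Fin ρ → F) →ₗ[F] (V →ₗ[F] F)) := DFunLike.finite _
  let Φ : (V →ₗ[F] (Fin ρ → F)) × ((Fin ρ → F) →ₗ[F] (V →ₗ[F] F)) → Bil V := fun z => z.2.comp z.1
  have h1 : {β : Bil V | rk β ≤ ρ} ⊆ Φ '' Set.univ := by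
    intro β hβ
    have h2 : finrank F (LinearMap.range β) ≤ finrank F (Fin ρ → F) := by
      rw [finrank_fin_fun]; exact hβ
    obtain ⟨ι, hι⟩ := finrank_le_iff_exists_linearMap.1 h2
    obtain ⟨π, hπ⟩ := ι.exists_leftInverse_of_injective (LinearMap.ker_eq_bot.2 hι)
    refine ⟨(ι.comp β.rangeRestrict, (LinearMap.range β).subtype.comp π), trivial, ?_⟩
    refine LinearMap.ext fun x => ?_
    have h3 := LinearMap.congr_fun hπ (β.rangeRestrict x)
    show ((π (ι (β.rangeRestrict x)) : LinearMap.range β) : V →ₗ[F] F) = β x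
    rw [show π (ι (β.rangeRestrict x)) = β.rangeRestrict x from h3]
    rfl
  refine (Set.ncard_le_ncard h1 (Set.toFinite _)).trans ((Set.ncard_image_le (Set.toFinite _)).trans ?_)
  rw [Set.ncard_univ, Nat.card_prod, card_V (V := V →ₗ[F] (Fin ρ → F)),
    card_V (V := (Fin ρ → F) →ₗ[F] (V →ₗ[F] F)), ← pow_add]
  refine le_of_eq ?_
  congr 1
  rw [Module.finrank_linearMap, Module.finrank_linearMap, Module.finrank_linearMap, finrank_fin_fun,
    finrank_self]
  ring

end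

end Pool.Agent.P.MP_cb6780_lc
end

-- part Pool.Agent.P.MP_cb6780_lc.URound
section

set_option autoImplicit false
set_option linter.unusedSectionVars false

/-! Rank reduction on a dense set of directions. -/

namespace Pool.Agent.P.MP_cb6780_lc

open Module

/-- density of a set -/
noncomputable def dens {H : Type} (G : Set H) : ℝ := av (G.indicator fun _ => (1 : ℝ))

theorem dens_eq {H : Type} [Finite H] (G : Set H) : dens G = G.ncard / Nat.card H := av_indicator G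

theorem dens_nonneg {H : Type} [Finite H] (G : Set H) : 0 ≤ dens G := by
  rw [dens_eq]; positivity

theorem dens_le_one {H : Type} [Finite H] [Nonempty H] (G : Set H) : dens G ≤ 1 :=
  av_le_of_le fun x => by by_cases h : x ∈ G <;> simp [h]

theorem dens_nonempty {H : Type} [Finite H] {G : Set H} (h : 0 < dens G) : G.Nonempty := by
  rcases G.eq_empty_or_nonempty with rfl | h1
  · rw [dens_eq] at h; simp at h
  · exact h1

/-- Markov for functions bounded by one -/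
theorem dens_markov {H : Type} [Finite H] [Nonempty H] {g : H → ℝ} (h1 : ∀ x, g x ≤ 1) {t : ℝ}
    (ht : 0 ≤ t) (h : 2 * t ≤ av g) : t ≤ dens {x | t ≤ g x} := by
  have h2 : ∀ x, g x ≤ t + ({x | t ≤ g x}.indicator fun _ => (1 : ℝ)) x := fun x => by
    by_cases hx : x ∈ {x | t ≤ g x}
    · rw [Set.indicator_of_mem hx]; linarith [h1 x]
    · rw [Set.indicator_of_notMem hx, add_zero]; exact (not_le.1 hx).le
  have h3 := av_mono h2
  rw [av_add (fun _ => t), av_const] at h3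
  unfold dens
  linarith

section
variable {H : Type} [AddCommGroup H] [Module F H] [Finite H]

theorem dens_conv (G : Set H) : av (fun y => dens {x | x ∈ G ∧ y + x ∈ G}) = dens G ^ 2 := by
  unfold dens
  rw [av_comm]
  have h1 : ∀ x : H, av (fun y => ({x | x ∈ G ∧ y + x ∈ G}.indicator fun _ => (1 : ℝ)) x) =
      av (G.indicator fun _ => (1 : ℝ)) * (G.indicator fun _ => (1 : ℝ)) x := fun x => by
    rw [← av_congr (Equiv.addRight x) (G.indicator fun _ => (1 : ℝ)), mul_comm, ← av_mul_left]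
    congr 1
    funext y
    by_cases h : x ∈ G <;> by_cases h' : y + x ∈ G <;> simp [Set.indicator, h, h']
  rw [funext h1, av_mul_left, sq]

/-- one round -/
theorem round_one {K : Type} [AddCommGroup K] [Module F K] [Finite K] (B : H →ₗ[F] Bil K)
    (hB : ∀ h x y, B h x y = B h y x) {G : Set H} {δ : ℝ} (hδ : 0 < δ) (hG : δ ≤ dens G) {r : ℕ}
    (hr : ∀ h ∈ G, rk (B h) ≤ r) :
    ∃ (N : Submodule F K) (G' : Set H), finrank F K ≤ finrank F N + 2 * r ∧ δ ^ 2 / 2 ≤ dens G' ∧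
      ∀ h ∈ G', 3 * rk (pull N.subtype (B h)) ≤ 2 * r := by
  have : Module.Finite F K := Module.Finite.of_finite
  have hp : 0 < δ ^ 2 / 2 := by positivity
  have hP : δ ^ 2 / 2 ≤ dens {y | δ ^ 2 / 2 ≤ dens {x | x ∈ G ∧ y + x ∈ G}} := by
    refine dens_markov (fun y => dens_le_one _) hp.le ?_
    rw [dens_conv]
    nlinarith [pow_le_pow_left₀ hδ.le hG 2]
  by_cases hc : ∃ y, δ ^ 2 / 2 ≤ dens {x | x ∈ G ∧ y + x ∈ G} ∧ 2 * r ≤ 3 * rk (B y)
  · obtain ⟨y, hy, hy'⟩ := hc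
    have key : ∀ x ∈ {x | x ∈ G ∧ y + x ∈ G},
        2 * rk (pull (LinearMap.ker (B y)).subtype (B x)) + rk (B y) ≤ 2 * r := fun x hx => by
      have h1 := rk_ineq (B y) (B x) (hB y)
      rw [← map_add] at h1
      have h2 := hr x hx.1
      have h3 := hr _ hx.2
      omega
    refine ⟨LinearMap.ker (B y), _, ?_, hy, fun x hx => ?_⟩
    · obtain ⟨x, hx⟩ := dens_nonempty (hp.trans_le hy)
      have h1 := key x hx
      have h2 := rk_ker (B y)
      omega
    · have h1 := key x hx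
      omega
  · refine ⟨⊤, _, ?_, hP, fun y hy => ?_⟩
    · rw [finrank_top]; omega
    · have h1 : ¬ 2 * r ≤ 3 * rk (B y) := fun h => hc ⟨y, hy, h⟩
      have h2 := rk_pull_le (⊤ : Submodule F K).subtype (B y)
      omega

/-- `pull` as a linear map -/
def pullL {V W : Type} [AddCommGroup V] [Module F V] [AddCommGroup W] [Module F W]
    (e : W →ₗ[F] V) : Bil V →ₗ[F] Bil W where
  toFun := pull e
  map_add' := pull_add e
  map_smul' _ _ := rfl

/-- `t` rounds -/
theorem round_iter (t : ℕ) : ∀ (K : Type) [AddCommGroup K] [Module F K] [Finite K]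
    (B : H →ₗ[F] Bil K) (_ : ∀ h x y, B h x y = B h y x) (G : Set H) (e r : ℕ)
    (_ : 2 / 2 ^ e ≤ dens G) (_ : ∀ h ∈ G, rk (B h) ≤ r),
    ∃ (N : Submodule F K) (G' : Set H), finrank F K ≤ finrank F N + 2 * r * t ∧
      2 / 2 ^ (2 ^ t * e) ≤ dens G' ∧
      ∀ h ∈ G', 3 ^ t * rk (pull N.subtype (B h)) ≤ 2 ^ t * r := by
  induction t with
  | zero =>
    intro K _ _ _ B _ G e r hG hr
    refine ⟨⊤, G, by rw [finrank_top]; omega, by simpa using hG, fun h hh => ?_⟩
    have := (rk_pull_le (⊤ : Submodule F K).subtype (B h)).trans (hr h hh)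
    omega
  | succ t ih =>
    intro K _ _ _ B hB G e r hG hr
    obtain ⟨N, G₁, h1, h2, h3⟩ := round_one B hB (by positivity) hG hr
    have h4 : (2 : ℝ) / 2 ^ (2 * e) ≤ dens G₁ := by
      refine le_trans (le_of_eq ?_) h2
      rw [mul_comm 2 e, pow_mul]
      field_simp
    obtain ⟨N', G₂, k1, k2, k3⟩ := ih N ((pullL N.subtype).comp B) (fun h x y => hB h x y) G₁
      (2 * e) (2 * r / 3) h4 (fun h hh => by
        have := h3 h hh
        show rk (pull N.subtype (B h)) ≤ _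
        omega)
    let ε := Submodule.equivMapOfInjective N.subtype N.injective_subtype N'
    refine ⟨N'.map N.subtype, G₂, ?_, ?_, fun h hh => ?_⟩
    · rw [← ε.finrank_eq]
      have : 2 * (2 * r / 3) * t ≤ 2 * r * t := Nat.mul_le_mul_right _ (by omega)
      rw [mul_add, mul_one]
      omega
    · rw [pow_succ, mul_assoc]
      exact k2
    · have k4 : 3 ^ t * rk (pull N'.subtype (pull N.subtype (B h))) ≤ 2 ^ t * (2 * r / 3) := k3 h hh
      have k5 : pull (N'.map N.subtype).subtype (B h) =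
          pull ε.symm.toLinearMap (pull N'.subtype (pull N.subtype (B h))) := by
        have k6 : ∀ x : N'.map N.subtype, ((ε.symm x : N') : K) = x := fun x => by
          have := Submodule.coe_equivMapOfInjective_apply N.subtype N.injective_subtype N' (ε.symm x)
          have h9 : ((ε (ε.symm x) : N'.map N.subtype) : K) = ((ε.symm x : N') : K) := this
          rw [← h9, LinearEquiv.apply_symm_apply]
        ext x y
        show B h x y = B h ((ε.symm x : N') : K) ((ε.symm y : N') : K)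
        rw [k6, k6]
      have k7 := rk_pull_le ε.symm.toLinearMap (pull N'.subtype (pull N.subtype (B h)))
      rw [← k5] at k7
      calc 3 ^ (t + 1) * rk (pull (N'.map N.subtype).subtype (B h))
          ≤ 3 * (3 ^ t * rk (pull N'.subtype (pull N.subtype (B h)))) := by
            rw [pow_succ', mul_assoc]
            exact Nat.mul_le_mul_left _ (Nat.mul_le_mul_left _ k7)
        _ ≤ 3 * (2 ^ t * (2 * r / 3)) := Nat.mul_le_mul_left _ k4
        _ = 2 ^ t * (3 * (2 * r / 3)) := by ring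
        _ ≤ 2 ^ t * (2 * r) := Nat.mul_le_mul_left _ (by omega)
        _ = 2 ^ (t + 1) * r := by ring

end

section
variable {V : Type} [AddCommGroup V] [Module F V] [Finite V]

theorem av_cosets (U : Submodule F V) (g : V → ℝ) :
    av g = av fun a : V => av fun u : U => g (u + a) := by
  rw [av_comm]
  have h : ∀ u : U, av (fun a : V => g (u + a)) = av g := fun u => av_congr (Equiv.addLeft (u : V)) g
  rw [funext h, av_const]

/-- a subspace of small codimension spanned by directions of small rank -/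
theorem compress (t : ℕ) (B : V →ₗ[F] Bil V) (hB : ∀ h x y, B h x y = B h y x) (G : Set V) (e r : ℕ)
    (hG : 2 / 2 ^ e ≤ dens G) (hr : ∀ h ∈ G, rk (B h) ≤ r) :
    ∃ (W : Submodule F V) (s : Set V), W = Submodule.span F s ∧
      finrank F V ≤ finrank F W + (2 * r * t + 2 ^ t * e) ∧
      ∀ h ∈ s, 3 ^ t * rk (pull W.subtype (B h)) ≤ 2 * (2 ^ t * r) := by
  have : Module.Finite F V := Module.Finite.of_finite
  obtain ⟨N, G', h1, h2, h3⟩ := round_iter t V B hB G e r hG hr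
  have h4 : ∃ a : V, dens G' ≤ dens {u : N | (u : V) + a ∈ G'} := by
    obtain ⟨a, ha⟩ := exists_av_le fun a : V => av fun u : N => (G'.indicator fun _ => (1 : ℝ)) (u + a)
    exact ⟨a, (av_cosets N _).le.trans ha⟩
  obtain ⟨a, ha⟩ := h4
  have h5 := h2.trans ha
  obtain ⟨u₀, hu₀⟩ := dens_nonempty (lt_of_lt_of_le (by positivity) h5)
  let s : Set V := (fun u : N => (u : V) + u₀) '' {u : N | (u : V) + a ∈ G'}
  have hs : Submodule.span F s ≤ N := by
    rw [Submodule.span_le]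
    rintro _ ⟨u, _, rfl⟩
    exact N.add_mem u.2 u₀.2
  refine ⟨Submodule.span F s, s, rfl, ?_, ?_⟩
  · have c1 : s.ncard = {u : N | (u : V) + a ∈ G'}.ncard :=
      Set.ncard_image_of_injective _ fun u v h => Subtype.ext (add_right_cancel h)
    have c2 : s.ncard ≤ 2 ^ finrank F (Submodule.span F s) := by
      rw [← card_V]
      exact Set.ncard_le_ncard Submodule.subset_span (Set.toFinite _)
    rw [dens_eq, ← c1, card_V (V := N), div_le_div_iff₀ (by positivity) (by positivity)] at h5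
    have c3 : 2 * 2 ^ finrank F N ≤ s.ncard * 2 ^ (2 ^ t * e) := by exact_mod_cast h5
    have c4 : 2 ^ finrank F N ≤ 2 ^ (finrank F (Submodule.span F s) + 2 ^ t * e) := by
      rw [pow_add]
      exact le_trans (by omega) (c3.trans (Nat.mul_le_mul_right _ c2))
    have c5 := (Nat.pow_le_pow_iff_right (by norm_num)).1 c4
    omega
  · rintro _ ⟨u, hu, rfl⟩
    have e1 : (u : V) + u₀ = (u + a) + (u₀ + a) := by
      rw [add_add_add_comm, add_self_V, add_zero]
    have e2 : pull (Submodule.span F s).subtype (B (u + u₀)) =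
        pull (Submodule.inclusion hs) (pull N.subtype (B (u + a)) + pull N.subtype (B (u₀ + a))) := by
      rw [← pull_add, ← map_add, ← e1]
      rfl
    have e3 := (rk_pull_le (Submodule.inclusion hs) _).trans
      (rk_add_le (pull N.subtype (B (u + a))) (pull N.subtype (B (u₀ + a))))
    rw [← e2] at e3
    have e4 := h3 _ hu
    have e5 := h3 _ hu₀
    have e6 := Nat.mul_le_mul_left (3 ^ t) e3
    rw [mul_add] at e6
    show 3 ^ t * rk (pull (Submodule.span F s).subtype (B (u + u₀))) ≤ _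
    omega

end

end Pool.Agent.P.MP_cb6780_lc
end

-- part Pool.Agent.P.MP_cb6780_lc.UForm
section

set_option autoImplicit false
set_option linter.unusedSectionVars false

/-! The forms attached to quadratic and cubic functions; the list bound. -/

namespace Pool.Agent.P.MP_cb6780_lc

open Module

theorem fib_le {α β : Type} [Finite α] [Finite β] (S : Set α) (T : Set β) (φ : α → β) (m : ℕ)
    (h1 : ∀ x ∈ S, φ x ∈ T) (h2 : ∀ y ∈ T, {x | x ∈ S ∧ φ x = y}.ncard ≤ m) :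
    S.ncard ≤ T.ncard * m := by
  classical
  have := Fintype.ofFinite β
  rw [ul_fiber S φ, ← ul_ite]
  refine Finset.sum_le_sum fun y _ => ?_
  by_cases hy : y ∈ T
  · rw [if_pos hy]; exact h2 y hy
  · rw [if_neg hy]
    have : {x | x ∈ S ∧ φ x = y} = ∅ := by
      ext x
      exact ⟨fun h => hy (h.2 ▸ h1 x h.1), fun h => h.elim⟩
    rw [this, Set.ncard_empty]

theorem cover_le {α β : Type} [Finite α] [Finite β] [Nonempty β] (S : Set α) (T : Set β)
    (A : β → Set α) (m : ℕ) (h1 : ∀ x ∈ S, ∃ y ∈ T, x ∈ A y) (h2 : ∀ y ∈ T, (A y).ncard ≤ m) :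
    S.ncard ≤ T.ncard * m := by
  choose! φ h3 h4 using h1
  refine fib_le S T φ m h3 fun y hy => le_trans (Set.ncard_le_ncard ?_ (Set.toFinite _)) (h2 y hy)
  rintro x ⟨hx, rfl⟩
  exact h4 x hx

section
variable {V : Type} [AddCommGroup V] [Module F V]

theorem D_add_aff {g : V → F} (hg : g ∈ P V 2) (x y : V) : D (x + y) g = D x g + D y g := by
  rw [D_add, mem_P_zero.1 (mem_P_succ.1 (mem_P_succ.1 hg y) x), add_zero]

theorem D_smul' (c : F) (y : V) (f : V → F) : D (c • y) f = c • D y f := by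
  rcases Av_cases c with rfl | rfl
  · rw [zero_smul, zero_smul, D_zero]
  · rw [one_smul, one_smul]

open Classical in
/-- the bilinear form of a quadratic function -/
noncomputable def bf (q : V → F) : Bil V :=
  if h : q ∈ P V 3 then
    LinearMap.mk₂ F (fun x y => D x (D y q) 0)
      (fun x x' y => by rw [D_add_aff (mem_P_succ.1 h y)]; rfl)
      (fun c x y => by rw [D_smul']; rfl)
      (fun x y y' => by
        rw [D_comm x (y + y'), D_comm x y, D_comm x y', D_add_aff (mem_P_succ.1 h x)]; rfl)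
      (fun c x y => by rw [D_comm x (c • y), D_comm x y, D_smul']; rfl)
  else 0

theorem bf_apply {q : V → F} (h : q ∈ P V 3) (x y z : V) : bf q x y = D x (D y q) z := by
  obtain ⟨c, hc⟩ := mem_P_one.1 (mem_P_succ.1 (mem_P_succ.1 h y) x)
  rw [bf, dif_pos h]
  show D x (D y q) 0 = _
  rw [hc]

theorem bf_symm {q : V → F} (h : q ∈ P V 3) (x y : V) : bf q x y = bf q y x := by
  rw [bf_apply h x y 0, bf_apply h y x 0, D_comm]

theorem bf_add {q q' : V → F} (h : q ∈ P V 3) (h' : q' ∈ P V 3) : bf (q + q') = bf q + bf q' := by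
  ext x y
  rw [LinearMap.add_apply, LinearMap.add_apply, bf_apply h x y 0, bf_apply h' x y 0,
    bf_apply ((P V 3).add_mem h h') x y 0, map_add, map_add]
  rfl

theorem bf_eq_zero {q : V → F} (h : q ∈ P V 3) : bf q = 0 ↔ q ∈ P V 2 := by
  constructor
  · intro h0
    refine mem_P_succ.2 fun y => mem_P_succ.2 fun x => mem_P_zero.2 (funext fun z => ?_)
    rw [← bf_apply h, h0]
    rfl
  · intro h2
    ext x y
    rw [bf_apply h x y 0, mem_P_zero.1 (mem_P_succ.1 (mem_P_succ.1 h2 y) x)]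
    rfl

theorem D_res (W : Submodule F V) (a : V) (w : W) (f : V → F) :
    D w (res W a f) = res W a (D (w : V) f) := by
  funext u
  simp only [D_apply, res_apply, Submodule.coe_add]
  rw [add_right_comm]

theorem bf_res {q : V → F} (h : q ∈ P V 3) (W : Submodule F V) (a : V) :
    bf (res W a q) = pull W.subtype (bf q) := by
  ext x y
  rw [bf_apply (res_mem_P h W a) x y 0, pull_apply, D_res, D_res, res_apply]
  exact (bf_apply h _ _ _).symm

open Classical in
/-- the trilinear form of a cubic function -/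
noncomputable def tf (f : V → F) : V →ₗ[F] Bil V :=
  if h : f ∈ P V 4 then
    { toFun := fun y => bf (D y f)
      map_add' := fun y z => by
        have h1 := mem_P_succ.1 h y
        have h2 := mem_P_succ.1 h z
        have h3 := mem_P_succ.1 h2 y
        have h4 := P_le_succ 2 h3
        rw [D_add, bf_add ((P V 3).add_mem h1 h2) h4, bf_add h1 h2, (bf_eq_zero h4).2 h3, add_zero]
      map_smul' := fun c y => by
        rcases Av_cases c with rfl | rfl
        · rw [zero_smul, D_zero, (bf_eq_zero (P V 3).zero_mem).2 (P V 2).zero_mem]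
          simp
        · simp }
  else 0

theorem tf_apply {f : V → F} (h : f ∈ P V 4) (y : V) : tf f y = bf (D y f) := by
  rw [tf, dif_pos h]
  rfl

theorem tf_symm {f : V → F} (h : f ∈ P V 4) (y a b : V) : tf f y a b = tf f y b a := by
  rw [tf_apply h]
  exact bf_symm (mem_P_succ.1 h y) a b

theorem tf_inj {f g : V → F} (hf : f ∈ P V 4) (hg : g ∈ P V 4) (h : tf f = tf g) :
    f + g ∈ P V 3 := by
  refine mem_P_succ.2 fun y => ?_
  have h1 := mem_P_succ.1 hf y
  have h2 := mem_P_succ.1 hg y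
  rw [map_add, ← bf_eq_zero ((P V 3).add_mem h1 h2), bf_add h1 h2, ← tf_apply hf, ← tf_apply hg, h]
  exact add_self_V (V := Bil V) _

theorem tf_res {f : V → F} (h : f ∈ P V 4) (W : Submodule F V) (a : V) (w : W) :
    tf (res W a f) w = pull W.subtype (tf f w) := by
  rw [tf_apply (res_mem_P h W a), tf_apply h, D_res, bf_res (mem_P_succ.1 h _)]

variable [Finite V]

theorem bias_sq_le_rk {q : V → F} (h : q ∈ P V 3) : bias q ^ 2 ≤ 1 / 2 ^ rk (bf q) := by
  by_cases h0 : bias q = 0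
  · rw [h0, zero_pow two_ne_zero]; positivity
  rw [quad_bias_sq h h0, ← card_sub _ (rk_ker (bf q))]
  refine div_le_div_of_nonneg_right ?_ (Nat.cast_nonneg _)
  have h1 : (Per q : Set V) ⊆ (LinearMap.ker (bf q) : Set V) := by
    intro y hy
    refine LinearMap.mem_ker.2 (LinearMap.ext fun x => ?_)
    rw [bf_symm h, bf_apply h x y 0, mem_Per.1 hy, map_zero]
    rfl
  exact_mod_cast Set.ncard_le_ncard h1 (Set.toFinite _)

theorem rk_le_of_bias {q : V → F} (h : q ∈ P V 3) {k : ℕ} (hb : 1 / 2 ^ k ≤ bias q) :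
    rk (bf q) ≤ 2 * k := by
  have h1 := (pow_le_pow_left₀ (by positivity) hb 2).trans (bias_sq_le_rk h)
  rw [div_pow, one_pow, ← pow_mul, one_div_le_one_div (by positivity) (by positivity)] at h1
  have h2 := (pow_le_pow_iff_right₀ (by norm_num : (1 : ℝ) < 2)).1 h1
  omega

theorem ncard_P (d : ℕ) : (P V d : Set (V → F)).ncard = cP (finrank F V) d := by
  rw [← card_P, ← Nat.card_coe_set_eq]; rfl

theorem ncard_coset_le {d : ℕ} {S : Set (V → F)} (h : ∀ f ∈ S, ∀ g ∈ S, f + g ∈ P V d) :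
    S.ncard ≤ cP (finrank F V) d := by
  rcases S.eq_empty_or_nonempty with rfl | ⟨g, hg⟩
  · simp
  rw [← ncard_P]
  exact Set.ncard_le_ncard_of_injOn (fun f => f + g) (fun f hf => h f hf g hg)
    (fun _ _ _ _ e => add_right_cancel e) (Set.toFinite _)

theorem quad_count (k : ℕ) : {q : V → F | q ∈ P V 3 ∧ 1 / 2 ^ k ≤ bias q}.ncard ≤
    2 ^ (4 * k * finrank F V + finrank F V + 1) := by
  have := @fin_bil V _ _ _
  have h1 := fib_le {q : V → F | q ∈ P V 3 ∧ 1 / 2 ^ k ≤ bias q} {β : Bil V | rk β ≤ 2 * k} bf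
    (cP (finrank F V) 2) (fun q hq => rk_le_of_bias hq.1 hq.2) fun β _ =>
      ncard_coset_le fun f hf g hg => by
        rw [← bf_eq_zero ((P V 3).add_mem hf.1.1 hg.1.1), bf_add hf.1.1 hg.1.1, hf.2, hg.2]
        exact add_self_V (V := Bil V) _
  refine h1.trans ?_
  have h2 : cP (finrank F V) 2 = 2 ^ (finrank F V + 1) := by
    simp [cP, Finset.sum_range_succ, add_comm]
  rw [h2, add_assoc, pow_add 2 (4 * k * finrank F V)]
  refine Nat.mul_le_mul_right _ ((low_count (2 * k)).trans (le_of_eq ?_))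
  congr 1
  ring

/-- Johnson-type bound -/
theorem johnson {l : ℕ} {L : Set (V → F)} (h1 : ∀ f ∈ L, 1 / 2 ^ l ≤ bias f)
    (h2 : ∀ f ∈ L, ∀ g ∈ L, f + g ∈ P V 3) :
    L.ncard ≤ 2 ^ (2 * l + 1) * 2 ^ (4 * (2 * l + 1) * finrank F V + finrank F V + 1) := by
  rcases L.eq_empty_or_nonempty with rfl | hL
  · simp
  have : Nonempty L := hL.to_subtype
  have a1 : (1 : ℝ) / 2 ^ l ≤ av fun x : V => av fun f : L => chi (f.1 x) := by
    rw [av_comm, ← av_const (V := L) (1 / 2 ^ l)]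
    exact av_mono fun f => h1 f.1 f.2
  have a2 : (av fun x : V => (av fun f : L => chi (f.1 x)) ^ 2) =
      av fun f : L => av fun g : L => bias (f.1 + g.1) := by
    have : ∀ x : V, (av fun f : L => chi (f.1 x)) ^ 2 =
        av fun f : L => av fun g : L => chi ((f.1 + g.1) x) := fun x => by
      rw [sq, av_mul_av]
      simp only [Pi.add_apply, chi_add]
    rw [funext this, av_comm]
    congr 1
    funext f
    rw [av_comm]
    rfl
  have a3 := (pow_le_pow_left₀ (by positivity) a1 2).trans (sq_av_le _)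
  rw [a2] at a3
  obtain ⟨f, hf⟩ := exists_av_le fun f : L => av fun g : L => bias (f.1 + g.1)
  have a4 : (1 : ℝ) / 2 ^ (2 * l + 1) ≤ dens {g : L | 1 / 2 ^ (2 * l + 1) ≤ bias (f.1 + g.1)} := by
    refine dens_markov (g := fun g : L => bias (f.1 + g.1))
      (fun g => (le_abs_self _).trans (abs_bias_le _)) (by positivity) (le_trans (le_of_eq ?_) (a3.trans hf))
    rw [pow_succ, mul_comm 2 l, pow_mul]
    field_simp
  have a5 : {g : L | 1 / 2 ^ (2 * l + 1) ≤ bias (f.1 + g.1)}.ncard ≤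
      {q : V → F | q ∈ P V 3 ∧ 1 / 2 ^ (2 * l + 1) ≤ bias q}.ncard :=
    Set.ncard_le_ncard_of_injOn (fun g => f.1 + g.1) (fun g hg => ⟨h2 _ f.2 _ g.2, hg⟩)
      (fun _ _ _ _ e => Subtype.ext (add_left_cancel e)) (Set.toFinite _)
  have hc : (0 : ℝ) < Nat.card L := by exact_mod_cast Nat.card_pos
  rw [dens_eq, div_le_div_iff₀ (by positivity) hc, one_mul, Nat.card_coe_set_eq] at a4
  have a6 : L.ncard ≤ {g : L | 1 / 2 ^ (2 * l + 1) ≤ bias (f.1 + g.1)}.ncard * 2 ^ (2 * l + 1) := by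
    exact_mod_cast a4
  rw [mul_comm]
  exact a6.trans (Nat.mul_le_mul_right _ (a5.trans (quad_count _)))

/-- the functions in the coset of `k` modulo quadratics that are biased -/
def Lst (l : ℕ) (k : V → F) : Set (V → F) := {g | g + k ∈ P V 3 ∧ 1 / 2 ^ l ≤ |bias g|}

theorem Lst_le {l : ℕ} (hl : 1 ≤ l) (k : V → F) :
    (Lst l k).ncard ≤ 2 ^ (13 * l * (finrank F V + 1)) := by
  let L : Set (V → F) := {g | g + k ∈ P V 3 ∧ 1 / 2 ^ l ≤ bias g}
  have h1 : L.ncard ≤ _ := johnson (l := l) (fun f hf => hf.2) fun f hf g hg => by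
    have := (P V 3).add_mem hf.1 hg.1
    rwa [add_add_add_comm, add_self_fun, add_zero] at this
  have h2 : Lst l k ⊆ L ∪ (fun g => g + 1) '' L := by
    intro g hg
    rcases le_abs.1 hg.2 with h | h
    · exact Or.inl ⟨hg.1, h⟩
    · refine Or.inr ⟨g + 1, ⟨?_, by rw [bias_add_one]; exact h⟩, ?_⟩
      · rw [add_right_comm]
        exact (P V 3).add_mem hg.1 (P_mono (by norm_num) (mem_P_one.2 ⟨1, rfl⟩))
      · show g + 1 + 1 = g
        rw [add_assoc, add_self_fun, add_zero]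
  have h3 := (Set.ncard_le_ncard h2 (Set.toFinite _)).trans (Set.ncard_union_le _ _)
  have h4 := Set.ncard_image_le (f := fun g : V → F => g + 1) (Set.toFinite L)
  refine le_trans (by omega : _ ≤ 2 ^ 1 * (2 ^ (2 * l + 1) *
    2 ^ (4 * (2 * l + 1) * finrank F V + finrank F V + 1))) ?_
  rw [← pow_add, ← pow_add]
  refine Nat.pow_le_pow_right (by norm_num) ?_
  nlinarith [Nat.mul_le_mul_right (finrank F V) hl]

end

end Pool.Agent.P.MP_cb6780_lc
end

-- part Pool.Agent.P.MP_cb6780_lc.UMain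
section

set_option autoImplicit false
set_option linter.unusedSectionVars false

/-! Cubics that are biased on every affine hyperplane are rare. -/

namespace Pool.Agent.P.MP_cb6780_lc

open Module

section
variable {V : Type} [AddCommGroup V] [Module F V] [Finite V]

theorem gen_family (s : Set V) (h0 : (0 : V) ∈ s) (p : ℕ) : ∀ W : Submodule F V,
    finrank F V ≤ finrank F W + p →
    ∃ v : Fin p → V, (∀ i, v i ∈ s) ∧ ∀ x ∈ s, x ∈ W ⊔ Submodule.span F (Set.range v) := by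
  have : Module.Finite F V := Module.Finite.of_finite
  induction p with
  | zero =>
    intro W hW
    have h1 : W = ⊤ := Submodule.eq_top_of_finrank_eq (le_antisymm (Submodule.finrank_le W) hW)
    exact ⟨fun _ => 0, fun _ => h0, fun x _ => Submodule.mem_sup_left (h1 ▸ Submodule.mem_top)⟩
  | succ p ih =>
    intro W hW
    by_cases h : ∀ x ∈ s, x ∈ W
    · exact ⟨fun _ => 0, fun _ => h0, fun x hx => Submodule.mem_sup_left (h x hx)⟩
    push Not at h
    obtain ⟨e, he, he'⟩ := h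
    obtain ⟨v, h1, h2⟩ := ih (W ⊔ Submodule.span F {e}) (by rw [KT_sup he']; omega)
    refine ⟨Fin.cons e v, fun i => by cases i using Fin.cases <;> simp [he, h1], fun x hx => ?_⟩
    have h3 : (W ⊔ Submodule.span F {e}) ⊔ Submodule.span F (Set.range v) ≤
        W ⊔ Submodule.span F (Set.range (Fin.cons e v : Fin (p + 1) → V)) := by
      rw [Fin.range_cons, sup_assoc, Submodule.span_insert]
    exact h3 (h2 x hx)

/-- the directions of small rank span the space -/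
def Sp (ρ : ℕ) (k : V → F) : Prop := Submodule.span F {x | rk (tf k x) ≤ ρ} = ⊤

/-- biased cubics with `Sp` -/
def Rs (V : Type) [AddCommGroup V] [Module F V] (ρ l : ℕ) : Set (V → F) :=
  {k | k ∈ P V 4 ∧ Sp ρ k ∧ 1 / 2 ^ l ≤ |bias k|}

theorem rk_zero : rk (0 : Bil V) = 0 := by
  rw [rk, LinearMap.range_zero, finrank_bot]

theorem same_tf {l : ℕ} (hl : 1 ≤ l) {S : Set (V → F)} (h1 : ∀ k ∈ S, k ∈ P V 4 ∧ 1 / 2 ^ l ≤ |bias k|)
    (h2 : ∀ k ∈ S, ∀ k' ∈ S, tf k = tf k') : S.ncard ≤ 2 ^ (13 * l * (finrank F V + 1)) := by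
  rcases S.eq_empty_or_nonempty with rfl | ⟨k, hk⟩
  · simp
  refine le_trans (Set.ncard_le_ncard (fun g hg => ?_) (Set.toFinite _)) (Lst_le hl k)
  exact ⟨tf_inj (h1 g hg).1 (h1 k hk).1 (h2 g hg k hk), (h1 g hg).2⟩

theorem Rs_le (ρ : ℕ) {l : ℕ} (hl : 1 ≤ l) :
    (Rs V ρ l).ncard ≤ 2 ^ (3 * ρ * finrank F V ^ 2) * 2 ^ (13 * l * (finrank F V + 1)) := by
  have := @fin_bil V _ _ _
  rcases Nat.eq_zero_or_pos ρ with rfl | hρ
  · have h0 : ∀ k ∈ Rs V 0 l, tf k = 0 := fun k hk =>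
      LinearMap.ext_on hk.2.1 fun x hx => rk_eq_zero (Nat.le_zero.1 hx)
    simpa using same_tf hl (S := Rs V 0 l) (fun k hk => ⟨hk.1, hk.2.2⟩)
      fun k hk k' hk' => (h0 k hk).trans (h0 k' hk').symm
  set w := finrank F V with hw
  have : Nonempty {β : Bil V | rk β ≤ ρ} := ⟨⟨0, by show rk (0 : Bil V) ≤ ρ; rw [rk_zero]; omega⟩⟩
  have h1 := cover_le (Rs V ρ l) (Set.univ : Set ((Fin w → V) × (Fin w → {β : Bil V | rk β ≤ ρ})))
    (fun z => {k | k ∈ Rs V ρ l ∧ Submodule.span F (Set.range z.1) = ⊤ ∧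
      ∀ i, tf k (z.1 i) = (z.2 i).1}) (2 ^ (13 * l * (w + 1))) (fun k hk => by
        obtain ⟨v, a1, a2⟩ := gen_family {x | rk (tf k x) ≤ ρ}
          (by show rk (tf k 0) ≤ ρ; rw [map_zero, rk_zero]; omega) w ⊥ (by omega)
        refine ⟨(v, fun i => ⟨tf k (v i), a1 i⟩), trivial, hk, ?_, fun _ => rfl⟩
        refine top_le_iff.1 (hk.2.1.ge.trans (Submodule.span_le.2 fun x hx => ?_))
        have := a2 x hx
        rwa [bot_sup_eq] at this)
    fun z _ => same_tf hl (fun k hk => ⟨hk.1.1, hk.1.2.2⟩) fun k hk k' hk' =>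
      LinearMap.ext_on_range hk.2.1 fun i => (hk.2.2 i).trans (hk'.2.2 i).symm
  refine h1.trans (Nat.mul_le_mul_right _ ?_)
  rw [Set.ncard_univ, Nat.card_prod, Nat.card_fun, Nat.card_fun, Nat.card_coe_set_eq, card_V,
    Nat.card_eq_fintype_card, Fintype.card_fin]
  refine (Nat.mul_le_mul_left _ (Nat.pow_le_pow_left (low_count ρ) w)).trans ?_
  rw [← pow_mul, ← pow_mul, ← pow_add]
  refine Nat.pow_le_pow_right (by norm_num) ?_
  rw [← hw]
  nlinarith [Nat.mul_le_mul_right (w * w) hρ]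

theorem zero_of_per {W Z : Submodule F V} (h : W ⊔ Z = ⊤) {a : V} {u : V → F} (h1 : Z ≤ Per u)
    (h2 : res W a u = 0) : u = 0 := by
  funext x
  have h3 : x + a ∈ W ⊔ Z := h ▸ Submodule.mem_top
  obtain ⟨w, hw, z, hz, e⟩ := Submodule.mem_sup.1 h3
  have e1 : x = w + a + z := by
    rw [add_right_comm, e, add_assoc, add_self_V, add_zero]
  rw [e1, Quad_per_apply (h1 hz)]
  exact congrFun h2 ⟨w, hw⟩

theorem determined {p : ℕ} {W : Submodule F V} {a₀ : V} {a : Fin p → V}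
    (h : W ⊔ Submodule.span F (Set.range fun i => a i + a₀) = ⊤) {g : V → F}
    (h0 : res W a₀ g = 0) (h1 : ∀ i, res W (a i) g = 0)
    (h2 : ∀ i k, D (a i + a₀) (D (a k + a₀) g) = 0) : g = 0 := by
  refine zero_of_per h (Submodule.span_le.2 ?_) h0
  rintro _ ⟨k, rfl⟩
  refine mem_Per.2 (zero_of_per h (a := a₀) (Submodule.span_le.2 ?_) (funext fun u => ?_))
  · rintro _ ⟨i, rfl⟩
    exact mem_Per.2 (h2 i k)
  · have e1 : (u : V) + a₀ + (a k + a₀) = u + a k := by
      rw [add_comm (a k), add_assoc, ← add_assoc a₀, add_self_V, zero_add]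
    have e2 : g (u + a k) = 0 := congrFun (h1 k) u
    have e3 : g (u + a₀) = 0 := congrFun h0 u
    rw [res_apply, D_apply, e1, e2, e3, add_zero]
    rfl

/-- cubics biased on the cosets through `a₀` and the `a i` -/
def Ss (ρ l : ℕ) {p : ℕ} (W : Submodule F V) (a₀ : V) (a : Fin p → V) : Set (V → F) :=
  {f | f ∈ P V 4 ∧ W ⊔ Submodule.span F (Set.range fun i => a i + a₀) = ⊤ ∧
    res W a₀ f ∈ Rs W ρ l ∧ ∀ i, 1 / 2 ^ l ≤ |bias (res W (a i) f)|}

theorem Ss_le (ρ : ℕ) {l : ℕ} (hl : 1 ≤ l) {p : ℕ} (W : Submodule F V) (a₀ : V) (a : Fin p → V) :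
    (Ss ρ l W a₀ a).ncard ≤ 2 ^ (3 * ρ * finrank F V ^ 2 + 13 * l * (finrank F V + 1) * (p + 1) +
      (finrank F V + 1) * (p * p)) := by
  have : Module.Finite F V := Module.Finite.of_finite
  have hw : finrank F W ≤ finrank F V := Submodule.finrank_le W
  have hL : ∀ k : W → F, (Lst l k).ncard ≤ 2 ^ (13 * l * (finrank F V + 1)) := fun k =>
    (Lst_le hl k).trans (Nat.pow_le_pow_right (by norm_num) (Nat.mul_le_mul_left _ (by omega)))
  have h1 := fib_le (Ss ρ l W a₀ a) (Rs W ρ l) (res W a₀)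
    ((2 ^ (13 * l * (finrank F V + 1))) ^ p * (2 ^ (finrank F V + 1)) ^ (p * p))
    (fun f hf => hf.2.2.1) fun k _ => by
      let Φ : {f | f ∈ Ss ρ l W a₀ a ∧ res W a₀ f = k} →
          (Fin p → Lst l k) × (Fin p × Fin p → P V 2) := fun f =>
        (fun i => ⟨res W (a i) f.1, by
            have e0 := res_add_res f.2.1.1 W (a i) a₀
            rwa [f.2.2] at e0, f.2.1.2.2.2 i⟩,
          fun z => ⟨D (a z.1 + a₀) (D (a z.2 + a₀) f.1), mem_P_succ.1 (mem_P_succ.1 f.2.1.1 _) _⟩)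
      have hΦ : Function.Injective Φ := by
        intro f g e
        obtain ⟨e1, e2⟩ := Prod.ext_iff.1 e
        have e3 : f.1 + g.1 = 0 := determined f.2.1.2.1
          (by rw [map_add, f.2.2, g.2.2, add_self_fun])
          (fun i => by
            have : res W (a i) f.1 = res W (a i) g.1 := congrArg Subtype.val (congrFun e1 i)
            rw [map_add, this, add_self_fun])
          fun i k => by
            have : D (a i + a₀) (D (a k + a₀) f.1) = D (a i + a₀) (D (a k + a₀) g.1) :=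
              congrArg Subtype.val (congrFun e2 (i, k))
            rw [map_add, map_add, this, add_self_fun]
        exact Subtype.ext (KT_add_eq_zero e3).symm
      have h2 := Nat.card_le_card_of_injective Φ hΦ
      have h3 : cP (finrank F V) 2 = 2 ^ (finrank F V + 1) := by
        simp [cP, Finset.sum_range_succ, add_comm]
      rw [Nat.card_coe_set_eq, Nat.card_prod, Nat.card_fun, Nat.card_fun, Nat.card_coe_set_eq,
        card_P, h3, Nat.card_prod, Nat.card_eq_fintype_card, Fintype.card_fin] at h2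
      exact h2.trans (Nat.mul_le_mul_right _ (Nat.pow_le_pow_left (hL k) p))
  have h4 : (Rs W ρ l).ncard ≤ 2 ^ (3 * ρ * finrank F V ^ 2) * 2 ^ (13 * l * (finrank F V + 1)) :=
    (Rs_le ρ hl).trans (Nat.mul_le_mul
      (Nat.pow_le_pow_right (by norm_num) (Nat.mul_le_mul_left _ (Nat.pow_le_pow_left hw 2)))
      (Nat.pow_le_pow_right (by norm_num) (Nat.mul_le_mul_left _ (by omega))))
  refine (h1.trans (Nat.mul_le_mul_right _ h4)).trans (le_of_eq ?_)
  rw [← pow_mul, ← pow_mul, ← pow_add, ← pow_add, ← pow_add]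
  congr 1
  ring

theorem bias_res_sub {W U : Submodule F V} (h : W ≤ U) (b : V) (f : V → F) :
    bias (res U b f) = av fun u : U => bias (res W (u + b) f) := by
  have h1 : (av fun u : U => bias (res W (u + b) f)) =
      av fun w : W => av fun u : U => chi (f (w + (u + b))) := av_comm _
  have h2 : ∀ w : W, (av fun u : U => chi (f (w + (u + b)))) = bias (res U b f) := fun w => by
    rw [← bias_transl (res U b f) ⟨w, h w.2⟩]
    unfold bias
    congr 1
    funext u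
    show chi (f (w + (u + b))) = chi (f (u + w + b))
    rw [← add_assoc, add_comm (w : V)]
  rw [h1, funext h2, av_const]

theorem exists_ker {W : Submodule F V} {p : ℕ} (h : finrank F V ≤ finrank F W + p) :
    ∃ φ : V →ₗ[F] (Fin p → F), LinearMap.ker φ = W := by
  have : Module.Finite F V := Module.Finite.of_finite
  have h1 : finrank F (V ⧸ W) ≤ finrank F (Fin p → F) := by
    have := Submodule.finrank_quotient_add_finrank W
    rw [finrank_fin_fun]
    omega
  obtain ⟨ι, hι⟩ := finrank_le_iff_exists_linearMap.1 h1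
  exact ⟨ι.comp W.mkQ, by
    rw [LinearMap.ker_comp_of_ker_eq_bot _ (LinearMap.ker_eq_bot.2 hι), Submodule.ker_mkQ]⟩

/-- biased cubics that are biased on every affine hyperplane -/
def Rare (V : Type) [AddCommGroup V] [Module F V] (c l : ℕ) : Set (V → F) :=
  {f | f ∈ P V 4 ∧ 1 / 2 ^ (c + 1) ≤ |bias f| ∧
    ∀ ξ : Dual F V, ξ ≠ 0 → ∀ b, 1 / 2 ^ l < |bias (res (LinearMap.ker ξ) b f)|}

theorem exists_W {c : ℕ} (hc : 1 ≤ c) {f : V → F} (hf : f ∈ P V 4) (hb : 1 / 2 ^ (c + 1) ≤ |bias f|) :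
    ∃ W : Submodule F V, finrank F V ≤ finrank F W + 2 ^ 21 * c ∧ ∀ a, Sp (c / 60) (res W a f) := by
  have h1 : (1 : ℝ) / 2 ^ (2 * c + 3) ≤ dens {y | 1 / 2 ^ (2 * c + 3) ≤ bias (D y f)} := by
    refine dens_markov (g := fun y => bias (D y f))
      (fun g => (le_abs_self _).trans (abs_bias_le _)) (by positivity) ?_
    rw [← bias_sq, ← sq_abs]
    refine le_trans (le_of_eq ?_) (pow_le_pow_left₀ (by positivity) hb 2)
    rw [show 2 * c + 3 = (c + 1) * 2 + 1 by ring, pow_succ, pow_mul]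
    field_simp
  obtain ⟨W, s, hs, h2, h3⟩ := compress 18 (tf f) (tf_symm hf) _ (2 * c + 4) (4 * c + 6)
    (le_trans (le_of_eq (by rw [show 2 * c + 4 = 2 * c + 3 + 1 by ring, pow_succ]; field_simp)) h1)
    fun y hy => by
      rw [tf_apply hf]
      exact (rk_le_of_bias (mem_P_succ.1 hf y) hy).trans (by omega)
  refine ⟨W, h2.trans (by omega), fun a => ?_⟩
  subst hs
  refine top_le_iff.1 (Submodule.span_span_coe_preimage.ge.trans (Submodule.span_mono ?_))
  intro x hx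
  have h4 := h3 x hx
  show rk (tf (res (Submodule.span F s) a f) x) ≤ c / 60
  rw [tf_res hf]
  omega

theorem rare_mem {c l : ℕ} (hc : 1 ≤ c) (hl : c + 1 ≤ l) {f : V → F} (hf : f ∈ Rare V c l) :
    ∃ z : (V →ₗ[F] (Fin (2 ^ 21 * c) → F)) × V × (Fin (2 ^ 21 * c) → V),
      f ∈ Ss (c / 60) l (LinearMap.ker z.1) z.2.1 z.2.2 := by
  obtain ⟨hP, hb, hH⟩ := hf
  obtain ⟨W, hW, hS⟩ := exists_W hc hP hb
  obtain ⟨φ, rfl⟩ := exists_ker hW
  set W := LinearMap.ker φ with hWd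
  have hτ : (1 : ℝ) / 2 ^ l ≤ 1 / 2 ^ (c + 1) :=
    one_div_le_one_div_of_le (by positivity) (pow_le_pow_right₀ (by norm_num) hl)
  obtain ⟨a₀, h0⟩ := exists_av_le fun a : V => |bias (res W a f)|
  have h1 : 1 / 2 ^ l ≤ |bias (res W a₀ f)| := by
    rw [bias_eq_av_res W f] at hb
    exact hτ.trans (hb.trans ((abs_av_le _).trans h0))
  obtain ⟨v, a1, a2⟩ := gen_family {x | 1 / 2 ^ l ≤ |bias (res W (x + a₀) f)|}
    (by show _ ≤ |bias (res W (0 + a₀) f)|; rwa [zero_add]) _ W hW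
  have e : (fun i => v i + a₀ + a₀) = v := funext fun i => by rw [add_assoc, add_self_V, add_zero]
  refine ⟨(φ, a₀, fun i => v i + a₀), hP, ?_, ⟨res_mem_P hP _ _, hS a₀, h1⟩, a1⟩
  show W ⊔ Submodule.span F (Set.range fun i => v i + a₀ + a₀) = ⊤
  rw [e]
  by_contra hne
  obtain ⟨ξ, x1, x2⟩ := Submodule.exists_le_ker_of_lt_top _ (lt_top_iff_ne_top.2 hne)
  obtain ⟨y, hy⟩ := exists_eq_one x1
  have h2 := hH ξ x1 (y + a₀)
  rw [bias_res_sub (le_sup_left.trans x2)] at h2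
  refine absurd ((abs_av_le _).trans (av_le_of_le fun u => ?_)) (not_le.2 h2)
  by_contra h3
  have h4 : (u : V) + y ∈ LinearMap.ker ξ := x2 (a2 _ (by
    show _ ≤ |bias (res W (u + y + a₀) f)|
    rw [add_assoc]
    exact (not_le.1 h3).le))
  have h5 : ξ u = 0 := u.2
  rw [LinearMap.mem_ker, map_add, h5, hy, zero_add] at h4
  exact one_ne_zero h4

/-- the main lemma -/
theorem rare_le {c l : ℕ} (hc : 1 ≤ c) (hl : c + 1 ≤ l) :
    (Rare V c l).ncard ≤
      2 ^ (3 * (c / 60) * finrank F V ^ 2 + 2 ^ 43 * (c * l) * (finrank F V + 1)) := by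
  have : Module.Finite F V := Module.Finite.of_finite
  have : Finite (V →ₗ[F] (Fin (2 ^ 21 * c) → F)) := DFunLike.finite _
  have h1 := cover_le (Rare V c l) Set.univ
    (fun z : (V →ₗ[F] (Fin (2 ^ 21 * c) → F)) × V × (Fin (2 ^ 21 * c) → V) =>
      Ss (c / 60) l (LinearMap.ker z.1) z.2.1 z.2.2) _
    (fun f hf => (rare_mem hc hl hf).imp fun z hz => ⟨trivial, hz⟩)
    fun z _ => Ss_le (c / 60) (by omega) _ _ _
  refine h1.trans ?_
  rw [Set.ncard_univ, Nat.card_prod, Nat.card_prod, Nat.card_fun,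
    card_V (V := V →ₗ[F] (Fin (2 ^ 21 * c) → F)), card_V (V := V), Module.finrank_linearMap,
    finrank_fin_fun, Nat.card_eq_fintype_card, Fintype.card_fin, ← pow_mul, ← pow_add, ← pow_add,
    ← pow_add]
  refine Nat.pow_le_pow_right (by norm_num) ?_
  generalize finrank F V = j
  generalize 3 * (c / 60) * j ^ 2 = X
  have a1 : c * c ≤ c * l := Nat.mul_le_mul_left _ (by omega)
  have a2 : c ≤ c * l := Nat.le_mul_of_pos_right _ (by omega)
  have a3 : l ≤ c * l := Nat.le_mul_of_pos_left _ hc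
  have a4 : (2 * (2 ^ 21 * c) + 1) + 13 * l * (2 ^ 21 * c + 1) + 2 ^ 21 * c * (2 ^ 21 * c) ≤
      2 ^ 43 * (c * l) := by nlinarith
  nlinarith [Nat.mul_le_mul_right (j + 1) a4]

end

end Pool.Agent.P.MP_cb6780_lc
end

-- part Pool.Agent.P.MP_cb6780_lc.URec
section

set_option autoImplicit false
set_option linter.unusedSectionVars false

/-! Almost all biased cubics are strongly biased on a flat of the right codimension. -/

namespace Pool.Agent.P.MP_cb6780_lc

open Module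

/-- `f` has bias `≥ θ` on a flat of codimension `c` -/
def Flat {V : Type} [AddCommGroup V] [Module F V] (c : ℕ) (θ : ℝ) (f : V → F) : Prop :=
  ∃ (E : Submodule F V) (a : V), finrank F E + c = finrank F V ∧ θ ≤ bias (res E a f)

/-- the exceptional functions -/
def UBad (V : Type) [AddCommGroup V] [Module F V] (c : ℕ) (θ η : ℝ) : Set (V → F) :=
  {f | f ∈ P V 4 ∧ (θ + c * η) / 2 ^ c ≤ bias f ∧ ¬ Flat c θ f}

section
variable {V : Type} [AddCommGroup V] [Module F V] [Finite V]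

theorem flat_lift {c : ℕ} {θ : ℝ} {H : Submodule F V} (hH : finrank F H + 1 = finrank F V) {a : V}
    {f : V → F} (h : Flat c θ (res H a f)) : Flat (c + 1) θ f := by
  obtain ⟨E, b, h1, h2⟩ := h
  let ε := Submodule.equivMapOfInjective H.subtype H.injective_subtype E
  refine ⟨E.map H.subtype, b + a, by rw [← ε.finrank_eq]; omega, h2.trans (le_of_eq ?_)⟩
  unfold bias
  rw [← av_congr ε.toEquiv]
  congr 1
  funext u
  show chi (f (((u : H) : V) + b + a)) = chi (f (((u : H) : V) + (b + a)))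
  rw [add_assoc]

theorem ubad_zero (θ η : ℝ) : UBad V 0 θ η = ∅ := by
  ext f
  refine ⟨fun h => h.2.2 ⟨⊤, 0, by rw [finrank_top, add_zero], ?_⟩, fun h => h.elim⟩
  have h1 : bias (res ⊤ 0 f) = bias f := by
    unfold bias
    rw [← av_congr (Submodule.topEquiv (R := F) (M := V)).toEquiv]
    congr 1
    funext u
    show chi (f ((u : V) + 0)) = chi (f u)
    rw [add_zero]
  have h2 := h.2.1
  rw [h1]
  simpa using h2

theorem hyp_step {ξ : Dual F V} (hξ : ξ ≠ 0) {b : V} {f : V → F} {τ : ℝ}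
    (h : |bias (res (LinearMap.ker ξ) b f)| ≤ τ) :
    ∃ a, bias f ≤ 1 / 2 * bias (res (LinearMap.ker ξ) a f) + τ := by
  obtain ⟨y, hy⟩ := exists_eq_one hξ
  refine ⟨b + y, ?_⟩
  rw [bias_split (LinearMap.ker ξ) (b + y) f, card_sub _ (finrank_ker_dual hξ), pow_one]
  refine add_le_add le_rfl (av_le_of_le fun x => ?_)
  by_cases hx : x ∈ {x : V | b + y + x ∉ LinearMap.ker ξ}
  · rw [Set.indicator_of_mem hx]
    have h1 : x + b ∈ LinearMap.ker ξ := by
      have h2 : ¬ ξ (b + y + x) = 0 := hx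
      rw [add_right_comm, map_add, hy, add_comm b] at h2
      rcases Av_cases (ξ (x + b)) with h3 | h3
      · exact h3
      · rw [h3] at h2
        exact absurd rfl h2
    rw [bias_res_congr _ h1]
    exact (le_abs_self _).trans h
  · rw [Set.indicator_of_notMem hx]
    exact (abs_nonneg _).trans h

theorem ubad_step {c l : ℕ} {θ η : ℝ} (hθ : 1 / 2 ≤ θ) (hη : 0 ≤ η) (hl : 1 / 2 ^ l ≤ η / 2 ^ (c + 1))
    {f : V → F} (hf : f ∈ UBad V (c + 1) θ η) (hr : f ∉ Rare V (c + 1) l) :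
    ∃ z : Dual F V × V, z.1 ≠ 0 ∧ res (LinearMap.ker z.1) z.2 f ∈ UBad (LinearMap.ker z.1) c θ η := by
  obtain ⟨h1, h2, h3⟩ := hf
  have h4 : 1 / 2 ^ (c + 1 + 1) ≤ |bias f| := by
    refine le_trans ?_ (h2.trans (le_abs_self _))
    rw [pow_succ' _ (c + 1), ← div_div]
    refine div_le_div_of_nonneg_right ?_ (by positivity)
    have : 0 ≤ ((c + 1 : ℕ) : ℝ) * η := by positivity
    linarith
  have h5 : ∃ ξ : Dual F V, ξ ≠ 0 ∧ ∃ b, |bias (res (LinearMap.ker ξ) b f)| ≤ 1 / 2 ^ l := by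
    by_contra hc
    push Not at hc
    exact hr ⟨h1, h4, hc⟩
  obtain ⟨ξ, x1, b, x2⟩ := h5
  obtain ⟨a, ha⟩ := hyp_step x1 (x2.trans hl)
  refine ⟨(ξ, a), x1, res_mem_P h1 _ _, ?_, fun h => h3 (flat_lift (finrank_ker_dual x1) h)⟩
  have e : (θ + ((c + 1 : ℕ) : ℝ) * η) / 2 ^ (c + 1) =
      1 / 2 * ((θ + c * η) / 2 ^ c) + η / 2 ^ (c + 1) := by
    push_cast
    rw [pow_succ]
    field_simp
    ring
  rw [e] at h2
  show _ ≤ bias (res (LinearMap.ker ξ) a f)
  linarith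

end

theorem ubad_le {n c₀ l Y : ℕ} {θ η : ℝ} (hθ : 1 / 2 ≤ θ) (hη : 0 ≤ η) (hl : 1 / 2 ^ l ≤ η / 2 ^ c₀)
    (hl' : c₀ + 1 ≤ l)
    (hY : ∀ c, 1 ≤ c → c ≤ c₀ → 2 ^ (3 * (c / 60) * (n + c) ^ 2 + 2 ^ 43 * (c * l) * (n + c + 1)) *
      2 ^ Y ≤ ∏ i ∈ Finset.range c, cP (n + i) 3) (c : ℕ) :
    c ≤ c₀ → ∀ (V : Type) [AddCommGroup V] [Module F V] [Finite V], finrank F V = n + c →
      (UBad V c θ η).ncard * 2 ^ Y ≤
        2 ^ ((2 * (n + c₀) + 1) * c) * ∏ i ∈ Finset.range c, cP (n + i) 3 := by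
  induction c with
  | zero =>
    intro _ V _ _ _ _
    rw [ubad_zero]
    simp
  | succ c ih =>
    intro hc V _ _ _ hV
    have : Module.Finite F V := Module.Finite.of_finite
    have := @fin_dual V _ _ _
    set X := 2 ^ ((2 * (n + c₀) + 1) * c) * ∏ i ∈ Finset.range c, cP (n + i) 3 with hX
    have hl2 : 1 / 2 ^ l ≤ η / 2 ^ (c + 1) :=
      hl.trans (div_le_div_of_nonneg_left hη (by positivity) (pow_le_pow_right₀ (by norm_num) hc))
    have h1 := cover_le (UBad V (c + 1) θ η \ Rare V (c + 1) l) (Set.univ : Set (Dual F V × V))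
      (fun z => {f | z.1 ≠ 0 ∧ f ∈ P V 4 ∧
        res (LinearMap.ker z.1) z.2 f ∈ UBad (LinearMap.ker z.1) c θ η})
      (X / 2 ^ Y * cP (n + c) 3)
      (fun f hf => (ubad_step hθ hη hl2 hf.1 hf.2).imp fun z hz => ⟨trivial, hz.1, hf.1.1, hz.2⟩)
      fun z _ => by
        by_cases hz : z.1 = 0
        · simp [hz]
        have a1 : finrank F (LinearMap.ker z.1) = n + c := by
          have := finrank_ker_dual hz
          omega
        have a2 := ncard_res_pre (LinearMap.ker z.1) z.2 4 (UBad (LinearMap.ker z.1) c θ η)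
        have a3 : {g | g ∈ P (LinearMap.ker z.1) 4 ∧ g ∈ UBad (LinearMap.ker z.1) c θ η} =
            UBad (LinearMap.ker z.1) c θ η := by
          ext g
          exact ⟨fun h => h.2, fun h => ⟨h.1, h⟩⟩
        rw [a1, hV, a3, ← add_assoc, cP_succ (n + c) 3, mul_comm (cP (n + c) 4), ← mul_assoc] at a2
        have a4 := Nat.eq_of_mul_eq_mul_right (cP_pos _ _) a2
        simp only [ne_eq, hz, not_false_eq_true, true_and]
        rw [a4]
        exact Nat.mul_le_mul_right _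
          ((Nat.le_div_iff_mul_le (by positivity)).2 (ih (by omega) _ a1))
    rw [Set.ncard_univ, Nat.card_prod, card_V (V := Dual F V), card_V (V := V),
      Subspace.dual_finrank_eq, hV, ← pow_add] at h1
    have h2 : (UBad V (c + 1) θ η).ncard ≤
        (Rare V (c + 1) l).ncard + (UBad V (c + 1) θ η \ Rare V (c + 1) l).ncard := by
      refine le_trans (Set.ncard_le_ncard ?_ (Set.toFinite _)) (Set.ncard_union_le _ _)
      intro f hf
      by_cases h : f ∈ Rare V (c + 1) l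
      · exact Or.inl h
      · exact Or.inr ⟨hf, h⟩
    have h3 := rare_le (V := V) (c := c + 1) (l := l) (by omega) (by omega)
    rw [hV] at h3
    have h4 := (Nat.mul_le_mul_right (2 ^ Y) h3).trans (hY (c + 1) (by omega) hc)
    have h5 : (UBad V (c + 1) θ η \ Rare V (c + 1) l).ncard * 2 ^ Y ≤
        2 ^ (2 * (n + c₀)) * (X * cP (n + c) 3) := by
      refine (Nat.mul_le_mul_right _ h1).trans ?_
      rw [mul_assoc, mul_right_comm (X / 2 ^ Y)]
      exact Nat.mul_le_mul (Nat.pow_le_pow_right (by norm_num) (by omega))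
        (Nat.mul_le_mul_right _ (Nat.div_mul_le_self _ _))
    rw [hX, mul_assoc, ← Finset.prod_range_succ (fun i => cP (n + i) 3), ← mul_assoc, ← pow_add] at h5
    have h6 : 2 ^ ((2 * (n + c₀) + 1) * (c + 1)) =
        2 * 2 ^ (2 * (n + c₀) + (2 * (n + c₀) + 1) * c) := by
      rw [← pow_succ']
      congr 1
      ring
    have h7 := Nat.le_mul_of_pos_left (∏ i ∈ Finset.range (c + 1), cP (n + i) 3)
      (show 0 < 2 ^ (2 * (n + c₀) + (2 * (n + c₀) + 1) * c) by positivity)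
    have h8 := Nat.mul_le_mul_right (2 ^ Y) h2
    rw [add_mul] at h8
    rw [h6, mul_assoc, two_mul]
    omega

section
variable {V : Type} [AddCommGroup V] [Module F V] [Finite V]

theorem up_uni {n c : ℕ} (hV : finrank F V = n + c) (θ η : ℝ) :
    2 ^ n * N V 4 ((θ + c * η) / 2 ^ c) ≤ (Tri V c 4 θ).ncard + 2 ^ n * (UBad V c θ η).ncard := by
  classical
  have := @ul_finsub V _ _ _
  have := Fintype.ofFinite (V → F)
  rw [ul_fiber (Tri V c 4 θ) (fun z => z.2.2), N, mul_comm, mul_comm (2 ^ n),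
    ← ul_ite, ← ul_ite, ← Finset.sum_add_distrib]
  refine Finset.sum_le_sum fun f _ => ?_
  by_cases hf : f ∈ {f : V → F | f ∈ P V 4 ∧ (θ + c * η) / 2 ^ c ≤ bias f}
  swap
  · rw [if_neg hf]
    exact Nat.zero_le _
  rw [if_pos hf]
  by_cases hb : f ∈ UBad V c θ η
  · rw [if_pos hb]
    exact Nat.le_add_left _ _
  rw [if_neg hb, add_zero]
  obtain ⟨hP, hfb⟩ := hf
  obtain ⟨E, a, hE, ha⟩ : Flat c θ f := by
    by_contra h
    exact hb ⟨hP, hfb, h⟩
  rw [← ul_card_sub hV hE, ← Set.ncard_univ]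
  refine Set.ncard_le_ncard_of_injOn (fun u : E => (E, a + u.1, f)) ?_ ?_ (Set.toFinite _)
  · intro u _
    refine ⟨⟨hE, hP, ?_⟩, rfl⟩
    have h1 : a + (a + u.1) ∈ E := by
      rw [← add_assoc, add_self_V, zero_add]
      exact u.2
    exact ha.trans (bias_res_congr _ h1 f).le
  · intro u _ v _ h
    exact Subtype.ext (add_left_cancel (Prod.ext_iff.1 (Prod.ext_iff.1 h).2).1)

end

end Pool.Agent.P.MP_cb6780_lc
end

-- part Pool.Agent.P.MP_cb6780_lc.UUniq
section

set_option autoImplicit false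
set_option linter.unusedSectionVars false

/-! The flat is almost always unique. -/

namespace Pool.Agent.P.MP_cb6780_lc

open Module

section
variable {V : Type} [AddCommGroup V] [Module F V] [Finite V]

theorem exists_point {E E' : Submodule F V} (h : finrank F E = finrank F E') {a a' : V}
    (hne : ¬ (E = E' ∧ a + a' ∈ E)) : ∃ x, x + a' ∈ E' ∧ x + a ∉ E := by
  have : Module.Finite F V := Module.Finite.of_finite
  by_contra hc
  push Not at hc
  have h1 : a' + a ∈ E := hc a' (by rw [add_self_V]; exact E'.zero_mem)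
  have h2 : E' ≤ E := fun x hx => by
    have h3 := hc (x + a') (by rwa [add_assoc, add_self_V, add_zero])
    rw [add_assoc] at h3
    exact (Submodule.add_mem_iff_left _ h1).1 h3
  exact hne ⟨(Submodule.eq_of_le_of_finrank_le h2 h.le).symm, by rwa [add_comm]⟩

theorem pair_le {n : ℕ} {E E' : Submodule F V} (hE : finrank F E = n + 1) (hE' : finrank F E' = n + 1)
    {a a' : V} (hne : ¬ (E = E' ∧ a + a' ∈ E)) (A : Set (E → F)) (A' : Set (E' → F)) :
    {f | (f ∈ P V 4 ∧ res E a f ∈ A) ∧ res E' a' f ∈ A'}.ncard * cP n 3 ≤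
      {f | f ∈ P V 4 ∧ res E a f ∈ A}.ncard * A'.ncard := by
  have : Module.Finite F V := Module.Finite.of_finite
  obtain ⟨x₀, x1, x2⟩ := exists_point (hE.trans hE'.symm) hne
  obtain ⟨ξ, h1, h2⟩ := Submodule.exists_dual_map_eq_bot_of_notMem x2 inferInstance
  have h3 : ∀ u ∈ E, ξ u = 0 := fun u hu => by
    have : ξ u ∈ E.map ξ := Submodule.mem_map_of_mem hu
    rw [h2] at this
    exact this
  have h4 : ξ (x₀ + a) = 1 := (Av_cases _).resolve_left h1
  set Z := E' ⊓ LinearMap.ker ξ with hZ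
  have h5 : n ≤ finrank F Z := by
    have b1 := Submodule.finrank_sup_add_finrank_inf_eq E' (LinearMap.ker ξ)
    have b2 := Submodule.finrank_le (E' ⊔ LinearMap.ker ξ)
    have b3 : ξ ≠ 0 := fun h => h1 (by rw [h]; rfl)
    have b4 := finrank_ker_dual b3
    rw [← hZ] at b1
    omega
  have h6 : ∀ q : P Z 3, ∃ k ∈ P V 4, res E a k = 0 ∧ res Z x₀ k = q.1 := fun q => by
    obtain ⟨r, r1, r2⟩ := res_surj Z x₀ q.2
    refine ⟨(fun x => ξ x + ξ a) * r, mul_mem_P (d := 1) (e := 2) (mem_P_two.2 ⟨ξ, _, rfl⟩) r1,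
      funext fun u => ?_, funext fun u => ?_⟩
    · rw [res_apply, Pi.mul_apply, ← map_add, add_assoc, add_self_V, add_zero, h3 _ u.2, zero_mul]
      rfl
    · have b1 : ξ u = 0 := u.2.2
      rw [res_apply, Pi.mul_apply, ← map_add, add_assoc, map_add, b1, h4, zero_add, one_mul, ← r2]
      rfl
  choose k k1 k2 k3 using h6
  let Ψ : {f | (f ∈ P V 4 ∧ res E a f ∈ A) ∧ res E' a' f ∈ A'} × P Z 3 →
      {f | f ∈ P V 4 ∧ res E a f ∈ A} × A' := fun z =>
    (⟨z.1.1 + k z.2, (P V 4).add_mem z.1.2.1.1 (k1 _), by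
      rw [map_add, k2, add_zero]; exact z.1.2.1.2⟩, ⟨res E' a' z.1.1, z.1.2.2⟩)
  have hΨ : Function.Injective Ψ := by
    rintro ⟨f, q⟩ ⟨g, r⟩ e
    obtain ⟨e1, e2⟩ := Prod.ext_iff.1 e
    have e3 : f.1 + k q = g.1 + k r := congrArg Subtype.val e1
    have e4 : res E' a' f.1 = res E' a' g.1 := congrArg Subtype.val e2
    have e5 : res Z x₀ f.1 = res Z x₀ g.1 := funext fun u => by
      have := congrFun e4 ⟨u + (x₀ + a'), E'.add_mem u.2.1 x1⟩
      simp only [res_apply, add_assoc, add_self_V, add_zero] at this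
      exact this
    have e6 := congrArg (res Z x₀) e3
    rw [map_add, map_add, k3, k3, e5] at e6
    have e7 : q = r := Subtype.ext (add_left_cancel e6)
    subst e7
    exact Prod.ext (Subtype.ext (add_right_cancel e3)) rfl
  have h7 := Nat.card_le_card_of_injective Ψ hΨ
  rw [Nat.card_prod, Nat.card_prod, Nat.card_coe_set_eq, Nat.card_coe_set_eq, Nat.card_coe_set_eq,
    card_P] at h7
  obtain ⟨i, hi⟩ := Nat.exists_eq_add_of_le h5
  rw [hi] at h7
  exact (Nat.mul_le_mul_left _ (Reduce_cP_mono n i)).trans h7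

/-- the function of the triple has a second flat -/
def Two (c : ℕ) (θ : ℝ) (z : Submodule F V × V × (V → F)) : Prop :=
  ∃ w ∈ ulPairs V c, θ ≤ bias (res w.1 w.2 z.2.2) ∧ ¬ (z.1 = w.1 ∧ z.2.1 + w.2 ∈ z.1)

theorem two_le {n c : ℕ} (hV : finrank F V = n + 1 + c) (θ : ℝ) :
    {z | z ∈ Tri V c 4 θ ∧ Two c θ z}.ncard * cP n 3 ≤
      (Tri V c 4 θ).ncard * (G V c * 2 ^ (n + 1 + c) * Nn (n + 1) 4 θ) := by
  classical
  have := @ul_finsub V _ _ _
  have := Fintype.ofFinite (Submodule F V × V)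
  rw [ul_fiber (Tri V c 4 θ) (fun z => (z.1, z.2.1)),
    ul_fiber {z | z ∈ Tri V c 4 θ ∧ Two c θ z} (fun z => (z.1, z.2.1)), Finset.sum_mul,
    Finset.sum_mul]
  refine Finset.sum_le_sum fun w _ => ?_
  rw [ul_fib_eq, ul_fib_eq]
  by_cases hw : w ∈ ulPairs V c
  swap
  · have h3 : {f | (w.1, w.2, f) ∈ {z | z ∈ Tri V c 4 θ ∧ Two c θ z}} = ∅ := by
      ext f
      exact ⟨fun h => hw h.1.1, fun h => h.elim⟩
    rw [h3, Set.ncard_empty, zero_mul]
    exact Nat.zero_le _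
  have hw' : finrank F w.1 + c = finrank F V := hw
  have h3 : {f | (w.1, w.2, f) ∈ Tri V c 4 θ} = {f | f ∈ P V 4 ∧ res w.1 w.2 f ∈ {g | θ ≤ bias g}} := by
    ext f
    exact ⟨fun h => h.2, fun h => ⟨hw', h⟩⟩
  rw [h3]
  set S := {f | f ∈ P V 4 ∧ res w.1 w.2 f ∈ {g | θ ≤ bias g}} with hS
  have h4 := cover_le {f | (w.1, w.2, f) ∈ {z | z ∈ Tri V c 4 θ ∧ Two c θ z}} (ulPairs V c)
    (fun w' => {f | ¬ (w.1 = w'.1 ∧ w.2 + w'.2 ∈ w.1) ∧ f ∈ S ∧
      res w'.1 w'.2 f ∈ {g | g ∈ P w'.1 4 ∧ θ ≤ bias g}})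
    (S.ncard * Nn (n + 1) 4 θ / cP n 3)
    (fun f hf => by
      obtain ⟨w', a1, a2, a3⟩ := hf.2
      exact ⟨w', a1, a3, hf.1.2, res_mem_P hf.1.2.1 _ _, a2⟩)
    fun w' hw2 => by
      have hw3 : finrank F w'.1 + c = finrank F V := hw2
      by_cases hne : w.1 = w'.1 ∧ w.2 + w'.2 ∈ w.1
      · refine le_trans (le_of_eq ((Set.ncard_eq_zero (Set.toFinite _)).2 ?_)) (Nat.zero_le _)
        ext f
        exact ⟨fun h => h.1 hne, fun h => h.elim⟩
      have b1 : finrank F w'.1 = n + 1 := by omega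
      have b2 := pair_le (n := n) (by omega) b1 hne {g | θ ≤ bias g} {g | g ∈ P w'.1 4 ∧ θ ≤ bias g}
      have b3 := N_eq (V := w'.1) 4 θ
      rw [b1] at b3
      rw [Nat.le_div_iff_mul_le (cP_pos _ _), ← b3]
      simp only [hne, not_false_eq_true, true_and]
      exact b2
  rw [ul_pairs hV] at h4
  refine (Nat.mul_le_mul_right _ h4).trans ?_
  rw [mul_assoc, mul_left_comm S.ncard]
  exact Nat.mul_le_mul_left _ (Nat.div_mul_le_self _ _)

theorem low_uni {n c : ℕ} (hV : finrank F V = n + c) (θ ε : ℝ) :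
    {z | z ∈ Tri V c 4 θ ∧ ε ≤ bias z.2.2}.ncard ≤
      N V 4 ε * 2 ^ n + {z | z ∈ Tri V c 4 θ ∧ Two c θ z}.ncard := by
  have := @ul_finsub V _ _ _
  have h1 := fib_le {z | (z ∈ Tri V c 4 θ ∧ ε ≤ bias z.2.2) ∧ ¬ Two c θ z}
    {f : V → F | f ∈ P V 4 ∧ ε ≤ bias f} (fun z => z.2.2) (2 ^ n)
    (fun z hz => ⟨hz.1.1.2.1, hz.1.2⟩) fun f _ => by
      rcases Set.eq_empty_or_nonempty {x | x ∈ {z | (z ∈ Tri V c 4 θ ∧ ε ≤ bias z.2.2) ∧ ¬ Two c θ z} ∧
        x.2.2 = f} with h0 | ⟨z₀, hz₀⟩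
      · rw [h0, Set.ncard_empty]
        exact Nat.zero_le _
      have key : ∀ z ∈ {x | x ∈ {z | (z ∈ Tri V c 4 θ ∧ ε ≤ bias z.2.2) ∧ ¬ Two c θ z} ∧ x.2.2 = f},
          z₀.1 = z.1 ∧ z₀.2.1 + z.2.1 ∈ z₀.1 := fun z hz => by
        by_contra hc
        refine hz₀.1.2 ⟨(z.1, z.2.1), hz.1.1.1.1, ?_, hc⟩
        rw [hz₀.2, ← hz.2]
        exact hz.1.1.1.2.2
      rw [← ul_card_sub hV hz₀.1.1.1.1,
        show Nat.card z₀.1 = (z₀.1 : Set V).ncard from Nat.card_coe_set_eq (z₀.1 : Set V)]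
      refine Set.ncard_le_ncard_of_injOn (fun z => z₀.2.1 + z.2.1) (fun z hz => (key z hz).2) ?_
        (Set.toFinite _)
      intro z hz z' hz' h
      exact Prod.ext ((key z hz).1.symm.trans (key z' hz').1)
        (Prod.ext (add_left_cancel h) (hz.2.trans hz'.2.symm))
  refine le_trans (le_trans (Set.ncard_le_ncard ?_ (Set.toFinite _)) (Set.ncard_union_le _ _))
    (Nat.add_le_add_right h1 _)
  intro z hz
  by_cases h : Two c θ z
  · exact Or.inr ⟨hz.1, h⟩
  · exact Or.inl ⟨hz, h⟩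

end

end Pool.Agent.P.MP_cb6780_lc
end

-- part Pool.Agent.P.MP_cb6780_lc.UFin
section

set_option autoImplicit false

/-! Assembly of the uniform asymptotic formula. -/

namespace Pool.Agent.P.MP_cb6780_lc

open Module

theorem sq_le_choose (n : ℕ) : n * n ≤ 2 * (n + 1 + n.choose 2) := by
  induction n with
  | zero => simp
  | succ n ih =>
    rw [Nat.choose_succ_succ' n 1, Nat.choose_one_right]
    nlinarith

theorem arith1 {n c s t k : ℕ} (hc : 2 ^ 50 * c ≤ n) (hs : 2 ^ 50 * s ≤ n) (hs1 : 1 ≤ s) (ht : t ≤ n)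
    (hk : 1 ≤ k) (hkc : k ≤ c) :
    3 * (k / 60) * (n + k) ^ 2 + 2 ^ 43 * (k * (s + 2 * c + 1)) * (n + k + 1) +
      ((2 * (n + c) + 1) * c + t) ≤ (n + 1 + n.choose 2) * k := by
  have hn : 2 ^ 50 ≤ n := by omega
  have a1 : 5 * (3 * (k / 60) * (n + k) ^ 2) ≤ k * (n * n) := by
    calc 5 * (3 * (k / 60) * (n + k) ^ 2) ≤ 5 * (3 * (k / 60) * (2 * n) ^ 2) := by
          gcongr
          omega
      _ = 60 * (k / 60) * (n * n) := by ring
      _ ≤ _ := Nat.mul_le_mul_right _ (by omega)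
  have a2 : 128 * (2 ^ 43 * (k * (s + 2 * c + 1)) * (n + k + 1)) ≤ 12 * (k * (n * n)) := by
    calc 128 * (2 ^ 43 * (k * (s + 2 * c + 1)) * (n + k + 1))
        = k * ((2 ^ 50 * (s + 2 * c + 1)) * (n + k + 1)) := by ring
      _ ≤ k * ((4 * n) * (3 * n)) :=
          Nat.mul_le_mul_left _ (Nat.mul_le_mul (by omega) (by omega))
      _ = _ := by ring
  have a3 : 100 * ((2 * (n + c) + 1) * c + t) ≤ n * n := by
    have b1 : (2 * (n + c) + 1) * (1000 * c) ≤ 5 * n * n := Nat.mul_le_mul (by omega) (by omega)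
    have b2 : 1000 * t ≤ n * n := Nat.mul_le_mul (by omega) ht
    nlinarith
  have a4 : n * n ≤ k * (n * n) := Nat.le_mul_of_pos_left _ hk
  have a5 : k * (n * n) ≤ 2 * ((n + 1 + n.choose 2) * k) := by
    have := Nat.mul_le_mul_left k (sq_le_choose n)
    nlinarith
  omega

theorem arith2 {n c h t : ℕ} (hc : 2 ^ 50 * c ≤ n + 1) (hh : 2 ^ 50 * h ≤ n + 1) (hn : 2 ^ 50 ≤ n + 1)
    (ht : t ≤ n + 1) :
    c * (n + 1 + 1) + (n + 1 + c) + ((2 * h + 1) * (n + 1) + 2) + t ≤ n + 1 + n.choose 2 := by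
  have a1 : 100 * c * (n + 1 + 1) ≤ n * (2 * n) := Nat.mul_le_mul (by omega) (by omega)
  have a2 : 100 * (2 * h + 1) * (n + 1) ≤ n * (2 * n) := Nat.mul_le_mul (by omega) (by omega)
  have a3 : 1000 * n ≤ n * n := Nat.mul_le_mul_right _ (by omega)
  have a4 := sq_le_choose n
  nlinarith

theorem Mult_nonneg (n c : ℕ) : 0 ≤ Mult n c := (Reduce_prod_pos n c).le.trans (Reduce_prod_le n c)

theorem uni_up {n c s t : ℕ} (hc : 2 ^ 50 * c ≤ n) (hs : 2 ^ 50 * s ≤ n) (hs1 : 1 ≤ s) (ht : t ≤ n)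
    {θ : ℝ} (h1 : 1 / 2 ≤ θ) (h2 : θ ≤ 1) :
    (Nn (n + c) 4 ((θ + c * (1 / 2 ^ (s + c))) / 2 ^ c) : ℝ) ≤
      (1 + 1 / 2 ^ t) * (Mult n c * Nn n 4 θ) := by
  have a1 := ubad_le (n := n) (c₀ := c) (l := s + 2 * c + 1) (Y := (2 * (n + c) + 1) * c + t)
    (η := 1 / 2 ^ (s + c)) h1 (by positivity)
    (by rw [div_div, ← pow_add]; exact inv_pow_le (by omega)) (by omega)
    (fun k k1 k2 => by
      refine le_trans ?_ (Reduce_prod_ge n k)
      rw [Reduce_cP_three, ← pow_mul, ← pow_add]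
      exact Nat.pow_le_pow_right (by norm_num) (arith1 hc hs hs1 ht k1 k2))
    c le_rfl (Fin (n + c) → F) (Reduce_finrank _)
  rw [pow_add 2 ((2 * (n + c) + 1) * c) t, mul_left_comm] at a1
  have a2 := Nat.le_of_mul_le_mul_left a1 (by positivity)
  have a3 : ((UBad (Fin (n + c) → F) c θ (1 / 2 ^ (s + c))).ncard : ℝ) * 2 ^ t ≤
      ∏ i ∈ Finset.range c, (cP (n + i) 3 : ℝ) := by exact_mod_cast a2
  have a4 := up_uni (V := Fin (n + c) → F) (n := n) (c := c) (Reduce_finrank _) θ (1 / 2 ^ (s + c))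
  have a5 : (2 : ℝ) ^ n * Nn (n + c) 4 ((θ + c * (1 / 2 ^ (s + c))) / 2 ^ c) ≤
      (Tri (Fin (n + c) → F) c 4 θ).ncard +
        2 ^ n * (UBad (Fin (n + c) → F) c θ (1 / 2 ^ (s + c))).ncard := by exact_mod_cast a4
  rw [Reduce_tri, ← mul_add] at a5
  have a6 := le_of_mul_le_mul_left a5 (by positivity)
  have a7 : ∏ i ∈ Finset.range c, (cP (n + i) 3 : ℝ) ≤ Mult n c * Nn n 4 θ :=
    (Reduce_prod_le n c).trans (le_mul_of_one_le_right (Mult_nonneg n c) (Reduce_one_le_Nn n h2))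
  have a8 := a3.trans a7
  rw [← le_div_iff₀ (by positivity)] at a8
  rw [add_mul, one_mul, one_div_mul_eq_div]
  linarith

theorem uni_low {n c s h t : ℕ} (hc : 2 ^ 50 * c ≤ n) (hh : 2 ^ 50 * h ≤ n) (hn : 2 ^ 50 ≤ n)
    (ht : t + 2 * (s + c) ≤ n) {ε γ : ℝ} (hγ : 1 / 2 ^ (s + c) ≤ γ)
    (hN : (Nn n 4 (2 ^ c * (ε + γ)) : ℝ) ≤ 2 ^ ((2 * h + 1) * n + 2)) :
    (1 - 2 * (1 / 2 ^ t)) * (Mult n c * Nn n 4 (2 ^ c * (ε + γ))) ≤ Nn (n + c) 4 ε := by
  obtain ⟨m, rfl⟩ : ∃ m, n = m + 1 := ⟨n - 1, by omega⟩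
  have hγ0 : 0 < γ := lt_of_lt_of_le (by positivity) hγ
  have a1 := low_aux1 (V := Fin (m + 1 + c) → F) (n := m + 1) (c := c) (e := 4) (ε := ε)
    (Reduce_finrank _) (by norm_num) hγ0
  set θ := 2 ^ c * (ε + γ) with hθ
  have a2 := low_uni (V := Fin (m + 1 + c) → F) (n := m + 1) (c := c) (Reduce_finrank _) θ ε
  have a3 := two_le (V := Fin (m + 1 + c) → F) (n := m) (c := c) (Reduce_finrank _) θ
  have a2' : (({z | z ∈ Tri (Fin (m + 1 + c) → F) c 4 θ ∧ ε ≤ bias z.2.2}.ncard : ℕ) : ℝ) ≤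
      Nn (m + 1 + c) 4 ε * 2 ^ (m + 1) +
        ({z | z ∈ Tri (Fin (m + 1 + c) → F) c 4 θ ∧ Two c θ z}.ncard : ℕ) := by exact_mod_cast a2
  have a3' : (({z | z ∈ Tri (Fin (m + 1 + c) → F) c 4 θ ∧ Two c θ z}.ncard : ℕ) : ℝ) * cP m 3 ≤
      (Tri (Fin (m + 1 + c) → F) c 4 θ).ncard *
        (G (Fin (m + 1 + c) → F) c * 2 ^ (m + 1 + c) * Nn (m + 1) 4 θ) := by exact_mod_cast a3
  have a4 : (G (Fin (m + 1 + c) → F) c : ℝ) * 2 ^ (m + 1 + c) * Nn (m + 1) 4 θ ≤
      1 / 2 ^ t * cP m 3 := by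
    have b1 := G_crude (Fin (m + 1 + c) → F) (n := m + 1) (c := c) (Reduce_finrank _)
    rw [one_div_mul_eq_div, le_div_iff₀ (by positivity), Reduce_cP_three]
    push_cast
    calc (G (Fin (m + 1 + c) → F) c : ℝ) * 2 ^ (m + 1 + c) * Nn (m + 1) 4 θ * 2 ^ t
        ≤ 2 ^ (c * (m + 1 + 1)) * 2 ^ (m + 1 + c) * 2 ^ ((2 * h + 1) * (m + 1) + 2) * 2 ^ t := by
          gcongr
      _ ≤ _ := by
          rw [← pow_add, ← pow_add, ← pow_add]
          exact pow_le_pow_right₀ (by norm_num) (arith2 hc hh hn (by omega))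
  have p0 : (0 : ℝ) < cP m 3 := by exact_mod_cast cP_pos _ _
  have a5 := a3'.trans (mul_le_mul_of_nonneg_left a4 (Nat.cast_nonneg _))
  rw [← mul_assoc] at a5
  have a6 := le_of_mul_le_mul_right a5 p0
  have a7 : (1 : ℝ) / (γ ^ 2 * 2 ^ (m + 1)) ≤ 1 / 2 ^ t := by
    refine one_div_le_one_div_of_le (by positivity) ?_
    calc (2 : ℝ) ^ t = (1 / 2 ^ (s + c)) ^ 2 * 2 ^ (t + 2 * (s + c)) := by
          rw [pow_add _ t, mul_comm 2 (s + c), pow_mul]
          field_simp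
      _ ≤ _ := by
          gcongr
          norm_num
  have a8 := a1.trans a2'
  rw [Reduce_tri] at a6 a8
  have hX : 0 ≤ Mult (m + 1) c * Nn (m + 1) 4 θ := mul_nonneg (Mult_nonneg _ _) (Nat.cast_nonneg _)
  have hY : (0 : ℝ) ≤ 2 ^ (m + 1) * (Mult (m + 1) c * Nn (m + 1) 4 θ) := by positivity
  refine le_of_mul_le_mul_left ?_ (show (0 : ℝ) < 2 ^ (m + 1) by positivity)
  have a9 := mul_le_mul_of_nonneg_right a7 hY
  rw [← mul_left_comm, mul_comm (2 ^ (m + 1) : ℝ) (Nn (m + 1 + c) 4 ε : ℝ)]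
  generalize (2 : ℝ) ^ (m + 1) * (Mult (m + 1) c * Nn (m + 1) 4 θ) = Y at *
  generalize (1 : ℝ) / (γ ^ 2 * 2 ^ (m + 1)) = u at *
  generalize (1 : ℝ) / 2 ^ t = x at *
  linarith

theorem uni_nat {n c h s t : ℕ} (hc : 2 ^ 50 * c ≤ n) (hs : 2 ^ 50 * s ≤ n) (ht : 3 * t ≤ 2 * n)
    (ht2 : 2 ≤ t) {ε : ℝ} (h1 : (1 + 1 / 2 ^ (h + 1)) / 2 + 1 / 2 ^ s ≤ 2 ^ c * ε)
    (h2 : 2 ^ c * ε ≤ (1 + 1 / 2 ^ h) / 2 - 1 / 2 ^ s) :
    |(Nn (n + c) 4 ε : ℝ) /
      (2 ^ (c * (n + 1) + ∑ i ∈ Finset.range c, (1 + (n + i) + (n + i).choose 2)) / ps 0 c * Kh h n) -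
        1| ≤ 4 * (1 / 2 ^ t) := by
  have p1 : (0 : ℝ) < 1 / 2 ^ (h + 1) := by positivity
  have p2 : (1 : ℝ) / 2 ^ h = 2 * (1 / 2 ^ (h + 1)) := by rw [pow_succ]; field_simp
  have p3 : (1 : ℝ) / 2 ^ h ≤ 1 := by simpa using inv_pow_le (Nat.zero_le h)
  have p4 : (0 : ℝ) < 1 / 2 ^ s := by positivity
  have hhs : h + 1 < s := by
    by_contra hcon
    have := inv_pow_le (not_lt.1 hcon)
    linarith
  have hn : 2 ^ 50 ≤ n := by omega
  have c0 : (0 : ℝ) < 2 ^ c := by positivity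
  have c1 : (c : ℝ) * (1 / 2 ^ (s + c)) < 1 / 2 ^ s := by
    have : (c : ℝ) < 2 ^ c := by exact_mod_cast Nat.lt_two_pow_self
    rw [pow_add, ← div_div, mul_div_left_comm]
    exact mul_lt_of_lt_one_right p4 ((div_lt_one c0).2 this)
  have c2 : 0 ≤ (c : ℝ) * (1 / 2 ^ (s + c)) := by positivity
  have u1 := uni_up (t := t) hc hs (by omega) (by omega) (θ := 2 ^ c * ε - c * (1 / 2 ^ (s + c)))
    (by linarith) (by linarith)
  rw [sub_add_cancel, mul_div_cancel_left₀ _ c0.ne'] at u1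
  have u2 := (K_uni (h := h) (n := n) (t := t) (by omega) (θ := 2 ^ c * ε - c * (1 / 2 ^ (s + c)))
    (by linarith) (by linarith)).2
  have v0 := K_uni (h := h) (n := n) (t := t) (by omega) (θ := (1 + 1 / 2 ^ h) / 2) (by linarith) le_rfl
  have e1 : 2 ^ c * (ε + ((1 + 1 / 2 ^ h) / 2 / 2 ^ c - ε)) = (1 + 1 / 2 ^ h) / 2 := by
    rw [add_sub_cancel, mul_div_cancel₀ _ c0.ne']
  have x0 : (0 : ℝ) < 1 / 2 ^ t := by positivity
  have x1 : (1 : ℝ) / 2 ^ t ≤ 1 / 2 ^ 2 := inv_pow_le ht2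
  have K0 := Kh_pos h n
  have v1 := uni_low (s := s) (h := h) (t := t) hc (by omega) hn (by omega) (ε := ε)
    (γ := (1 + 1 / 2 ^ h) / 2 / 2 ^ c - ε)
    (by
      rw [pow_add, ← div_div, le_sub_iff_add_le, le_div_iff₀ c0, add_mul, div_mul_cancel₀ _ c0.ne']
      linarith)
    (by
      rw [e1, show (2 * h + 1) * n + 2 = (2 * h + 1) * n + 1 + 1 from rfl, pow_succ']
      exact v0.2.trans (mul_le_mul (by linarith) (Kh_le h n) K0.le (by norm_num)))
  rw [e1] at v1
  have g1 := G_up (Fin (n + c) → F) (Reduce_finrank _)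
  have g2 := G_low (Fin (n + c) → F) (Reduce_finrank _)
  have g3 := inv_pow_le (show t ≤ n by omega)
  have e2 : (∏ i ∈ Finset.range c, (cP (n + i) 3 : ℝ)) =
      2 ^ ∑ i ∈ Finset.range c, (1 + (n + i) + (n + i).choose 2) := by
    rw [← Finset.prod_pow_eq_pow_sum]
    refine Finset.prod_congr rfl fun i _ => ?_
    simp [cP, Finset.sum_range_succ]
  have q0 := (ps_bd 0 c).2.2
  have r0 := Reduce_prod_pos n c
  set M : ℝ := 2 ^ (c * n) / ps 0 c * 2 ^ c * ∏ i ∈ Finset.range c, (cP (n + i) 3 : ℝ) with hM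
  have e3 : (2 : ℝ) ^ (c * (n + 1) + ∑ i ∈ Finset.range c, (1 + (n + i) + (n + i).choose 2)) /
      ps 0 c = M := by
    rw [hM, e2, mul_add, mul_one, pow_add, pow_add]
    ring
  have M0 : 0 < M := by positivity
  have m1 : Mult n c ≤ M := by
    rw [Mult, hM]
    gcongr
  have m2 : (1 - 1 / 2 ^ t) * M ≤ Mult n c := by
    rw [Mult, hM, ← mul_assoc, ← mul_assoc]
    gcongr
    exact le_trans (mul_le_mul_of_nonneg_right (by linarith) (by positivity)) g2
  rw [e3]
  have MK : 0 < M * Kh h n := mul_pos M0 K0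
  have w1 : (Nn (n + c) 4 ε : ℝ) ≤ (1 + 1 / 2 ^ t) * (M * ((1 + 1 / 2 ^ t) * Kh h n)) :=
    u1.trans (by gcongr)
  have w2 : (1 - 2 * (1 / 2 ^ t)) * ((1 - 1 / 2 ^ t) * M * ((1 - 1 / 2 ^ t) * Kh h n)) ≤
      (Nn (n + c) 4 ε : ℝ) := by
    refine le_trans (mul_le_mul_of_nonneg_left ?_ (by linarith)) v1
    exact mul_le_mul m2 v0.1 (mul_nonneg (by linarith) K0.le) (Mult_nonneg n c)
  generalize (1 : ℝ) / 2 ^ t = x at *
  rw [abs_le, le_sub_iff_add_le, le_div_iff₀ MK, sub_le_iff_le_add, div_le_iff₀ MK]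
  constructor
  · refine le_trans ?_ w2
    rw [show (1 - 2 * x) * ((1 - x) * M * ((1 - x) * Kh h n)) =
      (1 - 2 * x) * ((1 - x) * (1 - x)) * (M * Kh h n) by ring]
    gcongr
    nlinarith [mul_nonneg (mul_nonneg x0.le x0.le) (show 0 ≤ 5 - 2 * x by linarith)]
  · refine w1.trans ?_
    rw [show (1 + x) * (M * ((1 + x) * Kh h n)) = (1 + x) * (1 + x) * (M * Kh h n) by ring]
    gcongr
    nlinarith

theorem uni_main : ∃ κ : ℝ, 0 < κ ∧ ∀ (n c h : ℕ) (ε : ℝ), (c : ℝ) ≤ κ * n →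
    (1 + 1 / 2 ^ (h + 1)) / 2 + (2 : ℝ) ^ (-(κ * n)) ≤ 2 ^ c * ε →
    2 ^ c * ε ≤ (1 + 1 / 2 ^ h) / 2 - (2 : ℝ) ^ (-(κ * n)) →
    |(Nn (n + c) 4 ε : ℝ) /
      (2 ^ (c * (n + 1) + ∑ i ∈ Finset.range c, (1 + (n + i) + (n + i).choose 2)) / ps 0 c * Kh h n) -
        1| ≤ (2 : ℝ) ^ (-(n : ℝ) / 2) := by
  refine ⟨1 / 2 ^ 51, by positivity, fun n c h ε hc h1 h2 => ?_⟩
  set s := ⌈(1 / 2 ^ 51 : ℝ) * n⌉₊ with hs
  have s1 : (1 / 2 ^ 51 : ℝ) * n ≤ s := Nat.le_ceil _
  have s2 : (s : ℝ) < 1 / 2 ^ 51 * n + 1 := Nat.ceil_lt_add_one (by positivity)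
  have s3 : (1 : ℝ) / 2 ^ s ≤ (2 : ℝ) ^ (-((1 / 2 ^ 51 : ℝ) * n)) := by
    rw [one_div ((2 : ℝ) ^ s), ← Real.rpow_natCast, ← Real.rpow_neg (by norm_num)]
    exact Real.rpow_le_rpow_of_exponent_le (by norm_num) (by linarith)
  have p1 : (0 : ℝ) < 1 / 2 ^ (h + 1) := by positivity
  have p3 : (1 : ℝ) / 2 ^ h ≤ 1 := by simpa using inv_pow_le (Nat.zero_le h)
  have s4 : 2 ≤ s := by
    by_contra hcon
    have := inv_pow_le (show s ≤ 1 by omega)
    norm_num at this
    rw [← one_div] at this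
    linarith
  have s5 : (2 : ℝ) ≤ s := by exact_mod_cast s4
  have s6 : 2 ^ 50 * s ≤ n := by
    have : (2 : ℝ) ^ 50 * s ≤ n := by linarith
    exact_mod_cast this
  have s7 : 2 ^ 50 * c ≤ n := by
    have : (2 : ℝ) ^ 50 * c ≤ n := by linarith [Nat.cast_nonneg (α := ℝ) n]
    exact_mod_cast this
  refine (uni_nat (h := h) (t := n / 2 + 1 + 2) s7 s6 (by omega) (by omega) (by linarith)
    (by linarith)).trans ?_
  have e : 4 * ((1 : ℝ) / 2 ^ (n / 2 + 1 + 2)) = (2 ^ (n / 2 + 1))⁻¹ := by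
    rw [pow_add _ _ 2]; field_simp; norm_num
  rw [e, ← Real.rpow_natCast, ← Real.rpow_neg (by norm_num)]
  refine Real.rpow_le_rpow_of_exponent_le (by norm_num) ?_
  have : (n : ℝ) ≤ 2 * ((n / 2 + 1 : ℕ) : ℝ) := by exact_mod_cast (by omega : n ≤ 2 * (n / 2 + 1))
  linarith

end Pool.Agent.P.MP_cb6780_lc
end
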