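import Pool.Agent.K.MP_cb6780_lc.C3
import Pool.Agent.K.MP_cb6780_lc.C1
import Pool.Agent.K.MP_cb6780_lc.C2

-- part Pool.Agent.P.MP_cb6780_lc.SSeq
section

set_option autoImplicit false

/-! Sequential counting of tuples of vectors, and independent transversals. -/

namespace Pool.Agent.P.MP_cb6780_lc

open Module

theorem SSeq_invol {ι X : Type} [DecidableEq ι] (k : ι) :
    Function.Involutive (fun p : (ι → X) × X => (Function.update p.1 k p.2, p.1 k)) := by
  intro p
  simp only [Function.update_idem, Function.update_self, Function.update_eq_self]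

theorem av_update {ι X : Type} [Finite ι] [DecidableEq ι] [Finite X] [Nonempty X] (k : ι)
    (Φ : (ι → X) → ℝ) : av Φ = av fun x => av fun v => Φ (Function.update x k v) := by
  have h1 := av_congr (SSeq_invol (X := X) k).toPerm (fun p : (ι → X) × X => Φ p.1)
  rw [av_prod, av_prod] at h1
  have h2 : (fun x : ι → X => av fun _ : X => Φ x) = Φ := funext fun x => av_const (Φ x)
  rw [h2] at h1
  exact h1.symm

theorem av_seq {ι X : Type} [Fintype ι] [LinearOrder ι] [Finite X] [Nonempty X]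
    (g : ι → (ι → X) → ℝ) (h0 : ∀ j x, 0 ≤ g j x)
    (h1 : ∀ j k x v, j < k → g j (Function.update x k v) = g j x)
    (h2 : ∀ j x, av (fun v => g j (Function.update x j v)) ≤ 1) :
    av (fun x => ∏ j, g j x) ≤ 1 := by
  have key : ∀ s : Finset ι, av (fun x => ∏ j ∈ s, g j x) ≤ 1 := by
    intro s
    induction s using Finset.induction_on_max with
    | empty =>
      simp only [Finset.prod_empty]
      exact (av_const (1 : ℝ)).le
    | insert a s hlt ih =>
      have ha : a ∉ s := fun h => lt_irrefl a (hlt a h)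
      rw [av_update a]
      refine le_trans (av_mono fun x => ?_) ih
      have e : (fun v => ∏ j ∈ insert a s, g j (Function.update x a v)) =
          fun v => (∏ j ∈ s, g j x) * g a (Function.update x a v) := by
        funext v
        rw [Finset.prod_insert ha, mul_comm,
          Finset.prod_congr rfl fun j hj => h1 j a x v (hlt j hj)]
      rw [e, av_mul_left]
      exact mul_le_of_le_one_right (Finset.prod_nonneg fun j _ => h0 j x) (h2 a x)
  exact key Finset.univ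

variable {W : Type} [AddCommGroup W] [Module F W] [Finite W]

/-- the span of the functionals that the earlier vectors impose on vector number `j` -/
def Lam {ι : Type} [LinearOrder ι] (B : ι → Bil W) (j : ι) (x : ι → W) : Submodule F (Dual F W) :=
  Submodule.span F {l | ∃ i, i < j ∧ l = (B i + B j) (x i)}

omit [Finite W] in
theorem SSeq_Lam_update {ι : Type} [LinearOrder ι] (B : ι → Bil W) {j k : ι} (h : j ≤ k)
    (x : ι → W) (v : W) : Lam B j (Function.update x k v) = Lam B j x := by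
  unfold Lam
  congr 1
  ext l
  refine exists_congr fun i => and_congr_right fun hi => ?_
  rw [Function.update_of_ne (hi.trans_le h).ne]

theorem SSeq_av_coann (L : Submodule F (Dual F W)) :
    av (fun v : W => (2 : ℝ) ^ finrank F L *
      (L.dualCoannihilator : Set W).indicator (fun _ => (1 : ℝ)) v) ≤ 1 := by
  have : Module.Finite F W := Module.Finite.of_finite
  have h1 := Subspace.finrank_add_finrank_dualCoannihilator_eq (K := F) (V := W) L
  have h2 : (L.dualCoannihilator : Set W).ncard = 2 ^ finrank F L.dualCoannihilator := by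
    rw [← card_V (V := L.dualCoannihilator)]
    exact (Nat.card_coe_set_eq _).symm
  rw [av_mul_left, av_indicator, h2, card_V, ← h1]
  push_cast
  rw [pow_add, ← mul_div_assoc, div_self (by positivity)]

theorem seq_sum {ι : Type} [Fintype ι] [LinearOrder ι] (B : ι → Bil W) :
    av ({x : ι → W | ∀ i j, (B i + B j) (x i) (x j) = 0}.indicator
      fun x => (2 : ℝ) ^ ∑ j, finrank F (Lam B j x)) ≤ 1 := by
  have hg : ∀ (j : ι) (x : ι → W), 0 ≤ (2 : ℝ) ^ finrank F (Lam B j x) *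
      ((Lam B j x).dualCoannihilator : Set W).indicator (fun _ => (1 : ℝ)) (x j) := fun j x =>
    mul_nonneg (by positivity) (Set.indicator_nonneg (fun _ _ => zero_le_one) _)
  refine le_trans (av_mono fun x => ?_)
    (av_seq (fun j x => (2 : ℝ) ^ finrank F (Lam B j x) *
      ((Lam B j x).dualCoannihilator : Set W).indicator (fun _ => (1 : ℝ)) (x j)) hg ?_ ?_)
  · by_cases hx : x ∈ {x : ι → W | ∀ i j, (B i + B j) (x i) (x j) = 0}
    · rw [Set.indicator_of_mem hx, ← Finset.prod_pow_eq_pow_sum]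
      refine le_of_eq (Finset.prod_congr rfl fun j _ => ?_)
      have hm : x j ∈ ((Lam B j x).dualCoannihilator : Set W) := by
        refine (Submodule.mem_dualCoannihilator _).2 fun φ hφ => ?_
        have hle : Lam B j x ≤ LinearMap.ker (Dual.eval F W (x j)) := by
          refine Submodule.span_le.2 ?_
          rintro l ⟨i, _, rfl⟩
          exact hx i j
        exact hle hφ
      rw [Set.indicator_of_mem hm, mul_one]
    · rw [Set.indicator_of_notMem hx]
      exact Finset.prod_nonneg fun j _ => hg j x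
  · intro j k x v hjk
    rw [SSeq_Lam_update B hjk.le, Function.update_of_ne hjk.ne]
  · intro j x
    refine le_trans (av_mono fun v => le_of_eq ?_) (SSeq_av_coann (Lam B j x))
    rw [SSeq_Lam_update B (le_refl j), Function.update_self]

omit [Finite W] in
theorem SSeq_prod_mem {ι : Type} (l : ι → Dual F W) (s : Finset ι) :
    (fun y => ∏ i ∈ s, l i y) ∈ P W (s.card + 1) := by
  classical
  induction s using Finset.induction_on with
  | empty => exact mem_P_one.2 ⟨1, funext fun y => Finset.prod_empty⟩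
  | insert a s ha ih =>
    have h := mul_mem_P ih (dual_mem_P (l a))
    rw [Finset.card_insert_of_notMem ha]
    have e : (fun y => ∏ i ∈ insert a s, l i y) = (fun y => ∏ i ∈ s, l i y) * fun y => l a y := by
      funext y
      rw [Finset.prod_insert ha, mul_comm]
      rfl
    rw [e]
    exact h

omit [Finite W] in
theorem SSeq_det_mem {ι : Type} [Fintype ι] [DecidableEq ι] (l : ι → ι → Dual F W) :
    (fun y => (Matrix.of fun i j => l i j y).det) ∈ P W (Fintype.card ι + 1) := by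
  have e : (fun y => (Matrix.of fun i j => l i j y).det) =
      ∑ σ : Equiv.Perm ι, (((Equiv.Perm.sign σ : ℤˣ) : ℤ) : F) • fun y => ∏ i, l (σ i) i y := by
    funext y
    rw [Matrix.det_apply', Finset.sum_apply]
    rfl
  rw [e]
  exact Submodule.sum_mem _ fun σ _ =>
    Submodule.smul_mem _ _ (SSeq_prod_mem (fun i => l (σ i) i) Finset.univ)

theorem trans_count {ι : Type} [Fintype ι] (K : ι → Submodule F W) {x : ι → W}
    (hx : LinearIndependent F x) (hK : ∀ i, x i ∈ K i) :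
    2 ^ ∑ i, finrank F (K i) ≤
      2 ^ Fintype.card ι * {y : ι → W | LinearIndependent F y ∧ ∀ i, y i ∈ K i}.ncard := by
  classical
  obtain ⟨π, hπ⟩ := (Fintype.linearCombination F x).exists_leftInverse_of_injective
    (LinearMap.ker_eq_bot.2 hx.fintypeLinearCombination_injective)
  have hπx : ∀ i, π (x i) = Pi.single i 1 := by
    intro i
    have h := LinearMap.congr_fun hπ (Pi.single i 1)
    rwa [LinearMap.comp_apply, Fintype.linearCombination_apply_single, one_smul,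
      LinearMap.id_apply] at h
  let l : ι → ι → Dual F ((i : ι) → K i) := fun i j =>
    (LinearMap.proj j).comp (π.comp ((K i).subtype.comp (LinearMap.proj i)))
  have hl : ∀ i j y, l i j y = π (y i) j := fun _ _ _ => rfl
  have hf := SSeq_det_mem l
  have h0 : (fun y => (Matrix.of fun i j => l i j y).det) ≠ 0 := by
    intro he
    have h1 := congrFun he (fun i => ⟨x i, hK i⟩)
    have h2 : (Matrix.of fun i j => l i j (fun i => (⟨x i, hK i⟩ : K i))) = 1 := by
      ext i j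
      rw [Matrix.of_apply, hl, hπx, Matrix.one_apply, Pi.single_apply]
      exact if_congr eq_comm rfl rfl
    rw [h2, Matrix.det_one] at h1
    exact one_ne_zero h1
  have hb := min_dist hf h0
  rw [bias_eq_wt] at hb
  have hcard : Nat.card ((i : ι) → K i) = 2 ^ ∑ i, finrank F (K i) := by
    rw [Nat.card_pi, ← Finset.prod_pow_eq_pow_sum]
    exact Finset.prod_congr rfl fun i _ => card_V
  have hle : {y : (i : ι) → K i | (Matrix.of fun i j => l i j y).det ≠ 0}.ncard ≤
      {y : ι → W | LinearIndependent F y ∧ ∀ i, y i ∈ K i}.ncard := by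
    refine Set.ncard_le_ncard_of_injOn (fun y i => (y i : W)) (fun y hy => ⟨?_, fun i => (y i).2⟩)
      (fun y _ z _ h => funext fun i => Subtype.ext (congrFun h i)) (Set.toFinite _)
    exact LinearIndependent.of_comp π (Matrix.linearIndependent_rows_of_det_ne_zero hy)
  refine le_trans ?_ (Nat.mul_le_mul_left _ hle)
  rw [← hcard]
  have hpos : (0 : ℝ) < Nat.card ((i : ι) → K i) := by exact_mod_cast Nat.card_pos
  have h3 : (2 : ℝ) / 2 ^ Fintype.card ι ≤
      2 * ({y : (i : ι) → K i | (Matrix.of fun i j => l i j y).det ≠ 0}.ncard : ℝ) /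
        Nat.card ((i : ι) → K i) := by linarith
  rw [div_le_div_iff₀ (by positivity) hpos] at h3
  have h4 : (Nat.card ((i : ι) → K i) : ℝ) ≤ 2 ^ Fintype.card ι *
      ({y : (i : ι) → K i | (Matrix.of fun i j => l i j y).det ≠ 0}.ncard : ℝ) := by linarith
  exact_mod_cast h4

end Pool.Agent.P.MP_cb6780_lc
end

-- part Pool.Agent.P.MP_cb6780_lc.SLevel
section

set_option autoImplicit false
set_option linter.unusedSectionVars false

/-! Quadratic functions whose forms have large kernels after several fixed shifts. -/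

namespace Pool.Agent.P.MP_cb6780_lc

open Module

variable {W : Type} [AddCommGroup W] [Module F W] [Finite W]

/-- kernel of the form of `q` shifted by `A` -/
noncomputable def kr (q : W → F) (A : Bil W) : Submodule F W := LinearMap.ker (bf q + A)

theorem ker_count (W0 : Submodule F W) :
    {r : W → F | r ∈ P W 3 ∧ W0 ≤ LinearMap.ker (bf r)}.ncard ≤
      cP (finrank F W - finrank F W0) 3 * 2 ^ (finrank F W0 + 1) := by
  have : Module.Finite F W := Module.Finite.of_finite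
  obtain ⟨C, hC⟩ := Submodule.exists_isCompl W0
  have hd : finrank F C = finrank F W - finrank F W0 := by
    have := Submodule.finrank_add_eq_of_isCompl hC
    omega
  have h2 : cP (finrank F W0) 2 = 2 ^ (finrank F W0 + 1) := by
    simp [cP, Finset.sum_range_succ, add_comm]
  have key : ∀ r ∈ P W 3, W0 ≤ LinearMap.ker (bf r) → ∀ x ∈ W0, ∀ y : W,
      r (x + y) = r x + r y + r 0 := by
    intro r hr hk x hx y
    have h0 : bf r x y = 0 := by rw [LinearMap.mem_ker.1 (hk hx)]; rfl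
    rw [bf_apply hr x y 0] at h0
    simp only [D_apply, zero_add] at h0
    have h : ∀ a b c d : F, a + b + (c + d) = 0 → a = b + c + d := by decide
    exact h _ _ _ _ h0
  rw [← hd, ← h2, ← ncard_P (V := C) 3, ← ncard_P (V := W0) 2, ← Set.ncard_prod]
  refine Set.ncard_le_ncard_of_injOn (fun r => (res C 0 r, res W0 0 r)) ?_ ?_ (Set.toFinite _)
  · rintro r ⟨hr, hk⟩
    refine ⟨res_mem_P hr C 0, (bf_eq_zero (res_mem_P hr W0 0)).1 ?_⟩
    rw [bf_res hr]
    ext x y
    rw [pull_apply, Submodule.subtype_apply, LinearMap.mem_ker.1 (hk x.2)]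
    rfl
  · rintro r ⟨hr, hk⟩ r' ⟨hr', hk'⟩ h
    have a1 : ∀ y ∈ C, r y = r' y := fun y hy => by
      simpa only [res_apply, add_zero] using congrFun (congrArg Prod.fst h) ⟨y, hy⟩
    have a2 : ∀ y ∈ W0, r y = r' y := fun y hy => by
      simpa only [res_apply, add_zero] using congrFun (congrArg Prod.snd h) ⟨y, hy⟩
    funext z
    have hz : z ∈ W0 ⊔ C := by rw [hC.sup_eq_top]; trivial
    obtain ⟨x, hx, y, hy, rfl⟩ := Submodule.mem_sup.1 hz
    rw [key r hr hk x hx, key r' hr' hk' x hx, a1 y hy, a2 x hx, a2 0 W0.zero_mem]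

theorem rk_pull_ge (W0 : Submodule F W) (β : Bil W) :
    finrank F W0 + finrank F W0 ≤
      rk (pull W0.subtype β) + finrank F (LinearMap.ker β) + finrank F W := by
  have : Module.Finite F W := Module.Finite.of_finite
  have e0 := rk_ker (pull W0.subtype β)
  set K := LinearMap.ker (pull W0.subtype β) with hK
  let ψ : K →ₗ[F] Dual F W := β.comp (W0.subtype.comp K.subtype)
  have e1 : finrank F (LinearMap.range ψ) + finrank F (LinearMap.ker ψ) = finrank F K :=
    LinearMap.finrank_range_add_finrank_ker ψ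
  have e2 : finrank F (LinearMap.range ψ) ≤ finrank F W0.dualAnnihilator := by
    refine Submodule.finrank_mono ?_
    rintro _ ⟨x, rfl⟩
    rw [Submodule.mem_dualAnnihilator]
    intro w hw
    exact LinearMap.congr_fun (LinearMap.mem_ker.1 x.2) ⟨w, hw⟩
  have e3 := Subspace.finrank_add_finrank_dualAnnihilator_eq W0
  have e4 : finrank F (LinearMap.ker ψ) ≤ finrank F (LinearMap.ker β) := by
    let φ : LinearMap.ker ψ →ₗ[F] LinearMap.ker β :=
      (W0.subtype.comp (K.subtype.comp (LinearMap.ker ψ).subtype)).codRestrict _ fun x => x.2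
    refine LinearMap.finrank_le_finrank_of_injective (f := φ) fun x y h => ?_
    have h1 : (φ x : W) = φ y := congrArg Subtype.val h
    exact Subtype.ext (Subtype.ext (Subtype.ext h1))
  omega

theorem dbl {α β : Type} [Finite α] [Finite β] (Q : Set α) (T : α → Set β) (wt : β → ℝ)
    (h0 : ∀ x, 0 ≤ wt x) {a M : ℝ} (h1 : ∀ q ∈ Q, a ≤ av ((T q).indicator wt))
    (h2 : ∀ x, ({q | q ∈ Q ∧ x ∈ T q}.ncard : ℝ) ≤ M) : Q.ncard * a ≤ M * av wt := by
  classical
  have := Fintype.ofFinite α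
  have e1 : (Q.ncard : ℝ) * a = ∑ _q ∈ Q.toFinset, a := by
    rw [Finset.sum_const, nsmul_eq_mul, Set.ncard_eq_toFinset_card']
  rw [e1, ← av_mul_left]
  refine (Finset.sum_le_sum fun q hq => h1 q (Set.mem_toFinset.1 hq)).trans ?_
  rcases isEmpty_or_nonempty β with hβ | hβ
  · simp [av]
  rw [← Res2_av_sum]
  refine av_mono fun x => ?_
  have e2 : ∑ q ∈ Q.toFinset, (T q).indicator wt x =
      ({q | q ∈ Q ∧ x ∈ T q}.ncard : ℝ) * wt x := by
    simp only [Set.indicator_apply]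
    rw [← Finset.sum_filter, Finset.sum_const, nsmul_eq_mul, Set.ncard_eq_toFinset_card']
    congr 3
    ext q
    simp
  rw [e2]
  exact mul_le_mul_of_nonneg_right (h2 x) (h0 x)

theorem kr_eq {q : W → F} {A : Bil W} {x : W} (h : x ∈ kr q A) : bf q x = A x := by
  have h1 : bf q x + A x = 0 := h
  have h2 := add_self_V (V := Dual F W) (A x)
  exact add_right_cancel (h1.trans h2.symm)

/-- forward and backward ranks cover the rank of the shifted form on `W0` -/
theorem rank_two {n : ℕ} (B : Fin n → Bil W) (W0 : Submodule F W) (hn : finrank F W0 = n)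
    {q : W → F} {x : Fin n → W0} (hx : LinearIndependent F x) (hk : ∀ i, (x i : W) ∈ kr q (B i))
    (j : Fin n) :
    n + n ≤ finrank F (Lam (fun i => pull W0.subtype (B i)) j x) +
      finrank F (Lam (ι := (Fin n)ᵒᵈ) (fun i => pull W0.subtype (B i)) j x) +
        finrank F (kr q (B j)) + finrank F W := by
  have : Module.Finite F W0 := Module.Finite.of_finite
  have h1 := rk_pull_ge W0 (bf q + B j)
  rw [hn] at h1
  have h2 : Submodule.span F (Set.range x) = ⊤ :=
    hx.span_eq_top_of_card_eq_finrank' (by rw [hn, Fintype.card_fin])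
  have h3 : ∀ i, pull W0.subtype (bf q + B j) (x i) =
      (pull W0.subtype (B i) + pull W0.subtype (B j)) (x i) := fun i => by
    ext y
    simp only [pull_apply, LinearMap.add_apply, Submodule.subtype_apply, kr_eq (hk i)]
  have h4 : LinearMap.range (pull W0.subtype (bf q + B j)) ≤
      Lam (fun i => pull W0.subtype (B i)) j x ⊔
        Lam (ι := (Fin n)ᵒᵈ) (fun i => pull W0.subtype (B i)) j x := by
    rw [LinearMap.range_eq_map, ← h2, Submodule.map_span_le]
    rintro _ ⟨i, rfl⟩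
    rw [h3]
    rcases lt_trichotomy i j with h | h | h
    · exact Submodule.mem_sup_left (Submodule.subset_span ⟨i, h, rfl⟩)
    · rw [h, add_self_V (V := Bil W0)]
      exact Submodule.zero_mem _
    · exact Submodule.mem_sup_right (Submodule.subset_span ⟨i, h, rfl⟩)
  have h5 := (Submodule.finrank_mono h4).trans (Submodule.finrank_add_le_finrank_add_finrank _ _)
  exact h1.trans (Nat.add_le_add_right (Nat.add_le_add_right h5 _) _)

theorem level_pat {n κ H : ℕ} (B : Fin n → Bil W) (hB : ∀ i x y, B i x y = B i y x)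
    (W0 : Submodule F W) (hn : finrank F W0 = n) (hH : 2 * H ≤ n * (κ + finrank F W)) :
    {q : W → F | q ∈ P W 3 ∧ (∀ i, κ ≤ finrank F (kr q (B i)) ∧ kr q (B i) ≤ W0) ∧
        ∃ x : Fin n → W, LinearIndependent F x ∧ ∀ i, x i ∈ kr q (B i)}.ncard * 2 ^ H ≤
      2 ^ (n * finrank F W + 2 * n + 2) * cP (finrank F W - n) 3 := by
  have : Module.Finite F W := Module.Finite.of_finite
  obtain ⟨c, hc⟩ : ∃ c, finrank F W = n + c := ⟨_, (Nat.add_sub_cancel' (hn ▸ W0.finrank_le)).symm⟩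
  set Q := {q : W → F | q ∈ P W 3 ∧ (∀ i, κ ≤ finrank F (kr q (B i)) ∧ kr q (B i) ≤ W0) ∧
    ∃ x : Fin n → W, LinearIndependent F x ∧ ∀ i, x i ∈ kr q (B i)} with hQ
  let B' : Fin n → Bil W0 := fun i => pull W0.subtype (B i)
  let C : Set (Fin n → W0) := {x | ∀ i j, (B' i + B' j) (x i) (x j) = 0}
  let R1 : (Fin n → W0) → ℕ := fun x => ∑ j, finrank F (Lam B' j x)
  let R2 : (Fin n → W0) → ℕ := fun x => ∑ j, finrank F (Lam (ι := (Fin n)ᵒᵈ) B' j x)
  let wt : (Fin n → W0) → ℝ := fun x =>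
    C.indicator (fun x => (2 : ℝ) ^ R1 x) x + C.indicator (fun x => (2 : ℝ) ^ R2 x) x
  let T : (W → F) → Set (Fin n → W0) := fun q =>
    {x | LinearIndependent F x ∧ ∀ i, x i ∈ (kr q (B i)).comap W0.subtype}
  have w0 : ∀ x, 0 ≤ wt x := fun x =>
    add_nonneg (Set.indicator_nonneg (fun _ _ => by positivity) x)
      (Set.indicator_nonneg (fun _ _ => by positivity) x)
  have w1 : av wt ≤ 2 := by
    have a1 : av (C.indicator fun x => (2 : ℝ) ^ R1 x) ≤ 1 := seq_sum B'
    have a2 : av (C.indicator fun x => (2 : ℝ) ^ R2 x) ≤ 1 := seq_sum (ι := (Fin n)ᵒᵈ) B'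
    rw [av_add]
    linarith
  have cX : (Nat.card (Fin n → W0) : ℝ) = 2 ^ (n * n) := by
    rw [Nat.card_fun, card_V, hn, Nat.card_eq_fintype_card, Fintype.card_fin, ← pow_mul]
    norm_cast
  have h1 : ∀ q ∈ Q, (2 : ℝ) ^ H / 2 ^ (n * c + n + n * n) ≤ av ((T q).indicator wt) := by
    rintro q ⟨q1, q2, x, q3, q4⟩
    set σ := ∑ i, finrank F (kr q (B i)) with hσ
    have t1 := trans_count (fun i => (kr q (B i)).comap W0.subtype)
      (x := fun i => ⟨x i, (q2 i).2 (q4 i)⟩) (LinearIndependent.of_comp W0.subtype q3) q4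
    have t2 : ∑ i, finrank F ((kr q (B i)).comap W0.subtype) = σ :=
      Finset.sum_congr rfl fun i _ => (Submodule.comapSubtypeEquivOfLe (q2 i).2).finrank_eq
    rw [t2, Fintype.card_fin] at t1
    have t3 : (2 : ℝ) ^ σ ≤ 2 ^ n * (T q).ncard := by exact_mod_cast t1
    have t4 : n * κ ≤ σ := by
      have := Finset.card_nsmul_le_sum Finset.univ (fun i => finrank F (kr q (B i))) κ
        fun i _ => (q2 i).1
      simpa using this
    have t5 : ∀ y, (2 : ℝ) ^ H / 2 ^ (n * c + σ) * (T q).indicator (fun _ => (1 : ℝ)) y ≤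
        (T q).indicator wt y := fun y => by
      by_cases hy : y ∈ T q
      swap
      · rw [Set.indicator_of_notMem hy, Set.indicator_of_notMem hy, mul_zero]
      rw [Set.indicator_of_mem hy, Set.indicator_of_mem hy, mul_one]
      have hk : ∀ i, (y i : W) ∈ kr q (B i) := hy.2
      have y1 : y ∈ C := fun i j => by
        show B i (y i) (y j) + B j (y i) (y j) = 0
        rw [hB j, ← kr_eq (hk i), ← kr_eq (hk j), bf_symm q1]
        exact CharTwo.add_self_eq_zero _
      have y2 := Finset.sum_le_sum fun j (_ : j ∈ Finset.univ) => rank_two B W0 hn hy.1 hk j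
      simp only [Finset.sum_add_distrib, Finset.sum_const, Finset.card_univ, Fintype.card_fin,
        smul_eq_mul] at y2
      have y3 : n * n + n * n ≤ R1 y + R2 y + σ + n * finrank F W := y2
      rw [hc] at y3 hH
      have y4 : H ≤ n * c + σ + R1 y ∨ H ≤ n * c + σ + R2 y := by
        rw [mul_add, mul_add] at hH
        rw [mul_add] at y3
        omega
      show _ ≤ C.indicator (fun x => (2 : ℝ) ^ R1 x) y + C.indicator (fun x => (2 : ℝ) ^ R2 x) y
      rw [Set.indicator_of_mem y1, Set.indicator_of_mem y1, div_le_iff₀ (by positivity), add_mul,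
        ← pow_add, ← pow_add]
      rcases y4 with h | h
      · exact le_add_of_le_of_nonneg (pow_le_pow_right₀ (by norm_num) (by omega)) (by positivity)
      · exact le_add_of_nonneg_of_le (by positivity) (pow_le_pow_right₀ (by norm_num) (by omega))
    refine le_trans ?_ (av_mono t5)
    rw [av_mul_left, av_indicator, cX, div_mul_div_comm,
      div_le_div_iff₀ (by positivity) (by positivity), mul_assoc]
    refine mul_le_mul_of_nonneg_left ?_ (by positivity)
    calc (2 : ℝ) ^ (n * c + σ) * 2 ^ (n * n) = 2 ^ σ * 2 ^ (n * c + n * n) := by ring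
      _ ≤ 2 ^ n * (T q).ncard * 2 ^ (n * c + n * n) := by gcongr
      _ = _ := by ring
  have h2 : ∀ x, ({q | q ∈ Q ∧ x ∈ T q}.ncard : ℝ) ≤ (cP c 3 * 2 ^ (n + 1) : ℕ) := fun x => by
    rcases {q | q ∈ Q ∧ x ∈ T q}.eq_empty_or_nonempty with h | ⟨g, hg⟩
    · rw [h, Set.ncard_empty]; exact Nat.cast_le.2 (Nat.zero_le _)
    have k1 := ker_count W0
    rw [hn, hc, Nat.add_sub_cancel_left] at k1
    refine Nat.cast_le.2 (le_trans ?_ k1)
    refine Set.ncard_le_ncard_of_injOn (fun f => f + g) (fun f hf => ?_)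
      (fun _ _ _ _ e => add_right_cancel e) (Set.toFinite _)
    refine ⟨(P W 3).add_mem hf.1.1 hg.1.1, fun v hv => ?_⟩
    have s1 : Submodule.span F (Set.range x) = ⊤ :=
      hg.2.1.span_eq_top_of_card_eq_finrank' (by rw [hn, Fintype.card_fin])
    have s2 : Submodule.span F (Set.range x) ≤ (LinearMap.ker (bf (f + g))).comap W0.subtype := by
      rw [Submodule.span_le]
      rintro _ ⟨i, rfl⟩
      show bf (f + g) (W0.subtype (x i)) = 0
      rw [bf_add hf.1.1 hg.1.1, LinearMap.add_apply, kr_eq (hf.2.2 i), kr_eq (hg.2.2 i)]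
      exact add_self_V (V := Dual F W) _
    exact s2 (s1 ▸ Submodule.mem_top : (⟨v, hv⟩ : W0) ∈ _)
  have h3 := (dbl Q T wt w0 h1 h2).trans (mul_le_mul_of_nonneg_left w1 (by positivity))
  rw [← mul_div_assoc, div_le_iff₀ (by positivity)] at h3
  rw [hc, Nat.add_sub_cancel_left]
  have h4 : (Q.ncard : ℝ) * 2 ^ H ≤ 2 ^ (n * (n + c) + 2 * n + 2) * cP c 3 := by
    refine h3.trans (le_of_eq ?_)
    push_cast
    ring
  exact_mod_cast h4

theorem two_choose (n : ℕ) : 2 * n.choose 2 + n = n * n := by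
  induction n with
  | zero => simp
  | succ n ih =>
    rw [Nat.choose_succ_succ' n 1, Nat.choose_one_right]
    nlinarith

theorem cP_three (m : ℕ) : cP m 3 = 2 ^ (m + 1 + m.choose 2) := by
  simp [cP, Finset.sum_range_succ, add_comm]

theorem level {k κ H : ℕ} (hk : 1 ≤ k) (A : Fin k → Bil W) (hA : ∀ i x y, A i x y = A i y x)
    (W0 : Submodule F W) (hH : 2 * H ≤ κ * finrank F W) :
    {q : W → F | q ∈ P W 3 ∧ (∀ a, κ ≤ finrank F (kr q (A a))) ∧ ⨆ a, kr q (A a) = W0}.ncard *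
        2 ^ H ≤ cP (finrank F W) 3 * (k ^ finrank F W * 2 ^ (2 * finrank F W + 3)) := by
  have : Module.Finite F W := Module.Finite.of_finite
  have : Nonempty (Fin k) := ⟨⟨0, hk⟩⟩
  obtain ⟨n, hn⟩ : ∃ n, finrank F W0 = n := ⟨_, rfl⟩
  obtain ⟨c, hc⟩ : ∃ c, finrank F W = n + c := ⟨_, (Nat.add_sub_cancel' (hn ▸ W0.finrank_le)).symm⟩
  set Q := {q : W → F | q ∈ P W 3 ∧ (∀ a, κ ≤ finrank F (kr q (A a))) ∧ ⨆ a, kr q (A a) = W0}
  rcases Q.eq_empty_or_nonempty with h | ⟨q0, hq0⟩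
  · rw [h, Set.ncard_empty, zero_mul]; exact Nat.zero_le _
  have hκ : κ ≤ n := by
    refine (hq0.2.1 ⟨0, hk⟩).trans (hn ▸ Submodule.finrank_mono ?_)
    rw [← hq0.2.2]
    exact le_iSup (fun a => kr q0 (A a)) _
  set H' := n * (κ + finrank F W) / 2 with hH'
  have h1 := cover_le Q Set.univ (fun a : Fin n → Fin k => {q : W → F | q ∈ P W 3 ∧
      (∀ i, κ ≤ finrank F (kr q (A (a i))) ∧ kr q (A (a i)) ≤ W0) ∧
        ∃ x : Fin n → W, LinearIndependent F x ∧ ∀ i, x i ∈ kr q (A (a i))})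
    (2 ^ (n * finrank F W + 2 * n + 2) * cP (finrank F W - n) 3 / 2 ^ H') (fun q hq => by
      obtain ⟨b, b1, b2, b3⟩ := exists_linearIndependent F (⋃ a, (kr q (A a) : Set W))
      rw [Submodule.span_iUnion] at b2
      simp only [Submodule.span_eq] at b2
      have := Fintype.ofFinite b
      have b4 : Fintype.card b = n := by
        rw [← hn, ← hq.2.2, ← b2, ← finrank_span_eq_card b3, Subtype.range_coe]
      let e := (Fintype.equivFinOfCardEq b4).symm
      have b5 : ∀ i, ∃ a, (e i : W) ∈ kr q (A a) := fun i => Set.mem_iUnion.1 (b1 (e i).2)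
      choose a ha using b5
      refine ⟨a, trivial, hq.1, fun i => ⟨hq.2.1 _, ?_⟩, fun i => e i, b3.comp e e.injective, ha⟩
      rw [← hq.2.2]
      exact le_iSup (fun a => kr q (A a)) _)
    fun a _ => (Nat.le_div_iff_mul_le (by positivity)).2
      (level_pat (fun i => A (a i)) (fun i => hA (a i)) W0 hn (by omega))
  rw [Set.ncard_univ, Nat.card_fun, Nat.card_eq_fintype_card, Nat.card_eq_fintype_card,
    Fintype.card_fin, Fintype.card_fin] at h1
  have h2 : Q.ncard * 2 ^ H' ≤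
      k ^ n * (2 ^ (n * finrank F W + 2 * n + 2) * cP (finrank F W - n) 3) := by
    refine (Nat.mul_le_mul_right _ h1).trans ?_
    rw [mul_assoc]
    exact Nat.mul_le_mul_left _ (Nat.div_mul_le_self _ _)
  refine Nat.le_of_mul_le_mul_right ?_ (show 0 < 2 ^ H' by positivity)
  rw [mul_right_comm]
  refine (Nat.mul_le_mul_right _ h2).trans ?_
  rw [hc, Nat.add_sub_cancel_left, cP_three, cP_three, mul_left_comm (2 ^ _) (k ^ _), mul_assoc,
    mul_assoc (k ^ _)]
  refine Nat.mul_le_mul (Nat.pow_le_pow_right hk (by omega)) ?_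
  rw [← pow_add, ← pow_add, ← pow_add, ← pow_add]
  refine Nat.pow_le_pow_right (by norm_num) ?_
  have e1 := two_choose c
  have e2 := two_choose (n + c)
  have e3 : c * κ ≤ c * n := Nat.mul_le_mul_left _ hκ
  have e4 : n * (κ + (n + c)) ≤ 2 * H' + 1 := by rw [hH', hc]; omega
  rw [hc] at hH
  nlinarith

end Pool.Agent.P.MP_cb6780_lc
end

-- part Pool.Agent.P.MP_cb6780_lc.SReg
section

set_option autoImplicit false

/-! A regularity step for families of subspaces. -/

namespace Pool.Agent.P.MP_cb6780_lc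

open Module

variable {W : Type} [AddCommGroup W] [Module F W] [Finite W]

/-- both subspaces have codimension at most `s` in their sum -/
def Close (s : ℕ) (X Y : Submodule F W) : Prop :=
  finrank F ↥(X ⊔ Y) ≤ finrank F X + s ∧ finrank F ↥(X ⊔ Y) ≤ finrank F Y + s

theorem SReg_pair {s : ℕ} {A B : Submodule F W} (hAB : A ≤ B)
    (h : finrank F B ≤ finrank F A + s) :
    (∃ φ : W →ₗ[F] (Fin s → F), B ⊓ LinearMap.ker φ = A) ∧
      ∃ ψ : (Fin s → F) →ₗ[F] W, A ⊔ LinearMap.range ψ = B := by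
  have : Module.Finite F W := Module.Finite.of_finite
  let A' := A.comap B.subtype
  have h1 := A'.finrank_quotient_add_finrank
  rw [(Submodule.comapSubtypeEquivOfLe hAB).finrank_eq] at h1
  have h2 : finrank F (B ⧸ A') ≤ finrank F (Fin s → F) := by
    rw [finrank_fin_fun]
    omega
  obtain ⟨ι, hι⟩ := finrank_le_iff_exists_linearMap.1 h2
  obtain ⟨π, hπ⟩ := ι.exists_leftInverse_of_injective (LinearMap.ker_eq_bot.2 hι)
  obtain ⟨φ, hφ⟩ := LinearMap.exists_extend (ι.comp A'.mkQ)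
  obtain ⟨ψ, hψ⟩ := Module.projective_lifting_property A'.mkQ π A'.mkQ_surjective
  have h3 : ∀ x : B, φ x = 0 ↔ (x : W) ∈ A := fun x => by
    rw [show φ x = ι (A'.mkQ x) from LinearMap.congr_fun hφ x, map_eq_zero_iff _ hι,
      Submodule.mkQ_apply, Submodule.Quotient.mk_eq_zero]
    rfl
  refine ⟨⟨φ, le_antisymm (fun x hx => (h3 ⟨x, hx.1⟩).1 hx.2)
    fun x hx => ⟨hAB hx, (h3 ⟨x, hAB hx⟩).2 hx⟩⟩, B.subtype.comp ψ, le_antisymm (sup_le hAB ?_) ?_⟩
  · rintro _ ⟨z, rfl⟩
    exact (ψ z).2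
  · intro x hx
    have h4 : A'.mkQ (⟨x, hx⟩ - ψ (ι (A'.mkQ ⟨x, hx⟩))) = 0 := by
      rw [map_sub, show ∀ z, A'.mkQ (ψ z) = π z from LinearMap.congr_fun hψ,
        show ∀ z, π (ι z) = z from LinearMap.congr_fun hπ, sub_self]
    exact Submodule.mem_sup.2 ⟨_, (Submodule.Quotient.mk_eq_zero A').1 h4, _,
      ⟨ι (A'.mkQ ⟨x, hx⟩), rfl⟩, sub_add_cancel x _⟩

theorem close_count (s : ℕ) (X : Submodule F W) :
    {Y | Close s X Y}.ncard ≤ 2 ^ (2 * s * finrank F W) := by
  have : Module.Finite F W := Module.Finite.of_finite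
  have f1 : Finite (W →ₗ[F] (Fin s → F)) := DFunLike.finite _
  have f2 : Finite ((Fin s → F) →ₗ[F] W) := DFunLike.finite _
  let Φ : (W →ₗ[F] (Fin s → F)) × ((Fin s → F) →ₗ[F] W) → Submodule F W := fun z =>
    (X ⊓ LinearMap.ker z.1) ⊔ LinearMap.range z.2
  have h1 : {Y | Close s X Y} ⊆ Φ '' Set.univ := by
    rintro Y ⟨h2, h3⟩
    have h4 := Submodule.finrank_sup_add_finrank_inf_eq X Y
    obtain ⟨φ, hφ⟩ := (SReg_pair (s := s) (inf_le_left : X ⊓ Y ≤ X) (by omega)).1
    obtain ⟨ψ, hψ⟩ := (SReg_pair (s := s) (inf_le_right : X ⊓ Y ≤ Y) (by omega)).2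
    exact ⟨(φ, ψ), trivial, by simp only [Φ, hφ, hψ]⟩
  refine (Set.ncard_le_ncard h1 (Set.toFinite _)).trans
    ((Set.ncard_image_le (Set.toFinite _)).trans ?_)
  rw [Set.ncard_univ, Nat.card_prod, card_V (V := W →ₗ[F] (Fin s → F)),
    card_V (V := (Fin s → F) →ₗ[F] W), ← pow_add, Module.finrank_linearMap,
    Module.finrank_linearMap, finrank_fin_fun]
  exact le_of_eq (congrArg _ (by ring))

theorem SReg_tele (f : ℕ → ℝ) {w : ℝ} {L : ℕ} (hL : 1 ≤ L) (h0 : 0 ≤ f 0) (h1 : f L ≤ w) :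
    ∃ i, i < L ∧ f (i + 1) - f i ≤ w / L := by
  by_contra hc
  push Not at hc
  have hLr : (0 : ℝ) < L := by exact_mod_cast hL
  have h2 : ∑ i ∈ Finset.range L, w / L < ∑ i ∈ Finset.range L, (f (i + 1) - f i) :=
    Finset.sum_lt_sum_of_nonempty (Finset.nonempty_range_iff.2 (by omega))
      fun i hi => hc i (Finset.mem_range.1 hi)
  rw [Finset.sum_range_sub, Finset.sum_const, Finset.card_range, nsmul_eq_mul,
    mul_div_cancel₀ _ hLr.ne'] at h2
  linarith

theorem SReg_append {Z : Type} (K : Z → Submodule F W) {k l : ℕ} (τ : Fin k → Z) (σ : Fin l → Z) :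
    ⨆ i, K (Fin.append τ σ i) = (⨆ i, K (τ i)) ⊔ ⨆ i, K (σ i) := by
  apply le_antisymm
  · refine iSup_le fun i => ?_
    refine Fin.addCases (fun j => ?_) (fun j => ?_) i
    · rw [Fin.append_left]
      exact le_sup_of_le_left (le_iSup (fun i => K (τ i)) j)
    · rw [Fin.append_right]
      exact le_sup_of_le_right (le_iSup (fun i => K (σ i)) j)
  · refine sup_le (iSup_le fun j => ?_) (iSup_le fun j => ?_)
    · rw [← Fin.append_left τ σ j]
      exact le_iSup (fun i => K (Fin.append τ σ i)) _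
    · rw [← Fin.append_right τ σ j]
      exact le_iSup (fun i => K (Fin.append τ σ i)) _

theorem SReg_gap (s : ℕ) (X Y : Submodule F W) (A : Prop) [Decidable A] (hA : Close s X Y → A) :
    ((s : ℝ) + 1) * (1 - if A then 1 else 0) ≤
      2 * (finrank F ↥(X ⊔ Y) : ℝ) - finrank F X - finrank F Y := by
  have h1 : finrank F X ≤ finrank F ↥(X ⊔ Y) := Submodule.finrank_mono le_sup_left
  have h2 : finrank F Y ≤ finrank F ↥(X ⊔ Y) := Submodule.finrank_mono le_sup_right
  have h1' : (finrank F X : ℝ) ≤ finrank F ↥(X ⊔ Y) := by exact_mod_cast h1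
  have h2' : (finrank F Y : ℝ) ≤ finrank F ↥(X ⊔ Y) := by exact_mod_cast h2
  split_ifs with h
  · linarith
  · have h3 : finrank F X + s + 1 ≤ finrank F ↥(X ⊔ Y) ∨
        finrank F Y + s + 1 ≤ finrank F ↥(X ⊔ Y) := by
      by_contra hc
      push Not at hc
      exact h (hA ⟨by omega, by omega⟩)
    rcases h3 with h3 | h3
    · have : (finrank F X : ℝ) + s + 1 ≤ finrank F ↥(X ⊔ Y) := by exact_mod_cast h3
      linarith
    · have : (finrank F Y : ℝ) + s + 1 ≤ finrank F ↥(X ⊔ Y) := by exact_mod_cast h3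
      linarith

theorem reg {Z : Type} [Finite Z] [Nonempty Z] (K : Z → Submodule F W) {L s : ℕ} (hL : 1 ≤ L)
    (hs : 4 * finrank F W ≤ L * s) :
    ∃ (k : ℕ) (X : Submodule F W), 1 ≤ k ∧ k ≤ 2 ^ L ∧
      Nat.card Z ^ k ≤ 2 * {τ : Fin k → Z | Close s X (⨆ i, K (τ i))}.ncard := by
  classical
  let sp : (k : ℕ) → (Fin k → Z) → Submodule F W := fun k τ => ⨆ i, K (τ i)
  let Dk : ℕ → ℝ := fun k => av fun τ : Fin k → Z => (finrank F (sp k τ) : ℝ)
  have hLr : (0 : ℝ) < L := by exact_mod_cast hL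
  obtain ⟨i, hi, hD⟩ := SReg_tele (fun i => Dk (2 ^ i)) (w := finrank F W) hL
    (av_nonneg fun τ => Nat.cast_nonneg _)
    (av_le_of_le fun τ => by exact_mod_cast Submodule.finrank_le _)
  have hk2 : 2 ^ (i + 1) = 2 ^ i + 2 ^ i := by rw [pow_succ, mul_two]
  simp only [hk2] at hD
  have hk1 : 1 ≤ 2 ^ i := Nat.one_le_two_pow
  have hkL : 2 ^ i ≤ 2 ^ L := Nat.pow_le_pow_right (by norm_num) hi.le
  generalize 2 ^ i = k at hD hk1 hkL
  have hDD : Dk (k + k) = av fun τ : Fin k → Z => av fun σ : Fin k → Z =>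
      (finrank F ↥(sp k τ ⊔ sp k σ) : ℝ) := by
    have e1 := av_congr (Fin.appendEquiv (α := Z) k k)
      fun τ : Fin (k + k) → Z => (finrank F (sp (k + k) τ) : ℝ)
    have e2 : Dk (k + k) = av fun x : (Fin k → Z) × (Fin k → Z) =>
        (finrank F ↥(sp k x.1 ⊔ sp k x.2) : ℝ) := by
      refine e1.symm.trans (congrArg av (funext fun x => ?_))
      have : sp (k + k) (Fin.appendEquiv k k x) = sp k x.1 ⊔ sp k x.2 := SReg_append K x.1 x.2
      rw [this]
    rw [e2, av_prod]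
  have hav : (av fun τ : Fin k → Z => av fun σ : Fin k → Z =>
      2 * (finrank F ↥(sp k τ ⊔ sp k σ) : ℝ) - finrank F (sp k τ) - finrank F (sp k σ)) =
      2 * Dk (k + k) - Dk k - Dk k := by
    simp only [av_sub, av_mul_left, av_const, hDD]
    rfl
  obtain ⟨τ, hτ⟩ := exists_le_av fun τ : Fin k → Z => av fun σ : Fin k → Z =>
      2 * (finrank F ↥(sp k τ ⊔ sp k σ) : ℝ) - finrank F (sp k τ) - finrank F (sp k σ)
  rw [hav] at hτ
  refine ⟨k, sp k τ, hk1, hkL, ?_⟩
  set A : Set (Fin k → Z) := {σ | Close s (sp k τ) (⨆ i, K (σ i))} with hA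
  have h1 : av (fun σ : Fin k → Z => ((s : ℝ) + 1) * (1 - A.indicator (fun _ => (1 : ℝ)) σ)) ≤
      2 * Dk (k + k) - Dk k - Dk k := by
    refine le_trans (av_mono fun σ => ?_) hτ
    rw [Set.indicator_apply]
    exact SReg_gap s (sp k τ) (sp k σ) (σ ∈ A) fun h => h
  rw [av_mul_left, av_sub, av_const, av_indicator] at h1
  have hs' : (4 : ℝ) * finrank F W ≤ L * s := by exact_mod_cast hs
  have h2 : (finrank F W : ℝ) / L ≤ s / 4 := by
    rw [div_le_div_iff₀ hLr (by norm_num)]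
    linarith
  have hN : (0 : ℝ) < Nat.card (Fin k → Z) := by exact_mod_cast Nat.card_pos
  have hs0 : (0 : ℝ) ≤ s := Nat.cast_nonneg s
  have h3 : (1 : ℝ) / 2 ≤ A.ncard / Nat.card (Fin k → Z) := by
    by_contra hc
    push Not at hc
    nlinarith
  rw [div_le_div_iff₀ (by norm_num) hN] at h3
  have h4 : Nat.card (Fin k → Z) = Nat.card Z ^ k := by
    rw [Nat.card_fun, Nat.card_eq_fintype_card (α := Fin k), Fintype.card_fin]
  rw [← h4]
  have : (Nat.card (Fin k → Z) : ℝ) ≤ 2 * A.ncard := by linarith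
  exact_mod_cast this

theorem reg_shift {Z : Type} [AddCommGroup Z] [Finite Z] (Gd : Set Z) (K : Z → Submodule F W)
    {L s : ℕ} (hL : 1 ≤ L) (hG : Nat.card Z ≤ L * Gd.ncard) (hs : 4 * finrank F W ≤ L * s) :
    ∃ (d : Fin (2 ^ L) → Z) (X : Submodule F W), Nat.card Z ≤
      2 * L ^ 2 ^ L * {u | (∀ i, u + d i ∈ Gd) ∧ Close s X (⨆ i, K (u + d i))}.ncard := by
  classical
  have hZ : 0 < Nat.card Z := Nat.card_pos
  have hne : Gd.Nonempty := by
    apply Set.nonempty_of_ncard_ne_zero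
    intro h0
    rw [h0] at hG
    omega
  have : Nonempty Gd := hne.to_subtype
  obtain ⟨k, X, hk1, hkL, hk⟩ := reg (Z := Gd) (fun z => K z.1) hL hs
  set Good : Set (Fin k → Z) := {τ | (∀ i, τ i ∈ Gd) ∧ Close s X (⨆ i, K (τ i))} with hGood
  have h1 : {τ : Fin k → Gd | Close s X (⨆ i, K (τ i).1)}.ncard ≤ Good.ncard := by
    refine Set.ncard_le_ncard_of_injOn (fun τ i => (τ i).1) (fun τ hτ => ⟨fun i => (τ i).2, hτ⟩)
      (fun τ _ σ _ h => funext fun i => Subtype.ext (congrFun h i)) (Set.toFinite _)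
  have h2 : Nat.card Z ^ k ≤ 2 * L ^ k * Good.ncard := by
    calc Nat.card Z ^ k ≤ (L * Gd.ncard) ^ k := Nat.pow_le_pow_left hG k
      _ = L ^ k * Nat.card Gd ^ k := by rw [mul_pow, Nat.card_coe_set_eq]
      _ ≤ L ^ k * (2 * Good.ncard) :=
        Nat.mul_le_mul_left _ (hk.trans (Nat.mul_le_mul_left 2 h1))
      _ = 2 * L ^ k * Good.ncard := by ring
  have h4 : Nat.card (Fin k → Z) = Nat.card Z ^ k := by
    rw [Nat.card_fun, Nat.card_eq_fintype_card (α := Fin k), Fintype.card_fin]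
  have hav : (av fun d : Fin k → Z => av fun u : Z =>
      Good.indicator (fun _ => (1 : ℝ)) fun i => u + d i) =
      Good.ncard / Nat.card (Fin k → Z) := by
    rw [av_comm]
    have e : ∀ u : Z, (av fun d : Fin k → Z =>
        Good.indicator (fun _ => (1 : ℝ)) fun i => u + d i) =
        Good.ncard / Nat.card (Fin k → Z) := fun u => by
      rw [← av_indicator]
      exact av_congr (Equiv.addLeft (fun _ : Fin k => u)) (Good.indicator fun _ => (1 : ℝ))
    simp only [e, av_const]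
  obtain ⟨d, hd⟩ := exists_av_le fun d : Fin k → Z => av fun u : Z =>
      Good.indicator (fun _ => (1 : ℝ)) fun i => u + d i
  rw [hav] at hd
  have : Nonempty (Fin k) := ⟨⟨0, hk1⟩⟩
  have hsurj : Function.Surjective (Function.invFun (Fin.castLE hkL)) :=
    Function.invFun_surjective (Fin.castLE_injective hkL)
  generalize Function.invFun (Fin.castLE hkL) = π at hsurj
  refine ⟨fun j => d (π j), X, ?_⟩
  have hset : {u | (∀ j, u + d (π j) ∈ Gd) ∧ Close s X (⨆ j, K (u + d (π j)))} =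
      {u | (fun i => u + d i) ∈ Good} := by
    ext u
    rw [Set.mem_ofPred_eq, Set.mem_ofPred_eq, hGood, Set.mem_ofPred_eq,
      hsurj.iSup_comp fun i => K (u + d i), hsurj.forall (p := fun i => u + d i ∈ Gd)]
  rw [hset]
  have hind : (fun u : Z => Good.indicator (fun _ => (1 : ℝ)) fun i => u + d i) =
      {u | (fun i => u + d i) ∈ Good}.indicator fun _ => (1 : ℝ) := by
    funext u
    simp only [Set.indicator_apply, Set.mem_ofPred_eq]
  rw [hind, av_indicator, h4] at hd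
  generalize {u | (fun i => u + d i) ∈ Good}.ncard = m at hd
  have hZr : (0 : ℝ) < Nat.card Z := by exact_mod_cast hZ
  rw [div_le_div_iff₀ (by exact_mod_cast pow_pos hZ k) hZr] at hd
  have hd' : Good.ncard * Nat.card Z ≤ m * Nat.card Z ^ k := by exact_mod_cast hd
  have h5 : Nat.card Z ^ k * Nat.card Z ≤ Nat.card Z ^ k * (2 * L ^ k * m) := by
    calc Nat.card Z ^ k * Nat.card Z ≤ 2 * L ^ k * Good.ncard * Nat.card Z :=
          Nat.mul_le_mul_right _ h2
      _ = 2 * L ^ k * (Good.ncard * Nat.card Z) := by ring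
      _ ≤ 2 * L ^ k * (m * Nat.card Z ^ k) := Nat.mul_le_mul_left _ hd'
      _ = Nat.card Z ^ k * (2 * L ^ k * m) := by ring
  have h6 := Nat.le_of_mul_le_mul_left h5 (pow_pos hZ k)
  exact h6.trans (Nat.mul_le_mul_right _
    (Nat.mul_le_mul_left 2 (Nat.pow_le_pow_right hL hkL)))

theorem exists_span (A : Set W) {r : ℕ} (h : Nat.card W ≤ 2 ^ r * A.ncard) :
    ∃ e : Fin (finrank F W) → W, Submodule.span F (Set.range e) = ⊤ ∧
      finrank F W ≤ {i | e i ∈ A}.ncard + r := by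
  classical
  have : Module.Finite F W := Module.Finite.of_finite
  obtain ⟨b, hb, h1, h2⟩ := exists_linearIndependent F A
  let B := Basis.extend (K := F) (s := b) h2
  let B' := B.reindex (B.indexEquiv (Module.finBasis F W))
  have h3 : b ⊆ B' '' {i | B' i ∈ A} := fun x hx => by
    have h4 : x ∈ Set.range B' := by
      rw [Basis.range_reindex]
      exact (Basis.range_extend (K := F) (s := b) h2).ge
        (Basis.subset_extend (K := F) (s := b) h2 hx)
    obtain ⟨i, rfl⟩ := h4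
    exact ⟨i, hb hx, rfl⟩
  have h4 : finrank F (Submodule.span F A) ≤ {i | B' i ∈ A}.ncard := by
    have := Fintype.ofFinite b
    rw [← h1]
    refine (finrank_span_le_card b).trans ?_
    rw [← Set.ncard_eq_toFinset_card']
    exact (Set.ncard_le_ncard h3 (Set.toFinite _)).trans (Set.ncard_image_le (Set.toFinite _))
  have h5 : A.ncard ≤ 2 ^ finrank F (Submodule.span F A) := by
    rw [← card_V]
    exact Set.ncard_le_ncard (Submodule.subset_span (R := F)) (Set.toFinite _)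
  refine ⟨B', B'.span_eq, ?_⟩
  have h6 := h.trans (Nat.mul_le_mul_left _ h5)
  rw [card_V, ← pow_add, Nat.pow_le_pow_iff_right one_lt_two] at h6
  omega

end Pool.Agent.P.MP_cb6780_lc
end

-- part Pool.Agent.P.MP_cb6780_lc.SCnt
section

set_option autoImplicit false

/-! Counting linear families of quadratic functions with many forms of large corank. -/

namespace Pool.Agent.P.MP_cb6780_lc

open Module

/-- linear families of quadratic functions -/
abbrev Hm (Z W : Type) [AddCommGroup Z] [Module F Z] [AddCommGroup W] := Z →ₗ[F] P W 3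

/-- families in which a share `1 / L` of the forms has corank at least `κ` -/
def Lo (Z W : Type) [AddCommGroup Z] [Module F Z] [AddCommGroup W] [Module F W] (L κ : ℕ) :
    Set (Hm Z W) :=
  {Q | Nat.card Z ≤ L * {u | κ ≤ finrank F (LinearMap.ker (bf (Q u).1))}.ncard}

variable {Z W : Type} [AddCommGroup Z] [Module F Z] [Finite Z] [AddCommGroup W] [Module F W]
  [Finite W]

theorem fin_Hm : Finite (Hm Z W) := DFunLike.finite _

theorem card_Hm : Nat.card (Hm Z W) = cP (finrank F W) 3 ^ finrank F Z := by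
  have := @fin_Hm Z W _ _ _ _ _ _
  have : Module.Finite F Z := Module.Finite.of_finite
  have : Module.Finite F (P W 3) := Module.Finite.of_finite
  rw [← card_P, card_V (V := Hm Z W), card_V (V := P W 3), Module.finrank_linearMap, ← pow_mul,
    mul_comm]

theorem SCnt_fin_sub : Finite (Submodule F W) :=
  Finite.of_injective (fun X : Submodule F W => (X : Set W)) SetLike.coe_injective

theorem SCnt_card_sub : Nat.card (Submodule F W) ≤ 2 ^ (2 * finrank F W * finrank F W) := by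
  have : Module.Finite F W := Module.Finite.of_finite
  have h := close_count (finrank F W) (⊥ : Submodule F W)
  have e : {Y | Close (finrank F W) (⊥ : Submodule F W) Y} = Set.univ := by
    refine Set.eq_univ_of_forall fun Y => ⟨?_, ?_⟩
    · exact le_trans (Submodule.finrank_le _) (Nat.le_add_left _ _)
    · exact le_trans (Submodule.finrank_le _) (Nat.le_add_left _ _)
  rwa [e, Set.ncard_univ] at h

theorem level_close {k s κ H : ℕ} (hk : 1 ≤ k) (A : Fin k → Bil W) (hA : ∀ i x y, A i x y = A i y x)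
    (X : Submodule F W) (hH : 2 * H ≤ κ * finrank F W) :
    {q : W → F | q ∈ P W 3 ∧ (∀ a, κ ≤ finrank F (kr q (A a))) ∧
        Close s X (⨆ a, kr q (A a))}.ncard * 2 ^ H ≤
      cP (finrank F W) 3 * (k ^ finrank F W * 2 ^ (2 * s * finrank F W + 2 * finrank F W + 3)) := by
  have := @SCnt_fin_sub W _ _ _
  have h1 := fib_le
    {q : W → F | q ∈ P W 3 ∧ (∀ a, κ ≤ finrank F (kr q (A a))) ∧ Close s X (⨆ a, kr q (A a))}
    {Y | Close s X Y} (fun q => ⨆ a, kr q (A a))
    (cP (finrank F W) 3 * (k ^ finrank F W * 2 ^ (2 * finrank F W + 3)) / 2 ^ H)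
    (fun q hq => hq.2.2) (fun Y _ => by
      rw [Nat.le_div_iff_mul_le (by positivity)]
      refine le_trans (Nat.mul_le_mul_right _ (Set.ncard_le_ncard ?_ (Set.toFinite _)))
        (level hk A hA Y hH)
      rintro q ⟨hq, hY⟩
      exact ⟨hq.1, hq.2.1, hY⟩)
  have h2 := close_count s X
  have h3 := Nat.div_mul_le_self
    (cP (finrank F W) 3 * (k ^ finrank F W * 2 ^ (2 * finrank F W + 3))) (2 ^ H)
  calc _ ≤ (2 ^ (2 * s * finrank F W) *
        (cP (finrank F W) 3 * (k ^ finrank F W * 2 ^ (2 * finrank F W + 3)) / 2 ^ H)) * 2 ^ H :=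
        Nat.mul_le_mul_right _ (h1.trans (Nat.mul_le_mul_right _ h2))
    _ ≤ 2 ^ (2 * s * finrank F W) *
        (cP (finrank F W) 3 * (k ^ finrank F W * 2 ^ (2 * finrank F W + 3))) := by
        rw [mul_assoc]
        exact Nat.mul_le_mul_left _ h3
    _ = _ := by ring

theorem span_count {p r H E : ℕ} (e : Fin p → Z) (he : Submodule.span F (Set.range e) = ⊤)
    (I : Set (Fin p)) (hI : p ≤ I.ncard + r) (C : Set (W → F))
    (hC : C.ncard * 2 ^ H ≤ cP (finrank F W) 3 * 2 ^ E) :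
    {Q : Hm Z W | ∀ i ∈ I, (Q (e i)).1 ∈ C}.ncard * 2 ^ (p * H) ≤
      cP (finrank F W) 3 ^ p * 2 ^ (p * E + r * H) := by
  classical
  have := @fin_Hm Z W _ _ _ _ _ _
  let T : Fin p → Set (W → F) := fun i => if i ∈ I then C ∩ (P W 3 : Set (W → F)) else P W 3
  have h1 : {Q : Hm Z W | ∀ i ∈ I, (Q (e i)).1 ∈ C}.ncard ≤ ∏ i, (T i).ncard := by
    let Φ : {Q : Hm Z W | ∀ i ∈ I, (Q (e i)).1 ∈ C} → ∀ i, T i := fun Q i =>
      ⟨(Q.1 (e i)).1, by
        by_cases hi : i ∈ I
        · simp only [T, if_pos hi]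
          exact ⟨Q.2 i hi, (Q.1 (e i)).2⟩
        · simp only [T, if_neg hi]
          exact (Q.1 (e i)).2⟩
    have hΦ : Function.Injective Φ := by
      intro Q Q' hQ
      refine Subtype.ext (LinearMap.ext_on_range he fun i => Subtype.ext ?_)
      have h7 : (Φ Q i).1 = (Φ Q' i).1 := by rw [hQ]
      exact h7
    have h2 := Nat.card_le_card_of_injective Φ hΦ
    rw [Nat.card_pi] at h2
    simpa only [Nat.card_coe_set_eq] using h2
  have h2 : ∀ i, (T i).ncard * 2 ^ H ≤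
      cP (finrank F W) 3 * 2 ^ E * (if i ∈ I then 1 else 2 ^ H) := by
    intro i
    by_cases hi : i ∈ I
    · simp only [T, if_pos hi, mul_one]
      exact le_trans (Nat.mul_le_mul_right _
        (Set.ncard_le_ncard Set.inter_subset_left (Set.toFinite _))) hC
    · simp only [T, if_neg hi]
      rw [ncard_P]
      exact Nat.mul_le_mul_right _ (Nat.le_mul_of_pos_right _ (by positivity))
  have h3 : ∏ i : Fin p, (if i ∈ I then 1 else 2 ^ H) ≤ 2 ^ (r * H) := by
    rw [Finset.prod_ite, Finset.prod_const_one, one_mul, Finset.prod_const, ← pow_mul, mul_comm H]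
    refine Nat.pow_le_pow_right (by norm_num) (Nat.mul_le_mul_right _ ?_)
    have h4 := Finset.card_filter_add_card_filter_not (s := (Finset.univ : Finset (Fin p)))
      (fun i => i ∈ I)
    have h5 : (Finset.univ.filter fun i : Fin p => i ∈ I).card = I.ncard := by
      rw [← Set.ncard_coe_finset]
      congr 1
      ext i
      simp
    rw [Finset.card_univ, Fintype.card_fin, h5] at h4
    omega
  calc _ ≤ (∏ i, (T i).ncard) * 2 ^ (p * H) := Nat.mul_le_mul_right _ h1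
    _ = ∏ i, ((T i).ncard * 2 ^ H) := by
        rw [Finset.prod_mul_distrib, Finset.prod_const, Finset.card_univ, Fintype.card_fin,
          ← pow_mul, mul_comm H]
    _ ≤ ∏ i : Fin p, (cP (finrank F W) 3 * 2 ^ E * (if i ∈ I then 1 else 2 ^ H)) :=
        Finset.prod_le_prod' fun i _ => h2 i
    _ = (cP (finrank F W) 3 * 2 ^ E) ^ p * ∏ i : Fin p, (if i ∈ I then 1 else 2 ^ H) := by
        rw [Finset.prod_mul_distrib, Finset.prod_const, Finset.card_univ, Fintype.card_fin]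
    _ ≤ (cP (finrank F W) 3 * 2 ^ E) ^ p * 2 ^ (r * H) := Nat.mul_le_mul_left _ h3
    _ = _ := by ring

theorem cnt {L s κ H p w : ℕ} (hp : finrank F Z = p) (hw : finrank F W = w) (hL : 1 ≤ L)
    (hs : 4 * w ≤ L * s) (hH : 2 * H ≤ κ * w) (hκ : κ ≤ w) :
    (Lo Z W L κ).ncard * 2 ^ (p * H) ≤ cP w 3 ^ p *
      2 ^ (p * 2 ^ L + 2 * w * w + p * p + p + 2 ^ L * (w + 1 + w * w) +
        p * (L * w + (2 * s * w + 2 * w + 3)) + (L * 2 ^ L + 1) * (w * w)) := by
  subst hp hw
  have := @fin_Hm Z W _ _ _ _ _ _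
  have := @SCnt_fin_sub W _ _ _
  let Cs : Submodule F W → (Fin (2 ^ L) → P W 3) → Set (W → F) := fun X v =>
    {q : W → F | q ∈ P W 3 ∧ (∀ a, κ ≤ finrank F (kr q (bf (v a).1))) ∧
      Close s X (⨆ a, kr q (bf (v a).1))}
  have hCs : ∀ X v, (Cs X v).ncard * 2 ^ H ≤ cP (finrank F W) 3 *
      2 ^ (L * finrank F W + (2 * s * finrank F W + 2 * finrank F W + 3)) := by
    intro X v
    have h := level_close (s := s) (Nat.one_le_two_pow (n := L)) (fun a => bf (v a).1)
      (fun a x y => bf_symm (v a).2 x y) X hH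
    rwa [← pow_mul, ← pow_add] at h
  have hcov := cover_le (Lo Z W L κ)
    {y : Submodule F W × (Fin (finrank F Z) → Z) × Set (Fin (finrank F Z)) ×
        (Fin (2 ^ L) → P W 3) |
      Submodule.span F (Set.range y.2.1) = ⊤ ∧ finrank F Z ≤ y.2.2.1.ncard + (L * 2 ^ L + 1)}
    (fun y => {Q : Hm Z W | ∀ i ∈ y.2.2.1, (Q (y.2.1 i)).1 ∈ Cs y.1 y.2.2.2})
    (cP (finrank F W) 3 ^ finrank F Z * 2 ^ (finrank F Z *
      (L * finrank F W + (2 * s * finrank F W + 2 * finrank F W + 3)) + (L * 2 ^ L + 1) * H) /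
        2 ^ (finrank F Z * H))
    (fun Q hQ => by
      obtain ⟨d, X, hd⟩ := reg_shift {u | κ ≤ finrank F (LinearMap.ker (bf (Q u).1))}
        (fun u => LinearMap.ker (bf (Q u).1)) hL hQ hs
      have hr : 2 * L ^ 2 ^ L ≤ 2 ^ (L * 2 ^ L + 1) := by
        rw [pow_succ, mul_comm, pow_mul]
        exact Nat.mul_le_mul_right _ (Nat.pow_le_pow_left Nat.lt_two_pow_self.le _)
      obtain ⟨e, he, hI⟩ := exists_span _ (hd.trans (Nat.mul_le_mul_right _ hr))
      refine ⟨(X, e, _, fun a => Q (d a)), ⟨he, hI⟩, fun i hi => ?_⟩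
      have hk : ∀ a, kr (Q (e i)).1 (bf (Q (d a)).1) = LinearMap.ker (bf (Q (e i + d a)).1) := by
        intro a
        rw [map_add, Submodule.coe_add, bf_add (Q (e i)).2 (Q (d a)).2, kr]
      refine ⟨(Q (e i)).2, fun a => ?_, ?_⟩
      · show κ ≤ finrank F (kr (Q (e i)).1 (bf (Q (d a)).1))
        rw [hk a]
        exact hi.1 a
      · show Close s X (⨆ a, kr (Q (e i)).1 (bf (Q (d a)).1))
        rw [iSup_congr hk]
        exact hi.2)
    (fun y hy => by
      rw [Nat.le_div_iff_mul_le (by positivity)]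
      exact span_count y.2.1 hy.1 y.2.2.1 hy.2 _ (hCs y.1 y.2.2.2))
  have hP : cP (finrank F W) 3 ≤ 2 ^ (finrank F W + 1 + finrank F W * finrank F W) := by
    have h3 : cP (finrank F W) 3 = 2 ^ (finrank F W + 1 + (finrank F W).choose 2) := by
      simp [cP, Finset.sum_range_succ, add_comm]
    rw [h3]
    refine Nat.pow_le_pow_right (by norm_num) (Nat.add_le_add_left ?_ _)
    have := Nat.choose_le_pow (finrank F W) 2
    rwa [sq] at this
  have hT : Nat.card (Submodule F W × (Fin (finrank F Z) → Z) × Set (Fin (finrank F Z)) ×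
      (Fin (2 ^ L) → P W 3)) ≤ 2 ^ (2 * finrank F W * finrank F W) *
        (2 ^ (finrank F Z * finrank F Z) * (2 ^ finrank F Z *
          2 ^ (2 ^ L * (finrank F W + 1 + finrank F W * finrank F W)))) := by
    rw [Nat.card_prod, Nat.card_prod, Nat.card_prod]
    refine Nat.mul_le_mul SCnt_card_sub (Nat.mul_le_mul ?_ (Nat.mul_le_mul ?_ ?_))
    · rw [Nat.card_fun, card_V (V := Z), Nat.card_eq_fintype_card, Fintype.card_fin, ← pow_mul]
    · rw [Nat.card_eq_fintype_card, Fintype.card_set, Fintype.card_fin]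
    · rw [Nat.card_fun, card_P, Nat.card_eq_fintype_card, Fintype.card_fin, mul_comm, pow_mul]
      exact Nat.pow_le_pow_left hP _
  have hT2 := (Set.ncard_le_card
    {y : Submodule F W × (Fin (finrank F Z) → Z) × Set (Fin (finrank F Z)) ×
        (Fin (2 ^ L) → P W 3) |
      Submodule.span F (Set.range y.2.1) = ⊤ ∧
        finrank F Z ≤ y.2.2.1.ncard + (L * 2 ^ L + 1)}).trans hT
  have hHw : H ≤ finrank F W * finrank F W := by
    have := Nat.mul_le_mul_right (finrank F W) hκ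
    omega
  have hdiv := Nat.div_mul_le_self (cP (finrank F W) 3 ^ finrank F Z * 2 ^ (finrank F Z *
      (L * finrank F W + (2 * s * finrank F W + 2 * finrank F W + 3)) + (L * 2 ^ L + 1) * H))
    (2 ^ (finrank F Z * H))
  have hfin := (Nat.mul_le_mul_right (2 ^ (finrank F Z * H))
    (hcov.trans (Nat.mul_le_mul_right _ hT2))).trans
    (le_of_eq_of_le (mul_assoc _ _ _) (Nat.mul_le_mul_left _ hdiv))
  refine hfin.trans ?_
  rw [← pow_add, ← pow_add, ← pow_add, mul_left_comm, ← pow_add]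
  refine Nat.mul_le_mul_left _ (Nat.pow_le_pow_right (by norm_num) ?_)
  have h6 := Nat.mul_le_mul_left (L * 2 ^ L + 1) hHw
  omega

end Pool.Agent.P.MP_cb6780_lc
end

-- part Pool.Agent.P.MP_cb6780_lc.SMom
section

set_option autoImplicit false

/-! The moment of the biases of a random linear family of quadratic functions. -/

namespace Pool.Agent.P.MP_cb6780_lc

open Module

/-- the moment -/
noncomputable def Mom (p : ℕ) (W : Type) [AddCommGroup W] (t : ℕ) : ℝ :=
  av fun Q : Hm (Fin p → F) W => ∏ u, bias (Q u).1 ^ (2 * t)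

theorem SMom_real {t S N b d p w L : ℝ} (ht0 : 0 ≤ t) (hd : 0 ≤ d) (hdw : d ≤ w) (hp : 0 ≤ p)
    (hL : 1 ≤ L) (hS : S + b * d = N * d) (hb : L * b ≤ N) (ht : p * w ≤ 2 * N * t) :
    -(t * S) ≤ -(p * w * d / 2) + p * w ^ 2 / (2 * L) := by
  have hL0 : 0 < L := by linarith
  have hw : 0 ≤ w := hd.trans hdw
  set x : ℝ := 1 / L with hx
  have hx0 : 0 < x := by positivity
  have hx1 : x ≤ 1 := by rw [hx, div_le_one hL0]; exact hL
  have hbx : b ≤ N * x := by
    rw [hx, mul_one_div, le_div_iff₀ hL0, mul_comm]; exact hb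
  have e1 : p * w ^ 2 / (2 * L) = p * w * w * x / 2 := by rw [hx]; field_simp
  have e2 : S = d * (N - b) := by linarith
  have h1 : t * d * (N * (1 - x)) ≤ t * d * (N - b) :=
    mul_le_mul_of_nonneg_left (by linarith) (mul_nonneg ht0 hd)
  have h2 : p * w * (d * (1 - x)) ≤ 2 * N * t * (d * (1 - x)) :=
    mul_le_mul_of_nonneg_right ht (mul_nonneg hd (by linarith))
  have h3 : p * w * x * d ≤ p * w * x * w :=
    mul_le_mul_of_nonneg_left hdw (mul_nonneg (mul_nonneg hp hw) hx0.le)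
  rw [e1, e2]
  nlinarith

theorem mom_pt {W : Type} [AddCommGroup W] [Module F W] [Finite W] {p L t w : ℕ}
    (hw : finrank F W = w) (hL : 1 ≤ L) (ht : p * w ≤ 2 ^ (p + 1) * t) (Q : Hm (Fin p → F) W) :
    ∃ κ, κ ≤ w ∧ Q ∈ Lo (Fin p → F) W L κ ∧ ∏ u, bias (Q u).1 ^ (2 * t) ≤
      (2 : ℝ) ^ (-((p : ℝ) * w * (w - κ) / 2) + p * w ^ 2 / (2 * L)) := by
  classical
  have h0 : Q ∈ Lo (Fin p → F) W L 0 := by
    show Nat.card (Fin p → F) ≤ L * {u | 0 ≤ finrank F (LinearMap.ker (bf (Q u).1))}.ncard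
    simp only [Nat.zero_le, Set.ofPred_true, Set.ncard_univ]
    exact Nat.le_mul_of_pos_left _ hL
  obtain ⟨κ, hκw, hlo, hgr⟩ : ∃ κ, κ ≤ w ∧ Q ∈ Lo (Fin p → F) W L κ ∧
      (κ + 1 ≤ w → Q ∉ Lo (Fin p → F) W L (κ + 1)) :=
    ⟨Nat.findGreatest (fun κ => Q ∈ Lo (Fin p → F) W L κ) w, Nat.findGreatest_le w,
      Nat.findGreatest_spec (P := fun κ => Q ∈ Lo (Fin p → F) W L κ) (Nat.zero_le w) h0,
      fun h => Nat.findGreatest_is_greatest (P := fun κ => Q ∈ Lo (Fin p → F) W L κ)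
        (Nat.lt_succ_self _) h⟩
  refine ⟨κ, hκw, hlo, ?_⟩
  set B : Set (Fin p → F) := {u | κ + 1 ≤ finrank F (LinearMap.ker (bf (Q u).1))} with hB
  have hN : Nat.card (Fin p → F) = 2 ^ p := by rw [card_V, finrank_fin_fun]
  have hBL : L * B.ncard ≤ 2 ^ p := by
    by_cases h : κ + 1 ≤ w
    · have h1 : ¬ Nat.card (Fin p → F) ≤ L * B.ncard := hgr h
      rw [← hN]
      exact (not_le.1 h1).le
    · have h1 : B = ∅ := by
        refine Set.eq_empty_of_forall_notMem fun u hu => ?_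
        have h2 : κ + 1 ≤ finrank F (LinearMap.ker (bf (Q u).1)) := hu
        have h3 := rk_ker (bf (Q u).1)
        omega
      rw [h1, Set.ncard_empty, mul_zero]
      exact Nat.zero_le _
  let r : (Fin p → F) → ℕ := fun u => if u ∈ B then 0 else w - κ
  have hr : ∀ u, r u ≤ rk (bf (Q u).1) := fun u => by
    by_cases h : u ∈ B
    · simp only [r, h, if_true]; exact Nat.zero_le _
    · have h2 : ¬ κ + 1 ≤ finrank F (LinearMap.ker (bf (Q u).1)) := h
      have h3 := rk_ker (bf (Q u).1)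
      simp only [r, h, if_false]
      omega
  have hpt : ∀ u, bias (Q u).1 ^ (2 * t) ≤ (1 / 2 : ℝ) ^ (t * r u) := fun u => by
    have h1 : bias (Q u).1 ^ 2 ≤ (1 / 2 : ℝ) ^ r u := by
      refine (bias_sq_le_rk (Q u).2).trans ?_
      rw [← one_div_pow]
      exact pow_le_pow_of_le_one (by norm_num) (by norm_num) (hr u)
    rw [pow_mul, mul_comm t, pow_mul]
    exact pow_le_pow_left₀ (sq_nonneg _) h1 t
  have hsum : ∑ u, r u + B.ncard * (w - κ) = 2 ^ p * (w - κ) := by
    have h1 : ∑ u, (if u ∈ B then w - κ else 0) = B.ncard * (w - κ) := by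
      rw [← Finset.sum_filter, Finset.sum_const, smul_eq_mul, Set.ncard_eq_toFinset_card' B]
      congr 2
      ext u
      simp
    have h2 : ∀ u, r u + (if u ∈ B then w - κ else 0) = w - κ := fun u => by
      by_cases h : u ∈ B <;> simp [r, h]
    rw [← h1, ← Finset.sum_add_distrib]
    simp only [h2, Finset.sum_const, Finset.card_univ, smul_eq_mul]
    rw [← Nat.card_eq_fintype_card, hN]
  have hprod : ∏ u, bias (Q u).1 ^ (2 * t) ≤ (1 / 2 : ℝ) ^ (t * ∑ u, r u) := by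
    rw [Finset.mul_sum, ← Finset.prod_pow_eq_pow_sum]
    exact Finset.prod_le_prod (fun u _ => by rw [pow_mul]; positivity) fun u _ => hpt u
  refine hprod.trans ?_
  have e1 : (1 / 2 : ℝ) ^ (t * ∑ u, r u) = (2 : ℝ) ^ (-((t : ℝ) * ((∑ u, r u : ℕ) : ℝ))) := by
    rw [Real.rpow_neg (by norm_num), ← Nat.cast_mul, Real.rpow_natCast, one_div, inv_pow]
  rw [e1]
  refine Real.rpow_le_rpow_of_exponent_le (by norm_num) ?_
  have c1 : (((∑ u, r u : ℕ) : ℝ)) + (B.ncard : ℝ) * ((w : ℝ) - κ) = (2 : ℝ) ^ p * ((w : ℝ) - κ) := by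
    rw [← Nat.cast_sub hκw]
    exact_mod_cast hsum
  have c2 : (L : ℝ) * (B.ncard : ℝ) ≤ (2 : ℝ) ^ p := by exact_mod_cast hBL
  have c3 : (p : ℝ) * w ≤ 2 * (2 : ℝ) ^ p * t := by
    rw [← pow_succ']
    exact_mod_cast ht
  have c4 : (κ : ℝ) ≤ w := by exact_mod_cast hκw
  have c5 : (0 : ℝ) ≤ κ := Nat.cast_nonneg _
  exact SMom_real (Nat.cast_nonneg _) (by linarith) (by linarith) (Nat.cast_nonneg _)
    (by exact_mod_cast hL) c1 c2 c3

theorem SMom_nat {L K A p s w : ℕ} (hK : K = 3 + A + L * A) (hp : p = L * K)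
    (hs : L * s ≤ 4 * w + L) (hw : p * A + p * p + 2 * A + p * L + 9 * p + 1 ≤ w) :
    p * A + 2 * w * w + p * p + p + A * (w + 1 + w * w) +
        p * (L * w + (2 * s * w + 2 * w + 3)) + (L * A + 1) * (w * w) + p + w ≤ 10 * K * (w * w) := by
  have hw1 : 1 ≤ w := le_trans (Nat.le_add_left _ _) hw
  have h1 : p * (2 * s * w) ≤ 8 * K * (w * w) + 2 * p * w := by
    calc p * (2 * s * w) = 2 * K * w * (L * s) := by rw [hp]; ring
      _ ≤ 2 * K * w * (4 * w + L) := Nat.mul_le_mul_left _ hs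
      _ = 8 * K * (w * w) + 2 * p * w := by rw [hp]; ring
  have h2 : p * A + p * p + A + 5 * p ≤ (p * A + p * p + A + 5 * p) * w :=
    Nat.le_mul_of_pos_right _ hw1
  have h3 : (p * A + p * p + 2 * A + p * L + 9 * p + 1) * w ≤ w * w := Nat.mul_le_mul_right _ hw
  have h4 : w * w ≤ K * (w * w) := Nat.le_mul_of_pos_left _ (by omega)
  have h5 : K * (w * w) = 2 * w * w + A * (w * w) + (L * A + 1) * (w * w) := by rw [hK]; ring
  nlinarith

theorem mom {L : ℕ} (hL : 1 ≤ L) : ∃ p w0 : ℕ, 1 ≤ p ∧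
    ∀ (W : Type) [AddCommGroup W] [Module F W] [Finite W] (w t : ℕ), finrank F W = w → w0 ≤ w →
      p * w ≤ 2 ^ (p + 1) * t →
      Mom p W t ≤ (2 : ℝ) ^ (-((p : ℝ) * w ^ 2 / 2) + 12 * p * w ^ 2 / L) := by
  obtain ⟨K, hK⟩ : ∃ K, K = 3 + 2 ^ L + L * 2 ^ L := ⟨_, rfl⟩
  obtain ⟨p, hp⟩ : ∃ p, p = L * K := ⟨_, rfl⟩
  have hK0 : 0 < K := by rw [hK]; positivity
  refine ⟨p, p * 2 ^ L + p * p + 2 * 2 ^ L + p * L + 9 * p + 1, by rw [hp]; exact Nat.mul_pos hL hK0,
    fun W _ _ _ w t hw hw0 ht => ?_⟩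
  have hfin : Finite (Hm (Fin p → F) W) := fin_Hm
  have hs1 : 4 * w ≤ L * (4 * w / L + 1) := (Nat.lt_mul_div_succ _ hL).le
  have hs2 : L * (4 * w / L + 1) ≤ 4 * w + L := by
    rw [mul_add, mul_one]
    exact Nat.add_le_add_right (Nat.mul_div_le _ _) _
  have hE := SMom_nat hK hp hs2 hw0
  obtain ⟨E, hEd⟩ : ∃ E, E = p * 2 ^ L + 2 * w * w + p * p + p + 2 ^ L * (w + 1 + w * w) +
      p * (L * w + (2 * (4 * w / L + 1) * w + 2 * w + 3)) + (L * 2 ^ L + 1) * (w * w) := ⟨_, rfl⟩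
  rw [← hEd] at hE
  have hL0 : (0 : ℝ) < L := by exact_mod_cast hL
  have hcard : (Nat.card (Hm (Fin p → F) W) : ℝ) = (cP w 3 : ℝ) ^ p := by
    rw [card_Hm, hw, finrank_fin_fun, Nat.cast_pow]
  have hc0 : (0 : ℝ) < (cP w 3 : ℝ) ^ p := by
    have := cP_pos w 3
    positivity
  let c : ℕ → ℝ := fun κ => (2 : ℝ) ^ (-((p : ℝ) * w * (w - κ) / 2) + p * w ^ 2 / (2 * L))
  have hc : ∀ κ, 0 ≤ c κ := fun κ => Real.rpow_nonneg (by norm_num) _
  have h1 : ∀ Q : Hm (Fin p → F) W, ∏ u, bias (Q u).1 ^ (2 * t) ≤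
      ∑ κ ∈ Finset.range (w + 1), c κ * (Lo (Fin p → F) W L κ).indicator (fun _ => (1 : ℝ)) Q := by
    intro Q
    obtain ⟨κ, h2, h3, h4⟩ := mom_pt hw hL ht Q
    refine h4.trans (le_trans ?_ (Finset.single_le_sum
      (f := fun κ => c κ * (Lo (Fin p → F) W L κ).indicator (fun _ => (1 : ℝ)) Q)
      (fun i _ => mul_nonneg (hc i) (Set.indicator_nonneg (fun _ _ => zero_le_one) Q))
      (Finset.mem_range.2 (Nat.lt_succ_of_le h2))))
    rw [Set.indicator_of_mem h3, mul_one]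
  have h2 : ∀ κ ∈ Finset.range (w + 1),
      av (fun Q => c κ * (Lo (Fin p → F) W L κ).indicator (fun _ => (1 : ℝ)) Q) ≤
        (2 : ℝ) ^ (-((p : ℝ) * w ^ 2 / 2) + p * w ^ 2 / (2 * L) + (E + p)) := by
    intro κ hκ
    have hκw : κ ≤ w := Nat.lt_succ_iff.1 (Finset.mem_range.1 hκ)
    have h3 := cnt (Z := Fin p → F) (W := W) (H := κ * w / 2) (finrank_fin_fun F) hw hL hs1
      (Nat.mul_div_le _ _) hκw
    rw [← hEd] at h3
    have h4 : ((Lo (Fin p → F) W L κ).ncard : ℝ) * 2 ^ (p * (κ * w / 2)) ≤ (cP w 3 : ℝ) ^ p * 2 ^ E := by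
      exact_mod_cast h3
    have h5 : ((Lo (Fin p → F) W L κ).ncard : ℝ) / (cP w 3 : ℝ) ^ p ≤
        (2 : ℝ) ^ ((E : ℝ) - (p * (κ * w / 2) : ℕ)) := by
      rw [Real.rpow_sub (by norm_num), Real.rpow_natCast, Real.rpow_natCast,
        div_le_div_iff₀ hc0 (by positivity), mul_comm ((2 : ℝ) ^ E)]
      exact h4
    rw [av_mul_left, av_indicator, hcard]
    refine (mul_le_mul_of_nonneg_left h5 (hc κ)).trans ?_
    rw [← Real.rpow_add (by norm_num)]
    refine Real.rpow_le_rpow_of_exponent_le (by norm_num) ?_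
    have h6 : p * (κ * w) ≤ 2 * (p * (κ * w / 2)) + 2 * p := by
      have h7 : κ * w ≤ 2 * (κ * w / 2) + 2 := by omega
      calc p * (κ * w) ≤ p * (2 * (κ * w / 2) + 2) := Nat.mul_le_mul_left _ h7
        _ = 2 * (p * (κ * w / 2)) + 2 * p := by ring
    have h8 : (p : ℝ) * (κ * w) ≤ 2 * ((p * (κ * w / 2) : ℕ) : ℝ) + 2 * p := by exact_mod_cast h6
    nlinarith
  have h3 : ((w : ℝ) + 1) ≤ (2 : ℝ) ^ (w : ℝ) := by
    rw [Real.rpow_natCast]
    exact_mod_cast Nat.lt_two_pow_self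
  refine (av_mono h1).trans ?_
  rw [Res2_av_sum]
  refine (Finset.sum_le_card_nsmul _ _ _ h2).trans ?_
  rw [Finset.card_range, nsmul_eq_mul, Nat.cast_succ]
  refine (mul_le_mul_of_nonneg_right h3 (Real.rpow_nonneg (by norm_num) _)).trans ?_
  rw [← Real.rpow_add (by norm_num)]
  refine Real.rpow_le_rpow_of_exponent_le (by norm_num) ?_
  have e1 : (p : ℝ) = L * K := by exact_mod_cast hp
  have e2 : (p : ℝ) * w ^ 2 / (2 * L) = K * (w * w) / 2 := by rw [e1]; field_simp
  have e3 : 12 * (p : ℝ) * w ^ 2 / L = 12 * (K * (w * w)) := by rw [e1]; field_simp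
  have e4 : (E : ℝ) + p + w ≤ 10 * K * (w * w) := by exact_mod_cast hE
  have e5 : (0 : ℝ) ≤ K * (w * w) := by positivity
  rw [e2, e3]
  nlinarith

end Pool.Agent.P.MP_cb6780_lc
end

-- part Pool.Agent.P.MP_cb6780_lc.SPos
section

set_option autoImplicit false

/-! Positivity of averaged products of biases; subspaces all of whose cosets keep the bias. -/

namespace Pool.Agent.P.MP_cb6780_lc

open Module

theorem SPos_chi_sum {ι : Type} (s : Finset ι) (h : ι → F) :
    chi (∑ a ∈ s, h a) = ∏ a ∈ s, chi (h a) := by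
  classical
  induction s using Finset.induction_on with
  | empty => simp [chi_zero]
  | insert a s ha ih => rw [Finset.sum_insert ha, Finset.prod_insert ha, chi_add, ih]

theorem bias_pi {ι X : Type} [Fintype ι] [Finite X] (h : ι → X → F) :
    bias (fun x : ι → X => ∑ a, h a (x a)) = ∏ a, bias (h a) := by
  classical
  have := Fintype.ofFinite X
  unfold bias
  simp only [av_eq, SPos_chi_sum]
  rw [Finset.prod_div_distrib, Finset.prod_const, Finset.card_univ, Fintype.card_fun,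
    Finset.prod_univ_sum, Fintype.piFinset_univ]
  push_cast
  rfl

theorem SPos_av_chi_nonneg {Γ : Type} [AddCommGroup Γ] [Finite Γ] (ψ : Γ →+ F) :
    0 ≤ av fun γ => chi (ψ γ) := by
  by_cases h : ∀ γ, ψ γ = 0
  · simp only [h, chi_zero]
    rw [av_const]
    norm_num
  · push Not at h
    obtain ⟨γ0, h0⟩ := h
    have h1 : ψ γ0 = 1 := (Av_cases _).resolve_left h0
    have h2 := av_congr (Equiv.addRight γ0) fun γ => chi (ψ γ)
    simp only [Equiv.coe_addRight, map_add, h1, chi_add, chi_one, mul_comm _ (-1 : ℝ)] at h2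
    rw [av_mul_left] at h2
    linarith

theorem SPos_chi_le (a : F) : chi a ≤ 1 := (le_abs_self _).trans (abs_chi a).le

theorem av_bias_le {Γ X : Type} [AddCommGroup Γ] [Finite Γ] [Finite X] (g : X → F)
    (Φ : Γ →+ (X → F)) : av (fun γ => bias (g + Φ γ)) ≤ av fun γ => bias (Φ γ) := by
  unfold bias
  rw [av_comm fun γ x => chi ((g + Φ γ) x), av_comm fun γ x => chi (Φ γ x)]
  refine av_mono fun x => ?_
  simp only [Pi.add_apply, chi_add]
  rw [av_mul_left]
  have h := SPos_av_chi_nonneg ((Pi.evalAddMonoidHom (fun _ : X => F) x).comp Φ)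
  have h' : 0 ≤ av fun γ => chi (Φ γ x) := h
  nlinarith [SPos_chi_le (g x)]

theorem SPos_prod_pow {ι X : Type} [Fintype ι] [Finite X] (h : ι → X → F) (t : ℕ) :
    ∏ a, bias (h a) ^ t = bias fun x : ι × Fin t → X => ∑ b, h b.1 (x b) := by
  rw [bias_pi fun b : ι × Fin t => h b.1, Fintype.prod_prod_type]
  simp

theorem pos_prod {ι Γ X : Type} [Fintype ι] [AddCommGroup Γ] [Finite Γ] [Finite X]
    (g : ι → X → F) (Φ : ι → Γ →+ (X → F)) (t : ℕ) :
    av (fun γ => ∏ a, bias (g a + Φ a γ) ^ t) ≤ av fun γ => ∏ a, bias (Φ a γ) ^ t := by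
  let Ψ : Γ →+ ((ι × Fin t → X) → F) :=
    { toFun := fun γ x => ∑ b : ι × Fin t, Φ b.1 γ (x b)
      map_zero' := by funext x; simp
      map_add' := fun γ δ => by
        funext x
        simp only [map_add, Pi.add_apply, Finset.sum_add_distrib] }
  have h := av_bias_le (fun x : ι × Fin t → X => ∑ b : ι × Fin t, g b.1 (x b)) Ψ
  have h1 : ∀ γ, ∏ a, bias (g a + Φ a γ) ^ t =
      bias ((fun x : ι × Fin t → X => ∑ b : ι × Fin t, g b.1 (x b)) + Ψ γ) := fun γ => by
    rw [SPos_prod_pow fun a => g a + Φ a γ]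
    refine congrArg bias (funext fun x => ?_)
    simp only [Pi.add_apply, Finset.sum_add_distrib]
    rfl
  have h2 : ∀ γ, ∏ a, bias (Φ a γ) ^ t = bias (Ψ γ) := fun γ => SPos_prod_pow (fun a => Φ a γ) t
  rw [funext h1, funext h2]
  exact h

variable {V : Type} [AddCommGroup V] [Module F V] [Finite V]

omit [Finite V] in
theorem SPos_surj {Z : Type} [AddCommGroup Z] [Module F Z] {y : Dual F Z} (hy : y ≠ 0) :
    Function.Surjective fun φ : V →ₗ[F] Z => (y.comp φ : Dual F V) := by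
  obtain ⟨e, he⟩ := exists_eq_one hy
  intro l
  refine ⟨l.smulRight e, LinearMap.ext fun x => ?_⟩
  simp [he]

theorem SPos_card_dual : Nat.card (Dual F V) = Nat.card V := by
  have : Finite (Dual F V) := DFunLike.finite _
  have : Module.Finite F V := Module.Finite.of_finite
  rw [card_V (V := Dual F V), card_V (V := V), Subspace.dual_finrank_eq]

open Classical in
theorem SPos_mean {Z : Type} [AddCommGroup Z] [Module F Z] [Finite Z] (f : V → F) {y : Dual F Z}
    (hy : y ≠ 0) :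
    av (fun φ : V →ₗ[F] Z => bias (f + fun x => y (φ x)) ^ 2 + if y.comp φ = 0 then 1 else 0) =
      2 / Nat.card V := by
  have : Finite (Dual F V) := DFunLike.finite _
  have : Finite (V →ₗ[F] Z) := DFunLike.finite _
  let π : (V →ₗ[F] Z) →+ Dual F V :=
    { toFun := fun φ => y.comp φ
      map_zero' := by simp
      map_add' := fun a b => LinearMap.comp_add a b y }
  have h := av_surj π (SPos_surj hy)
    fun l => bias (f + fun x => l x) ^ 2 + ({0} : Set (Dual F V)).indicator (fun _ => (1 : ℝ)) l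
  rw [av_add (fun l : Dual F V => bias (f + fun x => l x) ^ 2), av_bias_sq_dual, av_indicator,
    SPos_card_dual, Set.ncard_singleton] at h
  rw [show (2 : ℝ) / Nat.card V = 1 / Nat.card V + ((1 : ℕ) : ℝ) / Nat.card V by push_cast; ring,
    ← h]
  refine congrArg av (funext fun φ => ?_)
  simp only [Set.indicator_apply, Set.mem_singleton_iff]
  rfl

theorem exists_cosets {p c : ℕ} (f : V → F) (h : 2 * c + 2 * p + 1 ≤ finrank F V) :
    ∃ φ : V →ₗ[F] (Fin p → F), Function.Surjective φ ∧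
      ∀ a, bias f - 1 / 2 ^ c ≤ bias (res (LinearMap.ker φ) a f) := by
  classical
  have : Finite (Dual F V) := DFunLike.finite _
  have : Finite (V →ₗ[F] (Fin p → F)) := DFunLike.finite _
  have : Finite (Dual F (Fin p → F)) := DFunLike.finite _
  have : Module.Finite F V := Module.Finite.of_finite
  have := Fintype.ofFinite (Dual F (Fin p → F))
  have hY : Fintype.card (Dual F (Fin p → F)) = 2 ^ p := by
    rw [← Nat.card_eq_fintype_card, SPos_card_dual, card_V]
    simp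
  set s : Finset (Dual F (Fin p → F)) := Finset.univ.erase 0 with hs
  have hsc : (s.card : ℝ) + 1 = 2 ^ p := by
    have h1 : s.card + 1 = 2 ^ p := by
      rw [hs, Finset.card_erase_add_one (Finset.mem_univ _), Finset.card_univ, hY]
    exact_mod_cast h1
  obtain ⟨φ, hφ⟩ := exists_le_av fun φ : V →ₗ[F] (Fin p → F) =>
    ∑ y ∈ s, (bias (f + fun x => y (φ x)) ^ 2 + if y.comp φ = 0 then (1 : ℝ) else 0)
  rw [Res2_av_sum s fun y (φ : V →ₗ[F] (Fin p → F)) =>
      bias (f + fun x => y (φ x)) ^ 2 + if y.comp φ = 0 then (1 : ℝ) else 0,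
    Finset.sum_congr rfl fun y hy => SPos_mean f (Finset.ne_of_mem_erase hy), Finset.sum_const,
    nsmul_eq_mul] at hφ
  have hN : (2 : ℝ) ^ (2 * c + 2 * p + 1) ≤ Nat.card V := by
    rw [card_V]
    push_cast
    exact pow_le_pow_right₀ (by norm_num) h
  have hc : (1 : ℝ) ≤ 2 ^ c := one_le_pow₀ (by norm_num)
  have hp : (1 : ℝ) ≤ 2 ^ p := one_le_pow₀ (by norm_num)
  have hN' : 2 / (Nat.card V : ℝ) ≤ (1 / 2 ^ c) ^ 2 / (2 ^ p) ^ 2 := by
    calc 2 / (Nat.card V : ℝ) ≤ 2 / 2 ^ (2 * c + 2 * p + 1) :=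
          div_le_div_of_nonneg_left (by norm_num) (by positivity) hN
      _ = (1 / 2 ^ c) ^ 2 / (2 ^ p) ^ 2 := by
          rw [pow_succ, pow_add, mul_comm 2 c, mul_comm 2 p, pow_mul, pow_mul]
          field_simp
  have hs0 : (0 : ℝ) ≤ s.card := Nat.cast_nonneg _
  have hτ : (1 / 2 ^ c : ℝ) ≤ 1 := by rw [div_le_one (by positivity)]; exact hc
  have hτ0 : (0 : ℝ) < 1 / 2 ^ c := by positivity
  have hb : (s.card : ℝ) * (s.card * (2 / Nat.card V)) ≤ (1 / 2 ^ c) ^ 2 := by
    calc (s.card : ℝ) * (s.card * (2 / Nat.card V))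
        ≤ 2 ^ p * (2 ^ p * ((1 / 2 ^ c) ^ 2 / (2 ^ p) ^ 2)) := by
          gcongr <;> linarith
      _ = (1 / 2 ^ c) ^ 2 := by field_simp
  have hlt : (s.card : ℝ) * (2 / Nat.card V) < 1 := by
    calc (s.card : ℝ) * (2 / Nat.card V) ≤ s.card * ((1 / 2 ^ c) ^ 2 / (2 ^ p) ^ 2) := by gcongr
      _ ≤ s.card * (1 / 2 ^ p) := by
          gcongr ?_ * ?_
          rw [div_le_div_iff₀ (by positivity) (by positivity)]
          have h1 : (1 / 2 ^ c : ℝ) ^ 2 ≤ 1 := pow_le_one₀ hτ0.le hτ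
          nlinarith
      _ < 1 := by
          rw [mul_one_div, div_lt_one (by positivity)]
          linarith
  have hterm : ∀ y : Dual F (Fin p → F),
      0 ≤ (if y.comp φ = 0 then (1 : ℝ) else 0) := fun y => by split_ifs <;> norm_num
  have hsurj : Function.Surjective φ := by
    rw [← LinearMap.dualMap_injective_iff, ← LinearMap.ker_eq_bot, Submodule.eq_bot_iff]
    intro y hy
    by_contra h0
    have hy' : y.comp φ = 0 := hy
    have h1 := Finset.single_le_sum (s := s)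
      (f := fun y => bias (f + fun x => y (φ x)) ^ 2 + if y.comp φ = 0 then (1 : ℝ) else 0)
      (fun y _ => add_nonneg (sq_nonneg _) (hterm y))
      (Finset.mem_erase.2 ⟨h0, Finset.mem_univ y⟩)
    simp only [hy', if_true] at h1
    nlinarith [sq_nonneg (bias (f + fun x => y (φ x)))]
  refine ⟨φ, hsurj, fun a => ?_⟩
  have hsq : ∑ y ∈ s, bias (f + fun x => y (φ x)) ^ 2 ≤ s.card * (2 / Nat.card V) :=
    le_trans (Finset.sum_le_sum fun y _ => le_add_of_nonneg_right (hterm y)) hφ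
  let π : Dual F (Fin p → F) →+ (LinearMap.ker φ).dualAnnihilator :=
    { toFun := fun y => ⟨y.comp φ, by
        rw [← LinearMap.range_dualMap_eq_dualAnnihilator_ker]
        exact ⟨y, rfl⟩⟩
      map_zero' := Subtype.ext (by simp)
      map_add' := fun a b => Subtype.ext (LinearMap.add_comp φ b a) }
  have hπ : Function.Surjective π := by
    rintro ⟨l, hl⟩
    rw [← LinearMap.range_dualMap_eq_dualAnnihilator_ker] at hl
    obtain ⟨y, rfl⟩ := hl
    exact ⟨y, rfl⟩
  have h1 := av_surj π hπ fun l => chi (l.1 a) * bias (f + fun x => l.1 x)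
  have hk : finrank F (LinearMap.ker φ) + p = finrank F V := by
    have h2 := φ.finrank_range_add_finrank_ker
    rw [LinearMap.range_eq_top.2 hsurj, finrank_top] at h2
    simp only [finrank_fintype_fun_eq_card, Fintype.card_fin] at h2
    omega
  rw [av_ann, card_sub _ hk, av_eq, hY, ← Finset.add_sum_erase _ _ (Finset.mem_univ 0), ← hs] at h1
  have h3 : bias (res (LinearMap.ker φ) a f) =
      bias f + ∑ y ∈ s, chi (y (φ a)) * bias (f + fun x => y (φ x)) := by
    have h4 : chi ((π 0).1 a) * bias (f + fun x => (π 0).1 x) = bias f := by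
      rw [map_zero]
      simp only [Submodule.coe_zero, LinearMap.zero_apply, chi_zero, one_mul]
      exact congrArg bias (funext fun x => add_zero _)
    rw [h4] at h1
    have h5 : (bias f + ∑ y ∈ s, chi (y (φ a)) * bias (f + fun x => y (φ x))) / 2 ^ p =
        1 / 2 ^ p * bias (res (LinearMap.ker φ) a f) := by
      rw [← h1]
      push_cast
      rfl
    field_simp at h5
    linarith
  have h6 : (∑ y ∈ s, chi (y (φ a)) * bias (f + fun x => y (φ x))) ^ 2 ≤ (1 / 2 ^ c) ^ 2 := by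
    refine (sq_sum_le_card_mul_sum_sq).trans (le_trans ?_ hb)
    refine mul_le_mul_of_nonneg_left (le_trans (le_of_eq ?_) hsq) hs0
    refine Finset.sum_congr rfl fun y _ => ?_
    rw [mul_pow, sq (chi _), chi_sq, one_mul]
  have h7 := (abs_le_of_sq_le_sq' h6 hτ0.le).1
  rw [h3]
  linarith

end Pool.Agent.P.MP_cb6780_lc
end

-- part Pool.Agent.P.MP_cb6780_lc.SStep
section

set_option autoImplicit false

/-! One step of the chain: from dimension `w` to dimension `w + p`. -/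

namespace Pool.Agent.P.MP_cb6780_lc

open Module

/-- the cubic function attached to a linear family of quadratic functions -/
def SStep_J {V W : Type} [AddCommGroup V] [Module F V] [AddCommGroup W] [Module F W] {p : ℕ}
    (φ : V →ₗ[F] (Fin p → F)) (π : V →ₗ[F] W) : Hm (Fin p → F) W →+ (V → F) where
  toFun Q := fun x => (Q (φ x)).1 (π x)
  map_zero' := rfl
  map_add' _ _ := rfl

theorem SStep_J_apply {V W : Type} [AddCommGroup V] [Module F V] [AddCommGroup W] [Module F W]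
    {p : ℕ} (φ : V →ₗ[F] (Fin p → F)) (π : V →ₗ[F] W) (Q : Hm (Fin p → F) W) (x : V) :
    SStep_J φ π Q x = (Q (φ x)).1 (π x) := rfl

theorem SStep_J_mem {V W : Type} [AddCommGroup V] [Module F V] [AddCommGroup W] [Module F W]
    {p : ℕ} (φ : V →ₗ[F] (Fin p → F)) (π : V →ₗ[F] W) (Q : Hm (Fin p → F) W) :
    SStep_J φ π Q ∈ P V 4 := by
  have e : SStep_J φ π Q = ∑ i : Fin p, (fun x => ((LinearMap.proj i).comp φ : Dual F V) x) *
      fun x => (Q (Pi.single i 1)).1 (π x + 0) := by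
    funext x
    have h1 : φ x = ∑ i : Fin p, φ x i • (Pi.single i 1 : Fin p → F) := by
      funext j
      simp [Finset.sum_apply, Pi.single_apply]
    have h2 : (Q (φ x)).1 = ∑ i : Fin p, φ x i • (Q (Pi.single i 1)).1 := by
      conv_lhs => rw [h1]
      rw [map_sum, Submodule.coe_sum]
      refine Finset.sum_congr rfl fun i _ => ?_
      rw [map_smul, Submodule.coe_smul]
    rw [SStep_J_apply, h2, Finset.sum_apply, Finset.sum_apply]
    refine Finset.sum_congr rfl fun i _ => ?_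
    rw [Pi.mul_apply, add_zero]
    rfl
  rw [e]
  refine Submodule.sum_mem _ fun i _ => ?_
  exact mul_mem_P (d := 1) (e := 2) (dual_mem_P _) (comp_mem_P (Q (Pi.single i 1)).2 π 0)

theorem ext_count {V : Type} [AddCommGroup V] [Module F V] [Finite V] {p : ℕ}
    (φ : V →ₗ[F] (Fin p → F)) (hφ : Function.Surjective φ) (A : Set (LinearMap.ker φ → F))
    {τ : ℝ} (hτ : 0 ≤ τ) (t : ℕ) :
    ({f | (f ∈ P V 4 ∧ res (LinearMap.ker φ) 0 f ∈ A) ∧
        ∀ a, τ ≤ bias (res (LinearMap.ker φ) a f)}.ncard : ℝ) * τ ^ (2 * t * 2 ^ p) ≤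
      {f | f ∈ P V 4 ∧ res (LinearMap.ker φ) 0 f ∈ A}.ncard * Mom p (LinearMap.ker φ) t := by
  obtain ⟨π, hπ⟩ := Res2_proj (LinearMap.ker φ)
  choose σ hσ using hφ
  have hfin : Finite (Hm (Fin p → F) (LinearMap.ker φ)) := fin_Hm
  have hk : ∀ u : LinearMap.ker φ, φ u = 0 := fun u => u.2
  set S : Set (V → F) := {f | f ∈ P V 4 ∧ res (LinearMap.ker φ) 0 f ∈ A} with hS
  set S' : Set (V → F) := {f | (f ∈ P V 4 ∧ res (LinearMap.ker φ) 0 f ∈ A) ∧
        ∀ a, τ ≤ bias (res (LinearMap.ker φ) a f)} with hS'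
  let I : (V → F) → ℝ := S.indicator fun _ => 1
  let G : (V → F) → ℝ := fun f => ∏ u, bias (res (LinearMap.ker φ) (σ u) f) ^ (2 * t)
  have I0 : ∀ f, 0 ≤ I f := fun f => Set.indicator_nonneg (fun _ _ => zero_le_one) f
  have G0 : ∀ f, 0 ≤ G f := fun f =>
    Finset.prod_nonneg fun u _ => Even.pow_nonneg (even_two_mul t) _
  have r0 : ∀ Q, res (LinearMap.ker φ) 0 (SStep_J φ π Q) = 0 := fun Q => by
    funext u
    rw [res_apply, SStep_J_apply, add_zero, hk, map_zero]
    rfl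
  have r1 : ∀ Q u, bias (res (LinearMap.ker φ) (σ u) (SStep_J φ π Q)) = bias (Q u).1 := by
    intro Q u
    rw [← bias_transl (Q u).1 (π (σ u))]
    refine congrArg bias (funext fun x => ?_)
    rw [res_apply, SStep_J_apply, map_add, hk, zero_add, hσ, map_add, hπ]
  have hI : ∀ Q f, I (f + SStep_J φ π Q) = I f := fun Q f => by
    have : f + SStep_J φ π Q ∈ S ↔ f ∈ S := by
      simp only [hS, Set.mem_ofPred_eq]
      rw [map_add, r0, add_zero, Submodule.add_mem_iff_left _ (SStep_J_mem φ π Q)]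
    by_cases hf : f ∈ S
    · simp only [I, Set.indicator_of_mem hf, Set.indicator_of_mem (this.2 hf)]
    · simp only [I, Set.indicator_of_notMem hf, Set.indicator_of_notMem fun h => hf (this.1 h)]
  have h1 : τ ^ (2 * t * 2 ^ p) * av (S'.indicator fun _ => (1 : ℝ)) ≤ av fun f => I f * G f := by
    rw [← av_mul_left]
    refine av_mono fun f => ?_
    by_cases hf : f ∈ S'
    · have hf' : f ∈ S := hf.1
      rw [Set.indicator_of_mem hf, mul_one]
      simp only [I, Set.indicator_of_mem hf', one_mul]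
      have : τ ^ (2 * t * 2 ^ p) = ∏ _u : Fin p → F, τ ^ (2 * t) := by
        rw [Finset.prod_const, Finset.card_univ, Fintype.card_fun, ZMod.card, Fintype.card_fin,
          ← pow_mul]
      rw [this]
      exact Finset.prod_le_prod (fun _ _ => pow_nonneg hτ _)
        fun u _ => pow_le_pow_left₀ hτ (hf.2 _) _
    · rw [Set.indicator_of_notMem hf, mul_zero]
      exact mul_nonneg (I0 f) (G0 f)
  have h2 : ∀ Q, (av fun f => I f * G (f + SStep_J φ π Q)) = av fun f => I f * G f := fun Q => by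
    rw [← av_congr (Equiv.addRight (SStep_J φ π Q)) fun f => I f * G f]
    refine congrArg av (funext fun f => ?_)
    rw [Equiv.coe_addRight, hI]
  have h3 : ∀ f, (av fun Q => G (f + SStep_J φ π Q)) ≤ Mom p (LinearMap.ker φ) t := fun f => by
    have h := pos_prod (fun u => res (LinearMap.ker φ) (σ u) f)
      (fun u => (res (LinearMap.ker φ) (σ u)).toAddMonoidHom.comp (SStep_J φ π)) (2 * t)
    refine le_trans (le_of_eq ?_) (h.trans (le_of_eq ?_))
    · refine congrArg av (funext fun Q => Finset.prod_congr rfl fun u _ => ?_)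
      rw [map_add]
      rfl
    · refine congrArg av (funext fun Q => Finset.prod_congr rfl fun u _ => ?_)
      rw [← r1 Q u]
      rfl
  have h4 : (av fun f => I f * G f) ≤ Mom p (LinearMap.ker φ) t * av I := by
    rw [← av_const (V := Hm (Fin p → F) (LinearMap.ker φ)) (av fun f => I f * G f)]
    rw [← funext h2, av_comm fun Q f => I f * G (f + SStep_J φ π Q), ← av_mul_left]
    refine av_mono fun f => ?_
    rw [av_mul_left, mul_comm]
    exact mul_le_mul_of_nonneg_right (h3 f) (I0 f)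
  have h5 := h1.trans h4
  have hc : (0 : ℝ) < Nat.card (V → F) := by exact_mod_cast Nat.card_pos
  rw [av_indicator, av_indicator, ← mul_div_assoc, ← mul_div_assoc,
    div_le_div_iff_of_pos_right hc] at h5
  rw [mul_comm, mul_comm (S.ncard : ℝ)]
  exact h5

theorem step {w p c t : ℕ} (h : 2 * c + p + 1 ≤ w) {θ M : ℝ} (hθ : 2 / 2 ^ c ≤ θ)
    (hM : ∀ (W : Type) [AddCommGroup W] [Module F W] [Finite W], finrank F W = w → Mom p W t ≤ M) :
    (Nn (w + p) 4 θ : ℝ) * cP w 4 ≤ 2 ^ (p * (w + p)) *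
      (Nn w 4 (θ - 1 / 2 ^ c) * cP (w + p) 4 * (M * 2 ^ (c * (2 * t * 2 ^ p)))) := by
  have hV : finrank F (Fin (w + p) → F) = w + p := by simp
  have hfin : Finite ((Fin (w + p) → F) →ₗ[F] (Fin p → F)) := DFunLike.finite _
  have M0 : 0 ≤ M := by
    refine le_trans ?_ (hM (Fin w → F) (by simp))
    have : Finite (Hm (Fin p → F) (Fin w → F)) := fin_Hm
    exact av_nonneg fun Q => Finset.prod_nonneg fun u _ => Even.pow_nonneg (even_two_mul t) _
  have c0 : (0 : ℝ) < cP w 4 := by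
    unfold cP
    positivity
  have hτ : (1 : ℝ) / 2 ^ c ≤ θ - 1 / 2 ^ c := by
    have : (2 : ℝ) / 2 ^ c = 1 / 2 ^ c + 1 / 2 ^ c := by ring
    linarith
  set B : ℝ := Nn w 4 (θ - 1 / 2 ^ c) * cP (w + p) 4 * (M * 2 ^ (c * (2 * t * 2 ^ p))) with hB
  have B0 : 0 ≤ B := by positivity
  have h1 := cover_le {f : (Fin (w + p) → F) → F | f ∈ P _ 4 ∧ θ ≤ bias f}
    {φ : (Fin (w + p) → F) →ₗ[F] (Fin p → F) | Function.Surjective φ}
    (fun φ => {f | (f ∈ P _ 4 ∧ res (LinearMap.ker φ) 0 f ∈ {g | θ - 1 / 2 ^ c ≤ bias g}) ∧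
        ∀ a, 1 / 2 ^ c ≤ bias (res (LinearMap.ker φ) a f)}) ⌊B / cP w 4⌋₊
    (fun f hf => by
      obtain ⟨φ, h1, h2⟩ := exists_cosets (p := p) (c := c) f (by rw [hV]; omega)
      have h3 : ∀ a, θ - 1 / 2 ^ c ≤ bias (res (LinearMap.ker φ) a f) := fun a =>
        le_trans (sub_le_sub_right hf.2 _) (h2 a)
      exact ⟨φ, h1, ⟨hf.1, h3 0⟩, fun a => hτ.trans (h3 a)⟩)
    (fun φ hφ => by
      have hw : finrank F (LinearMap.ker φ) = w := by
        have h1 := LinearMap.finrank_range_add_finrank_ker φ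
        rw [LinearMap.range_eq_top.2 hφ, finrank_top, hV] at h1
        have h2 : finrank F (Fin p → F) = p := by simp
        omega
      have h1 := ext_count φ hφ {g | θ - 1 / 2 ^ c ≤ bias g} (τ := 1 / 2 ^ c) (by positivity) t
      have h2 := ncard_res_pre (LinearMap.ker φ) 0 4 {g | θ - 1 / 2 ^ c ≤ bias g}
      have h3 : {g | g ∈ P (LinearMap.ker φ) 4 ∧ g ∈ {g | θ - 1 / 2 ^ c ≤ bias g}}.ncard =
          Nn w 4 (θ - 1 / 2 ^ c) := by
        have h3 := N_eq (V := LinearMap.ker φ) 4 (θ - 1 / 2 ^ c)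
        rw [hw] at h3
        exact h3
      rw [h3, hw, hV] at h2
      have h4 := h1.trans (mul_le_mul_of_nonneg_left (hM _ hw) (Nat.cast_nonneg _))
      refine Nat.le_floor ((le_div_iff₀ c0).2 ?_)
      have h5 := congrArg (fun n : ℕ => (n : ℝ)) h2
      simp only [Nat.cast_mul] at h5
      rw [hB, ← h5]
      rw [one_div_pow, ← pow_mul, mul_one_div, div_le_iff₀ (by positivity)] at h4
      have h6 := mul_le_mul_of_nonneg_right h4 c0.le
      refine h6.trans (le_of_eq ?_)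
      ring)
  have h2 : {φ : (Fin (w + p) → F) →ₗ[F] (Fin p → F) | Function.Surjective φ}.ncard ≤
      2 ^ (p * (w + p)) := by
    refine (Set.ncard_le_card _).trans (le_of_eq ?_)
    rw [card_V, finrank_linearMap, hV]
    simp [mul_comm]
  have h3 : (Nn (w + p) 4 θ : ℝ) ≤ 2 ^ (p * (w + p)) * (⌊B / cP w 4⌋₊ : ℝ) := by
    exact_mod_cast h1.trans (Nat.mul_le_mul_right _ h2)
  have h4 : (⌊B / cP w 4⌋₊ : ℝ) * cP w 4 ≤ B :=
    (le_div_iff₀ c0).1 (Nat.floor_le (div_nonneg B0 c0.le))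
  calc (Nn (w + p) 4 θ : ℝ) * cP w 4 ≤ 2 ^ (p * (w + p)) * (⌊B / cP w 4⌋₊ : ℝ) * cP w 4 :=
        mul_le_mul_of_nonneg_right h3 c0.le
    _ ≤ _ := by
        rw [mul_assoc]
        exact mul_le_mul_of_nonneg_left h4 (by positivity)

end Pool.Agent.P.MP_cb6780_lc
end

-- part Pool.Agent.P.MP_cb6780_lc.STail
section

set_option autoImplicit false

/-! The number of cubic functions of bias at least `2 ^ (-c)` for `c` linear in the dimension. -/

namespace Pool.Agent.P.MP_cb6780_lc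

open Module

theorem ev_pow (k : ℕ) (C : ℝ) {δ : ℝ} (hδ : 0 < δ) :
    ∃ m0 : ℕ, ∀ m : ℕ, m0 ≤ m → C * (m : ℝ) ^ k ≤ (2 : ℝ) ^ (δ * m) := by
  have h1 : 0 < Real.log 2 * δ := mul_pos (Real.log_pos (by norm_num)) hδ
  have h2 := ((isLittleO_pow_exp_pos_mul_atTop k h1).const_mul_left C).comp_tendsto
    tendsto_natCast_atTop_atTop
  obtain ⟨m0, h3⟩ := Filter.eventually_atTop.1 (h2.bound one_pos)
  refine ⟨m0, fun m hm => ?_⟩
  have h4 := h3 m hm
  rw [one_mul, Real.norm_eq_abs, Real.norm_eq_abs] at h4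
  rw [Real.rpow_def_of_pos (by norm_num), ← mul_assoc]
  exact (le_abs_self _).trans (h4.trans (abs_of_pos (Real.exp_pos _)).le)

theorem six_sum (n : ℕ) : 6 * ∑ i ∈ Finset.range 4, n.choose i = n ^ 3 + 5 * n + 6 := by
  induction n with
  | zero => simp [Finset.sum_range_succ]
  | succ n ih =>
    have h := two_choose n
    simp only [Finset.sum_range_succ, Finset.range_zero, Finset.sum_empty, Nat.choose_zero_right,
      Nat.choose_one_right] at ih ⊢
    rw [Nat.choose_succ_succ' n 1, Nat.choose_succ_succ' n 2, Nat.choose_one_right]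
    nlinarith

theorem cP_four (n : ℕ) : (cP n 4 : ℝ) = (2 : ℝ) ^ (((n : ℝ) ^ 3 + 5 * n + 6) / 6) := by
  have h : ((6 * ∑ i ∈ Finset.range 4, n.choose i : ℕ) : ℝ) = (n ^ 3 + 5 * n + 6 : ℕ) := by
    rw [six_sum]
  rw [cP, Nat.cast_pow, Nat.cast_ofNat, ← Real.rpow_natCast]
  congr 1
  push_cast at h ⊢
  linarith

theorem Nn_le_cP (n d : ℕ) (θ : ℝ) : Nn n d θ ≤ cP n d := by
  have h := ncard_P (V := Fin n → F) d
  rw [Reduce_finrank] at h
  rw [← h]
  exact Set.ncard_le_ncard (fun _ hf => hf.1) (Set.toFinite _)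

theorem chain_arith {p w c L q b : ℝ} (hp : 1 ≤ p) (hw : 1 ≤ w) (hc0 : 0 ≤ c) (hc : c ≤ w)
    (hL : 0 < L) (hq : 0 ≤ q) (hb : b ≤ p * w + q)
    (h : L * (6 * p + 2 * p ^ 2 + p ^ 3 + q) ≤ w) :
    p * (w + p) + (((w + p) ^ 3 + 5 * (w + p) + 6) / 6 + (-(p * w ^ 2 / 2) + 12 * p * w ^ 2 / L +
      c * b)) ≤ c * ((w + p) ^ 2 - w ^ 2) / 2 + 13 * ((w + p) ^ 3 - w ^ 3) / L +
        (w ^ 3 + 5 * w + 6) / 6 := by
  have a1 : c * b ≤ c * (p * w) + w * q := by nlinarith [mul_le_mul_of_nonneg_left hb hc0]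
  have a2 : 6 * p + 2 * p ^ 2 + p ^ 3 + q ≤ w / L := by rw [le_div_iff₀ hL]; linarith
  have a3 : w * (6 * p + 2 * p ^ 2 + p ^ 3 + q) ≤ p * w ^ 2 / L := by
    calc _ ≤ w * (w / L) := mul_le_mul_of_nonneg_left a2 (by linarith)
      _ = 1 * (w ^ 2 / L) := by ring
      _ ≤ p * (w ^ 2 / L) := mul_le_mul_of_nonneg_right hp (by positivity)
      _ = _ := by ring
  have a4 : 13 * (p * w ^ 2) / L ≤ 13 * ((w + p) ^ 3 - w ^ 3) / L := by
    refine div_le_div_of_nonneg_right ?_ hL.le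
    have : 0 ≤ p * w ^ 2 := by positivity
    have : 0 ≤ p ^ 2 * w := by positivity
    have : 0 ≤ p ^ 3 := by positivity
    nlinarith
  have a5 : 13 * (p * w ^ 2) / L = 12 * p * w ^ 2 / L + p * w ^ 2 / L := by ring
  have a6 : 0 ≤ c * p ^ 2 := by positivity
  have a7 : p ≤ w * p := le_mul_of_one_le_left (by linarith) hw
  have a8 : p ^ 2 ≤ w * p ^ 2 := le_mul_of_one_le_left (by positivity) hw
  have a9 : p ^ 3 ≤ w * p ^ 3 := le_mul_of_one_le_left (by positivity) hw
  have b1 : 0 ≤ w * p ^ 2 := by positivity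
  have b2 : 0 ≤ p ^ 3 := by positivity
  nlinarith

theorem chain {L : ℕ} (hL : 1 ≤ L) : ∃ p w0 : ℕ, 1 ≤ p ∧ ∀ c j i : ℕ, w0 ≤ j → 2 * c + p + 1 ≤ j →
    (Nn (j + i * p) 4 (((j + i * p : ℕ) + 1) / 2 ^ c) : ℝ) ≤ cP j 4 *
      (2 : ℝ) ^ ((c : ℝ) * (((j + i * p : ℕ) : ℝ) ^ 2 - (j : ℝ) ^ 2) / 2 +
        13 * ((j + i * p : ℕ) : ℝ) ^ 3 / L) := by
  obtain ⟨p, w0, hp, hm⟩ := mom hL
  have L0 : (0 : ℝ) < L := by exact_mod_cast hL
  refine ⟨p, w0 + L * (6 * p + 2 * p ^ 2 + p ^ 3 + 2 ^ (p + 1)), hp, fun c j i h1 h2 => ?_⟩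
  induction i with
  | zero =>
    refine le_trans (Nat.cast_le.2 (Nn_le_cP _ _ _)) ?_
    rw [zero_mul, add_zero, sub_self, mul_zero, zero_div, zero_add]
    exact le_mul_of_one_le_right (Nat.cast_nonneg _) (Real.one_le_rpow (by norm_num) (by positivity))
  | succ i ih =>
    rw [Nat.succ_mul, ← add_assoc]
    have hj : j ≤ j + i * p := Nat.le_add_right _ _
    generalize j + i * p = w at ih hj ⊢
    set t := p * w / 2 ^ (p + 1) + 1 with ht
    have t0 := Nat.div_add_mod (p * w) (2 ^ (p + 1))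
    have t1 := Nat.mod_lt (p * w) (show 0 < 2 ^ (p + 1) by positivity)
    have t2 : p * w ≤ 2 ^ (p + 1) * t := by rw [ht, mul_add]; omega
    have t3 : 2 * t * 2 ^ p ≤ p * w + 2 ^ (p + 1) := by
      rw [show 2 * t * 2 ^ p = 2 ^ (p + 1) * t by ring, ht, mul_add]; omega
    have p1 : (1 : ℝ) ≤ p := by exact_mod_cast hp
    have w1 : (1 : ℝ) ≤ w := by exact_mod_cast (show 1 ≤ w by omega)
    have st := step (w := w) (p := p) (c := c) (t := t) (by omega)
      (θ := ((w + p : ℕ) + 1) / 2 ^ c)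
      (div_le_div_of_nonneg_right (by push_cast; linarith) (by positivity))
      fun W _ _ _ hW => hm W w t hW (by omega) t2
    have a1 : (Nn w 4 (((w + p : ℕ) + 1) / 2 ^ c - 1 / 2 ^ c) : ℝ) ≤ Nn w 4 ((w + 1) / 2 ^ c) := by
      refine Nat.cast_le.2 (N_anti 4 ?_)
      rw [← sub_div]
      exact div_le_div_of_nonneg_right (by push_cast; linarith) (by positivity)
    have a2 := chain_arith (c := c) (q := 2 ^ (p + 1)) (b := (2 * t * 2 ^ p : ℕ)) p1 w1
      (Nat.cast_nonneg _) (by exact_mod_cast (show c ≤ w by omega)) L0 (by positivity)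
      (by exact_mod_cast t3)
      (by exact_mod_cast (show L * (6 * p + 2 * p ^ 2 + p ^ 3 + 2 ^ (p + 1)) ≤ w by omega))
    have c0 : (0 : ℝ) < cP w 4 := Nat.cast_pos.2 (cP_pos _ _)
    refine le_of_mul_le_mul_right (st.trans ?_) c0
    have a3 := mul_le_mul_of_nonneg_right (a1.trans ih) (Nat.cast_nonneg (cP (w + p) 4))
    refine (mul_le_mul_of_nonneg_left (mul_le_mul_of_nonneg_right a3 (by positivity))
      (by positivity)).trans ?_
    rw [cP_four w, cP_four (w + p), ← Real.rpow_natCast 2 (p * (w + p)),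
      ← Real.rpow_natCast 2 (c * _), mul_assoc, mul_assoc, mul_left_comm, mul_assoc (cP j 4 : ℝ)]
    refine mul_le_mul_of_nonneg_left ?_ (Nat.cast_nonneg (α := ℝ) (cP j 4))
    simp only [← Real.rpow_add (show (0 : ℝ) < 2 by norm_num)]
    refine Real.rpow_le_rpow_of_exponent_le (by norm_num) ?_
    push_cast at a2 ⊢
    have e : 13 * (((w : ℝ) + p) ^ 3 - w ^ 3) / L = 13 * ((w : ℝ) + p) ^ 3 / L - 13 * w ^ 3 / L := by
      ring
    linarith

theorem tail_arith {m c d j w y z : ℝ} (hm : 1 ≤ m) (hc0 : 0 ≤ c) (hcm : c ≤ m) (hd0 : 0 ≤ d)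
    (hz : 0 ≤ z) (hy : y = 100 * (m ^ 3 * z)) (h1 : d ≤ c + 2 + m * z) (h2 : 2 * d ≤ j)
    (h3 : 2 * j ≤ 5 * d) (h4 : j ≤ m) (h5 : y ≤ d ^ 3) (h6 : 30 * m ^ 2 ≤ y)
    (hw : (1 / 2 - z) * m ^ 2 ≤ w) :
    (j ^ 3 + 5 * j + 6) / 6 + (d * (m ^ 2 - j ^ 2) / 2 + 13 * (m ^ 3 * z)) + 2 * m ≤ c * w := by
  have a1 : j ^ 3 - 3 * d * j ^ 2 ≤ -(2 * d ^ 3) := by
    have b1 : (2 * d) ^ 2 ≤ j ^ 2 := pow_le_pow_left₀ (by linarith) h2 2
    have b2 : j ^ 2 * (2 * j - 5 * d) ≤ 0 := mul_nonpos_of_nonneg_of_nonpos (sq_nonneg _) (by linarith)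
    nlinarith [mul_le_mul_of_nonneg_left b1 hd0]
  have a2 : d * m ^ 2 ≤ (c + 2 + m * z) * m ^ 2 := mul_le_mul_of_nonneg_right h1 (sq_nonneg _)
  have a3 := mul_le_mul_of_nonneg_left hw hc0
  have a4 : c * (z * m ^ 2) ≤ m * (z * m ^ 2) := mul_le_mul_of_nonneg_right hcm (by positivity)
  have a5 : m ≤ m ^ 2 := by nlinarith
  nlinarith

theorem tail {K : ℕ} (hK : 1 ≤ K) : ∃ θ : ℝ, 0 < θ ∧ θ ≤ 1 / 100 ∧ ∃ m0 : ℕ, ∀ m c w : ℕ, m0 ≤ m →
    m ≤ K * c → (1 / 2 - θ) * (m : ℝ) ^ 2 ≤ w →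
    (Nn m 4 (1 / 2 ^ (c + 1)) : ℝ) * 2 ^ (2 * m) ≤ 2 ^ (c * w) := by
  have K3 : 1 ≤ K ^ 3 := Nat.one_le_pow _ _ hK
  set L := 100 * K ^ 3 with hL
  obtain ⟨p, w0, hp, hch⟩ := chain (L := L) (by omega)
  have L0 : (100 : ℝ) ≤ L := by exact_mod_cast (show 100 ≤ L by omega)
  have z0 : (0 : ℝ) < 1 / L := by positivity
  have z1 : (1 : ℝ) / L ≤ 1 / 100 := one_div_le_one_div_of_le (by norm_num) L0
  obtain ⟨m1, hm1⟩ := ev_pow 1 2 z0
  refine ⟨1 / L, z0, z1, m1 + K * (w0 + 4 * p) + 10 * p + 30 * K ^ 3 + 50, fun m c w h1 h2 h3 => ?_⟩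
  have m50 : (50 : ℝ) ≤ m := by exact_mod_cast (show 50 ≤ m by omega)
  rw [← Real.rpow_natCast 2 (2 * m), ← Real.rpow_natCast 2 (c * w)]
  rcases le_or_gt (2 * m) (5 * c) with hc | hc
  · refine (mul_le_mul_of_nonneg_right (Nat.cast_le.2 (Nn_le_cP _ _ _)) (by positivity)).trans ?_
    rw [cP_four, ← Real.rpow_add (by norm_num)]
    refine Real.rpow_le_rpow_of_exponent_le (by norm_num) ?_
    have a1 : (2 : ℝ) * m ≤ 5 * c := by exact_mod_cast hc
    have a2 : (49 / 100 : ℝ) * m ^ 2 ≤ w :=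
      le_trans (mul_le_mul_of_nonneg_right (by linarith) (sq_nonneg _)) h3
    have a3 : (2 : ℝ) * m * (49 / 100 * m ^ 2) ≤ 5 * c * w :=
      mul_le_mul a1 a2 (by positivity) (by positivity)
    have a4 : (m : ℝ) * (50 * 50) ≤ m * (m * m) :=
      mul_le_mul_of_nonneg_left (mul_le_mul m50 m50 (by norm_num) (by linarith)) (by linarith)
    push_cast
    nlinarith
  set l := m / L + 1 with hl
  have l1 : (m : ℝ) * (1 / L) ≤ l := by
    rw [mul_one_div, div_le_iff₀ (by linarith)]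
    have := Nat.lt_div_mul_add (a := m) (b := L) (by omega)
    exact_mod_cast (show m ≤ l * L by rw [hl, add_mul]; omega)
  have l2 : (l : ℝ) ≤ 1 + m * (1 / L) := by
    rw [hl, mul_one_div]
    push_cast
    linarith [Nat.cast_div_le (α := ℝ) (m := m) (n := L)]
  have l3 : 100 * (m / L) ≤ m :=
    le_trans (Nat.mul_le_mul_right _ (by omega)) (Nat.mul_div_le m L)
  have l4 : (m : ℝ) + 1 ≤ 2 ^ l := by
    have := hm1 m (by omega)
    rw [pow_one, mul_comm (1 / L : ℝ)] at this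
    rw [← Real.rpow_natCast]
    linarith [Real.rpow_le_rpow_of_exponent_le (show (1 : ℝ) ≤ 2 by norm_num) l1]
  have c1 : w0 + 4 * p ≤ c := Nat.le_of_mul_le_mul_left (show K * _ ≤ K * c by omega) hK
  set d := c + 1 + l with hd
  obtain ⟨i, j, j1, j2, j3⟩ : ∃ i j, j + i * p = m ∧ 2 * d + p + 1 ≤ j ∧ j ≤ 2 * d + 2 * p := by
    have e1 := Nat.div_add_mod' (m - (2 * d + p + 1)) p
    have e2 := Nat.mod_lt (m - (2 * d + p + 1)) hp
    exact ⟨(m - (2 * d + p + 1)) / p, 2 * d + p + 1 + (m - (2 * d + p + 1)) % p, by omega, by omega,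
      by omega⟩
  have a1 := hch d j i (by omega) j2
  rw [j1] at a1
  have a2 : (Nn m 4 (1 / 2 ^ (c + 1)) : ℝ) ≤ Nn m 4 ((m + 1) / 2 ^ d) := by
    refine Nat.cast_le.2 (N_anti 4 ?_)
    rw [hd, pow_add _ (c + 1), div_le_div_iff₀ (by positivity) (by positivity), one_mul, mul_comm]
    exact mul_le_mul_of_nonneg_left l4 (by positivity)
  refine (mul_le_mul_of_nonneg_right (a2.trans a1) (by positivity)).trans ?_
  rw [cP_four, ← Real.rpow_add (by norm_num), ← Real.rpow_add (by norm_num)]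
  refine Real.rpow_le_rpow_of_exponent_le (by norm_num) ?_
  have K0 : (0 : ℝ) < (K : ℝ) ^ 3 := by exact_mod_cast K3
  have e1 : 100 * ((m : ℝ) ^ 3 * (1 / L)) = m ^ 3 / K ^ 3 := by
    rw [hL]; push_cast; field_simp
  have a3 := tail_arith (m := m) (c := c) (d := d) (j := j) (w := w) (z := 1 / L) (by linarith)
    (Nat.cast_nonneg _) (by exact_mod_cast (show c ≤ m by omega)) (Nat.cast_nonneg _) z0.le rfl
    (by rw [hd]; push_cast at l2 ⊢; linarith) (by exact_mod_cast (show 2 * d ≤ j by omega))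
    (by exact_mod_cast (show 2 * j ≤ 5 * d by omega)) (by exact_mod_cast (show j ≤ m by omega))
    (by
      rw [e1, div_le_iff₀ K0, ← mul_pow, mul_comm]
      exact pow_le_pow_left₀ (by linarith)
        (by exact_mod_cast h2.trans (Nat.mul_le_mul_left _ (show c ≤ d by omega))) 3)
    (by
      rw [e1, le_div_iff₀ K0]
      have : (30 : ℝ) * K ^ 3 ≤ m := by exact_mod_cast (show 30 * K ^ 3 ≤ m by omega)
      nlinarith [mul_le_mul_of_nonneg_left this (sq_nonneg (m : ℝ))]) h3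
  push_cast
  rw [mul_one_div, ← mul_div_assoc] at a3
  exact a3

end Pool.Agent.P.MP_cb6780_lc
end

-- part Pool.Agent.P.MP_cb6780_lc.SLev
section

set_option autoImplicit false

/-! Moments of the bias of a random cubic function, level by level. -/

namespace Pool.Agent.P.MP_cb6780_lc

open Module

/-- sum of the `w`-th powers of the positive biases -/
noncomputable def Spw (m w : ℕ) : ℝ := cP m 4 * av fun h : P (Fin m → F) 4 => max (bias h.1) 0 ^ w

/-- the main term -/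
noncomputable def Zs (m s w : ℕ) : ℝ := ∑ c ∈ Finset.range (s + 1), Mult (m - c) c / 2 ^ (c * w)

/-- indicator of `θ ≤ b` -/
noncomputable def ge1 (θ b : ℝ) : ℝ := if θ ≤ b then 1 else 0

theorem ge1_nonneg (θ b : ℝ) : 0 ≤ ge1 θ b := by unfold ge1; split_ifs <;> norm_num

theorem ge1_pos {θ b : ℝ} (h : θ ≤ b) : ge1 θ b = 1 := if_pos h

theorem ge1_neg {θ b : ℝ} (h : b < θ) : ge1 θ b = 0 := if_neg (not_le.2 h)

theorem av_ge1 (m : ℕ) (θ : ℝ) :
    cP m 4 * av (fun h : P (Fin m → F) 4 => ge1 θ (bias h.1)) = Nn m 4 θ := by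
  have h1 : (fun h : P (Fin m → F) 4 => ge1 θ (bias h.1)) =
      {h : P (Fin m → F) 4 | θ ≤ bias h.1}.indicator fun _ => (1 : ℝ) := by
    funext h
    simp [ge1, Set.indicator_apply]
  have h2 : (cP m 4 : ℝ) ≠ 0 := Nat.cast_ne_zero.2 (cP_pos _ _).ne'
  rw [h1, av_indicator, Card_std, mul_div_cancel₀ _ h2, Nat.cast_inj, Nn, N,
    ← Set.ncard_image_of_injective _ Subtype.val_injective]
  congr 1
  ext f
  exact ⟨fun ⟨g, a, b⟩ => b ▸ ⟨g.2, a⟩, fun ⟨a, b⟩ => ⟨⟨f, a⟩, b, rfl⟩⟩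

theorem two_Sp (m : ℕ) {w : ℕ} (hw : Even w) (h0 : w ≠ 0) :
    cP m 4 * av (fun h : P (Fin m → F) 4 => bias h.1 ^ w) = 2 * Spw m w := by
  have h1 : ∀ b : ℝ, b ^ w = max b 0 ^ w + max (-b) 0 ^ w := fun b => by
    rcases le_total 0 b with h | h
    · rw [max_eq_left h, max_eq_right (by linarith), zero_pow h0, add_zero]
    · rw [max_eq_right h, max_eq_left (by linarith), zero_pow h0, zero_add, hw.neg_pow]
  have h2 := av_P_shift (V := Fin m → F) (d := 4) (p := 1)
    (P_mono (by norm_num) (mem_P_one.2 ⟨1, rfl⟩)) fun f => max (bias f) 0 ^ w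
  simp only [bias_add_one] at h2
  rw [funext fun h : P (Fin m → F) 4 => h1 (bias h.1), av_add, h2, Spw]
  ring

theorem exists_level {lam b : ℝ} {c0 : ℕ} (h0 : b ≤ lam / 2 ^ c0) (k : ℕ)
    (h1 : lam / 2 ^ (c0 + k) < b) :
    ∃ c, c0 ≤ c ∧ c < c0 + k ∧ lam / 2 ^ (c + 1) ≤ b ∧ b ≤ lam / 2 ^ c := by
  induction k with
  | zero => exact absurd h0 (not_le.2 h1)
  | succ k ih =>
    rcases lt_or_ge (lam / 2 ^ (c0 + k)) b with h | h
    · obtain ⟨c, a1, a2, a3⟩ := ih h
      exact ⟨c, a1, by omega, a3⟩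
    · exact ⟨c0 + k, by omega, by omega, h1.le, h⟩

theorem pt_up {b η : ℝ} (hb : b ≤ 1) (h0 : 0 ≤ η) (h1 : η ≤ 1) {s m : ℕ} (hs : s ≤ m) (w : ℕ) :
    max b 0 ^ w ≤ ∑ c ∈ Finset.range (s + 1), (((1 + η) / 2 ^ c) ^ w * ge1 (7 / 8 / 2 ^ c) b +
        (7 / 8 / 2 ^ c) ^ w * ge1 ((1 + η) / 2 / 2 ^ c) b) +
      (∑ c ∈ Finset.Ico s m, (1 / 2 ^ c) ^ w * ge1 (1 / 2 ^ (c + 1)) b + (1 / 2 ^ m) ^ w) := by
  have g := ge1_nonneg
  have n1 : ∀ c ∈ Finset.range (s + 1), 0 ≤ ((1 + η) / 2 ^ c) ^ w * ge1 (7 / 8 / 2 ^ c) b +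
      (7 / 8 / 2 ^ c) ^ w * ge1 ((1 + η) / 2 / 2 ^ c) b := fun c _ =>
    add_nonneg (mul_nonneg (by positivity) (g _ _)) (mul_nonneg (by positivity) (g _ _))
  have n2 : ∀ c ∈ Finset.Ico s m, 0 ≤ (1 / 2 ^ c : ℝ) ^ w * ge1 (1 / 2 ^ (c + 1)) b := fun c _ =>
    mul_nonneg (by positivity) (g _ _)
  have n3 : (0 : ℝ) ≤ (1 / 2 ^ m) ^ w := by positivity
  have key : ∀ x : ℝ, b ≤ x → 0 ≤ x → max b 0 ^ w ≤ x ^ w := fun x a1 a2 =>
    pow_le_pow_left₀ (le_max_right _ _) (max_le a1 a2) w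
  rcases le_or_gt b (1 / 2 ^ m) with h | h
  · linarith [key _ h (by positivity), Finset.sum_nonneg n1, Finset.sum_nonneg n2]
  rcases le_or_gt b (1 / 2 ^ s) with h' | h'
  · obtain ⟨c, a1, a2, a3, a4⟩ := exists_level h' (m - s) (by rwa [Nat.add_sub_cancel' hs])
    have := Finset.single_le_sum n2 (Finset.mem_Ico.2 ⟨a1, by omega⟩)
    rw [ge1_pos a3, mul_one] at this
    linarith [key _ a4 (by positivity), Finset.sum_nonneg n1]
  · obtain ⟨c, -, a2, a3, a4⟩ := exists_level (lam := 1 + η) (b := b) (c0 := 0)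
      (by rw [pow_zero, div_one]; linarith) (s + 1) (lt_of_le_of_lt (by
        rw [zero_add, pow_succ', ← div_div]
        exact div_le_div_of_nonneg_right (by linarith) (by positivity)) h')
    have := Finset.single_le_sum n1 (Finset.mem_range.2 (show c < s + 1 by omega))
    rw [pow_succ', ← div_div] at a3
    rw [ge1_pos a3, mul_one] at this
    rcases le_or_gt (7 / 8 / 2 ^ c) b with h2 | h2
    · rw [ge1_pos h2, mul_one] at this
      have n4 : (0 : ℝ) ≤ (7 / 8 / 2 ^ c) ^ w := by positivity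
      linarith [key _ a4 (by positivity), Finset.sum_nonneg n2]
    · rw [ge1_neg h2, mul_zero, zero_add] at this
      linarith [key _ h2.le (by positivity), Finset.sum_nonneg n2]

theorem pt_low {b η : ℝ} (h0 : 0 ≤ η) (h1 : η ≤ 1 / 3) (s w : ℕ) :
    ∑ c ∈ Finset.range (s + 1), ((1 - η) / 2 ^ c) ^ w *
      (ge1 ((1 - η) / 2 ^ c) b - ge1 ((1 + η) / 2 ^ c) b) ≤ max b 0 ^ w := by
  have z : ∀ c : ℕ, ¬ ((1 - η) / 2 ^ c ≤ b ∧ b < (1 + η) / 2 ^ c) →
      ((1 - η) / 2 ^ c) ^ w * (ge1 ((1 - η) / 2 ^ c) b - ge1 ((1 + η) / 2 ^ c) b) = 0 := by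
    intro c hc
    have m : (1 - η) / 2 ^ c ≤ (1 + η) / 2 ^ c :=
      div_le_div_of_nonneg_right (by linarith) (by positivity)
    rcases le_or_gt ((1 + η) / 2 ^ c) b with h | h
    · rw [ge1_pos h, ge1_pos (m.trans h), sub_self, mul_zero]
    · rw [ge1_neg h, ge1_neg (not_le.1 fun h' => hc ⟨h', h⟩), sub_self, mul_zero]
  have d : ∀ c e : ℕ, c < e → (1 + η) / 2 ^ e ≤ (1 - η) / 2 ^ c := fun c e h => by
    have a1 : (2 : ℝ) ^ (c + 1) ≤ 2 ^ e := pow_le_pow_right₀ (by norm_num) h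
    refine (div_le_div_of_nonneg_left (by linarith) (by positivity) a1).trans ?_
    rw [pow_succ', ← div_div]
    exact div_le_div_of_nonneg_right (by linarith) (by positivity)
  by_cases h : ∃ c : ℕ, (1 - η) / 2 ^ c ≤ b ∧ b < (1 + η) / 2 ^ c
  · obtain ⟨c, a1, a2⟩ := h
    have p : 0 ≤ (1 - η) / 2 ^ c := div_nonneg (by linarith) (by positivity)
    have a3 : ((1 - η) / 2 ^ c) ^ w ≤ max b 0 ^ w :=
      pow_le_pow_left₀ p (a1.trans (le_max_left _ _)) w
    have a4 : ∀ e, e ≠ c → ((1 - η) / 2 ^ e) ^ w *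
        (ge1 ((1 - η) / 2 ^ e) b - ge1 ((1 + η) / 2 ^ e) b) = 0 := fun e he => z e fun h => by
      rcases lt_or_gt_of_ne he with h' | h'
      · linarith [d e c h', h.1]
      · linarith [d c e h', h.2]
    by_cases hc : c ∈ Finset.range (s + 1)
    · rw [Finset.sum_eq_single_of_mem c hc fun e _ he => a4 e he, ge1_pos a1, ge1_neg a2, sub_zero,
        mul_one]
      exact a3
    · rw [Finset.sum_eq_zero fun e he => a4 e fun h => hc (h ▸ he)]
      positivity
  · rw [Finset.sum_eq_zero fun c _ => z c fun hc => h ⟨c, hc⟩]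
    positivity

theorem c_small (s c : ℕ) : (c : ℝ) * (1 / 2 ^ (s + c)) ≤ 1 / 2 ^ s := by
  have h : (c : ℝ) ≤ 2 ^ c := by exact_mod_cast (Nat.lt_two_pow_self (n := c)).le
  rw [mul_one_div, div_le_div_iff₀ (by positivity) (by positivity), one_mul, pow_add, mul_comm]
  exact mul_le_mul_of_nonneg_left h (by positivity)

theorem lev_U1 {m s c : ℕ} (hs : 2 ^ 51 * s ≤ m) (h4 : 4 ≤ s) (hc : c ≤ s) :
    (Nn m 4 (7 / 8 / 2 ^ c) : ℝ) ≤ (1 + 1 / 2 ^ (m / 2)) * Mult (m - c) c := by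
  obtain ⟨n, rfl⟩ : ∃ n, m = n + c := ⟨m - c, by omega⟩
  have a1 := uni_up (n := n) (c := c) (s := s) (t := (n + c) / 2) (by omega) (by omega) (by omega)
    (by omega) (θ := 13 / 16) (by norm_num) (by norm_num)
  have a2 : Nn n 4 (13 / 16) = 1 := N_h0 (V := Fin n → F) (by norm_num) (by norm_num)
  rw [a2, Nat.cast_one, mul_one] at a1
  rw [Nat.add_sub_cancel]
  refine le_trans (Nat.cast_le.2 (N_anti 4 ?_)) a1
  have a3 := (c_small s c).trans (inv_pow_le h4)
  exact div_le_div_of_nonneg_right (by norm_num at a3 ⊢; linarith) (by positivity)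

theorem lev_U2 {m s c : ℕ} (hs : 2 ^ 51 * s ≤ m) (h4 : 4 ≤ s) (hc : c ≤ s) :
    (Nn m 4 ((1 + 4 / 2 ^ s) / 2 / 2 ^ c) : ℝ) ≤ 2 ^ (2 * s * m + 3) * Mult (m - c) c := by
  obtain ⟨n, rfl⟩ : ∃ n, m = n + c := ⟨m - c, by omega⟩
  obtain ⟨h, rfl⟩ : ∃ h, s = h + 1 := ⟨s - 1, by omega⟩
  have p1 : (0 : ℝ) < 1 / 2 ^ (h + 1) := by positivity
  have p2 : (1 : ℝ) / 2 ^ h = 2 * (1 / 2 ^ (h + 1)) := by rw [pow_succ]; field_simp
  have p3 : (1 : ℝ) / 2 ^ h ≤ 1 := by simpa using inv_pow_le (Nat.zero_le h)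
  have a1 := uni_up (n := n) (c := c) (s := h + 1) (t := 0) (by omega) (by omega) (by omega)
    (by omega) (θ := (1 + 1 / 2 ^ h) / 2) (by linarith) (by linarith)
  have a2 := (K_uni (h := h) (n := n) (t := 0) (by omega) (θ := (1 + 1 / 2 ^ h) / 2) (by linarith)
    le_rfl).2
  have a3 := Kh_le h n
  have a4 : (2 : ℝ) ^ ((2 * h + 1) * n + 1) * 4 ≤ 2 ^ (2 * (h + 1) * (n + c) + 3) := by
    rw [show (4 : ℝ) = 2 ^ 2 by norm_num, ← pow_add]
    exact pow_le_pow_right₀ (by norm_num) (by nlinarith [Nat.zero_le (h * c)])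
  have a5 := Mult_nonneg n c
  rw [Nat.add_sub_cancel]
  refine le_trans (Nat.cast_le.2 (N_anti 4 ?_)) (a1.trans ?_)
  · refine div_le_div_of_nonneg_right ?_ (by positivity)
    have := c_small (h + 1) c
    rw [show (4 : ℝ) / 2 ^ (h + 1) = 4 * (1 / 2 ^ (h + 1)) by ring]
    linarith
  · rw [pow_zero] at a2 ⊢
    have a6 : (Nn n 4 ((1 + 1 / 2 ^ h) / 2) : ℝ) * 2 ≤ 2 ^ (2 * (h + 1) * (n + c) + 3) := by linarith
    nlinarith [mul_le_mul_of_nonneg_left a6 a5]

theorem lev_L1 {m s c : ℕ} (hs : 2 ^ 51 * s ≤ m) (h4 : 4 ≤ s) (hc : c ≤ s) :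
    (1 - 2 * (1 / 2 ^ (m / 2))) * Mult (m - c) c ≤ Nn m 4 ((1 - 4 / 2 ^ s) / 2 ^ c) := by
  obtain ⟨n, rfl⟩ : ∃ n, m = n + c := ⟨m - c, by omega⟩
  have e : (2 : ℝ) ^ c * ((1 - 4 / 2 ^ s) / 2 ^ c + 1 / 2 ^ (s + c)) = 1 - 3 * (1 / 2 ^ s) := by
    rw [pow_add]; field_simp; ring
  have p1 : (0 : ℝ) < 1 / 2 ^ s := by positivity
  have p2 := inv_pow_le h4
  have a2 : Nn n 4 (1 - 3 * (1 / 2 ^ s)) = 1 :=
    N_h0 (V := Fin n → F) (by norm_num at p2 ⊢; linarith) (by linarith)
  have a1 := uni_low (n := n) (c := c) (s := s) (h := 0) (t := (n + c) / 2) (by omega) (by omega)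
    (by omega) (by omega) (ε := (1 - 4 / 2 ^ s) / 2 ^ c) le_rfl
    (by rw [e, a2, Nat.cast_one]; exact one_le_pow₀ (by norm_num))
  rw [e, a2, Nat.cast_one, mul_one] at a1
  rwa [Nat.add_sub_cancel]

theorem Mult_step {n c k : ℕ} (h : c * (n + 2) + k ≤ n + 1 + n.choose 2) :
    2 ^ k * Mult (n + 1) c ≤ Mult n (c + 1) := by
  have g1 : (1 : ℝ) ≤ G (Fin (n + (c + 1)) → F) (c + 1) := by exact_mod_cast one_le_G n (c + 1)
  have g2 := G_crude (Fin (n + 1 + c) → F) (n := n + 1) (c := c) (Reduce_finrank _)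
  have g3 := (Reduce_prod_pos (n + 1) c).le
  have g4 : (2 : ℝ) ^ k * 2 ^ (c * (n + 1 + 1)) ≤ cP n 3 := by
    rw [Reduce_cP_three, ← pow_add]
    push_cast
    exact pow_le_pow_right₀ (by norm_num) (by rw [add_comm k]; exact h)
  unfold Mult
  rw [Finset.prod_range_succ', add_zero]
  simp only [← add_assoc, add_right_comm n _ 1]
  set A := ∏ i ∈ Finset.range c, (cP (n + 1 + i) 3 : ℝ)
  calc _ ≤ 2 ^ k * (2 ^ (c * (n + 1 + 1)) * 2 ^ c * A) := by gcongr
    _ = 1 * 2 ^ c * (A * (2 ^ k * 2 ^ (c * (n + 1 + 1)))) := by ring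
    _ ≤ _ := by
      refine mul_le_mul (mul_le_mul ?_ (pow_le_pow_right₀ (by norm_num) (by omega)) (by positivity)
        (by positivity)) (mul_le_mul_of_nonneg_left g4 g3) (by positivity) (by positivity)
      exact g1

theorem lev_L2 {m s c : ℕ} (hs : 2 ^ 51 * s ≤ m) (h4 : 4 ≤ s) (hc : c ≤ s) :
    (Nn m 4 ((1 + 4 / 2 ^ s) / 2 ^ c) : ℝ) ≤ 1 / 2 ^ (m / 2) * Mult (m - c) c := by
  rcases c with _ | c
  · have h : Nn m 4 ((1 + 4 / 2 ^ s) / 2 ^ 0) = 0 := by
      refine (Set.ncard_eq_zero (Set.toFinite _)).2 (Set.eq_empty_of_forall_notMem fun f hf => ?_)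
      have h1 := hf.2.trans ((le_abs_self _).trans (abs_bias_le f))
      have h2 : (0 : ℝ) < 4 / 2 ^ s := by positivity
      rw [pow_zero, div_one] at h1
      linarith
    rw [h, Nat.cast_zero]
    exact mul_nonneg (by positivity) (Mult_nonneg _ _)
  have a1 := lev_U2 hs h4 (show c ≤ s by omega)
  obtain ⟨n, rfl⟩ : ∃ n, m = n + (c + 1) := ⟨m - (c + 1), by omega⟩
  rw [show n + (c + 1) - c = n + 1 by omega] at a1
  rw [pow_succ', ← div_div, Nat.add_sub_cancel, one_div, inv_mul_eq_div,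
    le_div_iff₀ (by positivity)]
  refine (mul_le_mul_of_nonneg_right a1 (by positivity)).trans ?_
  rw [mul_right_comm, ← pow_add]
  refine Mult_step ?_
  have b1 := sq_le_choose n
  have b2 : 100 * c * (n + 2) ≤ n * (2 * n) := Nat.mul_le_mul (by omega) (by omega)
  have b3 : 100 * s * (n + (c + 1)) ≤ n * (2 * n) := Nat.mul_le_mul (by omega) (by omega)
  have b4 : 1000 * n ≤ n * n := Nat.mul_le_mul_right _ (by omega)
  have b5 : (n + (c + 1)) / 2 ≤ n := by omega
  have b6 : 1 ≤ n := by omega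
  nlinarith

theorem Zs_ge (m s w : ℕ) : 1 ≤ Zs m s w := by
  have h := Finset.single_le_sum (f := fun c => Mult (m - c) c / 2 ^ (c * w))
    (fun c _ => div_nonneg (Mult_nonneg _ _) (by positivity))
    (Finset.mem_range.2 (Nat.succ_pos s))
  have h1 := Reduce_prod_le (m - 0) 0
  rw [Finset.prod_range_zero] at h1
  simp only [zero_mul, pow_zero, div_one] at h
  exact h1.trans h

theorem Sp_up {m s w : ℕ} (hs : 2 ^ 51 * s ≤ m) (h4 : 4 ≤ s)
    (hT : ∀ c, s ≤ c → (Nn m 4 (1 / 2 ^ (c + 1)) : ℝ) * 2 ^ (2 * m) ≤ 2 ^ (c * w))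
    (hC : (cP m 4 : ℝ) * 2 ^ (2 * m) ≤ 2 ^ (m * w)) :
    Spw m w ≤ ((1 + 1 / 2 ^ (m / 2)) * (1 + 4 / 2 ^ s) ^ w + 2 ^ (2 * s * m + 3) * (7 / 8) ^ w) *
      Zs m s w + (m + 1) / 2 ^ (2 * m) := by
  have p1 : (0 : ℝ) < 4 / 2 ^ s := by positivity
  have p2 : (4 : ℝ) / 2 ^ s ≤ 1 := by
    have := inv_pow_le h4
    rw [show (4 : ℝ) / 2 ^ s = 4 * (1 / 2 ^ s) by ring]
    norm_num at this ⊢
    linarith
  have a1 := av_mono fun h : P (Fin m → F) 4 => pt_up
    ((le_abs_self _).trans (abs_bias_le h.1)) p1.le p2 (show s ≤ m by omega) w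
  refine (mul_le_mul_of_nonneg_left a1 (Nat.cast_nonneg _)).trans ?_
  rw [av_add, av_add, av_const, Res2_av_sum, Res2_av_sum, mul_add, mul_add, Finset.mul_sum,
    Finset.mul_sum, Zs, Finset.mul_sum]
  refine add_le_add (Finset.sum_le_sum fun c hc => ?_) ?_
  · have hc' : c ≤ s := Nat.lt_succ_iff.1 (Finset.mem_range.1 hc)
    rw [av_add, av_mul_left, av_mul_left, mul_add, mul_left_comm, av_ge1, mul_left_comm, av_ge1]
    refine (add_le_add (mul_le_mul_of_nonneg_left (lev_U1 hs h4 hc') (by positivity))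
      (mul_le_mul_of_nonneg_left (lev_U2 hs h4 hc') (by positivity))).trans (le_of_eq ?_)
    rw [div_pow _ (2 ^ c), div_pow _ (2 ^ c), ← pow_mul]
    ring
  · have a2 : ∀ c ∈ Finset.Ico s m, cP m 4 * av (fun h : P (Fin m → F) 4 =>
        (1 / 2 ^ c) ^ w * ge1 (1 / 2 ^ (c + 1)) (bias h.1)) ≤ 1 / 2 ^ (2 * m) := fun c hc => by
      rw [av_mul_left, mul_left_comm, av_ge1, div_pow, one_pow, ← pow_mul, one_div, inv_mul_eq_div,
        div_le_div_iff₀ (by positivity) (by positivity), one_mul]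
      exact hT c (Finset.mem_Ico.1 hc).1
    have a3 := Finset.sum_le_card_nsmul _ _ _ a2
    rw [Nat.card_Ico, nsmul_eq_mul] at a3
    have a4 : ((m - s : ℕ) : ℝ) ≤ m := by exact_mod_cast Nat.sub_le m s
    have a5 : (cP m 4 : ℝ) * (1 / 2 ^ m) ^ w ≤ 1 / 2 ^ (2 * m) := by
      rw [div_pow, one_pow, ← pow_mul, mul_one_div,
        div_le_div_iff₀ (by positivity) (by positivity), one_mul]
      exact hC
    have a6 := mul_le_mul_of_nonneg_right a4 (show (0 : ℝ) ≤ 1 / 2 ^ (2 * m) by positivity)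
    rw [show ((m : ℝ) + 1) / 2 ^ (2 * m) = m * (1 / 2 ^ (2 * m)) + 1 / 2 ^ (2 * m) by ring]
    linarith

theorem Sp_low {m s : ℕ} (hs : 2 ^ 51 * s ≤ m) (h4 : 4 ≤ s) (w : ℕ) :
    (1 - 3 * (1 / 2 ^ (m / 2))) * (1 - 4 / 2 ^ s) ^ w * Zs m s w ≤ Spw m w := by
  have p1 : (0 : ℝ) < 4 / 2 ^ s := by positivity
  have p2 : (4 : ℝ) / 2 ^ s ≤ 1 / 3 := by
    have := inv_pow_le h4
    rw [show (4 : ℝ) / 2 ^ s = 4 * (1 / 2 ^ s) by ring]
    norm_num at this ⊢
    linarith
  have a1 := av_mono fun h : P (Fin m → F) 4 => pt_low (b := bias h.1) p1.le p2 s w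
  refine le_trans ?_ (mul_le_mul_of_nonneg_left a1 (Nat.cast_nonneg _))
  rw [Res2_av_sum, Finset.mul_sum, Zs, Finset.mul_sum]
  refine Finset.sum_le_sum fun c hc => ?_
  have hc' : c ≤ s := Nat.lt_succ_iff.1 (Finset.mem_range.1 hc)
  rw [av_mul_left, av_sub, mul_left_comm, mul_sub, av_ge1, av_ge1]
  have a2 := sub_le_sub (lev_L1 hs h4 hc') (lev_L2 hs h4 hc')
  have p3 : 0 ≤ ((1 - 4 / 2 ^ s) / 2 ^ c : ℝ) ^ w :=
    pow_nonneg (div_nonneg (by linarith) (by positivity)) _
  refine le_trans (le_of_eq ?_) (mul_le_mul_of_nonneg_left a2 p3)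
  rw [div_pow _ (2 ^ c), ← pow_mul]
  ring

end Pool.Agent.P.MP_cb6780_lc
end

-- part Pool.Agent.P.MP_cb6780_lc.SDual
section

set_option autoImplicit false

/-! Duality of the degree filtration and the MacWilliams identity. -/

namespace Pool.Agent.P.MP_cb6780_lc

open Module

/-- elementary symmetric function of the signs of `f` (a Krawtchouk number) -/
noncomputable def ew {X : Type} [Fintype X] (w : ℕ) (f : X → F) : ℝ :=
  ∑ A ∈ Finset.powersetCard w Finset.univ, ∏ x ∈ A, chi (f x)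

variable {V : Type} [AddCommGroup V] [Module F V] [Fintype V]

theorem SDual_D_mem (y : V) (f : V → F) : D y f ∈ P V (finrank F V) :=
  mem_P_succ.1 (by rw [P_top le_rfl]; exact Submodule.mem_top) y

theorem SDual_ker {h : V → F} (hs : ∑ x, h x = 0) : h ∈ P V (finrank F V) := by
  classical
  have e : h = ∑ y, h y • D y (Pi.single (0 : V) (1 : F)) := by
    funext x
    simp only [Finset.sum_apply, Pi.smul_apply, D_apply, smul_eq_mul, mul_add,
      Finset.sum_add_distrib, ← Finset.sum_mul, hs, zero_mul, add_zero]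
    rw [Finset.sum_eq_single x]
    · rw [add_self_V, Pi.single_eq_same, mul_one]
    · intro y _ hy
      have h1 : x + y ≠ 0 := fun h0 => hy (add_left_cancel (h0.trans (add_self_V x).symm))
      rw [Pi.single_eq_of_ne h1, mul_zero]
    · intro hx
      exact absurd (Finset.mem_univ x) hx
  rw [e]
  exact Submodule.sum_mem _ fun y _ => Submodule.smul_mem _ _ (SDual_D_mem _ _)

theorem sum_P {h : V → F} (hh : h ∈ P V (finrank F V)) : ∑ x, h x = 0 := by
  classical
  rcases Av_cases (∑ x, h x) with h0 | h1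
  · exact h0
  exfalso
  have ht : P V (finrank F V) = ⊤ := by
    refine eq_top_iff.2 fun f _ => ?_
    rcases Av_cases (∑ x, f x) with hf | hf
    · exact SDual_ker hf
    · have h2 : f + h ∈ P V (finrank F V) := by
        refine SDual_ker ?_
        simp only [Pi.add_apply, Finset.sum_add_distrib, hf, h1]
        decide
      have h3 := sub_mem h2 hh
      rwa [add_sub_cancel_right] at h3
  have h4 := card_P V (finrank F V)
  rw [ht, Nat.card_congr (Submodule.topEquiv (R := F) (M := V → F)).toEquiv, Nat.card_fun,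
    card_V (V := V), Nat.card_zmod, cP] at h4
  have h5 := Nat.pow_right_injective le_rfl h4
  have h6 := Nat.sum_range_choose (finrank F V)
  rw [Finset.sum_range_succ, Nat.choose_self] at h6
  omega

theorem SDual_adj (y : V) (g h : V → F) : ∑ x, D y g x * h x = ∑ x, g x * D y h x := by
  simp only [D_apply, add_mul, mul_add, Finset.sum_add_distrib]
  refine congrArg (fun t => t + ∑ x, g x * h x) ?_
  rw [← Equiv.sum_comp (Equiv.addRight y) fun x => g x * h (x + y)]
  refine Finset.sum_congr rfl fun x _ => ?_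
  rw [Equiv.coe_addRight, add_assoc, add_self_V, add_zero]

theorem mem_P_dual {k e : ℕ} (hke : k + e = finrank F V + 1) (g : V → F) :
    g ∈ P V k ↔ ∀ h ∈ P V e, ∑ x, g x * h x = 0 := by
  classical
  refine ⟨fun hg h hh => sum_P (basic_mul _ k e g h hke.le hg hh), ?_⟩
  induction k generalizing e g with
  | zero =>
    intro H
    rw [zero_add] at hke
    subst hke
    refine mem_P_zero.2 (funext fun x => ?_)
    have h1 := H (Pi.single x 1) (by rw [P_top le_rfl]; exact Submodule.mem_top)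
    rw [Finset.sum_eq_single x] at h1
    · rwa [Pi.single_eq_same, mul_one] at h1
    · intro y _ hy
      rw [Pi.single_eq_of_ne hy, mul_zero]
    · intro hx
      exact absurd (Finset.mem_univ x) hx
  | succ k ih =>
    intro H
    refine mem_P_succ.2 fun y => ih (e := e + 1) (by omega) _ fun h hh => ?_
    rw [SDual_adj]
    exact H _ (mem_P_succ.1 hh y)

theorem SDual_chi_sum {X : Type} (A : Finset X) (f : X → F) :
    ∏ x ∈ A, chi (f x) = chi (∑ x ∈ A, f x) := by
  classical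
  induction A using Finset.induction_on with
  | empty => simp [chi_zero]
  | insert a s ha ih => rw [Finset.prod_insert ha, Finset.sum_insert ha, chi_add, ih]

open Classical in
theorem SDual_av {k e : ℕ} (hke : k + e = finrank F V + 1) (g : V → F) :
    (av fun h : P V e => chi (∑ x, g x * h.1 x)) = if g ∈ P V k then 1 else 0 := by
  split_ifs with hg
  · have h1 : ∀ h : P V e, chi (∑ x, g x * h.1 x) = 1 := fun h => by
      rw [(mem_P_dual hke g).1 hg h.1 h.2, chi_zero]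
    rw [funext h1, av_const]
  · let l : Dual F (P V e) :=
      { toFun := fun h => ∑ x, g x * h.1 x
        map_add' := fun a b => by
          simp only [Submodule.coe_add, Pi.add_apply, mul_add, Finset.sum_add_distrib]
        map_smul' := fun c a => by
          simp only [Submodule.coe_smul, Pi.smul_apply, smul_eq_mul, RingHom.id_apply,
            Finset.mul_sum, mul_left_comm] }
    have hl : l ≠ 0 := fun h0 =>
      hg ((mem_P_dual hke g).2 fun h hh => LinearMap.congr_fun h0 ⟨h, hh⟩)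
    have h2 := bias_dual hl 0
    simp only [add_zero] at h2
    exact h2

theorem macw {k e : ℕ} (hke : k + e = finrank F V + 1) (w : ℕ) :
    ({g : V → F | g ∈ P V k ∧ hammingNorm g = w}.ncard : ℝ) = av fun h : P V e => ew w h.1 := by
  classical
  let I : Finset V → V → F := fun A x => if x ∈ A then 1 else 0
  have h1 : ∀ (A : Finset V) (h : P V e), ∏ x ∈ A, chi (h.1 x) = chi (∑ x, I A x * h.1 x) := by
    intro A h
    rw [SDual_chi_sum]
    simp only [I, ite_mul, one_mul, zero_mul, Finset.sum_ite_mem, Finset.univ_inter]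
  have h2 : ∀ A : Finset V, Finset.univ.filter (fun x => I A x ≠ 0) = A := by
    intro A
    ext x
    by_cases hx : x ∈ A <;> simp [I, hx]
  have h3 : Function.Injective I := fun A B hAB => by rw [← h2 A, ← h2 B, hAB]
  have h4 : {g : V → F | g ∈ P V k ∧ hammingNorm g = w} =
      I '' ((Finset.powersetCard w Finset.univ).filter fun A => I A ∈ P V k : Finset (Finset V)) := by
    ext g
    simp only [Set.mem_ofPred_eq, Set.mem_image, Finset.coe_filter, Finset.mem_powersetCard,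
      Finset.subset_univ, true_and]
    constructor
    · rintro ⟨hg, hw⟩
      have e1 : I (Finset.univ.filter fun x => g x ≠ 0) = g := by
        funext x
        rcases Av_cases (g x) with hx | hx <;> simp [I, hx]
      exact ⟨_, ⟨hw, e1.symm ▸ hg⟩, e1⟩
    · rintro ⟨A, ⟨hw, hA⟩, rfl⟩
      refine ⟨hA, ?_⟩
      rw [← hw]
      exact congrArg Finset.card (h2 A)
  unfold ew
  rw [Res2_av_sum (Finset.powersetCard w Finset.univ)
    fun (A : Finset V) (h : P V e) => ∏ x ∈ A, chi (h.1 x), h4,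
    Set.ncard_image_of_injective _ h3, Set.ncard_coe_finset, Finset.card_filter]
  push_cast
  refine Finset.sum_congr rfl fun A _ => ?_
  rw [funext (h1 A), SDual_av hke]

end Pool.Agent.P.MP_cb6780_lc
end

-- part Pool.Agent.P.MP_cb6780_lc.SKraw
section

set_option autoImplicit false

/-! Two estimates of Krawtchouk numbers. -/

namespace Pool.Agent.P.MP_cb6780_lc

/-- the coefficient of `z ^ w` in `(1 + z) ^ a * (1 - z ^ 2) ^ i` -/
noncomputable def Kr (a i w : ℕ) : ℝ :=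
  ∑ j ∈ Finset.range (i + 1), if 2 * j ≤ w then (-1) ^ j * (i.choose j * a.choose (w - 2 * j) : ℝ) else 0

theorem ew_zero {X : Type} [Fintype X] (w : ℕ) :
    ew w (0 : X → F) = (Fintype.card X).choose w := by
  simp [ew, chi_zero, Finset.card_powersetCard]

theorem ew_add_one {X : Type} [Fintype X] (w : ℕ) (f : X → F) :
    ew w (f + 1) = (-1) ^ w * ew w f := by
  rw [ew, ew, Finset.mul_sum]
  refine Finset.sum_congr rfl fun A hA => ?_
  simp only [Pi.add_apply, Pi.one_apply, chi_add, chi_one, Finset.prod_mul_distrib,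
    Finset.prod_const, (Finset.mem_powersetCard.1 hA).2, mul_comm]

open Polynomial in
theorem SKraw_coeff {X : Type} [Fintype X] (w : ℕ) (f : X → F) :
    ew w f = (∏ x, (1 + C (chi (f x)) * Polynomial.X)).coeff w := by
  classical
  rw [Finset.prod_one_add, finsetSum_coeff, ew, Finset.powersetCard_eq_filter, Finset.sum_filter]
  refine Finset.sum_congr rfl fun A _ => ?_
  rw [Finset.prod_mul_distrib, Finset.prod_const, ← map_prod, coeff_C_mul_X_pow]
  exact if_congr eq_comm rfl rfl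

open Polynomial in
theorem SKraw_Kr (a i w : ℕ) : ((1 + X) ^ (a + i) * (1 - X) ^ i : ℝ[X]).coeff w = Kr a i w := by
  have h : ((1 + X) ^ (a + i) * (1 - X) ^ i : ℝ[X]) = (1 + X) ^ a * (-X ^ 2 + 1) ^ i := by
    rw [pow_add, mul_assoc, ← mul_pow]
    congr 2
    ring
  rw [h, add_pow (-X ^ 2), Finset.mul_sum, finsetSum_coeff, Kr]
  refine Finset.sum_congr rfl fun j _ => ?_
  have e : ((1 + X) ^ a * ((-X ^ 2) ^ j * 1 ^ (i - j) * (i.choose j : ℝ[X])) : ℝ[X]) =
      C ((-1) ^ j * (i.choose j : ℝ)) * (1 + X) ^ a * X ^ (2 * j) := by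
    rw [neg_pow, ← pow_mul]
    simp only [map_mul, map_pow, map_neg, map_one, map_natCast]
    ring
  rw [e, coeff_mul_X_pow', coeff_C_mul, coeff_one_add_X_pow, mul_assoc]

theorem ew_eq_Kr {X : Type} [Fintype X] [Nonempty X] (w : ℕ) {f : X → F} (hf : 0 ≤ bias f) :
    ∃ a i : ℕ, a + 2 * i = Fintype.card X ∧ (a : ℝ) = Fintype.card X * bias f ∧
      ew w f = Kr a i w := by
  classical
  have hn : (0 : ℝ) < Fintype.card X := by exact_mod_cast Fintype.card_pos
  set z := (Finset.univ.filter fun x => f x = 0).card with hz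
  set i := (Finset.univ.filter fun x => ¬ f x = 0).card with hi
  have h1 : z + i = Fintype.card X := Finset.card_filter_add_card_filter_not _
  have h2 : Fintype.card X * bias f = (z : ℝ) - i := by
    rw [bias, av_eq, mul_div_cancel₀ _ hn.ne']
    simp only [chi, Finset.sum_ite, Finset.sum_const, nsmul_eq_mul, mul_one, mul_neg]
    rfl
  obtain ⟨a, ha⟩ : ∃ a, z = a + i := by
    have h3 : (i : ℝ) ≤ z := by nlinarith [mul_nonneg hn.le hf]
    exact ⟨z - i, (Nat.sub_add_cancel (by exact_mod_cast h3)).symm⟩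
  refine ⟨a, i, by omega, by rw [h2, ha]; push_cast; ring, ?_⟩
  rw [SKraw_coeff, ← SKraw_Kr, ← ha]
  congr 1
  simp only [chi, apply_ite Polynomial.C, ite_mul, add_ite, Finset.prod_ite, Finset.prod_const,
    map_one, map_neg, one_mul, neg_mul, ← sub_eq_add_neg]
  rfl

theorem desc_ge (a w : ℕ) {b : ℝ} (h0 : 0 < b) (hb : (a : ℝ) ≤ b) :
    (a : ℝ) ^ w - w.factorial * a.choose w ≤ (w : ℝ) ^ 2 / b * b ^ w := by
  have key : ∀ w : ℕ, b * ((a : ℝ) ^ w - a.descFactorial w) ≤ (w : ℝ) ^ 2 * b ^ w := by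
    intro w
    induction w with
    | zero => simp
    | succ w ih =>
      have ha : (0 : ℝ) ≤ a := Nat.cast_nonneg a
      have hw : (0 : ℝ) ≤ w := Nat.cast_nonneg w
      have h1 : (a.descFactorial w : ℝ) ≤ (a : ℝ) ^ w := by
        exact_mod_cast Nat.descFactorial_le_pow a w
      have h2 : (a : ℝ) ^ w ≤ b ^ w := pow_le_pow_left₀ ha hb w
      have h3 : (a : ℝ) - w ≤ ((a - w : ℕ) : ℝ) := by
        rcases le_total w a with h | h
        · rw [Nat.cast_sub h]
        · have : (a : ℝ) ≤ w := by exact_mod_cast h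
          have h4 : (0 : ℝ) ≤ ((a - w : ℕ) : ℝ) := Nat.cast_nonneg _
          linarith
      have hD : (0 : ℝ) ≤ a.descFactorial w := Nat.cast_nonneg _
      have hp : 0 < b ^ w := pow_pos h0 w
      rw [Nat.descFactorial_succ]
      push_cast
      generalize ((a - w : ℕ) : ℝ) = m at h3
      generalize (a.descFactorial w : ℝ) = D at *
      have h5 : (a : ℝ) ^ (w + 1) - m * D ≤ a * ((a : ℝ) ^ w - D) + w * D := by
        rw [pow_succ]; nlinarith [mul_le_mul_of_nonneg_right h3 hD]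
      have h6 : (a : ℝ) * ((a : ℝ) ^ w - D) ≤ (w : ℝ) ^ 2 * b ^ w :=
        (mul_le_mul_of_nonneg_right hb (sub_nonneg.2 h1)).trans ih
      have h7 : (w : ℝ) * D ≤ w * b ^ w := mul_le_mul_of_nonneg_left (h1.trans h2) hw
      have h8 : (a : ℝ) ^ (w + 1) - m * D ≤ ((w : ℝ) + 1) ^ 2 * b ^ w := by
        nlinarith [mul_nonneg hw hp.le]
      rw [pow_succ b w]
      nlinarith [mul_le_mul_of_nonneg_left h8 h0.le]
  have h := key w
  rw [Nat.descFactorial_eq_factorial_mul_choose] at h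
  push_cast at h
  rw [div_mul_eq_mul_div, le_div_iff₀ h0]
  linarith

theorem SKraw_term {a i w n j : ℕ} (hi : i ≤ n) {c : ℝ} (h0 : 0 < c) (ha : (a : ℝ) ≤ c)
    (hj : 2 * j ≤ w) :
    (w.factorial : ℝ) * (i.choose j * a.choose (w - 2 * j)) ≤
      c ^ w * (n * (w : ℝ) ^ 2 / c ^ 2) ^ j := by
  have h1 : w.factorial ≤ (w - 2 * j).factorial * w ^ (2 * j) := by
    rw [← Nat.factorial_mul_descFactorial hj]
    exact Nat.mul_le_mul_left _ (Nat.descFactorial_le_pow _ _)
  have h2 : i.choose j ≤ n ^ j := (Nat.choose_le_pow i j).trans (Nat.pow_le_pow_left hi j)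
  have h3 : (w - 2 * j).factorial * a.choose (w - 2 * j) ≤ a ^ (w - 2 * j) := by
    rw [← Nat.descFactorial_eq_factorial_mul_choose]
    exact Nat.descFactorial_le_pow _ _
  have h4 : w.factorial * (i.choose j * a.choose (w - 2 * j)) ≤
      w ^ (2 * j) * n ^ j * a ^ (w - 2 * j) := by
    calc w.factorial * (i.choose j * a.choose (w - 2 * j))
        ≤ (w - 2 * j).factorial * w ^ (2 * j) * (n ^ j * a.choose (w - 2 * j)) :=
          Nat.mul_le_mul h1 (Nat.mul_le_mul_right _ h2)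
      _ = w ^ (2 * j) * n ^ j * ((w - 2 * j).factorial * a.choose (w - 2 * j)) := by ring
      _ ≤ _ := Nat.mul_le_mul_left _ h3
  have h5 : (w.factorial : ℝ) * (i.choose j * a.choose (w - 2 * j)) ≤
      (w : ℝ) ^ (2 * j) * (n : ℝ) ^ j * (a : ℝ) ^ (w - 2 * j) := by exact_mod_cast h4
  have h6 : (a : ℝ) ^ (w - 2 * j) ≤ c ^ (w - 2 * j) := pow_le_pow_left₀ (Nat.cast_nonneg a) ha _
  have h7 : c ^ w = c ^ (w - 2 * j) * (c ^ 2) ^ j := by
    rw [← pow_mul, ← pow_add, Nat.sub_add_cancel hj]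
  refine h5.trans ((mul_le_mul_of_nonneg_left h6 (by positivity)).trans (le_of_eq ?_))
  rw [h7, div_pow, mul_pow, pow_mul]
  field_simp

theorem Kr_small {a i w n : ℕ} (h : a + 2 * i = n) {b : ℝ} (h0 : 0 < b) (h1 : b ≤ n)
    (hx : 2 * (n * (w : ℝ) ^ 2) ≤ b ^ 2) :
    |w.factorial * Kr a i w - (a : ℝ) ^ w| ≤ 3 * (n * (w : ℝ) ^ 2 / b ^ 2) * ((a : ℝ) ^ w + b ^ w) := by
  have hc0 : 0 < max (a : ℝ) b := lt_max_of_lt_right h0
  have hac : (a : ℝ) ≤ max (a : ℝ) b := le_max_left _ _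
  have hbc : b ≤ max (a : ℝ) b := le_max_right _ _
  have hcw : (max (a : ℝ) b) ^ w ≤ (a : ℝ) ^ w + b ^ w := by
    have h2 : (0 : ℝ) ≤ (a : ℝ) ^ w := by positivity
    have h3 : (0 : ℝ) ≤ b ^ w := by positivity
    rcases max_cases (a : ℝ) b with ⟨h4, _⟩ | ⟨h4, _⟩ <;> rw [h4] <;> linarith
  generalize max (a : ℝ) b = c at *
  have hx0 : 0 ≤ n * (w : ℝ) ^ 2 / b ^ 2 := by positivity
  have hx1 : n * (w : ℝ) ^ 2 / b ^ 2 ≤ 1 / 2 := by
    rw [div_le_iff₀ (by positivity)]; linarith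
  have hx2 : n * (w : ℝ) ^ 2 / c ^ 2 ≤ n * (w : ℝ) ^ 2 / b ^ 2 :=
    div_le_div_of_nonneg_left (by positivity) (by positivity) (pow_le_pow_left₀ h0.le hbc 2)
  have hx3 : (w : ℝ) ^ 2 / c ≤ n * (w : ℝ) ^ 2 / b ^ 2 := by
    refine (div_le_div_of_nonneg_left (by positivity) h0 hbc).trans ?_
    rw [div_le_div_iff₀ h0 (by positivity)]
    nlinarith [mul_le_mul_of_nonneg_left h1 (mul_nonneg (sq_nonneg (w : ℝ)) h0.le)]
  have hx4 : 0 ≤ n * (w : ℝ) ^ 2 / c ^ 2 := by positivity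
  have hcp : 0 < c ^ w := pow_pos hc0 w
  have hT := fun j hj => SKraw_term (a := a) (i := i) (w := w) (n := n) (j := j) (by omega) hc0 hac hj
  generalize n * (w : ℝ) ^ 2 / c ^ 2 = y at *
  generalize n * (w : ℝ) ^ 2 / b ^ 2 = x at *
  have hA : |(w.factorial : ℝ) * a.choose w - (a : ℝ) ^ w| ≤ x * c ^ w := by
    have h2 := desc_ge a w hc0 hac
    have h3 : (w.factorial : ℝ) * a.choose w ≤ (a : ℝ) ^ w := by
      have := Nat.descFactorial_le_pow a w
      rw [Nat.descFactorial_eq_factorial_mul_choose] at this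
      exact_mod_cast this
    rw [abs_sub_comm, abs_of_nonneg (by linarith)]
    exact h2.trans (mul_le_mul_of_nonneg_right hx3 hcp.le)
  have hB : |∑ j ∈ Finset.range i, (w.factorial : ℝ) * (if 2 * (j + 1) ≤ w then
      (-1) ^ (j + 1) * (i.choose (j + 1) * a.choose (w - 2 * (j + 1)) : ℝ) else 0)| ≤
      2 * x * c ^ w := by
    refine (Finset.abs_sum_le_sum_abs _ _).trans ?_
    refine (Finset.sum_le_sum (g := fun j => x * c ^ w * (1 / 2) ^ j) fun j _ => ?_).trans ?_
    · split_ifs with h2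
      · rw [mul_left_comm, abs_mul, abs_pow, abs_neg, abs_one, one_pow, one_mul,
          abs_of_nonneg (by positivity)]
        refine (hT _ h2).trans ?_
        have h3 : y ^ (j + 1) ≤ x * (1 / 2) ^ j := by
          rw [pow_succ']
          exact mul_le_mul hx2 (pow_le_pow_left₀ hx4 (hx2.trans hx1) j) (by positivity) hx0
        nlinarith [mul_le_mul_of_nonneg_left h3 hcp.le]
      · rw [mul_zero, abs_zero]; positivity
    · rw [← Finset.mul_sum]
      nlinarith [mul_le_mul_of_nonneg_left (sum_geometric_two_le i) (mul_nonneg hx0 hcp.le)]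
  unfold Kr
  rw [Finset.sum_range_succ', mul_add, Finset.mul_sum]
  simp only [mul_zero, Nat.zero_le, if_true, pow_zero, Nat.choose_zero_right, Nat.cast_one,
    one_mul, Nat.sub_zero]
  rw [add_sub_assoc]
  refine (abs_add_le _ _).trans ?_
  nlinarith [mul_le_mul_of_nonneg_left hcw hx0]

theorem SKraw_up {n w j : ℕ} (hw : w ≤ n) (hj : j < w) :
    n.choose j * (w ^ j * (n - w) ^ (n - j)) ≤
      n.choose (j + 1) * (w ^ (j + 1) * (n - w) ^ (n - (j + 1))) := by
  have h1 : n.choose j * (n - w) ≤ n.choose (j + 1) * w := by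
    refine Nat.le_of_mul_le_mul_right ?_ (Nat.succ_pos j)
    calc n.choose j * (n - w) * (j + 1) ≤ n.choose j * (n - j) * w :=
          Nat.mul_le_mul (Nat.mul_le_mul_left _ (by omega)) hj
      _ = n.choose (j + 1) * (j + 1) * w := by rw [Nat.choose_succ_right_eq]
      _ = _ := by simp only [Nat.succ_eq_add_one]; ring
  have h2 : n - j = n - (j + 1) + 1 := by omega
  calc n.choose j * (w ^ j * (n - w) ^ (n - j))
      = n.choose j * (n - w) * (w ^ j * (n - w) ^ (n - (j + 1))) := by rw [h2, pow_succ]; ring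
    _ ≤ n.choose (j + 1) * w * (w ^ j * (n - w) ^ (n - (j + 1))) := Nat.mul_le_mul_right _ h1
    _ = _ := by ring

theorem SKraw_down {n w j : ℕ} (hw : w ≤ j) (hj : j < n) :
    n.choose (j + 1) * (w ^ (j + 1) * (n - w) ^ (n - (j + 1))) ≤
      n.choose j * (w ^ j * (n - w) ^ (n - j)) := by
  have h1 : n.choose (j + 1) * w ≤ n.choose j * (n - w) := by
    refine Nat.le_of_mul_le_mul_right ?_ (Nat.succ_pos j)
    calc n.choose (j + 1) * w * (j + 1) = n.choose (j + 1) * (j + 1) * w := by ring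
      _ = n.choose j * (n - j) * w := by rw [Nat.choose_succ_right_eq]
      _ ≤ n.choose j * (n - w) * (j + 1) :=
          Nat.mul_le_mul (Nat.mul_le_mul_left _ (by omega)) (by omega)
  have h2 : n - j = n - (j + 1) + 1 := by omega
  calc n.choose (j + 1) * (w ^ (j + 1) * (n - w) ^ (n - (j + 1)))
      = n.choose (j + 1) * w * (w ^ j * (n - w) ^ (n - (j + 1))) := by ring
    _ ≤ n.choose j * (n - w) * (w ^ j * (n - w) ^ (n - (j + 1))) := Nat.mul_le_mul_right _ h1
    _ = _ := by rw [h2, pow_succ]; ring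

theorem mode_le {n w : ℕ} (hw : w ≤ n) :
    n ^ n ≤ (n + 1) * (n.choose w * (w ^ w * (n - w) ^ (n - w))) := by
  have hup : ∀ d j, j + d = w → n.choose j * (w ^ j * (n - w) ^ (n - j)) ≤
      n.choose w * (w ^ w * (n - w) ^ (n - w)) := by
    intro d
    induction d with
    | zero => intro j hj; rw [show j = w by omega]
    | succ d ih => intro j hj; exact (SKraw_up hw (by omega)).trans (ih (j + 1) (by omega))
  have hdn : ∀ d, w + d ≤ n → n.choose (w + d) * (w ^ (w + d) * (n - w) ^ (n - (w + d))) ≤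
      n.choose w * (w ^ w * (n - w) ^ (n - w)) := by
    intro d
    induction d with
    | zero => intro _; exact le_rfl
    | succ d ih =>
      intro hd
      exact (SKraw_down (j := w + d) (by omega) (by omega)).trans (ih (by omega))
  have h1 : n ^ n = (w + (n - w)) ^ n := by rw [Nat.add_sub_cancel' hw]
  rw [h1, add_pow]
  refine (Finset.sum_le_card_nsmul _ _ (n.choose w * (w ^ w * (n - w) ^ (n - w)))
    fun j hj => ?_).trans (by simp)
  have hj' := Finset.mem_range.1 hj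
  rw [Nat.cast_id, mul_comm]
  rcases le_total j w with h | h
  · exact hup (w - j) j (by omega)
  · have := hdn (j - w) (by omega)
    rwa [Nat.add_sub_cancel' h] at this

theorem SKraw_one (a m : ℕ) {r : ℝ} (hr : 0 ≤ r) : (a.choose m : ℝ) * r ^ m ≤ (r + 1) ^ a := by
  rcases lt_or_ge a m with h | h
  · rw [Nat.choose_eq_zero_of_lt h, Nat.cast_zero, zero_mul]; positivity
  · rw [add_pow]
    refine le_trans (le_of_eq ?_) (Finset.single_le_sum
      (f := fun j => r ^ j * 1 ^ (a - j) * (a.choose j : ℝ)) (fun j _ => by positivity)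
      (Finset.mem_range.2 (Nat.lt_succ_of_le h)))
    simp [mul_comm]

theorem SKraw_gen (a i w : ℕ) {r : ℝ} (hr : 0 ≤ r) :
    |Kr a i w| * r ^ w ≤ (r ^ 2 + 1) ^ i * (r + 1) ^ a := by
  unfold Kr
  refine (mul_le_mul_of_nonneg_right (Finset.abs_sum_le_sum_abs _ _) (by positivity)).trans ?_
  rw [add_pow (r ^ 2), Finset.sum_mul, Finset.sum_mul]
  refine Finset.sum_le_sum fun j _ => ?_
  split_ifs with h
  · rw [abs_mul, abs_pow, abs_neg, abs_one, one_pow, one_mul, abs_of_nonneg (by positivity)]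
    have h1 : r ^ w = (r ^ 2) ^ j * r ^ (w - 2 * j) := by
      rw [← pow_mul, ← pow_add, Nat.add_sub_cancel' h]
    have h2 := mul_le_mul_of_nonneg_left (SKraw_one a (w - 2 * j) hr)
      (show 0 ≤ (r ^ 2) ^ j * (i.choose j : ℝ) by positivity)
    rw [h1, one_pow, mul_one]
    linarith
  · rw [abs_zero, zero_mul]; positivity

theorem Kr_big {a i w n : ℕ} (h : a + 2 * i = n) (hi : n ≤ 8 * i) (hw : 2 * w ≤ n) :
    |Kr a i w| ≤ (n + 1) * n.choose w * Real.exp (-((w : ℝ) / 8)) := by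
  rcases Nat.eq_zero_or_pos w with rfl | hw0
  · have h1 := SKraw_gen a i 0 (le_refl (0 : ℝ))
    have h2 : (0 : ℝ) ≤ n := Nat.cast_nonneg n
    simp at h1 ⊢
    linarith
  have hwn : w ≤ n := by omega
  have hW : (0 : ℝ) < w := by exact_mod_cast hw0
  have hw' : 2 * (w : ℝ) ≤ n := by exact_mod_cast hw
  have hi' : (n : ℝ) ≤ 8 * i := by exact_mod_cast hi
  have hv : (0 : ℝ) < n - w := by linarith
  have hn : (0 : ℝ) < n := by linarith
  have hm : (n : ℝ) ^ n ≤ (n + 1) * (n.choose w * ((w : ℝ) ^ w * ((n : ℝ) - w) ^ (n - w))) := by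
    have := mode_le hwn
    rw [← Nat.cast_sub hwn]
    exact_mod_cast this
  obtain ⟨r, hr⟩ : ∃ r : ℝ, r = w / (n - w) := ⟨_, rfl⟩
  have hr0 : 0 < r := by rw [hr]; positivity
  have hr1 : r + 1 = n / (n - w) := by rw [hr]; field_simp; ring
  have h1 : (r + 1) ^ n ≤ (n + 1) * n.choose w * r ^ w := by
    rw [hr1, hr, div_pow, div_pow, div_le_iff₀ (by positivity)]
    refine hm.trans (le_of_eq ?_)
    have : ((n : ℝ) - w) ^ n = ((n : ℝ) - w) ^ (n - w) * ((n : ℝ) - w) ^ w := by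
      rw [← pow_add, Nat.sub_add_cancel hwn]
    rw [this]
    field_simp
  have h2 : r ^ 2 + 1 ≤ (r + 1) ^ 2 * Real.exp (-((w : ℝ) / n)) := by
    have h3 := Real.add_one_le_exp (-((w : ℝ) / n))
    refine le_trans ?_ (mul_le_mul_of_nonneg_left h3 (by positivity))
    have h4 : (r + 1) ^ 2 * ((w : ℝ) / n) ≤ 2 * r := by
      rw [hr1, hr, div_pow, div_mul_div_comm, ← mul_div_assoc,
        div_le_div_iff₀ (by positivity) hv]
      have h5 : 0 ≤ (n : ℝ) * w * (n - w) * (n - 2 * w) :=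
        mul_nonneg (by positivity) (by linarith)
      nlinarith
    nlinarith
  have h3 : (r ^ 2 + 1) ^ i ≤ (r + 1) ^ (2 * i) * Real.exp (-((w : ℝ) / 8)) := by
    refine (pow_le_pow_left₀ (by positivity) h2 i).trans ?_
    rw [mul_pow, ← pow_mul, ← Real.exp_nat_mul]
    refine mul_le_mul_of_nonneg_left (Real.exp_le_exp.2 ?_) (by positivity)
    have h4 : (w : ℝ) / 8 ≤ i * (w / n) := by
      rw [← mul_div_assoc, div_le_div_iff₀ (by norm_num) hn]
      nlinarith
    linarith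
  have h4 := SKraw_gen a i w hr0.le
  have h5 : (r + 1) ^ n = (r + 1) ^ (2 * i) * (r + 1) ^ a := by rw [← pow_add, ← h, add_comm a]
  refine le_of_mul_le_mul_right ?_ (pow_pos hr0 w)
  calc |Kr a i w| * r ^ w ≤ (r ^ 2 + 1) ^ i * (r + 1) ^ a := h4
    _ ≤ (r + 1) ^ (2 * i) * Real.exp (-((w : ℝ) / 8)) * (r + 1) ^ a :=
        mul_le_mul_of_nonneg_right h3 (by positivity)
    _ = (r + 1) ^ n * Real.exp (-((w : ℝ) / 8)) := by rw [h5]; ring
    _ ≤ (n + 1) * n.choose w * r ^ w * Real.exp (-((w : ℝ) / 8)) :=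
        mul_le_mul_of_nonneg_right h1 (Real.exp_pos _).le
    _ = _ := by ring

theorem ew_small {X : Type} [Fintype X] [Nonempty X] (f : X → F) {w : ℕ} (hw : Even w) {β : ℝ}
    (h0 : 0 < β) (h1 : β ≤ 1) (hx : 2 * (w : ℝ) ^ 2 ≤ β ^ 2 * Fintype.card X) :
    |w.factorial * ew w f / (Fintype.card X : ℝ) ^ w - bias f ^ w| ≤
      3 * ((w : ℝ) ^ 2 / (β ^ 2 * Fintype.card X)) * (bias f ^ w + β ^ w) := by
  wlog hf : 0 ≤ bias f generalizing f
  · have h := this (f + 1) (by rw [bias_add_one]; linarith)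
    rwa [ew_add_one, bias_add_one, hw.neg_pow, hw.neg_pow, one_pow, one_mul] at h
  obtain ⟨a, i, h2, h3, h4⟩ := ew_eq_Kr w hf
  have hn : (0 : ℝ) < Fintype.card X := by exact_mod_cast Fintype.card_pos
  generalize Fintype.card X = n at *
  have h5 := Kr_small (w := w) h2 (mul_pos hn h0) (mul_le_of_le_one_right hn.le h1)
    (by nlinarith [mul_le_mul_of_nonneg_left hx hn.le])
  have hp : (0 : ℝ) < (n : ℝ) ^ w := by positivity
  rw [h3, mul_pow, mul_pow _ β w, ← mul_add] at h5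
  rw [h4, div_sub' hp.ne', abs_div, abs_of_pos hp, div_le_iff₀ hp]
  refine h5.trans (le_of_eq ?_)
  field_simp

theorem ew_big {X : Type} [Fintype X] [Nonempty X] {f : X → F} (hb : |bias f| ≤ 3 / 4) {w : ℕ}
    (hw : 2 * w ≤ Fintype.card X) :
    |ew w f| ≤ (Fintype.card X + 1) * (Fintype.card X).choose w * Real.exp (-((w : ℝ) / 8)) := by
  wlog hf : 0 ≤ bias f generalizing f
  · have h := this (f := f + 1) (by rwa [bias_add_one, abs_neg]) (by rw [bias_add_one]; linarith)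
    rwa [ew_add_one, abs_mul, abs_pow, abs_neg, abs_one, one_pow, one_mul] at h
  obtain ⟨a, i, h2, h3, h4⟩ := ew_eq_Kr w hf
  rw [h4]
  refine Kr_big h2 ?_ hw
  have h5 : (a : ℝ) + 2 * i = Fintype.card X := by exact_mod_cast h2
  have h6 := mul_le_mul_of_nonneg_left ((le_abs_self _).trans hb)
    (Nat.cast_nonneg (α := ℝ) (Fintype.card X))
  exact_mod_cast (by linarith : (Fintype.card X : ℝ) ≤ 8 * i)

theorem choose_mul_le (a k w : ℕ) : k ^ w * a.choose w ≤ (k * a).choose w := by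
  have key : ∀ w : ℕ, k ^ w * a.descFactorial w ≤ (k * a).descFactorial w := by
    intro w
    induction w with
    | zero => simp
    | succ w ih =>
      rcases Nat.eq_zero_or_pos k with rfl | hk
      · simp
      have h1 : k * (a - w) ≤ k * a - w := by
        rw [Nat.mul_sub]
        exact Nat.sub_le_sub_left (Nat.le_mul_of_pos_left w hk) _
      rw [Nat.descFactorial_succ, Nat.descFactorial_succ]
      calc k ^ (w + 1) * ((a - w) * a.descFactorial w)
          = k * (a - w) * (k ^ w * a.descFactorial w) := by ring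
        _ ≤ _ := Nat.mul_le_mul h1 ih
  have h := key w
  rw [Nat.descFactorial_eq_factorial_mul_choose, Nat.descFactorial_eq_factorial_mul_choose,
    mul_left_comm] at h
  exact Nat.le_of_mul_le_mul_left h (Nat.factorial_pos w)

end Pool.Agent.P.MP_cb6780_lc
end

-- part Pool.Agent.P.MP_cb6780_lc.SMain
section

set_option autoImplicit false

/-! The weight distribution of the dual of the cubic code. -/

namespace Pool.Agent.P.MP_cb6780_lc

open Module

/-- sum of the Krawtchouk numbers over all cubic functions -/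
noncomputable def Aw (m w : ℕ) : ℝ := cP m 4 * av fun h : P (Fin m → F) 4 => ew w h.1

/-- half of the main term -/
noncomputable def Ms (m w : ℕ) : ℝ :=
  ∑ c ∈ Finset.range (m + 1), Mult (m - c) c * (2 ^ (m - c)).choose w

theorem Mult_cP (n c : ℕ) :
    Mult n c * cP n 4 = G (Fin (n + c) → F) c * 2 ^ c * cP (n + c) 4 := by
  rw [Mult, cP_add n c 3]
  push_cast
  ring

theorem Mult_le {m c w : ℕ} (h1 : 1 ≤ c) (h2 : c ≤ m)
    (h : 18 * m + 17 + 3 * (m * m) ≤ 6 * w + 2 * (m * c)) :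
    Mult (m - c) c * 2 ^ (2 * m) ≤ 2 ^ (c * w) := by
  obtain ⟨n, rfl⟩ : ∃ n, m = n + c := ⟨m - c, by omega⟩
  rw [Nat.add_sub_cancel]
  have c0 : (0 : ℝ) < cP n 4 := Nat.cast_pos.2 (cP_pos _ _)
  refine le_of_mul_le_mul_right ?_ c0
  have g := G_crude (Fin (n + c) → F) (n := n) (c := c) (Reduce_finrank _)
  rw [mul_right_comm, Mult_cP]
  refine (mul_le_mul_of_nonneg_right (mul_le_mul_of_nonneg_right (mul_le_mul_of_nonneg_right g
    (by positivity)) (Nat.cast_nonneg _)) (by positivity)).trans ?_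
  rw [cP, cP]
  push_cast
  simp only [← pow_add]
  refine pow_le_pow_right₀ (by norm_num) ?_
  have e1 := six_sum n
  have e2 := six_sum (n + c)
  have e3 := Nat.mul_le_mul_left c h
  have e4 : (n + c) * 1 ≤ (n + c) * c := Nat.mul_le_mul_left _ h1
  nlinarith [Nat.zero_le (n * c * c), Nat.zero_le (c * c)]

theorem cP_le {m k y : ℕ} (h : m ^ 3 + 5 * m + 6 + 6 * k ≤ 6 * y) :
    (cP m 4 : ℝ) * 2 ^ k ≤ 2 ^ y := by
  rw [cP]
  push_cast
  rw [← pow_add]
  exact pow_le_pow_right₀ (by norm_num) (by have := six_sum m; omega)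

theorem card_std (m : ℕ) : Fintype.card (Fin m → F) = 2 ^ m := by simp

theorem Mult_zero (m : ℕ) : Mult m 0 = 1 := by
  have h := G_mul (Fin (m + 0) → F) 0
  simp only [Finset.prod_range_zero, mul_one] at h
  rw [Mult, h]
  simp

theorem choose_le_div {m c : ℕ} (h : c ≤ m) (w : ℕ) :
    ((2 ^ (m - c)).choose w : ℝ) * 2 ^ (c * w) ≤ (2 ^ m).choose w := by
  have h1 := choose_mul_le (2 ^ (m - c)) (2 ^ c) w
  rw [← pow_add, Nat.add_sub_cancel' h, ← pow_mul, mul_comm] at h1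
  exact_mod_cast h1

theorem small_d {m u : ℕ} (h : u ≤ m) : ((m : ℝ) + 1) / 2 ^ (2 * m) ≤ 1 / 2 ^ u := by
  have h1 : (m : ℝ) + 1 ≤ 2 ^ m := by exact_mod_cast Nat.lt_two_pow_self
  rw [div_le_div_iff₀ (by positivity) (by positivity), one_mul, two_mul, pow_add]
  exact mul_le_mul h1 (pow_le_pow_right₀ (by norm_num) h) (by positivity) (by positivity)

theorem core_big {m w u : ℕ} (hm : 10 ≤ m) (hu : u ≤ m) (he : Even w) (h1 : 2 * m ^ 3 ≤ w)
    (h2 : 2 * w ≤ 2 ^ m) : 0 < Ms m w ∧ |Aw m w - 2 * Ms m w| ≤ 13 / 2 ^ u * (2 * Ms m w) := by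
  classical
  have m2 : 10 * (m * m) ≤ m ^ 3 := by nlinarith
  have m1 : 10 * m ≤ m * m := by nlinarith
  set C : ℝ := (2 ^ m).choose w with hC
  have C0 : 0 < C := Nat.cast_pos.2 (Nat.choose_pos (by omega))
  have e0 : (0 : ℝ) < 1 / 2 ^ u := by positivity
  have a1 : ∀ c ∈ Finset.range m,
      Mult (m - (c + 1)) (c + 1) * (2 ^ (m - (c + 1))).choose w ≤ 1 / 2 ^ (2 * m) * C := by
    intro c hc
    have hc' : c + 1 ≤ m := Finset.mem_range.1 hc
    have b1 := Mult_le (w := w) (c := c + 1) (by omega) hc' (by omega)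
    have b2 := choose_le_div hc' w
    have b3 := mul_le_mul b1 b2 (by positivity) (by positivity)
    rw [one_div, inv_mul_eq_div, le_div_iff₀ (by positivity)]
    refine le_of_mul_le_mul_right ?_ (show (0 : ℝ) < 2 ^ ((c + 1) * w) by positivity)
    linarith
  have a2 := Finset.sum_le_card_nsmul _ _ _ a1
  have a3 : 0 ≤ ∑ c ∈ Finset.range m, Mult (m - (c + 1)) (c + 1) * (2 ^ (m - (c + 1))).choose w :=
    Finset.sum_nonneg fun c _ => mul_nonneg (Mult_nonneg _ _) (Nat.cast_nonneg _)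
  have a4 : Ms m w = ∑ c ∈ Finset.range m, Mult (m - (c + 1)) (c + 1) *
      (2 ^ (m - (c + 1))).choose w + C := by
    rw [Ms, Finset.sum_range_succ', Mult_zero, one_mul, Nat.sub_zero]
  have a5 : (m : ℝ) * (1 / 2 ^ (2 * m) * C) ≤ 1 / 2 ^ u * C := by
    rw [← mul_assoc, mul_one_div]
    exact mul_le_mul_of_nonneg_right ((div_le_div_of_nonneg_right (by linarith)
      (by positivity)).trans (small_d hu)) C0.le
  rw [Finset.card_range, nsmul_eq_mul] at a2
  set B : ℝ := (2 ^ m + 1) * C * Real.exp (-((w : ℝ) / 8)) with hB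
  have B0 : 0 ≤ B := by positivity
  have b1 : ∀ h : P (Fin m → F) 4,
      |ew w h.1 - (C * ge1 1 (bias h.1) + C * ge1 1 (bias (h.1 + 1)))| ≤ B := fun h => by
    have one : (1 : (Fin m → F) → F) ∈ P _ 4 := P_mono (by norm_num) (mem_P_one.2 ⟨1, rfl⟩)
    by_cases h0 : h.1 = 0
    · rw [bias_add_one, h0, bias_zero, ew_zero, card_std, ge1_pos le_rfl, ge1_neg (by norm_num)]
      simpa [hC] using B0
    by_cases h1 : h.1 + 1 = 0
    · have e := ew_add_one w h.1
      have e' := bias_add_one h.1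
      rw [h1, ew_zero, he.neg_one_pow, one_mul, card_std] at e
      rw [h1, bias_zero] at e' ⊢
      rw [← e, ge1_pos le_rfl, ge1_neg (by linarith)]
      simpa [hC] using B0
    have d0 := min_dist h.2 h0
    have d1 := min_dist ((P _ 4).add_mem h.2 one) h1
    rw [ge1_neg (by norm_num at d0 ⊢; linarith), ge1_neg (by norm_num at d1 ⊢; linarith)]
    rw [bias_add_one] at d1
    have := ew_big (f := h.1) (abs_le.2 ⟨by norm_num at d1 ⊢; linarith, by
      norm_num at d0 ⊢; linarith⟩) (w := w) (by rwa [card_std])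
    rw [card_std] at this
    simpa using this
  have b2 := (abs_av_le _).trans (av_le_of_le b1)
  have b3 := av_ge1 m 1
  rw [show Nn m 4 1 = 1 from N_h0 (V := Fin m → F) (by norm_num) le_rfl, Nat.cast_one] at b3
  have b4 := av_P_shift (V := Fin m → F) (d := 4) (p := 1)
    (P_mono (by norm_num) (mem_P_one.2 ⟨1, rfl⟩)) fun f => ge1 1 (bias f)
  rw [av_sub, av_add, av_mul_left, av_mul_left, b4] at b2
  have b5 : |Aw m w - 2 * C| ≤ cP m 4 * B := by
    refine le_trans (le_of_eq ?_) (mul_le_mul_of_nonneg_left b2 (Nat.cast_nonneg _))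
    rw [← abs_of_nonneg (Nat.cast_nonneg (α := ℝ) (cP m 4)), ← abs_mul, Aw]
    congr 1
    linear_combination (2 * C) * b3
  have b6 : cP m 4 * B ≤ 1 / 2 ^ u * C := by
    have c1 := cP_le (m := m) (k := m + 1 + u) (y := w / 6) (by omega)
    have c2 : (2 : ℝ) ^ (w / 6) ≤ Real.exp (w / 8) := by
      rw [← Real.exp_log (show (0 : ℝ) < 2 by norm_num), ← Real.exp_nat_mul]
      refine Real.exp_le_exp.2 ?_
      have := Nat.cast_div_le (α := ℝ) (m := w) (n := 6)
      have l := Real.log_two_lt_d9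
      have := mul_le_mul this l.le (Real.log_pos (by norm_num)).le (by positivity)
      push_cast at this
      nlinarith [Nat.cast_nonneg (α := ℝ) w]
    have c3 : (2 : ℝ) ^ m + 1 ≤ 2 ^ (m + 1) := by
      rw [pow_succ]; linarith [one_le_pow₀ (n := m) (show (1 : ℝ) ≤ 2 by norm_num)]
    rw [hB, Real.exp_neg, mul_right_comm, ← mul_assoc]
    refine mul_le_mul_of_nonneg_right ?_ C0.le
    rw [← mul_assoc, ← div_eq_mul_inv, div_le_div_iff₀ (Real.exp_pos _) (by positivity), one_mul]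
    refine le_trans ?_ (c1.trans c2)
    rw [pow_add, ← mul_assoc]
    gcongr
  have b7 := abs_le.1 (b5.trans b6)
  have b8 := mul_pos e0 C0
  have b9 := mul_nonneg e0.le a3
  refine ⟨by linarith, abs_le.2 ⟨?_, ?_⟩⟩ <;>
    rw [a4, show (13 : ℝ) / 2 ^ u = 13 * (1 / 2 ^ u) by ring] <;> nlinarith

theorem one_add_pow_le {η ε : ℝ} (h0 : 0 ≤ η) {w : ℕ} (h1 : w * η ≤ ε) (h2 : ε ≤ 1) :
    (1 + η) ^ w ≤ 1 + 2 * ε := by
  have a0 : 0 ≤ w * η := by positivity
  have a1 : (1 + η) ^ w ≤ Real.exp ε := by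
    refine (pow_le_pow_left₀ (by linarith) ((add_comm 1 η).le.trans (Real.add_one_le_exp η)) w).trans ?_
    rw [← Real.exp_nat_mul]
    exact Real.exp_le_exp.2 h1
  have a2 := Real.abs_exp_sub_one_le (x := ε) (abs_le.2 ⟨by linarith, h2⟩)
  rw [abs_of_nonneg (a0.trans h1)] at a2
  linarith [le_abs_self (Real.exp ε - 1)]

theorem moment {m s w u : ℕ} (hs : 2 ^ 51 * s ≤ m) (hu : 2 * u ≤ s) (h7 : 7 ≤ u)
    (hp : 16 * m ^ 6 ≤ 2 ^ u) (h1 : 49 * (m * m) ≤ 100 * w) (h2 : w ≤ 2 * m ^ 3)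
    (hT : ∀ c, s ≤ c → (Nn m 4 (1 / 2 ^ (c + 1)) : ℝ) * 2 ^ (2 * m) ≤ 2 ^ (c * w)) :
    |Spw m w - Zs m s w| ≤ 6 * (1 / 2 ^ u) * Zs m s w := by
  have m1 : 1000 * m ≤ m * m := Nat.mul_le_mul_right _ (by omega)
  have m2 : 1000 * (s * m) ≤ m * m := by rw [← mul_assoc]; exact Nat.mul_le_mul_right _ (by omega)
  have e0 : (0 : ℝ) < 1 / 2 ^ u := by positivity
  have e1 : (1 : ℝ) / 2 ^ u ≤ 1 / 2 ^ 7 := inv_pow_le h7
  have z := Zs_ge m s w
  have a1 := Sp_up hs (by omega) hT (cP_le (by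
    have := Nat.mul_le_mul_left m h1
    have := Nat.mul_le_mul_left m m1
    nlinarith))
  have a2 := Sp_low hs (by omega) w
  have f1 : (1 : ℝ) / 2 ^ (m / 2) ≤ 1 / 2 ^ u := inv_pow_le (by omega)
  have f0 : (0 : ℝ) < 1 / 2 ^ (m / 2) := by positivity
  have f2 : (w : ℝ) * (4 / 2 ^ s) ≤ 1 / 2 ^ u := by
    rw [← mul_div_assoc, div_le_div_iff₀ (by positivity) (by positivity), one_mul]
    have b1 : m ^ 3 ≤ m ^ 6 := Nat.pow_le_pow_right (by omega) (by norm_num)
    have b2 : w * 4 * 2 ^ u ≤ 2 ^ s :=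
      (Nat.mul_le_mul_right _ (show w * 4 ≤ 2 ^ u by omega)).trans
        (by rw [← pow_add]; exact Nat.pow_le_pow_right (by norm_num) (by omega))
    exact_mod_cast b2
  have p1 : (0 : ℝ) < 4 / 2 ^ s := by positivity
  have p2 : (4 : ℝ) / 2 ^ s ≤ 1 := by
    have := inv_pow_le (show 2 ≤ s by omega)
    rw [show (4 : ℝ) / 2 ^ s = 4 * (1 / 2 ^ s) by ring]
    norm_num at this ⊢
    linarith
  have f3 := one_add_pow_le p1.le f2 (by norm_num at e1 ⊢; linarith)
  have f4 : 1 - 1 / 2 ^ u ≤ (1 - 4 / 2 ^ s : ℝ) ^ w := by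
    have := one_add_mul_le_pow (a := -(4 / 2 ^ s : ℝ)) (by linarith) w
    rw [← sub_eq_add_neg] at this
    linarith
  have f5 : (2 : ℝ) ^ (2 * s * m + 3) * (7 / 8) ^ w ≤ 1 / 2 ^ u := by
    have b1 : (7 / 8 : ℝ) ^ w ≤ 1 / 2 ^ (w / 6) := by
      refine (pow_le_pow_of_le_one (by norm_num) (by norm_num) (Nat.mul_div_le w 6)).trans ?_
      rw [pow_mul, ← one_div_pow]
      exact pow_le_pow_left₀ (by norm_num) (by norm_num) _
    refine (mul_le_mul_of_nonneg_left b1 (by positivity)).trans ?_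
    rw [mul_one_div, div_le_div_iff₀ (by positivity) (by positivity), one_mul, ← pow_add]
    refine pow_le_pow_right₀ (by norm_num) ?_
    rw [mul_assoc]
    omega
  have f6 := small_d (show u ≤ m by omega)
  set ε : ℝ := 1 / 2 ^ u
  set Z := Zs m s w
  have e2 : ε ≤ 1 / 100 := e1.trans (by norm_num)
  have g1 : (1 + 1 / 2 ^ (m / 2)) * (1 + 4 / 2 ^ s : ℝ) ^ w ≤ (1 + ε) * (1 + 2 * ε) :=
    mul_le_mul (by linarith) f3 (by positivity) (by linarith)
  have g2 : (1 - 3 * ε) * (1 - ε) ≤ (1 - 3 * (1 / 2 ^ (m / 2))) * (1 - 4 / 2 ^ s : ℝ) ^ w :=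
    mul_le_mul (by linarith) f4 (by linarith) (by linarith)
  have g3 := mul_le_mul_of_nonneg_right (add_le_add g1 f5) (show 0 ≤ Z by linarith)
  have g4 := mul_le_mul_of_nonneg_right g2 (show 0 ≤ Z by linarith)
  have g5 : ε * 1 ≤ ε * Z := mul_le_mul_of_nonneg_left z e0.le
  have g6 : ε * (ε * Z) ≤ 1 / 100 * (ε * Z) := mul_le_mul_of_nonneg_right e2 (by linarith)
  have g7 : 0 ≤ ε * (ε * Z) := mul_nonneg e0.le (by linarith)
  refine abs_le.2 ⟨by nlinarith, by nlinarith⟩

theorem Ms_small {m s w u : ℕ} (hs : 2 * s ≤ m) (hu : 2 * u ≤ s) (hw : w ^ 2 ≤ 2 ^ u)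
    (hM : ∀ c, s < c → c ≤ m → Mult (m - c) c * 2 ^ (2 * m) ≤ 2 ^ (c * w)) :
    |w.factorial * Ms m w / (2 ^ m) ^ w - Zs m s w| ≤ 1 / 2 ^ u * Zs m s w := by
  have z := Zs_ge m s w
  have e0 : (0 : ℝ) < 1 / 2 ^ u := by positivity
  set t : ℕ → ℝ := fun c => w.factorial * (2 ^ (m - c)).choose w / (2 ^ m) ^ w with ht
  have e1 : ∀ c, c ≤ m → ((2 : ℝ) ^ m) ^ w = (2 ^ (m - c)) ^ w * 2 ^ (c * w) := fun c hc => by
    rw [pow_mul, ← mul_pow, ← pow_add, Nat.sub_add_cancel hc]
  have t0 : ∀ c, 0 ≤ t c := fun c => by positivity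
  have t1 : ∀ c, c ≤ m → t c ≤ 1 / 2 ^ (c * w) := fun c hc => by
    have := Nat.descFactorial_le_pow (2 ^ (m - c)) w
    rw [Nat.descFactorial_eq_factorial_mul_choose] at this
    rw [ht, div_le_div_iff₀ (by positivity) (by positivity), e1 c hc, one_mul]
    exact mul_le_mul_of_nonneg_right (by exact_mod_cast this) (by positivity)
  have t2 : ∀ c, c ≤ s → (1 - 1 / 2 ^ u) / 2 ^ (c * w) ≤ t c := fun c hc => by
    have b1 := desc_ge (2 ^ (m - c)) w (b := 2 ^ (m - c)) (by positivity) (by norm_num)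
    have b2 : (w : ℝ) ^ 2 / 2 ^ (m - c) ≤ 1 / 2 ^ u := by
      rw [div_le_div_iff₀ (by positivity) (by positivity), one_mul]
      exact_mod_cast (Nat.mul_le_mul_right _ hw).trans
        (by rw [← pow_add]; exact Nat.pow_le_pow_right (by norm_num) (by omega))
    have b3 := mul_le_mul_of_nonneg_right b2 (show (0 : ℝ) ≤ (2 ^ (m - c)) ^ w by positivity)
    rw [ht, div_le_div_iff₀ (by positivity) (by positivity), e1 c (by omega), ← mul_assoc]
    refine mul_le_mul_of_nonneg_right ?_ (by positivity)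
    push_cast at b1 ⊢
    linarith
  have a1 : w.factorial * Ms m w / (2 ^ m) ^ w = ∑ c ∈ Finset.range (s + 1), Mult (m - c) c * t c +
      ∑ c ∈ Finset.Ico (s + 1) (m + 1), Mult (m - c) c * t c := by
    rw [Finset.sum_range_add_sum_Ico _ (by omega), Ms, Finset.mul_sum, Finset.sum_div]
    exact Finset.sum_congr rfl fun c _ => by rw [ht]; ring
  have a2 : ∑ c ∈ Finset.range (s + 1), Mult (m - c) c * t c ≤ Zs m s w :=
    Finset.sum_le_sum fun c hc => by
      rw [div_eq_mul_one_div]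
      exact mul_le_mul_of_nonneg_left (t1 c (by have := Finset.mem_range.1 hc; omega))
        (Mult_nonneg _ _)
  have a3 : (1 - 1 / 2 ^ u) * Zs m s w ≤ ∑ c ∈ Finset.range (s + 1), Mult (m - c) c * t c := by
    rw [Zs, Finset.mul_sum]
    refine Finset.sum_le_sum fun c hc => le_trans (le_of_eq (by ring))
      (mul_le_mul_of_nonneg_left (t2 c (by have := Finset.mem_range.1 hc; omega)) (Mult_nonneg _ _))
  have a4 : 0 ≤ ∑ c ∈ Finset.Ico (s + 1) (m + 1), Mult (m - c) c * t c :=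
    Finset.sum_nonneg fun c _ => mul_nonneg (Mult_nonneg _ _) (t0 c)
  have a5 := Finset.sum_le_card_nsmul (Finset.Ico (s + 1) (m + 1))
    (fun c => Mult (m - c) c * t c) (1 / 2 ^ (2 * m)) fun c hc => by
      have hc' := Finset.mem_Ico.1 hc
      refine (mul_le_mul_of_nonneg_left (t1 c (by omega)) (Mult_nonneg _ _)).trans ?_
      rw [mul_one_div, div_le_div_iff₀ (by positivity) (by positivity), one_mul]
      exact hM c hc'.1 (by omega)
  rw [Nat.card_Ico, nsmul_eq_mul, mul_one_div] at a5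
  have a6 : ((m + 1 - (s + 1) : ℕ) : ℝ) ≤ m + 1 := by exact_mod_cast Nat.sub_le _ _
  have a7 := (div_le_div_of_nonneg_right a6 (by positivity)).trans (small_d (show u ≤ m by omega))
  have a8 := mul_le_mul_of_nonneg_left z e0.le
  rw [a1]
  exact abs_le.2 ⟨by linarith, by linarith⟩

theorem core_small {m s w u : ℕ} (hs : 2 ^ 51 * s ≤ m) (hu : 2 * u ≤ s) (h7 : 7 ≤ u)
    (hp : 16 * m ^ 6 ≤ 2 ^ u) (he : Even w) (h1 : 49 * (m * m) ≤ 100 * w) (h2 : w ≤ 2 * m ^ 3)
    (hT : ∀ c, s ≤ c → (Nn m 4 (1 / 2 ^ (c + 1)) : ℝ) * 2 ^ (2 * m) ≤ 2 ^ (c * w))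
    (hM : ∀ c, s < c → c ≤ m → Mult (m - c) c * 2 ^ (2 * m) ≤ 2 ^ (c * w)) :
    0 < Ms m w ∧ |Aw m w - 2 * Ms m w| ≤ 13 / 2 ^ u * (2 * Ms m w) := by
  have m1 : 1000 * m ≤ m * m := Nat.mul_le_mul_right _ (by omega)
  have hw : w ^ 2 ≤ 2 ^ u := by
    have := Nat.pow_le_pow_left h2 2
    rw [show (2 * m ^ 3) ^ 2 = 4 * m ^ 6 by ring] at this
    omega
  have z := Zs_ge m s w
  have a1 := abs_le.1 (moment hs hu h7 hp h1 h2 hT)
  have a2 := abs_le.1 (Ms_small (by omega) hu hw hM)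
  have e0 : (0 : ℝ) < 1 / 2 ^ u := by positivity
  have e2 : (1 : ℝ) / 2 ^ u ≤ 1 / 100 := (inv_pow_le h7).trans (by norm_num)
  set d := 2 * m / 5 + 1 with hd
  have b1 : (w : ℝ) ^ 2 / ((1 / 2 ^ d) ^ 2 * Fintype.card (Fin m → F)) ≤ 1 / 2 ^ u := by
    rw [card_std, div_pow, one_pow, one_div, inv_mul_eq_div, div_div_eq_mul_div,
      div_le_div_iff₀ (by positivity) (by positivity), one_mul, ← pow_mul]
    exact_mod_cast (Nat.mul_le_mul_right _ (Nat.mul_le_mul_right _ hw)).trans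
      (by rw [← pow_add, ← pow_add]; exact Nat.pow_le_pow_right (by norm_num) (by omega))
  have b2 : ∀ h : P (Fin m → F) 4, |w.factorial / (2 ^ m) ^ w * ew w h.1 - bias h.1 ^ w| ≤
      3 * (1 / 2 ^ u) * (bias h.1 ^ w + (1 / 2 ^ d) ^ w) := fun h => by
    have := ew_small h.1 he (β := 1 / 2 ^ d) (by positivity)
      (by simpa using inv_pow_le (Nat.zero_le d)) (by
        rw [div_le_iff₀ (by positivity)] at b1
        have : (0 : ℝ) ≤ (1 / 2 ^ d) ^ 2 * Fintype.card (Fin m → F) := by positivity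
        nlinarith)
    rw [div_mul_eq_mul_div]
    refine le_trans (le_of_eq (by rw [card_std]; norm_num)) (this.trans ?_)
    exact mul_le_mul_of_nonneg_right (by linarith) (add_nonneg (he.pow_nonneg _) (by positivity))
  have b3 := (abs_av_le _).trans (av_mono b2)
  rw [av_sub, av_mul_left, av_mul_left, av_add, av_const] at b3
  have b4 := two_Sp m he (by omega)
  have b5 : (cP m 4 : ℝ) * (1 / 2 ^ d) ^ w ≤ 1 := by
    have := cP_le (m := m) (k := 0) (y := d * w) (by
      have c1 : 2 * m * (49 * (m * m)) ≤ 5 * d * (100 * w) := Nat.mul_le_mul (by omega) h1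
      have c2 := Nat.mul_le_mul_left m m1
      have c3 : 1 ≤ m := by omega
      nlinarith)
    rw [div_pow, one_pow, ← pow_mul, mul_one_div, div_le_one (by positivity)]
    simpa using this
  set k : ℝ := w.factorial / (2 ^ m) ^ w with hk
  have k0 : 0 < k := by positivity
  have b6 : |k * Aw m w - 2 * Spw m w| ≤ 3 * (1 / 2 ^ u) * (2 * Spw m w + 1) := by
    have := mul_le_mul_of_nonneg_left b3 (Nat.cast_nonneg (α := ℝ) (cP m 4))
    rw [← abs_of_nonneg (Nat.cast_nonneg (α := ℝ) (cP m 4)), ← abs_mul,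
      abs_of_nonneg (Nat.cast_nonneg (α := ℝ) (cP m 4)), mul_sub, b4, mul_left_comm,
      mul_left_comm (cP m 4 : ℝ), mul_add, b4] at this
    exact this.trans (mul_le_mul_of_nonneg_left (by linarith) (by positivity))
  rw [show w.factorial * Ms m w / (2 ^ m) ^ w = k * Ms m w by rw [hk]; ring] at a2
  set ε : ℝ := 1 / 2 ^ u with hε
  set Z := Zs m s w
  have g5 : ε * 1 ≤ ε * Z := mul_le_mul_of_nonneg_left z e0.le
  have g6 : ε * Z ≤ 1 / 100 * Z := mul_le_mul_of_nonneg_right e2 (by linarith)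
  have g7 : ε * (2 * Spw m w + 1) ≤ ε * (3.12 * Z) := mul_le_mul_of_nonneg_left (by linarith) e0.le
  have g8 : ε * (0.99 * Z) ≤ ε * (k * Ms m w) := mul_le_mul_of_nonneg_left (by linarith) e0.le
  have b7 := abs_le.1 b6
  refine ⟨(mul_pos_iff_of_pos_left k0).1 (by linarith), le_of_mul_le_mul_left ?_ k0⟩
  rw [← abs_of_pos k0, ← abs_mul, abs_of_pos k0, show (13 : ℝ) / 2 ^ u = 13 * ε by rw [hε]; ring]
  exact abs_le.2 ⟨by nlinarith, by nlinarith⟩

theorem core : ∃ θ : ℝ, 0 < θ ∧ ∃ m0 : ℕ, 4 ≤ m0 ∧ ∀ m w : ℕ, m0 ≤ m → Even w →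
    (1 / 2 - θ) * (m : ℝ) ^ 2 ≤ w → 2 * w ≤ 2 ^ m →
    |Aw m w / (2 * Ms m w) - 1| ≤ (2 : ℝ) ^ (-(θ * m)) := by
  obtain ⟨θ, t0, t1, m1, hT⟩ := tail (K := 2 ^ 52) (by norm_num)
  obtain ⟨m2, h2⟩ := ev_pow 6 32 (δ := 1 / 2 ^ 52) (by norm_num)
  obtain ⟨m3, h3⟩ := ev_pow 0 26 (δ := 1 / 2 ^ 53) (by norm_num)
  refine ⟨min θ (1 / 2 ^ 54), lt_min t0 (by norm_num), m1 + m2 + m3 + 2 ^ 57, by omega,
    fun m w hm he hw hw2 => ?_⟩
  set s := m / 2 ^ 51 with hs
  set u := s / 2 with hu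
  have m0 : (0 : ℝ) ≤ m := Nat.cast_nonneg _
  have u1 : (2 : ℝ) ^ (1 / 2 ^ 52 * (m : ℝ)) ≤ 2 * 2 ^ u := by
    rw [← pow_succ', ← Real.rpow_natCast 2 (u + 1)]
    refine Real.rpow_le_rpow_of_exponent_le (by norm_num) ?_
    have : (m : ℝ) ≤ 2 ^ 52 * (u + 1 : ℕ) := by exact_mod_cast (show m ≤ 2 ^ 52 * (u + 1) by omega)
    linarith
  have w1 : (1 / 2 - θ) * (m : ℝ) ^ 2 ≤ w :=
    le_trans (mul_le_mul_of_nonneg_right (by linarith [min_le_left θ (1 / 2 ^ 54)]) (sq_nonneg _)) hw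
  have w2 : (1 / 2 - 1 / 2 ^ 54) * (m : ℝ) ^ 2 ≤ w :=
    le_trans (mul_le_mul_of_nonneg_right (by linarith [min_le_right θ (1 / 2 ^ 54)]) (sq_nonneg _)) hw
  have w3 : (2 ^ 53 - 1) * (m * m) ≤ 2 ^ 54 * w := by
    have : (9007199254740991 : ℝ) * (m * m) ≤ 18014398509481984 * w := by nlinarith
    exact_mod_cast this
  have key : 0 < Ms m w ∧ |Aw m w - 2 * Ms m w| ≤ 13 / 2 ^ u * (2 * Ms m w) := by
    rcases le_total w (2 * m ^ 3) with h | h
    · refine core_small (s := s) (by omega) (by omega) (by omega) ?_ he (by omega) h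
        (fun c hc => hT m c w (by omega) (by omega) w1) fun c c1 c2 => Mult_le (by omega) c2 ?_
      · have := (h2 m (by omega)).trans u1
        exact_mod_cast (show (16 : ℝ) * m ^ 6 ≤ 2 ^ u by linarith)
      · have b1 : m * m ≤ m * (2 ^ 51 * c) := Nat.mul_le_mul_left _ (by omega)
        have b2 : 2 ^ 57 * m ≤ m * m := Nat.mul_le_mul_right _ (by omega)
        rw [mul_left_comm] at b1
        omega
    · exact core_big (by omega) (by omega) he h hw2
  have p : 0 < 2 * Ms m w := by linarith [key.1]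
  rw [div_sub_one p.ne', abs_div, abs_of_pos p, div_le_iff₀ p]
  refine key.2.trans (mul_le_mul_of_nonneg_right ?_ p.le)
  have a1 := h3 m (by omega)
  rw [pow_zero, mul_one] at a1
  have a2 : (2 : ℝ) ^ (min θ (1 / 2 ^ 54) * m) ≤ 2 ^ (1 / 2 ^ 53 * (m : ℝ)) :=
    Real.rpow_le_rpow_of_exponent_le (by norm_num)
      (mul_le_mul_of_nonneg_right ((min_le_right _ _).trans (by norm_num)) m0)
  have a3 : (2 : ℝ) ^ (1 / 2 ^ 53 * (m : ℝ)) * 2 ^ (1 / 2 ^ 53 * (m : ℝ)) =
      2 ^ (1 / 2 ^ 52 * (m : ℝ)) := by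
    rw [← Real.rpow_add (by norm_num)]; congr 1; ring
  rw [Real.rpow_neg (by norm_num), inv_eq_one_div, div_le_div_iff₀ (by positivity) (by positivity)]
  have a4 := mul_le_mul a1 a2 (by positivity) (by positivity)
  linarith

theorem term_eq {m c : ℕ} (hc : c ≤ m) (w : ℕ) :
    cP m 4 * (2 * (∏ i ∈ Finset.range c, ((2 : ℝ) ^ m - 2 ^ i) / (2 ^ c - 2 ^ i)) * 2 ^ c *
      (2 ^ (m - c)).choose w / 2 ^ ∑ i ∈ Finset.range 4, (m - c).choose i) =
    2 * (Mult (m - c) c * (2 ^ (m - c)).choose w) := by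
  obtain ⟨n, rfl⟩ : ∃ n, m = n + c := ⟨m - c, by omega⟩
  rw [Nat.add_sub_cancel]
  have h1 := G_mul (Fin (n + c) → F) c
  have h2 : ∏ i ∈ Finset.range c, ((2 : ℝ) ^ c - 2 ^ i) ≠ 0 :=
    Finset.prod_ne_zero_iff.2 fun i hi =>
      (sub_pos.2 (pow_lt_pow_right₀ (by norm_num) (Finset.mem_range.1 hi))).ne'
  have h3 := Mult_cP n c
  have h4 : (cP n 4 : ℝ) = 2 ^ ∑ i ∈ Finset.range 4, n.choose i := by rw [cP]; norm_cast
  have h5 : (cP n 4 : ℝ) ≠ 0 := Nat.cast_ne_zero.2 (cP_pos _ _).ne'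
  rw [Reduce_finrank] at h1
  rw [Finset.prod_div_distrib, ← h1, mul_div_cancel_right₀ _ h2, ← h4, ← mul_div_assoc,
    div_eq_iff h5]
  linear_combination (-2 * ((2 ^ n).choose w : ℝ)) * h3

theorem dual_main : ∃ θ : ℝ, 0 < θ ∧ ∃ m0 : ℕ, ∀ m w : ℕ, m0 ≤ m → Even w →
    (1 / 2 - θ) * (m : ℝ) ^ 2 ≤ w → 2 * w ≤ 2 ^ m →
    |({f : (Fin m → ZMod 2) → ZMod 2 | (∃ p : MvPolynomial (Fin m) (ZMod 2),
          p.totalDegree + 4 ≤ m ∧ ∀ x, f x = MvPolynomial.eval x p) ∧ hammingNorm f = w}.ncard : ℝ) /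
        (∑ c ∈ Finset.range (m + 1),
          2 * (∏ i ∈ Finset.range c, ((2 : ℝ) ^ m - 2 ^ i) / (2 ^ c - 2 ^ i)) * 2 ^ c *
            (2 ^ (m - c)).choose w / 2 ^ ∑ i ∈ Finset.range 4, (m - c).choose i) - 1| ≤
      (2 : ℝ) ^ (-(θ * m)) := by
  obtain ⟨θ, t0, m0, h4, h⟩ := core
  refine ⟨θ, t0, m0, fun m w h1 h2 h3 h5 => le_trans (le_of_eq ?_) (h m w h1 h2 h3 h5)⟩
  have c0 : (cP m 4 : ℝ) ≠ 0 := Nat.cast_ne_zero.2 (cP_pos _ _).ne'
  rw [← mul_div_mul_left _ _ c0, Finset.mul_sum,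
    Finset.sum_congr rfl fun c hc => term_eq (Nat.lt_succ_iff.1 (Finset.mem_range.1 hc)) w,
    ← Finset.mul_sum, Aw]
  obtain ⟨r, rfl⟩ : ∃ r, m = r + 4 := ⟨m - 4, by omega⟩
  rw [← macw (k := r + 1) (by rw [Reduce_finrank]) w]
  simp only [mem_P_iff_poly, add_le_add_iff_right]
  rfl

end Pool.Agent.P.MP_cb6780_lc
end
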