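import Pool.Agent.K.MP_cb6780_lc.C1
import Mathlib

-- part Pool.Agent.P.MP_cb6780_lc.LSplit
section

set_option autoImplicit false
set_option linter.unusedSectionVars false

namespace Pool.Agent.P.MP_cb6780_lc

open Module

section
variable {V : Type} [AddCommGroup V] [Module F V] [Finite V]

theorem LSplit_bij {l : Dual F V} {e : V} (he : l e = 1) :
    Function.Bijective (Sum.elim (fun u : LinearMap.ker l => (u : V) + 0)
      fun u : LinearMap.ker l => (u : V) + e) := by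
  have h01 : (0 : F) ≠ 1 := by decide
  constructor
  · rintro (u | u) (v | v) h <;> simp only [Sum.elim_inl, Sum.elim_inr] at h
    · rw [Subtype.ext (add_right_cancel h)]
    · have := congrArg l h
      rw [map_add, map_add, u.2, v.2, he, map_zero, add_zero, zero_add] at this
      exact absurd this h01
    · have := congrArg l h
      rw [map_add, map_add, u.2, v.2, he, map_zero, add_zero, zero_add] at this
      exact absurd this.symm h01
    · rw [Subtype.ext (add_right_cancel h)]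
  · intro x
    rcases Av_cases (l x) with h | h
    · exact ⟨Sum.inl ⟨x, h⟩, add_zero x⟩
    · refine ⟨Sum.inr ⟨x + e, ?_⟩, ?_⟩
      · rw [LinearMap.mem_ker, map_add, h, he]; decide
      · show x + e + e = x
        rw [add_assoc, add_self_V, add_zero]

theorem gap_split {l : Dual F V} {e : V} (he : l e = 1) (f : V → F) :
    gap f = gap (res (LinearMap.ker l) 0 f) + gap (res (LinearMap.ker l) e f) := by
  have := Fintype.ofFinite (LinearMap.ker l)
  rw [← gap_congr (Equiv.ofBijective _ (LSplit_bij he)) f, gap_eq, gap_eq, gap_eq,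
    Fintype.sum_sum_type]
  rfl

theorem av_split {l : Dual F V} {e : V} (he : l e = 1) (d : ℕ) (f : V → F) (Φ : ℝ → ℝ) :
    av (fun q : P V (d + 1) => Φ (gap (f + q.1))) =
      av fun q : P (LinearMap.ker l) (d + 1) => av fun p' : P (LinearMap.ker l) d =>
        av fun p : P (LinearMap.ker l) d =>
          Φ (gap (res (LinearMap.ker l) 0 f + q.1 + p'.1) +
            gap (res (LinearMap.ker l) e f + q.1 + p.1)) := by
  set U := LinearMap.ker l with hU
  let R : P V (d + 1) →+ P U (d + 1) × P U d :=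
    { toFun := fun q => (⟨res U 0 q.1, res_mem_P q.2 U 0⟩,
        ⟨res U 0 (D e q.1), res_mem_P (mem_P_succ.1 q.2 e) U 0⟩)
      map_zero' := by simp
      map_add' := fun a b => by simp }
  have hR : Function.Surjective R := by
    rintro ⟨g, p⟩
    let π : V →ₗ[F] U := LinearMap.codRestrict U (LinearMap.id + l.smulRight e) fun x => by
      rw [hU, LinearMap.mem_ker]
      simp only [LinearMap.add_apply, LinearMap.id_apply, LinearMap.smulRight_apply, map_add,
        map_smul, he, smul_eq_mul, mul_one]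
      exact CharTwo.add_self_eq_zero _
    have h0 : ∀ u : U, l u = 0 := fun u => u.2
    have p0 : ∀ u : U, π ((u : V) + 0) = u := fun u => Subtype.ext (by simp [π, h0 u])
    have p1 : ∀ u : U, π ((u : V) + 0 + e) = u := fun u => Subtype.ext (by
      simp only [π, LinearMap.codRestrict_apply, LinearMap.add_apply, LinearMap.id_apply,
        LinearMap.smulRight_apply, map_add, h0 u, he, add_zero, zero_add, one_smul, zero_smul,
        Submodule.coe_add]
      rw [add_self_V, add_zero])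
    have m1 : ((fun x => l x) * fun x => p.1 (π x)) ∈ P V (d + 1) := by
      cases d with
      | zero =>
        rw [mem_P_zero.1 (Card_comp p.2 π), mul_zero]
        exact zero_mem _
      | succ d =>
        have := mul_mem_P (d := 1) (dual_mem_P l) (Card_comp p.2 π)
        rwa [add_comm 1 d] at this
    refine ⟨⟨_, add_mem (Card_comp g.2 π) m1⟩, Prod.ext (Subtype.ext (funext fun u => ?_))
      (Subtype.ext (funext fun u => ?_))⟩
    · show g.1 (π ((u : V) + 0)) + l ((u : V) + 0) * p.1 (π ((u : V) + 0)) = g.1 u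
      rw [p0, add_zero, h0, zero_mul, add_zero]
    · show g.1 (π ((u : V) + 0 + e)) + l ((u : V) + 0 + e) * p.1 (π ((u : V) + 0 + e)) +
        (g.1 (π ((u : V) + 0)) + l ((u : V) + 0) * p.1 (π ((u : V) + 0))) = p.1 u
      rw [p0, p1, add_zero, map_add, h0, he]
      have h : ∀ a b : F, a + (0 + 1) * b + (a + 0 * b) = b := by decide
      exact h _ _
  have h1 := av_surj R hR fun z => Φ (gap (res U 0 f + z.1.1) + gap (res U e f + z.1.1 + z.2.1))
  have h2 : ∀ q : P V (d + 1), Φ (gap (f + q.1)) =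
      Φ (gap (res U 0 f + (R q).1.1) + gap (res U e f + (R q).1.1 + (R q).2.1)) := fun q => by
    rw [gap_split he, map_add, map_add]
    congr 3
    funext u
    show f (u + e) + q.1 (u + e) = f (u + e) + q.1 (u + 0) + (q.1 (u + 0 + e) + q.1 (u + 0))
    rw [add_zero]
    have h : ∀ a b c : F, a + b = a + c + (b + c) := by decide
    exact h _ _ _
  rw [funext h2, h1, av_prod, ← av_P_av (Nat.le_succ d) fun q =>
    av fun p : P U d => Φ (gap (res U 0 f + q) + gap (res U e f + q + p.1))]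
  refine congrArg av (funext fun q => congrArg av (funext fun p' => ?_))
  rw [← av_P_shift p'.2 fun p => Φ (gap (res U 0 f + q.1 + p'.1) + gap (res U e f + q.1 + p))]
  refine congrArg av (funext fun p => ?_)
  congr 3
  · rw [add_assoc]
  · abel

theorem av_odd (d : ℕ) (f : V → F) (Φ : ℝ → ℝ) (hΦ : ∀ x, Φ (-x) = -Φ x) :
    av (fun q : P V (d + 1) => Φ (gap (f + q.1))) = 0 := by
  have h1 : (1 : V → F) ∈ P V (d + 1) := P_mono (by omega) (mem_P_one.2 ⟨1, rfl⟩)
  have h2 := av_P_shift h1 fun q => Φ (gap (f + q))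
  simp only [← add_assoc, gap_add_one, hΦ] at h2
  have h3 := av_mul_left (-1) fun q : P V (d + 1) => Φ (gap (f + q.1))
  simp only [neg_mul, one_mul] at h3
  linarith

theorem av_sin (d : ℕ) (t : ℝ) (f : V → F) :
    av (fun q : P V (d + 1) => Real.sin (t * gap (f + q.1))) = 0 :=
  av_odd d f (fun x => Real.sin (t * x)) fun x => by rw [mul_neg, Real.sin_neg]

theorem psi_prod {l : Dual F V} {e : V} (he : l e = 1) (d : ℕ) (t : ℝ) (f : V → F) :
    psi (d + 2) t f = av fun q : P (LinearMap.ker l) (d + 2) =>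
      psi (d + 1) t (res (LinearMap.ker l) 0 f + q.1) *
        psi (d + 1) t (res (LinearMap.ker l) e f + q.1) := by
  refine (av_split he (d + 1) f fun x => Real.cos (t * x)).trans
    (congrArg av (funext fun q => ?_))
  simp only [mul_add, Real.cos_add, av_sub, av_mul_left, av_sin, mul_zero, av_const, sub_zero]
  simp only [mul_comm (Real.cos _), av_mul_left]
  exact mul_comm _ _

theorem LSplit_half {l : Dual F V} {e : V} (he : l e = 1) (d : ℕ) (t : ℝ) (f : V → F) :
    |psi (d + 2) t f| ≤ 1 / 2 * mu (d + 2) (d + 1) t (res (LinearMap.ker l) 0 f) +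
      1 / 2 * mu (d + 2) (d + 1) t (res (LinearMap.ker l) e f) := by
  rw [psi_prod he]
  refine (abs_av_le _).trans ?_
  unfold mu
  rw [← av_mul_left, ← av_mul_left, ← av_add]
  refine av_mono fun q => abs_le.2 ⟨?_, ?_⟩
  · nlinarith [sq_nonneg (psi (d + 1) t (res (LinearMap.ker l) 0 f + q.1) +
      psi (d + 1) t (res (LinearMap.ker l) e f + q.1))]
  · nlinarith [sq_nonneg (psi (d + 1) t (res (LinearMap.ker l) 0 f + q.1) -
      psi (d + 1) t (res (LinearMap.ker l) e f + q.1))]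

theorem abs_psi_le {l : Dual F V} (hl : l ≠ 0) (d : ℕ) (t : ℝ) (f : V → F) :
    |psi (d + 2) t f| ≤
      av fun x : V => mu (d + 2) (d + 1) t (res (LinearMap.ker l) 0 fun w => f (w + x)) := by
  obtain ⟨e, he⟩ := exists_eq_one hl
  set Y : V → ℝ := fun x => mu (d + 2) (d + 1) t (res (LinearMap.ker l) 0 fun w => f (w + x))
  have h1 : ∀ x, |psi (d + 2) t f| ≤ 1 / 2 * Y x + 1 / 2 * Y (e + x) := fun x => by
    have h2 := LSplit_half he d t fun w => f (w + x)
    have h3 := psi_congr (LinearEquiv.refl F V) x (d + 2) t f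
    have h4 : (res (LinearMap.ker l) e fun w => f (w + x)) =
        res (LinearMap.ker l) 0 fun w => f (w + (e + x)) := by
      funext u
      simp only [res_apply, add_zero, add_assoc]
    rw [h4] at h2
    rw [← h3]
    exact h2
  have h5 := av_mono h1
  rw [av_const, av_add, av_mul_left, av_mul_left] at h5
  have h6 : av (fun x => Y (e + x)) = av Y := av_congr (Equiv.addLeft e) Y
  rw [h6] at h5
  linarith

end

theorem phi_succ (r n : ℕ) (t : ℝ) :
    phi (r + 1) (n + 1) t = mu (r + 2) (r + 1) t (0 : (Fin n → F) → F) := by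
  let l : Dual F (Fin (n + 1) → F) := LinearMap.proj 0
  have he : l (Pi.single 0 1) = 1 := by simp [l]
  have hl : l ≠ 0 := fun h => by rw [h] at he; exact zero_ne_one he
  have hk := finrank_ker_dual hl
  rw [finrank_fin_fun] at hk
  have hk' : finrank F (LinearMap.ker l) = n := by omega
  have h := mu_zero_eq (V := LinearMap.ker l) (r + 2) (r + 1) t
  rw [hk'] at h
  rw [← h, phi, psi_prod he, mu]
  simp only [map_zero, sq]

theorem phi_le_one (r n : ℕ) (t : ℝ) : phi r n t ≤ 1 := psi_le_one _ _ _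

theorem neg_one_le_phi (r n : ℕ) (t : ℝ) : -1 ≤ phi r n t := (abs_le.1 (abs_psi_le_one _ _ _)).1

theorem phi_nonneg (r n : ℕ) (t : ℝ) : 0 ≤ phi (r + 1) (n + 1) t := by
  rw [phi_succ]
  exact mu_nonneg _ _ _ _

theorem phi_sq_le (r n : ℕ) (t : ℝ) : phi (r + 1) n t ^ 2 ≤ phi (r + 1) (n + 1) t := by
  rw [phi_succ, phi, ← psi_av (Nat.le_succ (r + 1))]
  exact sq_av_le _

theorem phi_zero (r : ℕ) (t : ℝ) : phi r 0 t = Real.cos t := by
  have h : ∀ g : (Fin 0 → F) → F, Real.cos (t * gap g) = Real.cos t := fun g => by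
    rw [gap_eq, Fintype.sum_subsingleton _ 0]
    rcases Av_cases (g 0) with h | h <;> rw [h] <;> simp [chi_zero, chi_one]
  unfold phi psi
  simp only [h, av_const]

theorem cos_pow_le_phi (r n : ℕ) (t : ℝ) : Real.cos t ^ 2 ^ (n + 1) ≤ phi (r + 1) (n + 1) t := by
  induction n with
  | zero =>
    have := phi_sq_le r 0 t
    rwa [phi_zero] at this
  | succ n ih =>
    refine le_trans ?_ (phi_sq_le r (n + 1) t)
    rw [pow_succ 2 (n + 1), pow_mul]
    exact pow_le_pow_left₀ (Even.pow_nonneg (by simp [pow_succ]) _) ih 2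

theorem phi_base (r : ℕ) (t : ℝ) : ∀ n, n ≤ r → phi r n t = Real.cos t ^ 2 ^ n := by
  intro n
  induction n with
  | zero => intro _; simp [phi_zero]
  | succ n ih =>
    intro h
    obtain ⟨r, rfl⟩ : ∃ s, r = s + 1 := ⟨r - 1, by omega⟩
    have h1 : P (Fin n → F) (r + 1) = ⊤ := P_top (by rw [finrank_fin_fun]; omega)
    have h2 : ∀ q : (Fin n → F) → F, psi (r + 1) t (0 + q) = psi (r + 1) t 0 := fun q =>
      psi_add_mem t 0 (by rw [h1]; trivial)
    have h3 := psi_av (Nat.le_succ (r + 1)) t (0 : (Fin n → F) → F)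
    simp only [h2, av_const] at h3
    rw [phi_succ, mu, pow_succ 2 n, pow_mul, ← ih (by omega), phi, ← h3]
    simp only [h2, av_const]

theorem phi_even (r n : ℕ) (t : ℝ) : phi r n (-t) = phi r n t := by
  unfold phi psi
  simp only [neg_mul, Real.cos_neg]

end Pool.Agent.P.MP_cb6780_lc
end

-- part Pool.Agent.P.MP_cb6780_lc.LClt
section

set_option autoImplicit false
set_option linter.unusedSectionVars false

namespace Pool.Agent.P.MP_cb6780_lc

open Module

theorem LClt_sq {m g E : ℝ} (h0 : 0 ≤ m) (h1 : m ≤ 1) (g0 : 0 ≤ g) (g1 : g ≤ 1) (hE : 0 ≤ E)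
    (h : m ≤ g + E) : m ^ 2 ≤ g ^ 2 + 2 * E := by
  rcases le_total m g with h2 | h2
  · nlinarith
  · nlinarith

theorem LClt_u (p u : ℕ → ℝ → ℝ) (hu1 : ∀ n t, u n t ≤ 1)
    (hrec : ∀ n t, ∃ m : ℝ, 0 ≤ m ∧ m ≤ 1 ∧ m ≤ p n (2 * t) + 1 / 2 ^ n ∧
      u (n + 2) t ≤ 7 / 8 * m ^ 2 + u n (2 * t) / 8 + 1 / 2 ^ n) {B D : ℝ} (hB : 0 ≤ B)
    (hD : 0 < D) (hp : ∀ n t, p n t ≤ Real.exp (-(t ^ 2 * 2 ^ n / 2)) +
      (t ^ 2 * 2 ^ n) ^ 2 / 8 / D + B / 2 ^ n) (n : ℕ) : ∀ t : ℝ,
    u n t ≤ Real.exp (-(t ^ 2 * 2 ^ n)) + (t ^ 2 * 2 ^ n) ^ 2 / 4 / D + (14 * B + 22) / 2 ^ n := by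
  have hs : ∀ (n : ℕ) (t : ℝ), 1 ≤ (14 * B + 22) / 2 ^ n → u n t ≤ Real.exp (-(t ^ 2 * 2 ^ n)) +
      (t ^ 2 * 2 ^ n) ^ 2 / 4 / D + (14 * B + 22) / 2 ^ n := fun n t h4 => by
    have h1 := Real.exp_pos (-(t ^ 2 * 2 ^ n))
    have h2 : 0 ≤ (t ^ 2 * 2 ^ n) ^ 2 / 4 / D := by positivity
    have h3 := hu1 n t
    linarith
  induction n using Nat.twoStepInduction with
  | zero => exact fun t => hs _ t (by rw [le_div_iff₀ (by positivity)]; norm_num; linarith)
  | one => exact fun t => hs _ t (by rw [le_div_iff₀ (by positivity)]; norm_num; linarith)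
  | more n ih _ =>
    intro t
    obtain ⟨m, m0, m1, m2, m3⟩ := hrec n t
    have e : (2 * t) ^ 2 * 2 ^ n = t ^ 2 * 2 ^ (n + 2) := by ring
    have h1 := hp n (2 * t)
    have h2 := ih (2 * t)
    rw [e] at h1 h2
    have hT : 0 ≤ t ^ 2 * 2 ^ (n + 2) := by positivity
    generalize t ^ 2 * 2 ^ (n + 2) = T at *
    have g1 : Real.exp (-(T / 2)) ≤ 1 := Real.exp_le_one_iff.2 (by linarith)
    have g2 : Real.exp (-(T / 2)) ^ 2 = Real.exp (-T) := by
      rw [sq, ← Real.exp_add]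
      congr 1
      ring
    have h3 := LClt_sq (E := T ^ 2 / 8 / D + B / 2 ^ n + 1 / 2 ^ n) m0 m1 (Real.exp_pos _).le g1
      (by positivity) (by linarith)
    rw [g2] at h3
    have e1 : T ^ 2 / 4 / D = 2 * (T ^ 2 / 8 / D) := by ring
    have e2 : (14 * B + 22) / 2 ^ n = 14 * (B / 2 ^ n) + 22 * (1 / 2 ^ n) := by ring
    have e3 : (14 * B + 22) / 2 ^ (n + 2) = 7 / 2 * (B / 2 ^ n) + 11 / 2 * (1 / 2 ^ n) := by ring
    rw [e1, e2] at h2
    rw [e1, e3]
    linarith

theorem clt_upper (p u : ℕ → ℝ → ℝ) (hp1 : ∀ n t, p n t ≤ 1) (hu1 : ∀ n t, u n t ≤ 1)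
    (hpu : ∀ n t, p (n + 1) t ≤ u n t)
    (hrec : ∀ n t, ∃ m : ℝ, 0 ≤ m ∧ m ≤ 1 ∧ m ≤ p n (2 * t) + 1 / 2 ^ n ∧
      u (n + 2) t ≤ 7 / 8 * m ^ 2 + u n (2 * t) / 8 + 1 / 2 ^ n)
    (hT : ∀ n t, p n t ≤ 1 - t ^ 2 * 2 ^ n / 2 + (t ^ 2 * 2 ^ n) ^ 2 / 8) (j n : ℕ) (t : ℝ) :
    p n t ≤ Real.exp (-(t ^ 2 * 2 ^ n / 2)) + (t ^ 2 * 2 ^ n) ^ 2 / 8 / 2 ^ j +
      11 * 32 ^ j / 2 ^ n := by
  induction j generalizing n t with
  | zero =>
    have h1 := hT n t
    have h2 := Real.add_one_le_exp (-(t ^ 2 * 2 ^ n / 2))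
    have h3 : (0 : ℝ) ≤ 11 * 32 ^ 0 / 2 ^ n := by positivity
    rw [pow_zero, div_one]
    linarith
  | succ j ih =>
    have hB : (1 : ℝ) ≤ 32 ^ j := one_le_pow₀ (by norm_num)
    rcases n with _ | n
    · have h1 := Real.exp_pos (-(t ^ 2 * 2 ^ 0 / 2))
      have h2 : 0 ≤ (t ^ 2 * 2 ^ 0) ^ 2 / 8 / 2 ^ (j + 1) := by positivity
      have h3 := hp1 0 t
      have h4 : (11 : ℝ) * 32 ^ (j + 1) / 2 ^ 0 = 352 * 32 ^ j := by ring
      linarith
    · have h1 := (hpu n t).trans (LClt_u p u hu1 hrec (by positivity) (by positivity) ih n t)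
      have e1 : t ^ 2 * 2 ^ (n + 1) / 2 = t ^ 2 * 2 ^ n := by ring
      have e2 : (t ^ 2 * 2 ^ (n + 1)) ^ 2 / 8 / 2 ^ (j + 1) = (t ^ 2 * 2 ^ n) ^ 2 / 4 / 2 ^ j := by
        ring
      have e3 : (11 : ℝ) * 32 ^ (j + 1) / 2 ^ (n + 1) = 176 * 32 ^ j / 2 ^ n := by ring
      have h2 : ((14 : ℝ) * (11 * 32 ^ j) + 22) / 2 ^ n ≤ 176 * 32 ^ j / 2 ^ n :=
        div_le_div_of_nonneg_right (by linarith) (by positivity)
      rw [e1, e2, e3]
      linarith

theorem LClt_pow {a b : ℝ} (hb : 0 ≤ b) (hab : b ≤ a) (ha : a ≤ 1) (N : ℕ) :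
    a ^ N - b ^ N ≤ N * (a - b) := by
  induction N with
  | zero => simp
  | succ N ih =>
    have h1 : a ^ N ≤ 1 := pow_le_one₀ (hb.trans hab) ha
    have h2 : b ^ N ≤ a ^ N := pow_le_pow_left₀ hb hab N
    have e : a ^ (N + 1) - b ^ (N + 1) = a ^ N * (a - b) + b * (a ^ N - b ^ N) := by ring
    rw [e]
    push_cast
    nlinarith [mul_le_mul_of_nonneg_right h1 (sub_nonneg.2 hab),
      mul_le_mul_of_nonneg_right (hab.trans ha) (sub_nonneg.2 h2)]

theorem LClt_exp {y : ℝ} (hy : 0 ≤ y) : Real.exp (-y) ≤ 1 - y + y ^ 2 / 2 := by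
  have h1 : 1 + y + y ^ 2 / 2 + y ^ 3 / 6 ≤ Real.exp y := by
    have := Real.sum_le_exp_of_nonneg hy 4
    simp only [Finset.sum_range_succ, Finset.sum_range_zero, Nat.factorial] at this
    norm_num at this
    linarith
  have h2 : 0 < 1 - y + y ^ 2 / 2 := by nlinarith [sq_nonneg (y - 1)]
  rw [Real.exp_neg, inv_le_iff_one_le_mul₀ (Real.exp_pos y)]
  refine le_trans ?_ (mul_le_mul_of_nonneg_left h1 h2.le)
  have h3 : 0 ≤ y ^ 3 := by positivity
  have h4 : 0 ≤ y ^ 4 := by positivity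
  have h5 : 0 ≤ y ^ 5 := by positivity
  nlinarith

theorem clt_lower (n : ℕ) {t : ℝ} (ht : t ^ 2 ≤ 2) :
    Real.exp (-(t ^ 2 * 2 ^ n / 2)) - (t ^ 2 * 2 ^ n) ^ 2 / 8 / 2 ^ n ≤ Real.cos t ^ 2 ^ n := by
  have hy : 0 ≤ t ^ 2 / 2 := by positivity
  have h1 : 1 - t ^ 2 / 2 ≤ Real.cos t := Real.one_sub_sq_div_two_le_cos
  have h2 : 0 ≤ 1 - t ^ 2 / 2 := by linarith
  have h3 := pow_le_pow_left₀ h2 h1 (2 ^ n)
  have h4 := Real.add_one_le_exp (-(t ^ 2 / 2))
  have h5 := LClt_pow (a := Real.exp (-(t ^ 2 / 2))) h2 (by linarith)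
    (Real.exp_le_one_iff.2 (by linarith)) (2 ^ n)
  have h6 := LClt_exp hy
  rw [← Real.exp_nat_mul] at h5
  push_cast at h5
  have e1 : (2 : ℝ) ^ n * -(t ^ 2 / 2) = -(t ^ 2 * 2 ^ n / 2) := by ring
  have e2 : (t ^ 2 * 2 ^ n) ^ 2 / 8 / 2 ^ n = 2 ^ n * ((t ^ 2 / 2) ^ 2 / 2) := by
    field_simp
    ring
  have h7 : (2 : ℝ) ^ n * (Real.exp (-(t ^ 2 / 2)) - (1 - t ^ 2 / 2)) ≤
      2 ^ n * ((t ^ 2 / 2) ^ 2 / 2) := mul_le_mul_of_nonneg_left (by linarith) (by positivity)
  rw [e1] at h5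
  rw [e2]
  linarith

theorem LClt_cos {y : ℝ} (hy : 0 ≤ y) :
    Real.cos (2 * y) ≤ 1 - (2 * y) ^ 2 / 2 + (2 * y) ^ 4 / 24 := by
  rcases le_total (y ^ 2) 3 with h | h
  · have h1 : y - y ^ 3 / 6 ≤ Real.sin y := Real.sin_ge_sub_cube hy
    have h2 : 0 ≤ y - y ^ 3 / 6 := by nlinarith [mul_nonneg hy (sub_nonneg.2 h)]
    have h3 := pow_le_pow_left₀ h2 h1 2
    rw [Real.cos_two_mul, Real.cos_sq']
    have h4 : 0 ≤ y ^ 6 := by positivity
    nlinarith
  · have h1 := Real.cos_le_one (2 * y)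
    nlinarith [mul_nonneg (sq_nonneg y) (sub_nonneg.2 h)]

theorem cos_quartic (x : ℝ) : Real.cos x ≤ 1 - x ^ 2 / 2 + x ^ 4 / 24 := by
  have h := LClt_cos (y := |x| / 2) (by positivity)
  have e : 2 * (|x| / 2) = |x| := by ring
  have e4 : |x| ^ 4 = x ^ 4 := (by decide : Even 4).pow_abs x
  rwa [e, Real.cos_abs, sq_abs, e4] at h

end Pool.Agent.P.MP_cb6780_lc
end

-- part Pool.Agent.P.MP_cb6780_lc.LMom
section

set_option autoImplicit false
set_option linter.unusedSectionVars false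

namespace Pool.Agent.P.MP_cb6780_lc

open Module

theorem av_gap_sq {V : Type} [AddCommGroup V] [Module F V] [Finite V] (d : ℕ) (h : V → F) :
    av (fun p : P V (d + 2) => gap (h + p.1) ^ 2) = Nat.card V := by
  have : Finite (Dual F V) := DFunLike.finite _
  have h0 : (Nat.card V : ℝ) ≠ 0 := by exact_mod_cast Nat.card_pos.ne'
  have h1 : ∀ l : Dual F V, av (fun p : P V (d + 2) => gap (h + p.1) ^ 2) =
      av fun p : P V (d + 2) => gap (h + p.1 + fun x => l x) ^ 2 := fun l => by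
    rw [← av_P_shift (P_mono (by omega) (dual_mem_P l)) fun q => gap (h + q) ^ 2]
    simp only [add_assoc]
  have h2 : ∀ g : V → F, av (fun l : Dual F V => gap (g + fun x => l x) ^ 2) = Nat.card V :=
    fun g => by
      simp only [gap_eq_bias, mul_pow, av_mul_left, av_bias_sq_dual]
      field_simp
  rw [← av_const (V := Dual F V) (av fun p : P V (d + 2) => gap (h + p.1) ^ 2), funext h1,
    av_comm fun (l : Dual F V) (p : P V (d + 2)) => gap (h + p.1 + fun x => l x) ^ 2]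
  simp only [h2, av_const]

theorem av_gap_four (d n : ℕ) : ∀ (V : Type) [AddCommGroup V] [Module F V] [Finite V],
    finrank F V = n → ∀ f : V → F,
      av (fun q : P V (d + 3) => gap (f + q.1) ^ 4) ≤ 3 * (2 ^ n) ^ 2 := by
  induction n with
  | zero =>
    intro V _ _ _ hV f
    have : Module.Finite F V := Module.Finite.of_finite
    have : Subsingleton V := Module.finrank_zero_iff.1 hV
    have := Fintype.ofFinite V
    refine av_le_of_le fun q => ?_
    rw [gap_eq, Fintype.sum_subsingleton _ 0]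
    have := chi_sq ((f + q.1) 0)
    have e : chi ((f + q.1) 0) ^ 4 = (chi ((f + q.1) 0) * chi ((f + q.1) 0)) ^ 2 := by ring
    rw [e, this]
    norm_num
  | succ n ih =>
    intro V _ _ _ hV f
    have : Module.Finite F V := Module.Finite.of_finite
    have : Nontrivial V := Module.nontrivial_of_finrank_eq_succ hV
    obtain ⟨e, he0⟩ := exists_ne (0 : V)
    obtain ⟨l, he⟩ := Module.Projective.exists_dual_eq_one F he0
    have hl : l ≠ 0 := fun h => by rw [h] at he; exact zero_ne_one he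
    have hk := finrank_ker_dual hl
    have hk' : finrank F (LinearMap.ker l) = n := by omega
    have hc : (Nat.card (LinearMap.ker l) : ℝ) = 2 ^ n := by
      rw [card_V, hk']; push_cast; rfl
    rw [av_split he (d + 2) f fun x => x ^ 4]
    set U := LinearMap.ker l
    have o1 : ∀ g : U → F, av (fun p : P U (d + 2) => gap (g + p.1)) = 0 := fun g =>
      av_odd (d + 1) g (fun x => x) fun _ => rfl
    have o3 : ∀ g : U → F, av (fun p : P U (d + 2) => gap (g + p.1) ^ 3) = 0 := fun g =>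
      av_odd (d + 1) g (fun x => x ^ 3) fun _ => by ring
    have e1 : ∀ (a : ℝ) (g : U → F), av (fun p : P U (d + 2) => (a + gap (g + p.1)) ^ 4) =
        a ^ 4 + 6 * 2 ^ n * a ^ 2 + av fun p : P U (d + 2) => gap (g + p.1) ^ 4 := fun a g => by
      have : ∀ b : ℝ, (a + b) ^ 4 =
          a ^ 4 + 4 * a ^ 3 * b + 6 * a ^ 2 * b ^ 2 + 4 * a * b ^ 3 + b ^ 4 := fun b => by ring
      simp only [this, av_add, av_mul_left, av_const, o1, o3, av_gap_sq, hc]
      ring
    simp only [e1, av_add, av_mul_left, av_const, av_gap_sq, hc]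
    have i0 := ih U hk' (res U 0 f)
    have i1 := ih U hk' (res U e f)
    rw [← av_P_av (Nat.le_succ (d + 2)) fun q => gap (res U 0 f + q) ^ 4] at i0
    rw [← av_P_av (Nat.le_succ (d + 2)) fun q => gap (res U e f + q) ^ 4] at i1
    simp only [← add_assoc] at i0 i1
    rw [pow_succ (2 : ℝ) n]
    nlinarith

theorem phi_taylor {r : ℕ} (hr : 2 ≤ r) (n : ℕ) (t : ℝ) :
    phi r n t ≤ 1 - t ^ 2 * 2 ^ n / 2 + (t ^ 2 * 2 ^ n) ^ 2 / 8 := by
  obtain ⟨d, rfl⟩ : ∃ d, r = d + 2 := ⟨r - 2, by omega⟩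
  have h2 := av_gap_sq (d + 1) (0 : (Fin n → F) → F)
  have h4 := av_gap_four d n (Fin n → F) (finrank_fin_fun F) 0
  have hc : (Nat.card (Fin n → F) : ℝ) = 2 ^ n := by
    rw [card_V, finrank_fin_fun]; push_cast; rfl
  have h : phi (d + 2) n t ≤ av fun q : P (Fin n → F) (d + 3) =>
      1 + -(t ^ 2 / 2) * gap (0 + q.1) ^ 2 + t ^ 4 / 24 * gap (0 + q.1) ^ 4 :=
    av_mono fun q => (cos_quartic _).trans (le_of_eq (by ring))
  rw [av_add, av_add, av_const, av_mul_left, av_mul_left, h2, hc] at h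
  have h5 := mul_le_mul_of_nonneg_left h4 (by positivity : 0 ≤ t ^ 4 / 24)
  refine h.trans ?_
  nlinarith

end Pool.Agent.P.MP_cb6780_lc
end

-- part Pool.Agent.P.MP_cb6780_lc.LFour
section

set_option autoImplicit false
set_option linter.unusedSectionVars false

namespace Pool.Agent.P.MP_cb6780_lc

open Module

/-- Fourier coefficient -/
noncomputable def LFour_hat {Γ : Type} [AddCommGroup Γ] [Module F Γ] (g : Γ → ℝ) (ξ : Dual F Γ) :
    ℝ := av fun x => g x * chi (ξ x)

section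
variable {Γ : Type} [AddCommGroup Γ] [Module F Γ] [Finite Γ]

theorem LFour_sum {J : Type} (s : Finset J) {V : Type} [Finite V] (g : J → V → ℝ) :
    ∑ j ∈ s, av (g j) = av fun x => ∑ j ∈ s, g j x := by
  have := Fintype.ofFinite V
  simp only [av_eq]
  rw [← Finset.sum_div, Finset.sum_comm]

theorem LFour_orth [Fintype (Dual F Γ)] [DecidableEq Γ] (y : Γ) :
    ∑ ξ : Dual F Γ, chi (ξ y) = if y = 0 then (Nat.card Γ : ℝ) else 0 := by
  have hc : Fintype.card (Dual F Γ) = Nat.card Γ := by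
    have : Module.Finite F Γ := Module.Finite.of_finite
    rw [← Nat.card_eq_fintype_card, card_V, card_V, Subspace.dual_finrank_eq]
  split_ifs with h
  · simp [h, chi_zero, hc]
  · have h1 : Dual.eval F Γ y ≠ 0 := fun e =>
      h ((forall_dual_apply_eq_zero_iff F y).1 fun φ => LinearMap.congr_fun e φ)
    have h2 := bias_dual h1 0
    unfold bias at h2
    rw [av_eq, div_eq_zero_iff] at h2
    rcases h2 with h2 | h2
    · simpa using h2
    · exact absurd h2 (by exact_mod_cast Fintype.card_ne_zero)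

theorem LFour_par [Fintype (Dual F Γ)] (g : Γ → ℝ) :
    av (fun x => g x ^ 2) = ∑ ξ : Dual F Γ, LFour_hat g ξ ^ 2 := by
  classical
  have := Fintype.ofFinite Γ
  have hn : (Nat.card Γ : ℝ) ≠ 0 := by exact_mod_cast Nat.card_pos.ne'
  simp only [LFour_hat, sq (av _), av_mul_av, LFour_sum]
  refine congrArg av (funext fun x => ?_)
  have e : ∀ y, ∑ ξ : Dual F Γ, g x * chi (ξ x) * (g y * chi (ξ y)) =
      if y = x then g x ^ 2 * Nat.card Γ else 0 := fun y => by
    have e1 : ∀ ξ : Dual F Γ, g x * chi (ξ x) * (g y * chi (ξ y)) =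
        g x * g y * chi (ξ (x + y)) := fun ξ => by
      rw [map_add, chi_add]
      ring
    rw [funext e1, ← Finset.mul_sum, LFour_orth]
    by_cases h : y = x
    · rw [h, if_pos (add_self_V x), if_pos rfl, sq]
    · rw [if_neg h, if_neg, mul_zero]
      intro h1
      exact h (add_left_cancel (h1.trans (add_self_V x).symm))
  rw [funext e, av_eq, Finset.sum_ite_eq', if_pos (Finset.mem_univ x), ← Nat.card_eq_fintype_card,
    mul_div_cancel_right₀ _ hn]

theorem LFour_zero (g : Γ → ℝ) : LFour_hat g 0 = av g := by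
  simp [LFour_hat, chi_zero]

theorem LFour_van {g : Γ → ℝ} {k : Γ} (hk : ∀ x, g (x + k) = g x) {ξ : Dual F Γ} (h : ξ k ≠ 0) :
    LFour_hat g ξ = 0 := by
  have h1 : ξ k = 1 := (Av_cases _).resolve_left h
  have h2 := av_congr (Equiv.addRight k) fun x => g x * chi (ξ x)
  have h3 : ∀ x, g (x + k) * chi (ξ (x + k)) = -1 * (g x * chi (ξ x)) := fun x => by
    rw [hk, map_add, chi_add, h1, chi_one]
    ring
  simp only [Equiv.coe_addRight, h3, av_mul_left] at h2
  unfold LFour_hat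
  linarith

theorem LFour_av {I : Type} [Finite I] (Y : I → Γ → ℝ) (ξ : Dual F Γ) :
    LFour_hat (fun x => av fun i => Y i x) ξ = av fun i => LFour_hat (Y i) ξ := by
  unfold LFour_hat
  rw [av_comm fun i x => Y i x * chi (ξ x)]
  simp only [mul_comm _ (chi _), av_mul_left]

end

theorem LFour_cs {I : Type} [Finite I] (a b : I → ℝ) :
    av (fun i => a i * b i) ^ 2 ≤ av (fun i => a i ^ 2) * av fun i => b i ^ 2 := by
  have := Fintype.ofFinite I
  simp only [av_eq]
  rw [div_pow, div_mul_div_comm, ← sq]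
  exact div_le_div_of_nonneg_right (Finset.sum_mul_sq_le_sq_mul_sq _ _ _) (by positivity)

/-- decorrelation: Parseval on `Γ` and Cauchy-Schwarz in `i` -/
theorem decor {Γ I : Type} [AddCommGroup Γ] [Module F Γ] [Finite Γ] [Finite I] [Nonempty I]
    (Y : I → Γ → ℝ) (K : I → Submodule F Γ) (hK : ∀ i x, ∀ k ∈ K i, Y i (x + k) = Y i x)
    {ε : ℝ} (hε : ∀ ξ : Dual F Γ, ξ ≠ 0 → ({i | ∀ k ∈ K i, ξ k = 0}.ncard : ℝ) ≤ ε * Nat.card I) :
    av (fun x => av (fun i => Y i x) ^ 2) ≤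
      av (fun i => av (Y i)) ^ 2 + ε * av fun i => av (fun x => Y i x ^ 2) - av (Y i) ^ 2 := by
  classical
  have : Finite (Dual F Γ) := DFunLike.finite _
  have := Fintype.ofFinite (Dual F Γ)
  have hI : (0 : ℝ) < Nat.card I := by exact_mod_cast Nat.card_pos
  have split : ∀ g : Γ → ℝ, av (fun x => g x ^ 2) =
      av g ^ 2 + ∑ ξ ∈ Finset.univ.erase (0 : Dual F Γ), LFour_hat g ξ ^ 2 := fun g => by
    rw [LFour_par, ← Finset.add_sum_erase _ _ (Finset.mem_univ (0 : Dual F Γ)), LFour_zero]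
  rw [split, av_comm fun x i => Y i x]
  simp only [split, add_sub_cancel_left]
  rw [← LFour_sum, Finset.mul_sum]
  refine add_le_add le_rfl (Finset.sum_le_sum fun ξ hξ => ?_)
  obtain ⟨A, hA⟩ : ∃ A, A = {i | ∀ k ∈ K i, ξ k = 0} := ⟨_, rfl⟩
  have h1 := hε ξ (Finset.ne_of_mem_erase hξ)
  rw [← hA, ← div_le_iff₀ hI, ← av_indicator] at h1
  have h2 : ∀ i, LFour_hat (Y i) ξ = A.indicator (fun _ => (1 : ℝ)) i * LFour_hat (Y i) ξ :=
    fun i => by
      by_cases hi : i ∈ A
      · rw [Set.indicator_of_mem hi, one_mul]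
      · rw [Set.indicator_of_notMem hi, zero_mul]
        rw [hA, Set.mem_ofPred_eq] at hi
        push Not at hi
        obtain ⟨k, hk, h0⟩ := hi
        exact LFour_van (fun x => hK i x k hk) h0
  have h3 : (fun i => A.indicator (fun _ => (1 : ℝ)) i ^ 2) = A.indicator fun _ => (1 : ℝ) := by
    funext i
    by_cases hi : i ∈ A
    · rw [Set.indicator_of_mem hi, one_pow]
    · rw [Set.indicator_of_notMem hi, sq, zero_mul]
  have h4 := LFour_cs (A.indicator fun _ => (1 : ℝ)) fun i => LFour_hat (Y i) ξ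
  rw [h3, ← funext h2] at h4
  rw [LFour_av]
  exact h4.trans (mul_le_mul_of_nonneg_right h1 (av_nonneg fun _ => sq_nonneg _))

end Pool.Agent.P.MP_cb6780_lc
end

-- part Pool.Agent.P.MP_cb6780_lc.LKer
section

set_option autoImplicit false
set_option linter.unusedSectionVars false

namespace Pool.Agent.P.MP_cb6780_lc

open Module

/-- a nonzero functional on `P V R` lives on few hyperplanes modulo degree `< L` -/
theorem ker_density {V : Type} [AddCommGroup V] [Module F V] [Finite V] {R L : ℕ} (hL : 1 ≤ L)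
    (h : L ≤ R) (ξ : Dual F (P V R)) (hξ : ξ ≠ 0) :
    ({l : Dual F V | ∀ f : P V R,
        res (LinearMap.ker l) 0 f.1 ∈ P (LinearMap.ker l) L → ξ f = 0}.ncard : ℝ) ≤
      1 / 2 ^ L * Nat.card (Dual F V) := by
  classical
  have : Module.Finite F V := Module.Finite.of_finite
  have : Finite (Dual F V) := Module.finite_of_finite F
  set S := {l : Dual F V | ∀ f : P V R,
    res (LinearMap.ker l) 0 f.1 ∈ P (LinearMap.ker l) L → ξ f = 0} with hS
  rcases S.eq_empty_or_nonempty with h0 | ⟨l₀, hl₀⟩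
  · rw [h0, Set.ncard_empty, Nat.cast_zero]
    positivity
  have hex : ∃ n, ∃ B : Submodule F V, finrank F B = n ∧
      ∀ f : P V R, (∀ x ∈ B, f.1 x = 0) → ξ f = 0 := by
    refine ⟨_, ⊤, rfl, fun f hf => ?_⟩
    have : f = 0 := Subtype.ext (funext fun x => hf x trivial)
    rw [this, map_zero]
  obtain ⟨B, hB, hG⟩ := Nat.find_spec hex
  have hle : ∀ l ∈ S, B ≤ LinearMap.ker l := by
    intro l hl b hb
    by_contra hn
    have h1 : l b = 1 := by
      have h2 : l b ≠ 0 := hn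
      generalize l b = c at h2
      revert c
      decide
    let π : V →ₗ[F] V := LinearMap.id + l.smulRight b
    have hπ : ∀ x, π x = x + l x • b := fun x => rfl
    have hlt : B ⊓ LinearMap.ker l < B :=
      lt_of_le_of_ne inf_le_left fun e => hn (inf_eq_left.1 e hb)
    refine Nat.find_min hex (hB ▸ Submodule.finrank_lt_finrank_of_lt hlt) ⟨_, rfl, fun f hf => ?_⟩
    let g : P V R := ⟨fun w => f.1 (π w + 0), comp_mem_P f.2 π 0⟩
    have hg : ∀ w, g.1 w = f.1 (w + l w • b) := fun w => by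
      show f.1 (π w + 0) = _
      rw [add_zero, hπ]
    have e1 : ξ g = 0 := hG g fun x hx => by
      rw [hg]
      refine hf _ ⟨B.add_mem hx (B.smul_mem _ hb), ?_⟩
      show l (x + l x • b) = 0
      rw [map_add, map_smul, h1, smul_eq_mul, mul_one]
      exact CharTwo.add_self_eq_zero _
    have e2 : ξ (f + g) = 0 := by
      refine hl _ ?_
      have : res (LinearMap.ker l) 0 (f + g).1 = 0 := by
        funext u
        have hu : l u = 0 := u.2
        show f.1 (u + 0) + g.1 (u + 0) = 0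
        rw [add_zero, hg, hu, zero_smul, add_zero]
        exact CharTwo.add_self_eq_zero _
      rw [this]
      exact Submodule.zero_mem _
    rwa [map_add, e1, add_zero] at e2
  have hLB : L ≤ finrank F B := by
    by_contra hc
    obtain ⟨L', rfl⟩ : ∃ L', L = L' + 1 := ⟨L - 1, by omega⟩
    have ht : P B (L' + 1) = ⊤ := P_top (by omega)
    refine hξ (LinearMap.ext fun f => ?_)
    obtain ⟨q, hq, e⟩ := res_surj B 0 (d := L' + 1) (g := res B 0 f.1) (by rw [ht]; trivial)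
    have e1 : ξ ⟨q, P_mono h hq⟩ = 0 := hl₀ _ (res_mem_P hq _ _)
    have e2 : ξ (f + ⟨q, P_mono h hq⟩) = 0 := hG _ fun x hx => by
      have e3 := congrFun e ⟨x, hx⟩
      rw [res_apply, res_apply, add_zero] at e3
      show f.1 x + q x = 0
      rw [show q x = f.1 x from e3]
      exact CharTwo.add_self_eq_zero _
    rwa [map_add, e1, add_zero] at e2
  have h1 : S.ncard ≤ Nat.card B.dualAnnihilator :=
    Set.ncard_le_ncard (t := (B.dualAnnihilator : Set (Dual F V)))
      (fun l hl => (Submodule.mem_dualAnnihilator l).2 fun x hx => hle l hl hx)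
  have h2 := Subspace.finrank_add_finrank_dualAnnihilator_eq B
  rw [card_V] at h1
  rw [card_V, Subspace.dual_finrank_eq, ← h2, one_div, inv_mul_eq_div,
    le_div_iff₀ (by positivity)]
  have h3 : S.ncard * 2 ^ L ≤ 2 ^ (finrank F B + finrank F B.dualAnnihilator) := by
    rw [pow_add, mul_comm]
    exact Nat.mul_le_mul (Nat.pow_le_pow_right (by norm_num) hLB) h1
  exact_mod_cast h3

end Pool.Agent.P.MP_cb6780_lc
end

-- part Pool.Agent.P.MP_cb6780_lc.LDesc
section

set_option autoImplicit false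
set_option linter.unusedSectionVars false

namespace Pool.Agent.P.MP_cb6780_lc

open Module

variable {H : Type} [AddCommGroup H] [Module F H] [Finite H]

open Classical in
/-- average over the affine hyperplanes of `W` -/
noncomputable def XX (W : Submodule F H) (L : ℕ) (t : ℝ) (g : H → F) : ℝ :=
  av fun l : Dual F W => av fun y : W =>
    if l = 0 then 1 else psi L (2 * t) (res (LinearMap.ker l) y (res W 0 g))

/-- signed sum over the support of `b` -/
noncomputable def LDesc_gs {V : Type} (h b : V → F) : ℝ :=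
  ∑ᶠ x, if b x = 1 then chi (h x) else 0

open Classical in
theorem LDesc_sub (U : Submodule F H) (φ : H → ℝ) :
    (∑ᶠ x, if x ∈ U then φ x else 0) = ∑ᶠ u : U, φ u := by
  have := Fintype.ofFinite H
  rw [finsum_eq_sum_of_fintype, finsum_eq_sum_of_fintype, ← Finset.sum_filter]
  exact Finset.sum_subtype _ (by simp) φ

theorem LDesc_gap (W : Submodule F H) (h b : H → F) :
    gap h - gap (h + ind W 0 * b) = 2 * LDesc_gs (res W 0 h) (res W 0 b) := by
  classical
  have := Fintype.ofFinite H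
  have h1 := LDesc_sub W fun x => if b x = 1 then chi (h x) else 0
  have h2 : LDesc_gs (res W 0 h) (res W 0 b) =
      ∑ᶠ u : W, if b u = 1 then chi (h u) else 0 := by
    unfold LDesc_gs
    simp only [res_apply, add_zero]
  rw [h2, ← h1, finsum_eq_sum_of_fintype, gap_eq, gap_eq, ← Finset.sum_sub_distrib,
    Finset.mul_sum]
  refine Finset.sum_congr rfl fun x _ => ?_
  simp only [Pi.add_apply, Pi.mul_apply, ind, add_zero, chi_add]
  by_cases hx : x ∈ W
  · rcases Av_cases (b x) with hb | hb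
    · simp [hx, hb, chi_zero]
    · simp only [hx, hb, if_true, one_mul, chi_one]; ring
  · simp [hx, chi_zero]

theorem LDesc_ker (l : Dual F H) (y : H) (h : H → F) :
    LDesc_gs h (fun w => l w + (l y + 1)) = gap (res (LinearMap.ker l) y h) := by
  classical
  have h1 := LDesc_sub (LinearMap.ker l) fun x => chi (h (x + y))
  have h2 := finsum_comp_equiv (Equiv.addRight y)
    (f := fun w => if l w + (l y + 1) = 1 then chi (h w) else 0)
  have h3 : ∀ a b : F, (a + b + (b + 1) = 1) ↔ a = 0 := by decide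
  unfold LDesc_gs gap
  rw [← h2]
  simp only [res_apply]
  rw [← h1]
  refine finsum_congr fun x => ?_
  simp only [Equiv.coe_addRight, map_add, h3, LinearMap.mem_ker]

open Classical in
theorem LDesc_if (a b : ℝ) :
    av (fun l : Dual F H => if l = 0 then a else b) = b + (a - b) * (1 / 2 ^ finrank F H) := by
  have : Finite (Dual F H) := DFunLike.finite _
  have : Module.Finite F H := Module.Finite.of_finite
  have h1 : (fun l : Dual F H => if l = 0 then a else b) =
      fun l => b + (a - b) * ({0} : Set (Dual F H)).indicator (fun _ => (1 : ℝ)) l := by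
    funext l
    by_cases hl : l = 0 <;> simp [hl]
  rw [h1, av_add, av_const, av_mul_left, av_indicator, Set.ncard_singleton,
    card_V (V := Dual F H), Subspace.dual_finrank_eq]
  push_cast
  rfl

open Classical in
theorem LDesc_aff (L : ℕ) (t : ℝ) (g : H → F) :
    av (fun b : P H 2 => av fun q : P H L => Real.cos (t * LDesc_gs (g + q.1) b.1)) ≤
      av fun l : Dual F H => av fun y : H =>
        if l = 0 then 1 else psi L t (res (LinearMap.ker l) y g) := by
  have : Finite (Dual F H) := DFunLike.finite _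
  let π : Dual F H × F →+ P H 2 :=
    { toFun := fun x => ⟨fun w => x.1 w + x.2, mem_P_two.2 ⟨x.1, x.2, rfl⟩⟩
      map_zero' := Subtype.ext (funext fun w => by simp)
      map_add' := fun x y => Subtype.ext (funext fun w => by
        simp only [Prod.fst_add, Prod.snd_add, LinearMap.add_apply, Submodule.coe_add,
          Pi.add_apply]
        ring) }
  have hπ : Function.Surjective π := fun b => by
    obtain ⟨l, c, h⟩ := mem_P_two.1 b.2
    exact ⟨(l, c), Subtype.ext h.symm⟩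
  let Λ : (H → F) → ℝ := fun b => av fun q : P H L => Real.cos (t * LDesc_gs (g + q.1) b)
  rw [← av_surj π hπ fun b => Λ b.1, av_prod]
  refine av_mono fun l => ?_
  show av (fun c : F => Λ fun w => l w + c) ≤ _
  by_cases hl : l = 0
  · simp only [hl, if_true]
    rw [av_const]
    exact av_le_of_le fun c => av_le_of_le fun q => Real.cos_le_one _
  · simp only [hl, if_false]
    obtain ⟨e, he⟩ := exists_eq_one hl
    have hs : Function.Surjective l.toAddMonoidHom := fun c => by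
      rcases Av_cases c with rfl | rfl
      · exact ⟨0, map_zero _⟩
      · exact ⟨e, he⟩
    rw [← av_congr (Equiv.addRight (1 : F)) fun c : F => Λ fun w => l w + c,
      ← av_surj l.toAddMonoidHom hs]
    refine le_of_eq (congrArg av (funext fun y => ?_))
    show av (fun q : P H L => Real.cos (t * LDesc_gs (g + q.1) fun w => l w + (l y + 1))) = _
    simp only [LDesc_ker, map_add]
    exact av_P_res (LinearMap.ker l) y L
      fun q => Real.cos (t * gap (res (LinearMap.ker l) y g + q))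

theorem LDesc_sq {A : Type} [Finite A] (x : A → ℝ) :
    av (fun a => Real.cos (x a)) ^ 2 ≤ av fun a => av fun b => Real.cos (x a - x b) := by
  simp only [Real.cos_sub, av_add]
  rw [← av_mul_av, ← av_mul_av]
  nlinarith [mul_self_nonneg (av fun a => Real.sin (x a))]

/-- step (B) of the paper -/
theorem descent (W : Submodule F H) {d : ℕ} (hW : finrank F W + d = finrank F H) (t : ℝ)
    (g : H → F) : mu (d + 3) (d + 2) t g ≤ XX W (d + 3) t g := by
  classical
  have hs : ∀ a : P H 2, ind W 0 * a.1 ∈ P H (d + 2) := fun a =>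
    mul_mem_P (d := d) (e := 1) (ind_mem_P hW 0) a.2
  let Ψ : (H → F) → ℝ := fun x => av fun a : P H 2 => av fun b : P H 2 =>
    Real.cos (t * gap (g + (x + ind W 0 * a.1)) - t * gap (g + (x + ind W 0 * b.1)))
  let Ξ : (H → F) → ℝ := fun x => av fun b : P H 2 =>
    Real.cos (t * gap (g + x) - t * gap (g + x + ind W 0 * b.1))
  have h1 : ∀ q : H → F, psi (d + 2) t (g + q) ^ 2 ≤ av fun p : P H (d + 2) => Ψ (q + p.1) := by
    intro q
    have e1 : psi (d + 2) t (g + q) = av fun p : P H (d + 2) => av fun a : P H 2 =>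
        Real.cos (t * gap (g + (q + p.1 + ind W 0 * a.1))) := by
      rw [av_comm fun (p : P H (d + 2)) (a : P H 2) =>
        Real.cos (t * gap (g + (q + p.1 + ind W 0 * a.1)))]
      have : ∀ a : P H 2, (av fun p : P H (d + 2) =>
          Real.cos (t * gap (g + (q + p.1 + ind W 0 * a.1)))) = psi (d + 2) t (g + q) := by
        intro a
        have := av_P_shift (hs a) fun x => Real.cos (t * gap (g + q + x))
        unfold psi
        rw [← this]
        simp only [add_assoc]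
      rw [funext this, av_const]
    rw [e1]
    exact (sq_av_le _).trans (av_mono fun p => LDesc_sq _)
  have h2 : ∀ (q : H → F) (a : P H 2), (av fun b : P H 2 =>
      Real.cos (t * gap (g + (q + ind W 0 * a.1)) - t * gap (g + (q + ind W 0 * b.1)))) =
      Ξ (q + ind W 0 * a.1) := by
    intro q a
    rw [← av_congr (Equiv.addLeft a) fun b : P H 2 =>
      Real.cos (t * gap (g + (q + ind W 0 * a.1)) - t * gap (g + (q + ind W 0 * b.1)))]
    simp only [Ξ, Equiv.coe_addLeft, Submodule.coe_add, mul_add, add_assoc]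
  have h3 : av (fun q : P H (d + 3) => Ψ q.1) = av fun q : P H (d + 3) => Ξ q.1 := by
    simp only [Ψ, h2]
    rw [av_comm fun (q : P H (d + 3)) (a : P H 2) => Ξ (q.1 + ind W 0 * a.1),
      funext fun a : P H 2 => av_P_shift (P_le_succ _ (hs a)) Ξ, av_const]
  let Λ : (W → F) → ℝ := fun b => av fun q : P W (d + 3) =>
    Real.cos (2 * t * LDesc_gs (res W 0 g + q.1) b)
  have h4 : av (fun q : P H (d + 3) => Ξ q.1) = av fun b : P W 2 => Λ b.1 := by
    rw [← av_P_res W 0 2 Λ, av_comm fun (q : P H (d + 3)) (b : P H 2) =>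
      Real.cos (t * gap (g + q.1) - t * gap (g + q.1 + ind W 0 * b.1))]
    refine congrArg av (funext fun b => ?_)
    rw [show Λ (res W 0 b.1) = _ from (av_P_res W 0 (d + 3)
      fun q => Real.cos (2 * t * LDesc_gs (res W 0 g + q) (res W 0 b.1))).symm]
    refine congrArg av (funext fun q => ?_)
    rw [← mul_sub, LDesc_gap, map_add, ← mul_assoc, mul_comm t 2]
  calc mu (d + 3) (d + 2) t g
      ≤ av fun q : P H (d + 3) => av fun p : P H (d + 2) => Ψ (q.1 + p.1) :=
        av_mono fun q => h1 q.1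
    _ = av fun q : P H (d + 3) => Ψ q.1 := av_P_av (by omega) Ψ
    _ = av fun b : P W 2 => Λ b.1 := h3.trans h4
    _ ≤ XX W (d + 3) t g := LDesc_aff (d + 3) (2 * t) (res W 0 g)

theorem LDesc_two (W : Submodule F H) (U : Submodule F W) (y : W) (e : ℕ) (Φ : (U → F) → ℝ) :
    av (fun g : P H e => Φ (res U y (res W 0 g.1))) = av fun g : P U e => Φ (0 + g.1) := by
  rw [av_P_res W 0 e fun x => Φ (res U y x), av_P_res U y e Φ]
  simp only [zero_add]

open Classical in
theorem LDesc_all (W : Submodule F H) (e : ℕ) (Φ : ∀ U : Submodule F W, (U → F) → ℝ) (c : ℝ)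
    (hc : ∀ l : Dual F W, l ≠ 0 →
      av (fun g : P (LinearMap.ker l) e => Φ (LinearMap.ker l) (0 + g.1)) = c) :
    av (fun g : P H e => av fun l : Dual F W => av fun y : W =>
      if l = 0 then 1 else Φ (LinearMap.ker l) (res (LinearMap.ker l) y (res W 0 g.1))) =
      c + (1 - c) * (1 / 2 ^ finrank F W) := by
  have : Finite (Dual F W) := DFunLike.finite _
  rw [← LDesc_if]
  refine (av_comm _).trans (congrArg av (funext fun l => ?_))
  refine (av_comm _).trans (Eq.trans (congrArg av (funext fun y => ?_)) (av_const (V := W) _))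
  by_cases hl : l = 0
  · rw [if_pos hl]
    exact Eq.trans (congrArg av (funext fun g => if_pos hl)) (av_const _)
  · rw [if_neg hl, ← hc l hl, ← LDesc_two W _ y e (Φ _)]
    exact congrArg av (funext fun g => if_neg hl)

theorem m1_le {d n r : ℕ} (hH : finrank F H = n + 1 + d) (h : d + 2 ≤ r) (t : ℝ) :
    av (fun g : P H (r + 1) => mu (d + 3) (d + 2) t g.1) ≤
      (1 - 1 / 2 ^ (n + 1)) * phi r n (2 * t) + 1 / 2 ^ (n + 1) := by
  obtain ⟨f, hf⟩ := exists_linearIndependent_of_le_finrank (R := F) (M := H) (n := n + 1)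
    (by omega)
  have hW := finrank_span_eq_card hf
  rw [Fintype.card_fin] at hW
  generalize Submodule.span F (Set.range f) = W at hW
  have hd : finrank F W + d = finrank F H := by omega
  have h1 := LDesc_all W (r + 1) (fun _ x => psi (d + 3) (2 * t) x) (phi r n (2 * t))
    fun l hl => by
      have := finrank_ker_dual hl
      rw [psi_av (by omega), psi_zero_eq, show finrank F (LinearMap.ker l) = n by omega]
  have h2 : av (fun g : P H (r + 1) => mu (d + 3) (d + 2) t g.1) ≤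
      av fun g : P H (r + 1) => XX W (d + 3) t g.1 := av_mono fun g => descent W hd t g.1
  refine h2.trans (le_of_eq (h1.trans ?_))
  rw [hW]
  ring

open Classical in
theorem LDesc_m2 (W : Submodule F H) (hd : finrank F W + 0 = finrank F H) (t : ℝ) (g : H → F) :
    mu 3 2 t g ^ 2 ≤ av fun l : Dual F W => av fun y : W =>
      if l = 0 then 1 else psi 3 (2 * t) (res (LinearMap.ker l) y (res W 0 g)) ^ 2 := by
  have : Finite (Dual F W) := DFunLike.finite _
  have h1 : mu 3 2 t g ≤ XX W 3 t g := descent W hd t g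
  refine (pow_le_pow_left₀ (mu_nonneg _ _ _ _) h1 2).trans ?_
  unfold XX
  refine (sq_av_le _).trans (av_mono fun l => (sq_av_le _).trans (le_of_eq ?_))
  refine congrArg av (funext fun y => ?_)
  by_cases hl : l = 0
  · rw [if_pos hl, if_pos hl, one_pow]
  · rw [if_neg hl, if_neg hl]

theorem m2_le {n r : ℕ} (hH : finrank F H = n + 1) (h : 2 ≤ r) (t : ℝ) :
    av (fun g : P H (r + 1) => mu 3 2 t g.1 ^ 2) ≤ uu r n (2 * t) + 1 / 2 ^ (n + 1) := by
  have hW : finrank F (⊤ : Submodule F H) = n + 1 := by rw [finrank_top, hH]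
  generalize (⊤ : Submodule F H) = W at hW
  have hd : finrank F W + 0 = finrank F H := by omega
  have h1 := LDesc_all W (r + 1) (fun _ x => psi 3 (2 * t) x ^ 2) (uu r n (2 * t))
    fun l hl => by
      have := finrank_ker_dual hl
      have e := mu_zero_eq (V := LinearMap.ker l) (r + 1) 3 (2 * t)
      rw [show finrank F (LinearMap.ker l) = n by omega] at e
      exact e
  refine le_trans (av_mono (V := P H (r + 1)) fun g => LDesc_m2 W hd t g.1) (h1.le.trans ?_)
  rw [hW]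
  have h3 : 0 ≤ uu r n (2 * t) := mu_nonneg _ _ _ _
  have h4 : (0 : ℝ) ≤ 1 / 2 ^ (n + 1) := by positivity
  nlinarith [mul_nonneg h3 h4]

end Pool.Agent.P.MP_cb6780_lc
end

-- part Pool.Agent.P.MP_cb6780_lc.LDec1
section

set_option autoImplicit false
set_option linter.unusedSectionVars false

namespace Pool.Agent.P.MP_cb6780_lc

open Module

/-- the recursive inequalities for the characteristic functions `p r n` -/
structure Rec (p : ℕ → ℕ → ℝ → ℝ) : Prop where
  le_one : ∀ r n t, p r n t ≤ 1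
  base : ∀ r n t, n ≤ r → p r n t = Real.cos t ^ 2 ^ n
  taylor : ∀ r n t, 3 ≤ r → p r n t ≤ 1 - t ^ 2 * 2 ^ n / 2 + (t ^ 2 * 2 ^ n) ^ 2 / 8
  step : ∀ r L n t, 3 ≤ L → L ≤ r → ∃ m : ℝ, 0 ≤ m ∧
    m ≤ (1 - 1 / 2 ^ (n + 1)) * p r n (2 * t) + 1 / 2 ^ (n + 1) ∧
    p r (n + L) t ≤ ((1 - 2 / 2 ^ (n + L)) * m + 2 / 2 ^ (n + L)) ^ 2 + 1 / 2 ^ L * (m - m ^ 2)

/-- `t` lies in the first half period -/
def Alw (r n : ℕ) (t : ℝ) : Prop := 1 ≤ n ∧ 0 ≤ t ∧ t * 2 ^ ((n + r - 1) / r) ≤ Real.pi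

/-- the allowed predecessor -/
theorem alw_pred {r n : ℕ} {t : ℝ} (hr : 3 ≤ r) (hn : r < n) (h : Alw r n t) :
    ∃ L n' : ℕ, 3 ≤ L ∧ L ≤ r ∧ n = n' + L ∧ Alw r n' (2 * t) ∧
      (L = 3 ∨ ∃ k : ℕ, 1 ≤ k ∧ n' = r * k ∧ 2 * 2 ^ ((r - 2) * k) ≤ (2 * t) ^ 2 * 2 ^ n') := by
  obtain ⟨-, h0, hp⟩ := h
  by_cases h3 : Alw r (n - 3) (2 * t)
  · exact ⟨3, n - 3, le_rfl, hr, by omega, h3, Or.inl rfl⟩
  have hr0 : 0 < r := by omega
  have h4 : Real.pi < 2 * t * 2 ^ ((n - 3 + r - 1) / r) := by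
    by_contra hc
    exact h3 ⟨by omega, by linarith, not_lt.1 hc⟩
  have h5 : (n + r - 1) / r ≤ (n - 3 + r - 1) / r := by
    by_contra hc
    have h6 : (2 : ℝ) ^ ((n - 3 + r - 1) / r + 1) ≤ 2 ^ ((n + r - 1) / r) :=
      pow_le_pow_right₀ one_le_two (by omega)
    have h7 := mul_le_mul_of_nonneg_left h6 h0
    rw [pow_succ] at h7
    linarith
  have h6 : (n - 3 + r - 1) / r ≤ (n + r - 1) / r := Nat.div_le_div_right (by omega)
  have h7 : 2 ≤ (n + r - 1) / r := (Nat.le_div_iff_mul_le hr0).2 (by omega)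
  obtain ⟨k, hk⟩ : ∃ k, (n + r - 1) / r = k + 1 := ⟨(n + r - 1) / r - 1, by omega⟩
  have h8 : (k + 1) * r ≤ n - 3 + r - 1 := (Nat.le_div_iff_mul_le hr0).1 (by omega)
  have h9 : n + r - 1 < (k + 2) * r := (Nat.div_lt_iff_lt_mul hr0).1 (by omega)
  have e1 : (k + 1) * r = r * k + r := by ring
  have e2 : (k + 2) * r = r * k + 2 * r := by ring
  have hk1 : 1 ≤ k := by omega
  have h10 : 1 ≤ r * k := Nat.mul_pos hr0 hk1
  have e3 : (r * k + r - 1) / r = k := by
    apply Nat.div_eq_of_lt_le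
    · rw [mul_comm]
      omega
    · omega
  refine ⟨n - r * k, r * k, by omega, by omega, by omega, ⟨h10, by linarith, ?_⟩,
    Or.inr ⟨k, hk1, rfl, ?_⟩⟩
  · rw [e3]
    rw [hk, pow_succ] at hp
    linarith
  · rw [le_antisymm h6 h5, hk, pow_succ] at h4
    have e4 : (2 : ℝ) ^ (r * k) = 2 ^ ((r - 2) * k) * (2 ^ k) ^ 2 := by
      rw [← pow_mul, ← pow_add]
      congr 1
      obtain ⟨s, rfl⟩ : ∃ s, r = s + 2 := ⟨r - 2, by omega⟩
      rw [Nat.add_sub_cancel]
      ring
    have h11 : 3 / 2 ≤ 2 * t * 2 ^ k := by linarith [Real.pi_gt_three]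
    have h12 : 2 ≤ (2 * t * 2 ^ k) ^ 2 := by nlinarith
    have h13 := mul_le_mul_of_nonneg_right h12 (show (0 : ℝ) ≤ 2 ^ ((r - 2) * k) by positivity)
    rw [e4]
    linarith

theorem alw_small {r n : ℕ} {t : ℝ} (hr : 3 ≤ r) (h : Alw r n t) :
    t ^ 2 ≤ 5 / 2 := by
  obtain ⟨h1, h0, hp⟩ := h
  have h2 : 1 ≤ (n + r - 1) / r := (Nat.le_div_iff_mul_le (by omega)).2 (by omega)
  have h3 : (2 : ℝ) ^ 1 ≤ 2 ^ ((n + r - 1) / r) := pow_le_pow_right₀ one_le_two h2
  have h4 := mul_le_mul_of_nonneg_left h3 h0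
  have h5 := Real.pi_lt_d2
  nlinarith

theorem Rec.base_exp {p : ℕ → ℕ → ℝ → ℝ} (H : Rec p) {r n : ℕ} {t : ℝ} (hn : n ≤ r)
    (h : Alw r n t) : p r n t ≤ Real.exp (-(t ^ 2 * 2 ^ n / 5)) := by
  obtain ⟨h1, h0, hp⟩ := h
  have h2 : 1 ≤ (n + r - 1) / r := (Nat.le_div_iff_mul_le (by omega)).2 (by omega)
  have h3 : (2 : ℝ) ^ 1 ≤ 2 ^ ((n + r - 1) / r) := pow_le_pow_right₀ one_le_two h2
  have h4 := mul_le_mul_of_nonneg_left h3 h0
  have h5 := Real.pi_lt_d2
  have h6 := Real.pi_pos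
  have h7 : 0 ≤ Real.cos t := Real.cos_nonneg_of_mem_Icc ⟨by linarith, by linarith⟩
  have h8 : Real.cos t ≤ 1 - 2 / Real.pi ^ 2 * t ^ 2 :=
    Real.cos_le_one_sub_mul_cos_sq (by rw [abs_of_nonneg h0]; linarith)
  have h9 : 1 / 5 ≤ 2 / Real.pi ^ 2 := by
    rw [div_le_div_iff₀ (by norm_num) (by positivity)]
    nlinarith
  have h10 : Real.cos t ≤ Real.exp (-(t ^ 2 / 5)) := by
    have := mul_le_mul_of_nonneg_right h9 (sq_nonneg t)
    linarith [Real.add_one_le_exp (-(t ^ 2 / 5))]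
  rw [H.base r n t hn]
  refine (pow_le_pow_left₀ h7 h10 _).trans (le_of_eq ?_)
  rw [← Real.exp_nat_mul]
  congr 1
  push_cast
  ring

/-- uniformly away from `1` -/
theorem Rec.gap_one {p : ℕ → ℕ → ℝ → ℝ} (H : Rec p) {r : ℕ} (hr : 3 ≤ r) (n : ℕ) :
    ∀ t : ℝ, Alw r n t → 1 / 2 ≤ t ^ 2 * 2 ^ n → (1 + 2 / 2 ^ n) / 22 ≤ 1 - p r n t := by
  induction n using Nat.strong_induction_on with
  | _ n ih =>
  intro t h hT
  have h2 : (2 : ℝ) / 2 ^ n ≤ 1 := by
    rw [div_le_one (by positivity)]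
    simpa using pow_le_pow_right₀ (one_le_two (α := ℝ)) h.1
  by_cases hn : n ≤ r
  · have h3 := H.base_exp hn h
    have h4 : Real.exp (-(t ^ 2 * 2 ^ n / 5)) ≤ 10 / 11 := by
      rw [Real.exp_neg, inv_le_comm₀ (Real.exp_pos _) (by norm_num)]
      linarith [Real.add_one_le_exp (t ^ 2 * 2 ^ n / 5)]
    linarith
  by_cases hT1 : t ^ 2 * 2 ^ n ≤ 1
  · have h3 := H.taylor r n t hr
    nlinarith
  obtain ⟨L, n', hL, hLr, rfl, h', hc⟩ := alw_pred hr (not_le.1 hn) h
  have hT' : 1 / 2 ≤ (2 * t) ^ 2 * 2 ^ n' := by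
    rcases hc with rfl | ⟨k, -, -, hk⟩
    · rw [pow_add] at hT1
      linarith [not_le.1 hT1]
    · have : (1 : ℝ) ≤ 2 ^ ((r - 2) * k) := one_le_pow₀ one_le_two
      linarith
  have h3 := ih n' (by omega) (2 * t) h' hT'
  obtain ⟨m, m0, m1, m2⟩ := H.step r L n' t hL hLr
  have h4 := H.le_one r n' (2 * t)
  obtain ⟨x, hx⟩ : ∃ x : ℝ, x = 1 / 2 ^ n' := ⟨_, rfl⟩
  obtain ⟨e, he⟩ : ∃ e : ℝ, e = 1 / 2 ^ L := ⟨_, rfl⟩
  have x0 : 0 ≤ x := by rw [hx]; positivity
  have e0 : 0 ≤ e := by rw [he]; positivity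
  have x1 : x ≤ 1 / 2 := by
    rw [hx]
    exact one_div_le_one_div_of_le two_pos
      (by simpa using pow_le_pow_right₀ (one_le_two (α := ℝ)) h'.1)
  have e1 : e ≤ 1 / 8 := by
    rw [he]
    refine one_div_le_one_div_of_le (by norm_num) ?_
    have := pow_le_pow_right₀ (one_le_two (α := ℝ)) hL
    linarith
  have a1 : (1 : ℝ) / 2 ^ (n' + 1) = x / 2 := by
    rw [hx, pow_succ]
    field_simp
  have a2 : (2 : ℝ) / 2 ^ n' = 2 * x := by
    rw [hx]
    ring
  obtain ⟨d, hd⟩ : ∃ d : ℝ, d = 2 / 2 ^ (n' + L) := ⟨_, rfl⟩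
  have a3 : d = 2 * x * e := by
    rw [hd, hx, he, pow_add]
    field_simp
  rw [a1] at m1
  rw [a2] at h3
  rw [← hd, ← he] at m2
  rw [← hd]
  have d0 : 0 ≤ d := by rw [a3]; positivity
  have d1 : d ≤ x / 4 := by nlinarith
  have b1 : (1 - x / 2) * ((1 + 2 * x) / 22) ≤ 1 - m := by
    have := mul_le_mul_of_nonneg_left h3 (show 0 ≤ 1 - x / 2 by linarith)
    linarith
  have b0 : 0 ≤ (1 - x / 2) * ((1 + 2 * x) / 22) := mul_nonneg (by linarith) (by positivity)
  have b2 : e * m ≤ (1 - d) * ((1 - d) * m + d) := by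
    have c1 : e ≤ (1 - d) * (1 - d) := by nlinarith
    have c2 := mul_le_mul_of_nonneg_right c1 m0
    have c3 : 0 ≤ (1 - d) * d := mul_nonneg (by linarith) d0
    linarith
  have b3 := mul_le_mul_of_nonneg_left b2 (b0.trans b1)
  have b4 : (1 - m) * (1 - d) ≤ 1 - p r (n' + L) t := by linarith
  have b5 := mul_le_mul b1 (show 1 - x / 4 ≤ 1 - d by linarith) (by linarith) (b0.trans b1)
  have b6 : 0 ≤ x * (1 - 11 / 8 * x) + x ^ 3 / 4 :=
    add_nonneg (mul_nonneg x0 (by linarith)) (by positivity)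
  nlinarith

end Pool.Agent.P.MP_cb6780_lc
end

-- part Pool.Agent.P.MP_cb6780_lc.LDec2
section

set_option autoImplicit false
set_option linter.unusedSectionVars false

namespace Pool.Agent.P.MP_cb6780_lc

open Module

theorem LDec2_num {a x m d e q : ℝ} (ha0 : 0 < a) (ha : a ≤ 21 / 22) (hx0 : 0 ≤ x)
    (hx : 120 * x ≤ a) (hm0 : 0 ≤ m) (hm1 : m ≤ 1) (hm : m ≤ a + x / 2) (hd0 : 0 ≤ d)
    (hd : d ≤ x / 4) (he : e ≤ 1 / 8)
    (hq : q ≤ ((1 - d) * m + d) ^ 2 + e * (m - m ^ 2)) : q ≤ 49 / 50 * a := by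
  have hd1 : d ≤ 1 := by linarith
  have h1 : 0 ≤ m - m ^ 2 := by nlinarith
  have h2 : e * (m - m ^ 2) ≤ 1 / 8 * (m - m ^ 2) := mul_le_mul_of_nonneg_right he h1
  have h3 : d * (1 - m) ≤ d := by nlinarith
  have h3' : 0 ≤ d * (1 - m) := mul_nonneg hd0 (by linarith)
  have h4 : ((1 - d) * m + d) ^ 2 ≤ m ^ 2 + 3 * d := by
    have e1 : ((1 - d) * m + d) ^ 2 = m ^ 2 + (d * (1 - m)) * (2 * m + d * (1 - m)) := by ring
    have e2 : (d * (1 - m)) * (2 * m + d * (1 - m)) ≤ d * 3 :=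
      mul_le_mul h3 (by linarith) (by linarith) hd0
    linarith
  have h5 : m ^ 2 ≤ (a + x / 2) ^ 2 := pow_le_pow_left₀ hm0 hm 2
  have h6 : (a + x / 2) ^ 2 ≤ 21 / 22 * a + 5 / 4 * x := by nlinarith
  linarith

/-- one contraction step -/
theorem Rec.contract {p : ℕ → ℕ → ℝ → ℝ} (H : Rec p) {a T0 : ℝ} (ha0 : 0 < a) (ha : a ≤ 21 / 22)
    (h : ∀ r n t, 3 ≤ r → Alw r n t → T0 ≤ t ^ 2 * 2 ^ n → p r n t ≤ a) :
    ∃ T1 : ℝ, ∀ r n t, 3 ≤ r → Alw r n t → T1 ≤ t ^ 2 * 2 ^ n → p r n t ≤ 49 / 50 * a := by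
  obtain ⟨T2, h20, h2a, h21⟩ : ∃ T2 : ℝ, T0 ≤ T2 ∧ 300 / a ≤ T2 ∧ 1 ≤ T2 :=
    ⟨max (max T0 (300 / a)) 1, (le_max_left _ _).trans (le_max_left _ _),
      (le_max_right _ _).trans (le_max_left _ _), le_max_right _ _⟩
  refine ⟨max (2 * T2) (T2 ^ 2), fun r n t hr hA hT => ?_⟩
  have hT1 : 2 * T2 ≤ t ^ 2 * 2 ^ n := (le_max_left _ _).trans hT
  have hT2 : T2 ^ 2 ≤ t ^ 2 * 2 ^ n := (le_max_right _ _).trans hT
  have h2a' : 300 ≤ T2 * a := (div_le_iff₀ ha0).1 h2a
  by_cases hn : n ≤ r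
  · refine (H.base_exp hn hA).trans ?_
    obtain ⟨T, hTe⟩ : ∃ T : ℝ, T = t ^ 2 * 2 ^ n := ⟨_, rfl⟩
    rw [← hTe] at hT1 ⊢
    have h1 : T / 5 + 1 ≤ Real.exp (T / 5) := Real.add_one_le_exp _
    rw [Real.exp_neg, inv_le_iff_one_le_mul₀ (Real.exp_pos _)]
    have h2 : 49 / 50 * a * (T / 5 + 1) ≤ 49 / 50 * a * Real.exp (T / 5) :=
      mul_le_mul_of_nonneg_left h1 (by positivity)
    have h3 : 2 * T2 * a ≤ T * a := mul_le_mul_of_nonneg_right hT1 ha0.le
    nlinarith
  · obtain ⟨L, n', hL3, hLr, rfl, hA', hc⟩ := alw_pred hr (not_le.1 hn) hA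
    obtain ⟨L2, rfl⟩ : ∃ L2, L = L2 + 2 := ⟨L - 2, by omega⟩
    obtain ⟨T', hT'⟩ : ∃ T' : ℝ, T' = (2 * t) ^ 2 * 2 ^ n' := ⟨_, rfl⟩
    have hT0 : 0 ≤ T' := by rw [hT']; positivity
    have hTe : t ^ 2 * 2 ^ (n' + (L2 + 2)) = T' * 2 ^ L2 := by rw [hT']; ring
    rw [hTe] at hT1 hT2
    have hT2' : T2 ≤ T' := by
      rcases hc with hc | ⟨k, hk, _, hb⟩
      · have : L2 = 1 := by omega
        subst this
        linarith
      · rw [← hT'] at hb
        have h1 : (2 : ℝ) ^ L2 ≤ 2 ^ ((r - 2) * k) :=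
          pow_le_pow_right₀ (by norm_num)
            ((show L2 ≤ r - 2 by omega).trans (Nat.le_mul_of_pos_right _ hk))
        have h0 : (0 : ℝ) < 2 ^ ((r - 2) * k) := by positivity
        have h2 : T' * 2 ^ L2 ≤ T' * T' := mul_le_mul_of_nonneg_left (by linarith) hT0
        exact (pow_le_pow_iff_left₀ (by linarith) hT0 two_ne_zero).1 (by rw [pow_two T']; linarith)
    have hp' : p r n' (2 * t) ≤ a := h r n' (2 * t) hr hA' (by rw [← hT']; linarith)
    have hp1 := H.le_one r n' (2 * t)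
    obtain ⟨m, hm0, hm, hq⟩ := H.step r (L2 + 2) n' t hL3 hLr
    obtain ⟨x, hx⟩ : ∃ x : ℝ, x = 1 / 2 ^ n' := ⟨_, rfl⟩
    have hx0 : 0 < x := by rw [hx]; positivity
    have hxT : T' * x ≤ 5 / 2 := by
      have e : T' * x = (2 * t) ^ 2 := by rw [hT', hx]; field_simp
      rw [e]; exact alw_small hr hA'
    have hxa : 120 * x ≤ a := by
      have h1 : T2 * a ≤ T' * a := mul_le_mul_of_nonneg_right hT2' ha0.le
      have h2 : T' * (120 * x) ≤ T' * a := by linarith
      exact le_of_mul_le_mul_left h2 (by linarith)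
    have e1 : (1 : ℝ) / 2 ^ (n' + 1) = x / 2 := by rw [hx, pow_succ]; field_simp
    rw [e1] at hm
    have h8 : (2 : ℝ) ^ 3 ≤ 2 ^ (L2 + 2) := pow_le_pow_right₀ (by norm_num) hL3
    have he : (1 : ℝ) / 2 ^ (L2 + 2) ≤ 1 / 8 :=
      one_div_le_one_div_of_le (by norm_num) (by linarith)
    have e2 : (2 : ℝ) / 2 ^ (n' + (L2 + 2)) = 2 * x * (1 / 2 ^ (L2 + 2)) := by
      rw [hx, pow_add]; field_simp
    have hx2 : 0 ≤ 1 - x / 2 := by linarith
    refine LDec2_num ha0 ha hx0.le hxa hm0 ?_ ?_ (by positivity) ?_ he hq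
    · have := mul_le_mul_of_nonneg_left hp1 hx2
      linarith
    · have := mul_le_mul_of_nonneg_left hp' hx2
      nlinarith
    · rw [e2]; nlinarith

theorem LDec2_iter {p : ℕ → ℕ → ℝ → ℝ} (H : Rec p) (j : ℕ) :
    ∃ T1 : ℝ, ∀ r n t, 3 ≤ r → Alw r n t → T1 ≤ t ^ 2 * 2 ^ n →
      p r n t ≤ (49 / 50) ^ j * (21 / 22) := by
  induction j with
  | zero =>
    refine ⟨1 / 2, fun r n t hr hA hT => ?_⟩
    have h1 := H.gap_one hr n t hA hT
    have h2 : (0 : ℝ) ≤ 2 / 2 ^ n := by positivity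
    rw [pow_zero]; linarith
  | succ j ih =>
    obtain ⟨T0, h0⟩ := ih
    have h1 : ((49 : ℝ) / 50) ^ j ≤ 1 := pow_le_one₀ (by norm_num) (by norm_num)
    obtain ⟨T1, h⟩ := H.contract (by positivity) (by linarith) h0
    refine ⟨T1, fun r n t hr hA hT => (h r n t hr hA hT).trans (le_of_eq ?_)⟩
    ring

/-- uniformly small for large normalised frequency -/
theorem Rec.small {p : ℕ → ℕ → ℝ → ℝ} (H : Rec p) {η : ℝ} (hη : 0 < η) :
    ∃ T1 : ℝ, ∀ r n t, 3 ≤ r → Alw r n t → T1 ≤ t ^ 2 * 2 ^ n → p r n t ≤ η := by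
  obtain ⟨j, hj⟩ := exists_pow_lt_of_lt_one hη (show (49 : ℝ) / 50 < 1 by norm_num)
  obtain ⟨T1, h⟩ := LDec2_iter H j
  refine ⟨T1, fun r n t hr hA hT => (h r n t hr hA hT).trans ?_⟩
  have : (0 : ℝ) ≤ (49 / 50) ^ j := by positivity
  linarith

end Pool.Agent.P.MP_cb6780_lc
end

-- part Pool.Agent.P.MP_cb6780_lc.LDec3
section

set_option autoImplicit false
set_option linter.unusedSectionVars false

namespace Pool.Agent.P.MP_cb6780_lc

open Module

theorem LDec3_exp1 (y : ℝ) : Real.exp (-y) * y ≤ 1 := by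
  have h1 := Real.add_one_le_exp y
  have h2 : Real.exp (-y) * Real.exp y = 1 := by rw [← Real.exp_add]; simp
  have h3 := Real.exp_pos (-y)
  nlinarith

theorem LDec3_exp2 {y : ℝ} (hy : 0 ≤ y) : Real.exp (-y) * y ^ 2 ≤ 2 := by
  have h1 := Real.quadratic_le_exp_of_nonneg hy
  have h2 : Real.exp (-y) * Real.exp y = 1 := by rw [← Real.exp_add]; simp
  have h3 := Real.exp_pos (-y)
  nlinarith

/-- the arithmetic of one step -/
theorem LDec3_step {p p' m x E b : ℝ} (hE0 : 0 < E) (hE : E ≤ 1 / 8) (hx0 : 0 < x) (hxE : x ≤ E)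
    (hxb : x ≤ b / 16) (hpb : p' ≤ b) (hpE : p' ≤ E / 2) (hm0 : 0 ≤ m)
    (hm : m ≤ (1 - x / 2) * p' + x / 2)
    (hp : p ≤ ((1 - 2 * E * x) * m + 2 * E * x) ^ 2 + E * (m - m ^ 2)) : p ≤ 4 * E * b := by
  have hb0 : 0 ≤ b := by linarith
  have h1 : 0 ≤ 1 - x / 2 := by linarith
  have hmE : m ≤ E := by
    have := mul_le_mul_of_nonneg_left hpE h1
    nlinarith
  have hmb : m ≤ 33 / 32 * b := by
    have := mul_le_mul_of_nonneg_left hpb h1
    nlinarith
  have hd0 : 0 ≤ 2 * E * x := by positivity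
  have hd1 : 2 * E * x ≤ 1 := by nlinarith
  generalize hd : 2 * E * x = d at hp hd0 hd1
  have hm1 : m ≤ 1 := by linarith
  have h2 : ((1 - d) * m + d) ^ 2 ≤ m ^ 2 + 3 * d := by
    have e : ((1 - d) * m + d) ^ 2 = m ^ 2 + d * (2 * (m * (1 - m)) + d * (1 - m) ^ 2) := by ring
    have a1 : m * (1 - m) ≤ 1 := by nlinarith
    have a2 : (1 - m) ^ 2 ≤ 1 := by nlinarith
    have a3 : d * (1 - m) ^ 2 ≤ 1 := by nlinarith [sq_nonneg (1 - m)]
    have a4 : d * (2 * (m * (1 - m)) + d * (1 - m) ^ 2) ≤ d * 3 :=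
      mul_le_mul_of_nonneg_left (by linarith) hd0
    linarith
  have h3 : m ^ 2 ≤ E * m := by nlinarith
  have h4 : E * m ≤ E * (33 / 32 * b) := mul_le_mul_of_nonneg_left hmb hE0.le
  have h5 : E * x ≤ E * (b / 16) := mul_le_mul_of_nonneg_left hxb hE0.le
  have h6 : 0 ≤ E * m ^ 2 := by positivity
  have h7 : 0 ≤ E * b := by positivity
  nlinarith

/-- the induction for one `r` -/
theorem Rec.decay_of {p : ℕ → ℕ → ℝ → ℝ} (H : Rec p) {r : ℕ} (hr : 3 ≤ r) {c : ℝ} (hc : 40 ≤ c)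
    (h3 : ∀ n t, Alw r n t → c / 2 ≤ t ^ 2 * 2 ^ n → p r n t ≤ 1 / 16)
    (hb : 16 * c ≤ 2 ^ r ∨
      ∀ n t, Alw r n t → c ≤ (t ^ 2 * 2 ^ n) ^ 2 → p r n t ≤ 1 / 2 ^ (r + 1)) (n : ℕ) :
    ∀ t : ℝ, Alw r n t → p r n t * (t ^ 2 * 2 ^ n) ≤ c := by
  induction n using Nat.strong_induction_on with
  | _ n ih =>
  intro t ht
  have hT0 : 0 ≤ t ^ 2 * 2 ^ n := by positivity
  rcases le_or_gt (t ^ 2 * 2 ^ n) c with hTc | hTc
  · have := mul_le_mul_of_nonneg_right (H.le_one r n t) hT0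
    linarith
  rcases le_or_gt n r with hn | hn
  · have h1 := mul_le_mul_of_nonneg_right (H.base_exp hn ht) hT0
    have h2 := LDec3_exp1 (t ^ 2 * 2 ^ n / 5)
    nlinarith
  obtain ⟨L, n', hL3, hLr, rfl, hA, hcase⟩ := alw_pred hr hn ht
  obtain ⟨m, hm0, hm, hp⟩ := H.step r L n' t hL3 hLr
  have hIH := ih n' (by omega) (2 * t) hA
  have hsm := alw_small hr hA
  have hN : (0 : ℝ) < 2 ^ n' := by positivity
  have hM : (0 : ℝ) < 2 ^ L := by positivity
  have hM8 : (8 : ℝ) ≤ 2 ^ L := by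
    have : (2 : ℝ) ^ 3 ≤ 2 ^ L := pow_le_pow_right₀ (by norm_num) hL3
    linarith
  have hMR : (2 : ℝ) ^ L ≤ 2 ^ r := pow_le_pow_right₀ (by norm_num) hLr
  have hTT : t ^ 2 * 2 ^ (n' + L) = (2 * t) ^ 2 * 2 ^ n' * 2 ^ L / 4 := by rw [pow_add]; ring
  have hTN : (2 * t) ^ 2 * 2 ^ n' ≤ 5 / 2 * 2 ^ n' := mul_le_mul_of_nonneg_right hsm hN.le
  have hbase : n' ≤ r → p r n' (2 * t) ≤ Real.exp (-((2 * t) ^ 2 * 2 ^ n' / 5)) :=
    fun h => H.base_exp h hA
  have h3' := h3 n' (2 * t) hA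
  have hb' : 16 * c ≤ 2 ^ r ∨
      (c ≤ ((2 * t) ^ 2 * 2 ^ n') ^ 2 → p r n' (2 * t) ≤ 1 / 2 ^ (r + 1)) :=
    hb.imp id fun h => h n' (2 * t) hA
  rw [hTT] at hTc ⊢
  generalize (2 * t) ^ 2 * 2 ^ n' = T at *
  have hT : 0 < T := by
    by_contra hneg
    have : T * 2 ^ L ≤ 0 := mul_nonpos_of_nonpos_of_nonneg (not_lt.1 hneg) hM.le
    linarith
  have hx : (1 : ℝ) / 2 ^ n' ≤ 5 / 2 / T := by
    rw [div_le_div_iff₀ hN hT]; linarith
  have hsmall : p r n' (2 * t) ≤ 1 / 2 ^ L / 2 ∧ (1 : ℝ) / 2 ^ n' ≤ 1 / 2 ^ L := by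
    rcases hcase with rfl | ⟨k, hk, hnk, hTk⟩
    · have hT2 : c / 2 ≤ T := by norm_num at hTc; linarith
      refine ⟨by have := h3' hT2; norm_num; linarith, hx.trans ?_⟩
      rw [div_le_iff₀ hT]; norm_num; linarith
    · have hrn : r ≤ n' := by rw [hnk]; exact Nat.le_mul_of_pos_right r hk
      refine ⟨?_, one_div_le_one_div_of_le hM (pow_le_pow_right₀ (by norm_num) (by omega))⟩
      have hR : (0 : ℝ) < 2 ^ r := by positivity
      have hr2 : (2 : ℝ) ^ r = 4 * 2 ^ (r - 2) := by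
        obtain ⟨s, rfl⟩ : ∃ s, r = s + 2 := ⟨r - 2, by omega⟩
        rw [Nat.add_sub_cancel, pow_add]; ring
      have hfin : p r n' (2 * t) ≤ 1 / 2 ^ (r + 1) := by
        have hk1 : (2 : ℝ) ^ (r - 2) ≤ 2 ^ ((r - 2) * k) :=
          pow_le_pow_right₀ (by norm_num) (Nat.le_mul_of_pos_right _ hk)
        rcases hb' with hb' | hb'
        · rw [pow_succ, le_div_iff₀ (by positivity)]
          rcases hk.eq_or_lt with rfl | hk2
          · have h1 := hbase (by omega)
            have h2 := LDec3_exp2 (y := T / 5) (by positivity)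
            have h4 := Real.exp_pos (-(T / 5))
            have h5 : 2 ^ r / 2 ≤ T := by linarith
            have h6 : (640 : ℝ) ≤ 2 ^ r := by linarith
            generalize (2 : ℝ) ^ r = R at *
            have h7 : R * 2 * 50 ≤ T ^ 2 := by nlinarith
            have h8 := mul_le_mul_of_nonneg_left h7 h4.le
            have h9 := mul_le_mul_of_nonneg_right h1 (by positivity : 0 ≤ R * 2)
            nlinarith
          · have hk3 : (2 : ℝ) ^ ((r - 2) * 2) ≤ 2 ^ ((r - 2) * k) :=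
              pow_le_pow_right₀ (by norm_num) (Nat.mul_le_mul_left _ hk2)
            rw [pow_mul] at hk3
            have h5 : (2 ^ r) ^ 2 / 8 ≤ T := by rw [hr2]; nlinarith
            generalize (2 : ℝ) ^ r = R at *
            rcases le_or_gt (p r n' (2 * t)) 0 with h0 | h0
            · have := mul_nonpos_of_nonpos_of_nonneg h0 (by positivity : 0 ≤ R * 2)
              linarith
            · have h6 := mul_le_mul_of_nonneg_left h5 h0.le
              have h7 : p r n' (2 * t) * (R * 2) * R ≤ 1 * R := by nlinarith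
              exact le_of_mul_le_mul_right h7 hR
        · refine hb' (hTc.le.trans ?_)
          have h1 : 2 ^ L / 4 ≤ T := by
            have : (0 : ℝ) < 2 ^ (r - 2) := by positivity
            linarith
          nlinarith
      refine hfin.trans ?_
      rw [div_div, ← pow_succ]
      exact one_div_le_one_div_of_le (by positivity) (pow_le_pow_right₀ (by norm_num) (by omega))
  have hkey : p r (n' + L) t ≤ 4 * (1 / 2 ^ L) * (c / T) := by
    refine LDec3_step (p' := p r n' (2 * t)) (m := m) (x := 1 / 2 ^ n') (by positivity)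
      (one_div_le_one_div_of_le (by norm_num) hM8) (by positivity) hsmall.2 (hx.trans ?_)
      ((le_div_iff₀ hT).2 hIH) hsmall.1 hm0 ?_ ?_
    · rw [div_div c, div_le_div_iff₀ hT (by positivity)]; nlinarith
    · have e : (1 : ℝ) / 2 ^ n' / 2 = 1 / 2 ^ (n' + 1) := by rw [div_div, pow_succ]
      rw [e]; exact hm
    · have e : (2 : ℝ) * (1 / 2 ^ L) * (1 / 2 ^ n') = 2 / 2 ^ (n' + L) := by
        rw [pow_add]; field_simp
      rw [e]; exact hp
  have h9 := mul_le_mul_of_nonneg_right hkey (by positivity : 0 ≤ T * 2 ^ L / 4)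
  refine h9.trans (le_of_eq ?_)
  field_simp

theorem Rec.decay {p : ℕ → ℕ → ℝ → ℝ} (H : Rec p) :
    ∃ C : ℝ, ∀ r n t, 3 ≤ r → Alw r n t → p r n t * (t ^ 2 * 2 ^ n) ≤ C := by
  obtain ⟨T1, h1⟩ := H.small (η := 1 / 16) (by norm_num)
  obtain ⟨r0, hr0⟩ := pow_unbounded_of_one_lt (16 * max 40 (2 * T1)) (by norm_num : (1 : ℝ) < 2)
  obtain ⟨T2, h2⟩ := H.small (η := 1 / 2 ^ (r0 + 1)) (by positivity)
  have ha : (40 : ℝ) ≤ max 40 (2 * T1) := le_max_left _ _
  have hb : 2 * T1 ≤ max 40 (2 * T1) := le_max_right _ _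
  generalize max 40 (2 * T1) = c1 at *
  have hc : c1 ≤ max c1 (T2 ^ 2) := le_max_left _ _
  have hd : T2 ^ 2 ≤ max c1 (T2 ^ 2) := le_max_right _ _
  generalize max c1 (T2 ^ 2) = c2 at *
  refine ⟨c2, fun r n t hr ht => ?_⟩
  rcases le_or_gt r0 r with h | h
  · refine (H.decay_of hr ha (fun n t ht hT => h1 r n t hr ht (by linarith)) (Or.inl ?_) n t ht).trans hc
    exact hr0.le.trans (pow_le_pow_right₀ (by norm_num) h)
  · refine H.decay_of hr (ha.trans hc) (fun n t ht hT => h1 r n t hr ht (by linarith))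
      (Or.inr fun n t ht hT => (h2 r n t hr ht ?_).trans ?_) n t ht
    · exact le_trans (le_abs_self _) ((sq_le_sq.1 (hd.trans hT)).trans
        (abs_of_nonneg (by positivity)).le)
    · exact one_div_le_one_div_of_le (by positivity) (pow_le_pow_right₀ (by norm_num) (by omega))

end Pool.Agent.P.MP_cb6780_lc
end

-- part Pool.Agent.P.MP_cb6780_lc.LRec
section

set_option autoImplicit false
set_option linter.unusedSectionVars false

namespace Pool.Agent.P.MP_cb6780_lc

open Module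

theorem LRec_congr {H : Type} [AddCommGroup H] [Module F H] [Finite H] {k : ℕ}
    (hH : finrank F H = k) (R e d : ℕ) (t : ℝ) (Φ : ℝ → ℝ) :
    av (fun g : P H R => Φ (mu e d t g.1)) = av fun g : P (Fin k → F) R => Φ (mu e d t g.1) := by
  subst hH
  have : Module.Finite F H := Module.Finite.of_finite
  let E := (Module.finBasis F H).equivFun
  rw [← av_P_comp E.toLinearMap E.injective 0 R fun g => Φ (mu e d t g)]
  exact congrArg av (funext fun q => congrArg Φ (mu_congr E 0 e d t q.1))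

theorem LRec_ite {V : Type} [AddCommGroup V] [Module F V] [Finite V] [DecidableEq (Dual F V)]
    (a b : ℝ) : av (fun l : Dual F V => if l = 0 then a else b) =
      (1 - 1 / 2 ^ finrank F V) * b + 1 / 2 ^ finrank F V * a := by
  have : Finite (Dual F V) := DFunLike.finite _
  have h : (fun l : Dual F V => if l = 0 then a else b) =
      fun l => b + (a - b) * ({0} : Set (Dual F V)).indicator (fun _ => (1 : ℝ)) l := by
    funext l
    by_cases hl : l = 0 <;> simp [hl]
  rw [h, av_add, av_const, av_mul_left, av_indicator, Set.ncard_singleton, card_V,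
    Subspace.dual_finrank_eq]
  push_cast
  ring

/-- inequality (*) of the paper -/
theorem star {V : Type} [AddCommGroup V] [Module F V] [Finite V] {d k R : ℕ}
    (hV : finrank F V = k + 1) (h : d + 3 ≤ R) (t : ℝ) :
    mu R (d + 3) t (0 : V → F) ≤
      ((1 - 1 / 2 ^ (k + 1)) * av (fun g : P (Fin k → F) R => mu (d + 3) (d + 2) t g.1) +
          1 / 2 ^ (k + 1)) ^ 2 +
        1 / 2 ^ (d + 3) * (av (fun g : P (Fin k → F) R => mu (d + 3) (d + 2) t g.1 ^ 2) -
          av (fun g : P (Fin k → F) R => mu (d + 3) (d + 2) t g.1) ^ 2) := by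
  classical
  have : Finite (Dual F V) := DFunLike.finite _
  set m1 := av fun g : P (Fin k → F) R => mu (d + 3) (d + 2) t g.1 with hm1
  set m2 := av fun g : P (Fin k → F) R => mu (d + 3) (d + 2) t g.1 ^ 2 with hm2
  have h12 : m1 ^ 2 ≤ m2 := sq_av_le _
  let Y : Dual F V → (V → F) → ℝ := fun l f =>
    if l = 0 then 1 else mu (d + 3) (d + 2) t (res (LinearMap.ker l) 0 f)
  have s1 : ∀ f : V → F, psi (d + 3) t f ^ 2 ≤
      av fun x : V => av (fun l => Y l fun w => f (w + x)) ^ 2 := fun f => by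
    refine le_trans ?_ (sq_av_le _)
    rw [← sq_abs]
    refine pow_le_pow_left₀ (abs_nonneg _) ?_ 2
    rw [av_comm fun x l => Y l fun w => f (w + x), ← av_const (V := Dual F V) |psi (d + 3) t f|]
    refine av_mono fun l => ?_
    by_cases hl : l = 0
    · simp only [Y, if_pos hl, av_const]
      exact abs_psi_le_one _ _ _
    · simp only [Y, if_neg hl]
      exact abs_psi_le hl (d + 1) t f
  have s2 : mu R (d + 3) t (0 : V → F) ≤ av fun f : P V R => av (fun l => Y l f.1) ^ 2 := by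
    refine (av_mono fun f : P V R => s1 (0 + f.1)).trans (le_of_eq ?_)
    rw [av_comm fun (f : P V R) (x : V) => av (fun l => Y l fun w => (0 + f.1) (w + x)) ^ 2]
    have : ∀ x : V, (av fun f : P V R => av (fun l => Y l fun w => (0 + f.1) (w + x)) ^ 2) =
        av fun f : P V R => av (fun l => Y l f.1) ^ 2 := fun x => by
      simp only [zero_add]
      exact av_P_comp LinearMap.id Function.injective_id x R fun g => av (fun l => Y l g) ^ 2
    rw [funext this, av_const]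
  have s3 := decor (Γ := P V R) (fun l f => Y l f.1)
    (fun l => (P (LinearMap.ker l) (d + 3)).comap ((res (LinearMap.ker l) 0).comp (P V R).subtype))
    (fun l x p hp => by
      by_cases hl : l = 0
      · simp only [Y, if_pos hl]
      · simp only [Y, if_neg hl, Submodule.coe_add, map_add]
        exact mu_add_mem _ _ _ hp)
    (ε := 1 / 2 ^ (d + 3)) fun ξ hξ => ker_density (by omega) h ξ hξ
  have e0 : ∀ l : Dual F V, l ≠ 0 → ∀ Φ : ℝ → ℝ, av (fun f : P V R => Φ (Y l f.1)) =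
      av fun g : P (Fin k → F) R => Φ (mu (d + 3) (d + 2) t g.1) := fun l hl Φ => by
    have hk := finrank_ker_dual hl
    simp only [Y, if_neg hl]
    rw [av_P_res (LinearMap.ker l) 0 R fun g => Φ (mu (d + 3) (d + 2) t g)]
    exact LRec_congr (by omega) _ _ _ _ _
  have e1 : ∀ l : Dual F V, av (fun f : P V R => Y l f.1) = if l = 0 then 1 else m1 := fun l => by
    by_cases hl : l = 0
    · simp only [Y, if_pos hl, av_const]
    · rw [if_neg hl]
      exact e0 l hl fun x => x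
  have e2 : ∀ l : Dual F V, av (fun f : P V R => Y l f.1 ^ 2) - av (fun f : P V R => Y l f.1) ^ 2 =
      if l = 0 then 0 else m2 - m1 ^ 2 := fun l => by
    by_cases hl : l = 0
    · simp only [Y, if_pos hl, av_const, sub_self]
    · rw [if_neg hl, e1, if_neg hl, e0 l hl fun x => x ^ 2]
  simp only [e2] at s3
  simp only [e1, LRec_ite, hV, mul_one, mul_zero, add_zero] at s3
  refine s2.trans (s3.trans (add_le_add le_rfl (mul_le_mul_of_nonneg_left ?_ (by positivity))))
  have : (0 : ℝ) ≤ 1 / 2 ^ (k + 1) * (m2 - m1 ^ 2) := mul_nonneg (by positivity) (by linarith)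
  linarith

theorem phi_le_mu {r L : ℕ} (h : L ≤ r) (hL : 1 ≤ L) (n : ℕ) (t : ℝ) :
    phi r (n + 1) t ≤ mu (r + 1) L t (0 : (Fin n → F) → F) := by
  obtain ⟨r, rfl⟩ : ∃ s, r = s + 1 := ⟨r - 1, by omega⟩
  rw [phi_succ]
  exact mu_anti h (Nat.le_succ _) t 0

theorem rec_phi : Rec phi where
  le_one := phi_le_one
  base := fun r n t h => phi_base r t n h
  taylor := fun r n t h => phi_taylor (by omega) n t
  step := fun r L n t h3 hL => by
    obtain ⟨d, rfl⟩ : ∃ d, L = d + 3 := ⟨L - 3, by omega⟩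
    have h1 := star (V := Fin (n + d + 2) → F) (d := d) (k := n + 1 + d) (R := r + 1)
      (by rw [finrank_fin_fun]; omega) (by omega) t
    refine ⟨_, av_nonneg fun _ => mu_nonneg _ _ _ _,
      m1_le (H := Fin (n + 1 + d) → F) (finrank_fin_fun F) (by omega) t, ?_⟩
    have h2 := phi_le_mu hL (by omega) (n + d + 2) t
    have e : (2 : ℝ) / 2 ^ (n + (d + 3)) = 1 / 2 ^ (n + 1 + d + 1) := by
      rw [show n + (d + 3) = n + 1 + d + 1 + 1 by omega, pow_succ _ (n + 1 + d + 1)]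
      field_simp
    rw [e]
    refine h2.trans (h1.trans (add_le_add le_rfl (mul_le_mul_of_nonneg_left
      (sub_le_sub_right (av_mono fun g => ?_) _) (by positivity))))
    have a := mu_nonneg (d + 3) (d + 2) t g.1
    have b := mu_le_one (d + 3) (d + 2) t g.1
    nlinarith

theorem phi_upper {r : ℕ} (hr : 3 ≤ r) (j n : ℕ) (t : ℝ) :
    phi r n t ≤ Real.exp (-(t ^ 2 * 2 ^ n / 2)) + (t ^ 2 * 2 ^ n) ^ 2 / 8 / 2 ^ j +
      11 * 32 ^ j / 2 ^ n := by
  refine clt_upper (phi r) (uu r) (phi_le_one r) (fun n t => mu_le_one _ _ _ _)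
    (fun n t => phi_le_mu hr (by omega) n t) (fun n t => ?_) (phi_taylor (by omega)) j n t
  have h1 := star (V := Fin (n + 2) → F) (d := 0) (k := n + 1) (R := r + 1)
    (finrank_fin_fun F) (by omega) t
  have h2 := m1_le (H := Fin (n + 1) → F) (d := 0) (n := n) (r := r) (finrank_fin_fun F)
    (by omega) t
  have h3 := m2_le (H := Fin (n + 1) → F) (n := n) (r := r) (finrank_fin_fun F) (by omega) t
  simp only [zero_add] at h1 h2
  set m := av fun g : P (Fin (n + 1) → F) (r + 1) => mu 3 2 t g.1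
  have m0 : 0 ≤ m := av_nonneg fun _ => mu_nonneg _ _ _ _
  have m1 : m ≤ 1 := av_le_of_le fun _ => mu_le_one _ _ _ _
  have e1 : (1 : ℝ) / 2 ^ (n + 1) = 1 / 2 ^ n / 2 := by rw [pow_succ]; field_simp
  have e2 : (1 : ℝ) / 2 ^ (n + 1 + 1) = 1 / 2 ^ n / 4 := by rw [pow_succ, pow_succ]; field_simp; ring
  rw [e1] at h2 h3
  rw [e2] at h1
  have x0 : (0 : ℝ) < 1 / 2 ^ n := by positivity
  have x1 : (1 : ℝ) / 2 ^ n ≤ 1 := by
    rw [div_le_one (by positivity)]; exact one_le_pow₀ one_le_two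
  set x := (1 : ℝ) / 2 ^ n
  have p1 := neg_one_le_phi r n (2 * t)
  refine ⟨m, m0, m1, by nlinarith, h1.trans ?_⟩
  have a : ((1 - x / 4) * m + x / 4) ^ 2 ≤ (m + x / 4) ^ 2 :=
    pow_le_pow_left₀ (by nlinarith) (by nlinarith) 2
  nlinarith

end Pool.Agent.P.MP_cb6780_lc
end

-- part Pool.Agent.P.MP_cb6780_lc.LMcE
section

set_option autoImplicit false
set_option linter.unusedSectionVars false

namespace Pool.Agent.P.MP_cb6780_lc

open Module

/-- extension by zero -/
def LMcE_ext {n : ℕ} (T : Finset (Fin n)) : ({i // i ∉ T} → F) →ₗ[F] (Fin n → F) where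
  toFun w := fun i => if h : i ∈ T then 0 else w ⟨i, h⟩
  map_add' x y := by
    funext i
    by_cases h : i ∈ T <;> simp [h]
  map_smul' a x := by
    funext i
    by_cases h : i ∈ T <;> simp [h]

theorem LMcE_ext_apply {n : ℕ} (T : Finset (Fin n)) (w : {i // i ∉ T} → F) (i : Fin n) :
    LMcE_ext T w i = if h : i ∈ T then 0 else w ⟨i, h⟩ := rfl

theorem LMcE_mon {n : ℕ} (s : Fin n →₀ ℕ) (x : Fin n → F) :
    ∏ i, x i ^ s i = if ∀ i ∈ s.support, x i = 1 then 1 else 0 := by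
  split_ifs with h
  · refine Finset.prod_eq_one fun i _ => ?_
    by_cases hi : i ∈ s.support
    · rw [h i hi, one_pow]
    · rw [Finsupp.notMem_support_iff.1 hi, pow_zero]
  · obtain ⟨i, hi⟩ := not_forall.1 h
    obtain ⟨h1, h2⟩ := Classical.not_imp.1 hi
    refine Finset.prod_eq_zero (Finset.mem_univ i) ?_
    rw [(Av_cases (x i)).resolve_right h2, zero_pow (Finsupp.mem_support_iff.1 h1)]

theorem LMcE_step {n : ℕ} (T : Finset (Fin n)) (g m : (Fin n → F) → F)
    (hm : ∀ x, m x = if ∀ i ∈ T, x i = 1 then 1 else 0) :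
    gap (g + m) = gap g -
      2 * gap fun w => g (LMcE_ext T w + fun i => if i ∈ T then 1 else 0) := by
  have h1 : (∑ x ∈ Finset.univ.filter fun x : Fin n → F => ∀ i ∈ T, x i = 1, chi (g x)) =
      ∑ w, chi (g (LMcE_ext T w + fun i => if i ∈ T then 1 else 0)) := by
    have e : ∀ x : Fin n → F, (∀ i ∈ T, x i = 1) →
        (LMcE_ext T (fun j => x j.1) + fun i => if i ∈ T then 1 else 0) = x := fun x hx => by
      funext i
      rw [Pi.add_apply, LMcE_ext_apply]
      by_cases h : i ∈ T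
      · rw [dif_pos h, if_pos h, zero_add, hx i h]
      · rw [dif_neg h, if_neg h, add_zero]
    refine Finset.sum_nbij' (fun x j => x j.1)
      (fun w => LMcE_ext T w + fun i => if i ∈ T then 1 else 0) (fun _ _ => Finset.mem_univ _)
      (fun w _ => Finset.mem_filter.2 ⟨Finset.mem_univ _, fun i h => ?_⟩)
      (fun x hx => e x (Finset.mem_filter.1 hx).2) (fun w _ => funext fun j => ?_)
      fun x hx => by rw [e x (Finset.mem_filter.1 hx).2]
    · rw [Pi.add_apply, LMcE_ext_apply, dif_pos h, if_pos h, zero_add]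
    · show (LMcE_ext T w + fun i => if i ∈ T then (1 : F) else 0) j.1 = w j
      rw [Pi.add_apply, LMcE_ext_apply, dif_neg j.2, if_neg j.2, add_zero]
  rw [gap_eq, gap_eq, gap_eq, ← h1, Finset.sum_filter, Finset.mul_sum, ← Finset.sum_sub_distrib]
  refine Finset.sum_congr rfl fun x _ => ?_
  rw [Pi.add_apply, chi_add, hm]
  split_ifs
  · rw [chi_one]
    ring
  · rw [chi_zero]
    ring

theorem LMcE_gen {r k : ℕ} {ι : Type} [Fintype ι]
    (H : ∀ f ∈ P (Fin (Fintype.card ι) → F) (r + 1), ∃ z : ℤ, gap f = 2 ^ k * z)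
    (f : (ι → F) → F) (hf : f ∈ P _ (r + 1)) : ∃ z : ℤ, gap f = 2 ^ k * z := by
  let e := LinearEquiv.funCongrLeft F F (Fintype.equivFin ι)
  obtain ⟨z, hz⟩ := H _ (Card_comp hf e.toLinearMap)
  exact ⟨z, (gap_congr e.toEquiv f).symm.trans hz⟩

theorem LMcE_card {n : ℕ} (s : Fin n →₀ ℕ) : s.support.card ≤ ∑ i, s i := by
  rw [Finset.card_eq_sum_ones]
  exact (Finset.sum_le_sum fun i hi => Nat.pos_of_ne_zero (Finsupp.mem_support_iff.1 hi)).trans
    (Finset.sum_le_sum_of_subset (Finset.subset_univ _))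

/-- McEliece divisibility -/
theorem mcEliece {r : ℕ} (hr : 1 ≤ r) (n : ℕ) (f : (Fin n → F) → F) (hf : f ∈ P _ (r + 1)) :
    ∃ z : ℤ, gap f = 2 ^ ((n + r - 1) / r) * z := by
  induction n using Nat.strong_induction_on with
  | _ n ih =>
  have key : ∀ (S : Finset (Fin n →₀ ℕ)) (c : (Fin n →₀ ℕ) → F), (∀ s ∈ S, ∑ i, s i ≤ r) →
      (∑ s ∈ S, c s • fun x : Fin n → F => ∏ i, x i ^ s i) ∈ P (Fin n → F) (r + 1) ∧
      ∃ z : ℤ, gap (∑ s ∈ S, c s • fun x : Fin n → F => ∏ i, x i ^ s i) =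
        2 ^ ((n + r - 1) / r) * z := by
    intro S c
    induction S using Finset.induction_on with
    | empty =>
      intro _
      have hk : (n + r - 1) / r ≤ n := by
        refine Nat.lt_succ_iff.1 ((Nat.div_lt_iff_lt_mul hr).2 ?_)
        have : n ≤ n * r := Nat.le_mul_of_pos_right n hr
        rw [Nat.succ_mul]
        omega
      refine ⟨by rw [Finset.sum_empty]; exact zero_mem _, 2 ^ (n - (n + r - 1) / r), ?_⟩
      rw [Finset.sum_empty, gap_eq]
      push_cast
      rw [← pow_add, Nat.add_sub_cancel' hk]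
      simp [chi_zero]
    | insert s S hs ihS =>
      intro h
      obtain ⟨g1, z, hz⟩ := ihS fun t ht => h t (Finset.mem_insert_of_mem ht)
      have hs' := h s (Finset.mem_insert_self _ _)
      rw [Finset.sum_insert hs]
      refine ⟨add_mem (Submodule.smul_mem _ _ (P_mono (by omega) (Card_mon s Finset.univ))) g1, ?_⟩
      rcases Av_cases (c s) with e | e <;> rw [e]
      · rw [zero_smul, zero_add]
        exact ⟨z, hz⟩
      rw [one_smul, add_comm]
      rcases s.support.eq_empty_or_nonempty with e0 | e0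
      · have e1 : (fun x : Fin n → F => ∏ i, x i ^ s i) = 1 := by
          funext x
          rw [LMcE_mon, e0, if_pos (by simp)]
          rfl
        rw [e1, gap_add_one, hz]
        exact ⟨-z, by push_cast; ring⟩
      · have c1 := (LMcE_card s).trans hs'
        have c2 := e0.card_pos
        have c3 : Fintype.card {i // i ∉ s.support} + s.support.card = n := by
          have b1 : s.support.card ≤ n := by simpa using Finset.card_le_univ s.support
          rw [Fintype.card_subtype_compl, Fintype.card_coe, Fintype.card_fin]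
          omega
        obtain ⟨z', hz'⟩ := LMcE_gen (ih (Fintype.card {i // i ∉ s.support}) (by omega)) _
          (comp_mem_P g1 (LMcE_ext s.support) fun i => if i ∈ s.support then 1 else 0)
        have c4 : (n + r - 1) / r ≤ (Fintype.card {i // i ∉ s.support} + r - 1) / r + 1 := by
          rw [← Nat.add_div_right _ hr]
          exact Nat.div_le_div_right (by omega)
        obtain ⟨j, hj⟩ := Nat.exists_eq_add_of_le c4
        rw [LMcE_step s.support _ _ (LMcE_mon s), hz, hz']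
        refine ⟨z - 2 ^ j * z', ?_⟩
        push_cast
        rw [mul_sub, ← mul_assoc, ← mul_assoc, ← pow_succ', hj, pow_add]
  obtain ⟨p, p1, p2⟩ := (mem_P_iff_poly f).1 hf
  have e : f = ∑ s ∈ p.support, p.coeff s • fun x : Fin n → F => ∏ i, x i ^ s i := by
    funext x
    rw [p2, MvPolynomial.eval_eq', Finset.sum_apply]
    rfl
  rw [e]
  refine (key _ _ fun s hs => ?_).2
  have := (MvPolynomial.le_totalDegree hs).trans p1
  rwa [Finsupp.sum_fintype _ _ fun _ => rfl] at this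

end Pool.Agent.P.MP_cb6780_lc
end

-- part Pool.Agent.P.MP_cb6780_lc.LInv
section

set_option autoImplicit false
set_option linter.unusedSectionVars false

namespace Pool.Agent.P.MP_cb6780_lc

open Module

theorem LInv_one {a : ℝ} (ha : 0 < a) (n : ℤ) :
    ∫ t in (-(Real.pi / a))..(Real.pi / a), Real.cos (t * (a * n)) =
      if n = 0 then 2 * Real.pi / a else 0 := by
  split_ifs with h
  · subst h
    simp
    ring
  · have h0 : a * n ≠ 0 := mul_ne_zero ha.ne' (by exact_mod_cast h)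
    rw [intervalIntegral.integral_comp_mul_right (fun x => Real.cos x) h0, integral_cos]
    have e : Real.pi / a * (a * n) = n * Real.pi := by field_simp
    rw [neg_mul, e, Real.sin_neg, Real.sin_int_mul_pi]
    simp

/-- inversion formula on the lattice `a ℤ` for a symmetric variable -/
theorem inversion {Ω : Type} [Finite Ω] [Nonempty Ω] (X : Ω → ℝ) {a : ℝ} (ha : 0 < a)
    (hX : ∀ ω, ∃ z : ℤ, X ω = a * z) (hs : ∀ t, av (fun ω => Real.sin (t * X ω)) = 0)
    (z : ℤ) :
    ({ω | X ω = a * z}.ncard : ℝ) / Nat.card Ω = a / (2 * Real.pi) *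
      ∫ t in (-(Real.pi / a))..(Real.pi / a),
        av (fun ω => Real.cos (t * X ω)) * Real.cos (t * (a * z)) := by
  have := Fintype.ofFinite Ω
  choose Z hZ using hX
  have h1 : ∀ t, av (fun ω => Real.cos (t * X ω)) * Real.cos (t * (a * z)) =
      (∑ ω, Real.cos (t * (a * ((Z ω - z : ℤ) : ℝ)))) / Fintype.card Ω := fun t => by
    have e : ∀ ω, Real.cos (t * (a * ((Z ω - z : ℤ) : ℝ))) =
        Real.cos (t * (a * z)) * Real.cos (t * X ω) +
          Real.sin (t * (a * z)) * Real.sin (t * X ω) := fun ω => by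
      rw [← Real.cos_sub, ← Real.cos_neg, hZ]
      congr 1
      push_cast
      ring
    rw [← av_eq, funext e, av_add, av_mul_left, av_mul_left, hs]
    ring
  simp only [h1]
  rw [intervalIntegral.integral_div, intervalIntegral.integral_finset_sum
    fun ω _ => (by fun_prop : Continuous _).intervalIntegrable _ _, ← av_eq, ← av_mul_left,
    ← av_indicator]
  refine congrArg av (funext fun ω => ?_)
  rw [LInv_one ha]
  have hp := Real.pi_pos
  by_cases h : Z ω - z = 0
  · have : X ω = a * z := by rw [hZ, sub_eq_zero.1 h]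
    rw [if_pos h, Set.indicator_of_mem (s := {ω | X ω = a * z}) this]
    field_simp
  · have : ¬ X ω = a * z := fun h2 => by
      rw [hZ] at h2
      exact h (sub_eq_zero.2 (by exact_mod_cast mul_left_cancel₀ ha.ne' h2))
    rw [if_neg h, Set.indicator_of_notMem (s := {ω | X ω = a * z}) this, mul_zero]

theorem continuous_av_cos {Ω : Type} [Finite Ω] (X : Ω → ℝ) :
    Continuous fun t : ℝ => av fun ω => Real.cos (t * X ω) := by
  have := Fintype.ofFinite Ω
  simp only [av_eq]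
  fun_prop

end Pool.Agent.P.MP_cb6780_lc
end

-- part Pool.Agent.P.MP_cb6780_lc.LGauss
section

set_option autoImplicit false
set_option linter.unusedSectionVars false

namespace Pool.Agent.P.MP_cb6780_lc

open Module

theorem LGauss_int {N : ℝ} (hN : 0 < N) (v : ℝ) :
    ∫ t : ℝ, Real.exp (-(t ^ 2 * N / 2)) * Real.cos (t * v) =
      Real.sqrt (2 * Real.pi / N) * Real.exp (-(v ^ 2 / (2 * N))) := by
  have hb : (((-(N / 2) : ℝ) : ℂ)).re < 0 := by
    rw [Complex.ofReal_re]; linarith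
  have h1 := integral_cexp_quadratic hb (v * Complex.I) 0
  have h2 := integrable_cexp_quadratic' hb (v * Complex.I) 0
  have h3 := integral_re h2
  rw [h1] at h3
  have e1 : ∀ x : ℝ, RCLike.re (Complex.exp (((-(N / 2) : ℝ) : ℂ) * x ^ 2 + v * Complex.I * x + 0)) =
      Real.exp (-(x ^ 2 * N / 2)) * Real.cos (x * v) := by
    intro x
    have : ((-(N / 2) : ℝ) : ℂ) * x ^ 2 + v * Complex.I * x + 0 =
        ((-(x ^ 2 * N / 2) : ℝ) : ℂ) + ((x * v : ℝ) : ℂ) * Complex.I := by
      push_cast; ring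
    rw [this, Complex.exp_add, ← Complex.ofReal_exp, RCLike.re_to_complex, Complex.re_ofReal_mul,
      Complex.exp_ofReal_mul_I_re]
  simp only [e1] at h3
  rw [h3]
  have e2 : ((Real.pi : ℂ) / -((-(N / 2) : ℝ) : ℂ)) ^ (1 / 2 : ℂ) =
      ((Real.sqrt (2 * Real.pi / N) : ℝ) : ℂ) := by
    rw [Real.sqrt_eq_rpow, Complex.ofReal_cpow (by positivity)]
    congr 1
    · push_cast
      field_simp
    · push_cast
      rfl
  have e3 : (0 : ℂ) - (v * Complex.I) ^ 2 / (4 * ((-(N / 2) : ℝ) : ℂ)) =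
      ((-(v ^ 2 / (2 * N)) : ℝ) : ℂ) := by
    have : (N : ℂ) ≠ 0 := by exact_mod_cast hN.ne'
    rw [mul_pow, Complex.I_sq]
    push_cast
    field_simp
    ring
  rw [e2, e3, ← Complex.ofReal_exp, ← Complex.ofReal_mul, RCLike.re_to_complex, Complex.ofReal_re]

theorem LGauss_maj {N S : ℝ} (K : ℝ) (hN : 0 < N) (hS : 0 < S) :
    MeasureTheory.Integrable (fun t : ℝ => K / (S ^ 2 + t ^ 2 * N)) ∧
      ∫ t : ℝ, K / (S ^ 2 + t ^ 2 * N) = K * Real.pi / (S * Real.sqrt N) := by
  have hs : 0 < Real.sqrt N := Real.sqrt_pos.2 hN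
  have e : (fun t : ℝ => K / (S ^ 2 + t ^ 2 * N)) =
      fun t : ℝ => K / S ^ 2 * (1 + (Real.sqrt N / S * t) ^ 2)⁻¹ := by
    funext t
    rw [mul_pow, div_pow, Real.sq_sqrt hN.le]
    field_simp
  rw [e]
  refine ⟨(integrable_inv_one_add_sq.comp_mul_left' (by positivity)).const_mul _, ?_⟩
  rw [MeasureTheory.integral_const_mul,
    MeasureTheory.Measure.integral_comp_mul_left (fun x : ℝ => (1 + x ^ 2)⁻¹),
    integral_univ_inv_one_add_sq, abs_of_pos (by positivity), smul_eq_mul]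
  field_simp

/-- comparison with the Gaussian integral through one integrable majorant -/
theorem gauss_cmp (φ : ℝ → ℝ) (hφ : Continuous φ) {N b S K : ℝ} (hN : 0 < N) (hb : 0 < b)
    (hS : 0 < S) (v : ℝ)
    (h1 : ∀ t, |t| ≤ b → |φ t - Real.exp (-(t ^ 2 * N / 2))| ≤ K / (S ^ 2 + t ^ 2 * N))
    (h2 : ∀ t, b ≤ |t| → Real.exp (-(t ^ 2 * N / 2)) ≤ K / (S ^ 2 + t ^ 2 * N)) :
    |(∫ t in (-b)..b, φ t * Real.cos (t * v)) -
        Real.sqrt (2 * Real.pi / N) * Real.exp (-(v ^ 2 / (2 * N)))| ≤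
      K * Real.pi / (S * Real.sqrt N) := by
  obtain ⟨m1, m2⟩ := LGauss_maj K hN hS
  have c1 : Continuous fun t => φ t * Real.cos (t * v) := by fun_prop
  have i1 : MeasureTheory.Integrable
      ((Set.Ioc (-b) b).indicator fun t => φ t * Real.cos (t * v)) :=
    (MeasureTheory.integrable_indicator_iff measurableSet_Ioc).2
      (c1.integrableOn_Icc.mono_set Set.Ioc_subset_Icc_self)
  have i2 : MeasureTheory.Integrable
      fun t : ℝ => Real.exp (-(t ^ 2 * N / 2)) * Real.cos (t * v) := by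
    refine (integrable_exp_neg_mul_sq (show 0 < N / 2 by linarith)).mono' (by fun_prop)
      (Filter.Eventually.of_forall fun t => ?_)
    rw [norm_mul, Real.norm_of_nonneg (Real.exp_pos _).le,
      show -(N / 2) * t ^ 2 = -(t ^ 2 * N / 2) by ring]
    exact mul_le_of_le_one_right (Real.exp_pos _).le (Real.abs_cos_le_one _)
  rw [← LGauss_int hN v, ← m2, intervalIntegral.integral_of_le (by linarith),
    ← MeasureTheory.integral_indicator measurableSet_Ioc, ← MeasureTheory.integral_sub i1 i2,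
    ← Real.norm_eq_abs]
  refine MeasureTheory.norm_integral_le_of_norm_le m1 (Filter.Eventually.of_forall fun t => ?_)
  by_cases ht : t ∈ Set.Ioc (-b) b
  · rw [Set.indicator_of_mem ht, ← sub_mul, norm_mul]
    exact (mul_le_of_le_one_right (norm_nonneg _) (Real.abs_cos_le_one _)).trans
      (h1 t (abs_le.2 ⟨ht.1.le, ht.2⟩))
  · rw [Set.indicator_of_notMem ht, zero_sub, norm_neg, norm_mul,
      Real.norm_of_nonneg (Real.exp_pos _).le]
    refine (mul_le_of_le_one_right (Real.exp_pos _).le (Real.abs_cos_le_one _)).trans (h2 t ?_)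
    rw [Set.mem_Ioc, not_and_or, not_lt, not_le] at ht
    rcases ht with h | h
    · exact le_abs.2 (Or.inr (by linarith))
    · exact le_abs.2 (Or.inl h.le)

end Pool.Agent.P.MP_cb6780_lc
end

-- part Pool.Agent.P.MP_cb6780_lc.LMain
section

set_option autoImplicit false
set_option linter.unusedSectionVars false

namespace Pool.Agent.P.MP_cb6780_lc

open Module

theorem LMain_exp {T : ℝ} (hT : 0 ≤ T) : Real.exp (-(T / 2)) * T ≤ 2 := by
  have h := Real.add_one_le_exp (T / 2)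
  have h0 := Real.exp_pos (T / 2)
  rw [Real.exp_neg, inv_mul_le_iff₀ h0]
  linarith

theorem LMain_k {r m : ℕ} (hr : 3 ≤ r) (hm : 1 ≤ m) :
    1 ≤ (m + r - 1) / r ∧ 3 * ((m + r - 1) / r) ≤ m + 2 := by
  have h1 : 1 ≤ (m + r - 1) / r := (Nat.le_div_iff_mul_le (by omega)).2 (by omega)
  have h2 := Nat.div_mul_le_self (m + r - 1) r
  obtain ⟨k, hk⟩ : ∃ k, (m + r - 1) / r = k + 1 := ⟨(m + r - 1) / r - 1, by omega⟩
  rw [hk] at h2 ⊢
  have h3 : k * 3 ≤ k * r := Nat.mul_le_mul_left k hr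
  rw [add_mul, one_mul] at h2
  omega

/-- the pointwise majorant -/
theorem majorant : ∃ K : ℝ, 4 ≤ K ∧ ∀ r m : ℕ, 3 ≤ r → 1 ≤ m → ∀ t : ℝ,
    |t| ≤ Real.pi / 2 ^ ((m + r - 1) / r) →
      |phi r m t - Real.exp (-(t ^ 2 * 2 ^ m / 2))| ≤ K / ((2 ^ (m / 36)) ^ 2 + t ^ 2 * 2 ^ m) := by
  obtain ⟨C, hC⟩ := rec_phi.decay
  refine ⟨23 + 2 * |C|, by linarith [abs_nonneg C], fun r m hr hm t ht => ?_⟩
  obtain ⟨r', rfl⟩ : ∃ s, r = s + 1 := ⟨r - 1, by omega⟩
  obtain ⟨m', rfl⟩ : ∃ s, m = s + 1 := ⟨m - 1, by omega⟩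
  set r := r' + 1
  set m := m' + 1
  set S : ℝ := 2 ^ (m / 36) with hS
  set T : ℝ := t ^ 2 * 2 ^ m with hT
  have T0 : 0 ≤ T := by positivity
  have S1 : 1 ≤ S := one_le_pow₀ one_le_two
  have g0 := Real.exp_pos (-(T / 2))
  have C0 := abs_nonneg C
  rw [le_div_iff₀ (by positivity)]
  rcases le_total T (S ^ 2) with h | h
  · have J0 : (0 : ℝ) < 2 ^ (m / 6) := by positivity
    have N0 : (0 : ℝ) < 2 ^ m := by positivity
    have a1 : S ^ 6 ≤ 2 ^ (m / 6) := by
      rw [hS, ← pow_mul]; exact pow_le_pow_right₀ one_le_two (by omega)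
    have a2 : (2 : ℝ) ^ (m / 6) ≤ 2 ^ m := pow_le_pow_right₀ one_le_two (by omega)
    have a3 : (11 : ℝ) * 32 ^ (m / 6) / 2 ^ m ≤ 11 / 2 ^ (m / 6) := by
      rw [div_le_div_iff₀ N0 J0, mul_assoc, ← mul_pow]
      refine mul_le_mul_of_nonneg_left ?_ (by norm_num)
      rw [show (32 * 2 : ℝ) = 2 ^ 6 by norm_num, ← pow_mul]
      exact pow_le_pow_right₀ one_le_two (by omega)
    have a4 : S ^ 2 ≤ S ^ 6 := pow_le_pow_right₀ S1 (by norm_num)
    have a5 : t ^ 2 ≤ 2 := by
      have : t ^ 2 * 2 ^ m ≤ 2 * 2 ^ m := by linarith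
      exact le_of_mul_le_mul_right this N0
    have u := phi_upper hr (m / 6) m t
    have l := (clt_lower m a5).trans (cos_pow_le_phi r' m' t)
    have a6 : T ^ 2 ≤ S ^ 4 := by nlinarith
    have a7 : T ^ 2 / 8 / 2 ^ m ≤ T ^ 2 / 8 / 2 ^ (m / 6) :=
      div_le_div_of_nonneg_left (by positivity) J0 a2
    have a8 : T ^ 2 / 8 / 2 ^ (m / 6) ≤ S ^ 4 / 8 / 2 ^ (m / 6) := by gcongr
    have a9 : (0 : ℝ) ≤ 11 / 2 ^ (m / 6) := by positivity
    have b : |phi r m t - Real.exp (-(T / 2))| ≤ (S ^ 4 / 8 + 11) / 2 ^ (m / 6) := by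
      rw [add_div]
      exact abs_le.2 ⟨by linarith, by linarith⟩
    refine (mul_le_mul b (by linarith : S ^ 2 + T ≤ 2 * S ^ 2) (by positivity)
      (by positivity)).trans ?_
    rw [div_mul_eq_mul_div, div_le_iff₀ J0]
    nlinarith
  · have p0 := phi_nonneg r' m' t
    have hA : Alw r m |t| := ⟨hm, abs_nonneg t, (le_div_iff₀ (by positivity)).1 ht⟩
    have p1 := hC r m |t| hr hA
    have e : phi r m |t| = phi r m t := by
      rcases abs_cases t with h | h <;> rw [h.1]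
      exact phi_even _ _ _
    rw [e, sq_abs] at p1
    have p2 := LMain_exp T0
    have p3 := le_abs_self C
    have b : |phi r m t - Real.exp (-(T / 2))| ≤ phi r m t + Real.exp (-(T / 2)) :=
      abs_le.2 ⟨by linarith, by linarith⟩
    refine (mul_le_mul b (by linarith : S ^ 2 + T ≤ 2 * T) (by positivity)
      (by positivity)).trans ?_
    nlinarith

theorem gap_wt {m : ℕ} (f : (Fin m → F) → F) : gap f = 2 ^ m - 2 * (hammingNorm f : ℝ) := by
  have e1 : ({x | f x ≠ 0}.ncard : ℝ) = hammingNorm f := by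
    rw [hammingNorm, ← Set.ncard_coe_finset]
    congr 2
    ext x
    simp
  have e2 : (Nat.card (Fin m → F) : ℝ) = 2 ^ m := by
    rw [card_V]; simp
  rw [gap_eq_bias, bias_eq_wt, e1, e2]
  field_simp

theorem local_limit : ∃ K : ℝ, 0 ≤ K ∧ ∀ r m : ℕ, 3 ≤ r → 1 ≤ m → ∀ z : ℤ,
    |({f : P (Fin m → F) (r + 1) | gap f.1 = 2 ^ ((m + r - 1) / r) * z}.ncard : ℝ) /
          2 ^ (∑ i ∈ Finset.range (r + 1), m.choose i) * Real.sqrt (2 ^ m) / 2 ^ ((m + r - 1) / r) -
        Real.exp (-((2 ^ ((m + r - 1) / r) * z : ℝ) ^ 2 / 2 ^ (m + 1))) / Real.sqrt (2 * Real.pi)| ≤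
      K / 2 ^ (m / 36) := by
  obtain ⟨K, K4, hK⟩ := majorant
  refine ⟨K / 2, by linarith, fun r m hr hm z => ?_⟩
  obtain ⟨k1, k2⟩ := LMain_k hr hm
  set k := (m + r - 1) / r with hk
  have a0 : (0 : ℝ) < 2 ^ k := by positivity
  have N0 : (0 : ℝ) < 2 ^ m := by positivity
  have S0 : (0 : ℝ) < 2 ^ (m / 36) := by positivity
  have hpi := Real.pi_gt_three
  have i1 := inversion (fun f : P (Fin m → F) (r + 1) => gap f.1) a0
    (fun f => mcEliece (by omega) m f.1 f.2) (fun t => by simpa using av_sin r t 0) z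
  have e : ∀ t, av (fun f : P (Fin m → F) (r + 1) => Real.cos (t * gap f.1)) = phi r m t :=
    fun t => by simp only [phi, psi, zero_add]
  have hc : Continuous (phi r m) := by
    rw [← funext e]; exact continuous_av_cos _
  have i2 := gauss_cmp (phi r m) hc N0 (div_pos Real.pi_pos a0) S0 (2 ^ k * z) (hK r m hr hm)
    fun t ht => by
      have h1 : (Real.pi / 2 ^ k) ^ 2 ≤ t ^ 2 := by
        rw [← sq_abs t]; exact pow_le_pow_left₀ (by positivity) ht 2
      have h2 : ((2 : ℝ) ^ (m / 36)) ^ 2 ≤ (Real.pi / 2 ^ k) ^ 2 * 2 ^ m := by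
        rw [div_pow, div_mul_eq_mul_div, le_div_iff₀ (by positivity), ← pow_mul, ← pow_mul,
          ← pow_add]
        have h3 : (2 : ℝ) ^ (m / 36 * 2 + k * 2) ≤ 2 ^ (3 + m) :=
          pow_le_pow_right₀ one_le_two (by omega)
        rw [pow_add 2 3] at h3
        refine h3.trans (mul_le_mul_of_nonneg_right (by nlinarith) N0.le)
      have h4 : ((2 : ℝ) ^ (m / 36)) ^ 2 ≤ t ^ 2 * 2 ^ m :=
        h2.trans (mul_le_mul_of_nonneg_right h1 N0.le)
      have h5 := LMain_exp (T := t ^ 2 * 2 ^ m) (by positivity)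
      have h6 := Real.exp_pos (-(t ^ 2 * 2 ^ m / 2))
      rw [le_div_iff₀ (by positivity)]
      nlinarith
  simp only [e] at i1
  rw [card_P, finrank_fin_fun, cP] at i1
  push_cast at i1
  rw [i1]
  set I := ∫ t in (-(Real.pi / 2 ^ k))..(Real.pi / 2 ^ k), phi r m t * Real.cos (t * (2 ^ k * z))
  have s0 : 0 < Real.sqrt (2 ^ m) := Real.sqrt_pos.2 N0
  have s1 : 0 < Real.sqrt (2 * Real.pi) := Real.sqrt_pos.2 (by positivity)
  have s2 : Real.sqrt (2 * Real.pi) * Real.sqrt (2 * Real.pi) = 2 * Real.pi :=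
    Real.mul_self_sqrt (by positivity)
  rw [Real.sqrt_div (by positivity), ← pow_succ' (2 : ℝ) m] at i2
  set E := Real.exp (-((2 ^ k * z : ℝ) ^ 2 / 2 ^ (m + 1)))
  have e2 : 2 ^ k / (2 * Real.pi) * I * Real.sqrt (2 ^ m) / 2 ^ k - E / Real.sqrt (2 * Real.pi) =
      Real.sqrt (2 ^ m) / (2 * Real.pi) *
        (I - Real.sqrt (2 * Real.pi) / Real.sqrt (2 ^ m) * E) := by
    have : E / Real.sqrt (2 * Real.pi) = Real.sqrt (2 * Real.pi) * E / (2 * Real.pi) := by
      rw [div_eq_div_iff s1.ne' (by positivity)]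
      linear_combination -E * s2
    rw [this]
    field_simp
  rw [e2, abs_mul, abs_of_pos (by positivity)]
  refine (mul_le_mul_of_nonneg_left i2 (by positivity)).trans (le_of_eq ?_)
  field_simp

theorem local_main : ∃ C : ℝ, ∀ r m w : ℕ, 3 ≤ r → 1 ≤ m →
    |({f : (Fin m → ZMod 2) → ZMod 2 | (∃ p : MvPolynomial (Fin m) (ZMod 2),
          p.totalDegree ≤ r ∧ ∀ x, f x = MvPolynomial.eval x p) ∧ hammingNorm f = w}.ncard : ℝ) /
          2 ^ (∑ i ∈ Finset.range (r + 1), m.choose i) * Real.sqrt (2 ^ m) / 2 ^ ((m + r - 1) / r) -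
        if 2 ^ ((m + r - 1) / r - 1) ∣ w then
          Real.exp (-((2 ^ m - 2 * w : ℝ) ^ 2 / 2 ^ (m + 1))) / Real.sqrt (2 * Real.pi) else 0| ≤
      if 2 ^ ((m + r - 1) / r - 1) ∣ w then C * (2 : ℝ) ^ (-(m : ℝ) / 36) else 0 := by
  obtain ⟨K, K0, hK⟩ := local_limit
  refine ⟨2 * K, fun r m w hr hm => ?_⟩
  obtain ⟨k1, k2⟩ := LMain_k hr hm
  have h := hK r m hr hm
  have hM := mcEliece (r := r) (by omega) m
  obtain ⟨k, hk⟩ : ∃ k, (m + r - 1) / r = k + 1 := ⟨(m + r - 1) / r - 1, by omega⟩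
  obtain ⟨j, hj⟩ : ∃ j, m = k + 1 + j := ⟨m - (k + 1), by omega⟩
  rw [hk] at h hM ⊢
  simp only [← mem_P_iff_poly, Nat.add_sub_cancel]
  split_ifs with hw
  · obtain ⟨c, rfl⟩ := hw
    have e : (2 : ℝ) ^ (k + 1) * ((2 ^ j - c : ℤ) : ℝ) = 2 ^ m - 2 * ((2 ^ k * c : ℕ) : ℝ) := by
      push_cast
      rw [hj]
      ring
    have h1 := h (2 ^ j - c)
    rw [e] at h1
    have e2 : {f : (Fin m → F) → F | f ∈ P (Fin m → F) (r + 1) ∧ hammingNorm f = 2 ^ k * c} =
        Subtype.val '' {f : P (Fin m → F) (r + 1) |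
          gap f.1 = 2 ^ m - 2 * ((2 ^ k * c : ℕ) : ℝ)} := by
      ext f
      constructor
      · rintro ⟨h1, h2⟩
        exact ⟨⟨f, h1⟩, by rw [Set.mem_ofPred_eq, gap_wt, h2], rfl⟩
      · rintro ⟨f, h2, rfl⟩
        rw [Set.mem_ofPred_eq, gap_wt] at h2
        refine ⟨f.2, ?_⟩
        have : (hammingNorm f.1 : ℝ) = ((2 ^ k * c : ℕ) : ℝ) := by linarith
        exact_mod_cast this
    rw [e2, Set.ncard_image_of_injective _ Subtype.val_injective]
    refine h1.trans ?_
    rw [mul_comm 2 K, mul_assoc, div_eq_mul_inv]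
    refine mul_le_mul_of_nonneg_left ?_ K0
    rw [← Real.rpow_natCast, ← Real.rpow_neg zero_le_two, mul_comm,
      ← Real.rpow_add_one two_ne_zero]
    refine Real.rpow_le_rpow_of_exponent_le one_le_two ?_
    have : (m : ℝ) ≤ 36 * ((m / 36 : ℕ) : ℝ) + 36 := by exact_mod_cast (by omega)
    linarith
  · have e2 : {f : (Fin m → F) → F | f ∈ P (Fin m → F) (r + 1) ∧ hammingNorm f = w} = ∅ := by
      refine Set.eq_empty_of_forall_notMem fun f hf => hw ?_
      obtain ⟨z, hz⟩ := hM f hf.1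
      rw [gap_wt, hf.2] at hz
      have h2 : (w : ℝ) = 2 ^ k * ((2 ^ j - z : ℤ) : ℝ) := by
        push_cast
        rw [hj] at hz
        linear_combination -hz / 2
      have h3 : (w : ℤ) = 2 ^ k * (2 ^ j - z) := by exact_mod_cast h2
      exact Int.natCast_dvd_natCast.1 ⟨2 ^ j - z, by rw [h3]; push_cast; rfl⟩
    rw [e2]
    simp

end Pool.Agent.P.MP_cb6780_lc
end
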