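import Pool.Agent.K.MP_cb6780_lc.C2
import Pool.Agent.K.MP_cb6780_lc.C0

set_option autoImplicit false

/-! The logarithmic asymptotics for every order `r ≥ 3`. -/

namespace Pool.Agent.P.MP_cb6780_lc

open Module

theorem LogMain_finrank (m : ℕ) : finrank F (Fin m → F) = m := by simp

/-- `one_coset` with `γ` small forces `codim U ≤ c`; then `small` -/
theorem log_up {d : ℕ} (hd : 2 ≤ d) (c : ℕ) {ε : ℝ} (h1 : 1 / 2 ^ (c + 1) < ε) (h2 : ε ≤ 1) :
    ∃ K : ℕ, ∀ m : ℕ, Nn m (d + 2) ε ≤ cP m (d + 1) ^ c * (2 * 2 ^ m * cP m d) ^ K := by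
  have ha : (0 : ℝ) < 1 / 2 ^ (c + 1) := by positivity
  have hε : 0 < ε := ha.trans h1
  set γ : ℝ := (ε - 1 / 2 ^ (c + 1)) / 2 with hγ
  have hγ0 : 0 < γ := by rw [hγ]; linarith
  have hγε : γ < ε := by rw [hγ]; linarith
  have hγ1 : γ ≤ 1 := by linarith
  have hη : γ ^ 2 * (ε ^ 2 / 2) ≤ ε ^ 2 / 2 :=
    mul_le_of_le_one_left (by positivity) (pow_le_one₀ hγ0.le hγ1)
  obtain ⟨K, hK⟩ := small hε h2 (show 0 < γ ^ 2 * (ε ^ 2 / 2) by positivity) hη d c
  refine ⟨K, fun m => ?_⟩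
  have h3 := hK (Fin m → F)
  rw [card_V, LogMain_finrank] at h3
  refine le_trans (Set.ncard_le_ncard ?_ (Set.toFinite _)) h3
  rintro f ⟨hf, hb⟩
  refine ⟨hf, hb.trans (le_abs_self _), ?_⟩
  by_contra hcon
  rw [not_le] at hcon
  obtain ⟨a, ha'⟩ := one_coset hd hγ0 hγε hγ1 le_rfl hb
  set W := U d (γ ^ 2 * (ε ^ 2 / 2)) f
  rw [card_sub W (c := m - finrank F W) (by rw [LogMain_finrank]; omega)] at ha'
  have h4 : (1 : ℝ) / 2 ^ (m - finrank F W) ≤ 1 / 2 ^ (c + 1) :=
    one_div_le_one_div_of_le (by positivity) (pow_le_pow_right₀ (by norm_num) (by omega))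
  have h5 := mul_le_of_le_one_right (show (0 : ℝ) ≤ 1 / 2 ^ (m - finrank F W) by positivity)
    ((le_abs_self _).trans (abs_bias_le (res W a f)))
  linarith

/-- functions vanishing on a subspace `U` of codimension `c`: by `av_ann` some `l` in the annihilator makes
`bias (f + l) ≥ 2^(-c)`; the map `f ↦ f + l` is at most `2^c` to one; `ncard_res_pre` with `A = {0}` -/
theorem log_low {e : ℕ} (he : 2 ≤ e) (n c : ℕ) {ε : ℝ} (h2 : ε ≤ 1 / 2 ^ c) :
    cP (n + c) e ≤ 2 ^ c * Nn (n + c) e ε * cP n e := by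
  obtain ⟨W, hW⟩ : ∃ W : Submodule F (Fin (n + c) → F), finrank F W = n := by
    obtain ⟨b, hb⟩ := exists_linearIndependent_of_le_finrank (R := F) (M := Fin (n + c) → F) (n := n)
      (by rw [LogMain_finrank]; omega)
    exact ⟨_, by rw [finrank_span_eq_card hb, Fintype.card_fin]⟩
  have h1 := ncard_res_pre W 0 e {0}
  have e1 : {g : W → F | g ∈ P W e ∧ g ∈ ({0} : Set (W → F))} = {0} := by
    ext g
    simp only [Set.mem_ofPred_eq, Set.mem_singleton_iff, and_iff_right_iff_imp]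
    rintro rfl
    exact Submodule.zero_mem _
  rw [e1, Set.ncard_singleton, one_mul, hW, LogMain_finrank] at h1
  rw [← h1]
  apply Nat.mul_le_mul_right
  have : Finite (Dual F (Fin (n + c) → F)) := Module.finite_of_finite F
  have hc : Nat.card W.dualAnnihilator = 2 ^ c := by
    have h3 := Subspace.finrank_add_finrank_dualAnnihilator_eq W
    rw [hW, LogMain_finrank] at h3
    rw [card_V, show finrank F W.dualAnnihilator = c by omega]
  rw [← hc, ← Set.ncard_univ, Nn, N, ← Set.ncard_prod]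
  refine le_trans (Set.ncard_le_ncard ?_ (Set.toFinite _)) (Set.ncard_image_le
    (f := fun z : W.dualAnnihilator × ((Fin (n + c) → F) → F) => z.2 + fun x => z.1.1 x)
    (Set.toFinite _))
  rintro f ⟨hf, h0⟩
  rw [Set.mem_singleton_iff] at h0
  obtain ⟨l, hl⟩ := exists_av_le
    (fun l : W.dualAnnihilator => chi (l.1 0) * bias (f + fun x => l.1 x))
  rw [av_ann, h0, bias_zero, mul_one, card_sub W (c := c) (by rw [hW, LogMain_finrank]), map_zero,
    chi_zero, one_mul] at hl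
  refine ⟨(l, f + fun x => l.1 x), ⟨Set.mem_univ _,
    Submodule.add_mem _ hf (P_mono he (dual_mem_P l.1)), h2.trans hl⟩, ?_⟩
  simp only [add_assoc, add_self_fun, add_zero]

theorem LogMain_choose_add (n c k : ℕ) :
    (n + c).choose (k + 1) ≤ n.choose (k + 1) + c * (n + c).choose k := by
  induction c with
  | zero => simp
  | succ c ih =>
    have h1 : (n + c).choose k ≤ (n + (c + 1)).choose k := Nat.choose_le_choose k (by omega)
    have h2 := Nat.mul_le_mul_left (c + 1) h1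
    rw [← add_assoc, Nat.choose_succ_succ', add_assoc]
    nlinarith

theorem LogMain_sum {m k : ℕ} (hm : 1 ≤ m) :
    ∑ i ∈ Finset.range (k + 1), m.choose i ≤ (k + 1) * m ^ k := by
  have := Finset.sum_le_card_nsmul (Finset.range (k + 1)) (fun i => m.choose i) (m ^ k) fun i hi =>
    (Nat.choose_le_pow m i).trans (Nat.pow_le_pow_right hm (by
      have := Finset.mem_range.1 hi; omega))
  simpa using this

/-- binomial bookkeeping: `C(m,i) ≤ m^i`, `cP_add`, `C(n+c, k+1) ≤ C(n,k+1) + c * C(n+c,k)` -/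
theorem log_main {r : ℕ} (hr : 3 ≤ r) (c : ℕ) {ε : ℝ} (h1 : 1 / 2 ^ (c + 1) < ε) (h2 : ε ≤ 1 / 2 ^ c) :
    ∃ C : ℝ, ∀ m : ℕ, 1 ≤ m →
      |Real.logb 2 (Nn m (r + 1) ε) - c * m.choose (r - 1)| ≤ C * (m : ℝ) ^ (r - 2) := by
  obtain ⟨k, rfl⟩ : ∃ k, r = k + 3 := ⟨r - 3, by omega⟩
  have hε1 : ε ≤ 1 := h2.trans (by
    rw [div_le_one (by positivity)]; exact one_le_pow₀ (by norm_num))
  obtain ⟨K, hK⟩ := log_up (d := k + 2) (by omega) c h1 hε1
  refine ⟨((c * (k + 2) + K * (k + 4) + (c * c + c) : ℕ) : ℝ), fun m hm => ?_⟩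
  rw [show k + 3 + 1 = k + 2 + 2 from rfl, show k + 3 - 1 = k + 2 from rfl,
    show k + 3 - 2 = k + 1 from rfl]
  set X := Nn m (k + 2 + 2) ε with hX
  set M := m ^ (k + 1) with hM
  have hX1 : 1 ≤ X := one_le_N _ hε1
  have hM1 : 1 ≤ M := Nat.one_le_pow _ _ hm
  have hMm : m ≤ M := Nat.le_self_pow (by omega) m
  have hs : ∑ i ∈ Finset.range (k + 2), m.choose i ≤ (k + 2) * M := LogMain_sum hm
  have up : X ≤ 2 ^ (c * m.choose (k + 2) + (c * (k + 2) + K * (k + 4)) * M) := by
    refine (hK m).trans ?_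
    rw [cP, cP, Finset.sum_range_succ, ← pow_succ', ← pow_add, ← pow_mul, ← pow_mul, ← pow_add]
    apply Nat.pow_le_pow_right (by norm_num)
    set s := ∑ i ∈ Finset.range (k + 2), m.choose i
    have a1 := Nat.mul_le_mul_right c hs
    have a2 : (m + 1 + s) * K ≤ ((k + 4) * M) * K := Nat.mul_le_mul_right K (by nlinarith)
    nlinarith
  have low : 2 ^ (c * m.choose (k + 2)) ≤ 2 ^ ((c * c + c) * M) * X := by
    rcases le_or_gt c m with h | h
    · obtain ⟨n, rfl⟩ : ∃ n, m = n + c := ⟨m - c, by omega⟩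
      have a1 := log_low (e := k + 2 + 2) (by omega) n c h2
      rw [cP_add, mul_comm] at a1
      have a2 := Nat.le_of_mul_le_mul_right a1 (cP_pos _ _)
      have a3 : (2 ^ n.choose (k + 2)) ^ c ≤ ∏ i ∈ Finset.range c, cP (n + i) (k + 2 + 1) := by
        have := Finset.pow_card_le_prod (Finset.range c) (fun i => cP (n + i) (k + 2 + 1))
          (2 ^ n.choose (k + 2)) fun i _ => by
            rw [cP, Finset.sum_range_succ]
            exact Nat.pow_le_pow_right (by norm_num)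
              ((Nat.choose_le_choose _ (by omega)).trans (Nat.le_add_left _ _))
        rwa [Finset.card_range] at this
      have a4 : (n + c).choose (k + 2) ≤ n.choose (k + 2) + c * M :=
        (LogMain_choose_add n c (k + 1)).trans
          (Nat.add_le_add_left (Nat.mul_le_mul_left c (Nat.choose_le_pow _ _)) _)
      calc 2 ^ (c * (n + c).choose (k + 2)) ≤ 2 ^ (c * c * M + n.choose (k + 2) * c) :=
            Nat.pow_le_pow_right (by norm_num) (by nlinarith [Nat.mul_le_mul_left c a4])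
        _ = 2 ^ (c * c * M) * (2 ^ n.choose (k + 2)) ^ c := by rw [pow_add, pow_mul 2 (n.choose _)]
        _ ≤ 2 ^ (c * c * M) * (2 ^ c * X) := Nat.mul_le_mul_left _ (a3.trans a2)
        _ = 2 ^ (c * c * M + c) * X := by rw [pow_add, mul_assoc (2 ^ (c * c * M))]
        _ ≤ _ := Nat.mul_le_mul_right _ (Nat.pow_le_pow_right (by norm_num)
            (by nlinarith [Nat.mul_le_mul_left c hM1]))
    · have a1 : m.choose (k + 2) ≤ c * M := by
        refine (Nat.choose_le_pow _ _).trans ?_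
        rw [pow_succ', hM]
        exact Nat.mul_le_mul_right _ h.le
      calc 2 ^ (c * m.choose (k + 2)) ≤ 2 ^ ((c * c + c) * M) :=
            Nat.pow_le_pow_right (by norm_num) (by nlinarith [Nat.mul_le_mul_left c a1])
        _ ≤ _ := Nat.le_mul_of_pos_right _ hX1
  have hX0 : (0 : ℝ) < X := by exact_mod_cast hX1
  have up' : Real.logb 2 X ≤ ((c * m.choose (k + 2) + (c * (k + 2) + K * (k + 4)) * M : ℕ) : ℝ) := by
    rw [Real.logb_le_iff_le_rpow (by norm_num) hX0, Real.rpow_natCast]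
    exact_mod_cast up
  have low' : ((c * m.choose (k + 2) : ℕ) : ℝ) ≤ (((c * c + c) * M : ℕ) : ℝ) + Real.logb 2 X := by
    have a1 : ((2 : ℝ) ^ (c * m.choose (k + 2))) ≤ 2 ^ ((c * c + c) * M) * X := by exact_mod_cast low
    have a2 := Real.logb_le_logb_of_le (b := 2) (by norm_num) (by positivity) a1
    rwa [Real.logb_mul (by positivity) hX0.ne', Real.logb_pow, Real.logb_pow,
      Real.logb_self_eq_one (by norm_num), mul_one, mul_one] at a2
  have hMr : (M : ℝ) = (m : ℝ) ^ (k + 1) := by rw [hM]; push_cast; rfl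
  rw [← hMr]
  push_cast at up' low' ⊢
  have b1 : (0 : ℝ) ≤ ((c : ℝ) * c + c) * M := by positivity
  have b2 : (0 : ℝ) ≤ ((c : ℝ) * (k + 2) + K * (k + 4)) * M := by positivity
  rw [abs_le]
  constructor <;> linarith

end Pool.Agent.P.MP_cb6780_lc
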